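import Mathlib

set_option autoImplicit false

open Polynomial IntermediateField

namespace Pool.Agent.R316.DS

/-- The perturbed and rescaled polynomial is Eisenstein at `X`. -/
theorem eis_irr {k : Type*} [Field k] (G : k[X][X]) (hG : G.Monic) (hd : 2 ≤ G.natDegree) (l : ℕ)
    (hl : 1 ≤ l) :
    (scaleRoots G (X ^ l) - C X).Monic ∧
      (scaleRoots G (X ^ l) - C X).natDegree = G.natDegree ∧
      Irreducible (scaleRoots G (X ^ l) - C X) := by
  have h1 : (scaleRoots G (X ^ l)).Monic := (monic_scaleRoots_iff _).2 hG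
  have h2 : (scaleRoots G (X ^ l : k[X])).natDegree = G.natDegree := natDegree_scaleRoots _ _
  have h3 : (C X : k[X][X]).degree < (scaleRoots G (X ^ l : k[X])).degree := by
    refine lt_of_le_of_lt degree_C_le ?_
    rw [degree_eq_natDegree h1.ne_zero, h2]
    exact_mod_cast (by omega : 0 < G.natDegree)
  have h4 : (scaleRoots G (X ^ l) - C X).Monic := h1.sub_of_left h3
  have h5 : (scaleRoots G (X ^ l) - C X).natDegree = G.natDegree := by
    rw [natDegree_sub_eq_left_of_natDegree_lt, h2]
    rw [natDegree_C, h2]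
    omega
  refine ⟨h4, h5, ?_⟩
  have hX : (Ideal.span {(X : k[X])}).IsPrime := by
    rw [Ideal.span_singleton_prime X_ne_zero]
    exact prime_X
  refine IsEisensteinAt.irreducible (𝓟 := Ideal.span {(X : k[X])}) ?_ hX h4.isPrimitive (by omega)
  constructor
  · rw [h4.leadingCoeff]
    intro h
    exact hX.ne_top ((Ideal.eq_top_iff_one _).2 h)
  · intro n hn
    rw [h5] at hn
    rw [coeff_sub, coeff_scaleRoots, Ideal.mem_span_singleton]
    refine dvd_sub (Dvd.dvd.mul_left ?_ _) ?_
    · rw [← pow_mul]
      exact dvd_pow_self _ (by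
        have : 0 < G.natDegree - n := by omega
        positivity)
    · rw [coeff_C]
      split_ifs
      · exact dvd_rfl
      · exact dvd_zero _
  · rw [coeff_sub, coeff_scaleRoots, coeff_C_zero, Ideal.span_singleton_pow,
      Ideal.mem_span_singleton, Nat.sub_zero, ← pow_mul]
    intro h
    have h6 : (X : k[X]) ^ 2 ∣ G.coeff 0 * X ^ (l * G.natDegree) :=
      Dvd.dvd.mul_left (pow_dvd_pow _ (by nlinarith)) _
    have h7 : (X : k[X]) ^ 2 ∣ X := by
      have := dvd_sub h6 h
      rwa [sub_sub_cancel] at this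
    have h8 := natDegree_le_of_dvd h7 X_ne_zero
    rw [natDegree_X_pow, natDegree_X] at h8
    omega

/-- The degree over `k(t)` of a root of an irreducible monic polynomial over `k[t]`. -/
theorem natDegree_minpoly {k K : Type*} [Field k] [Field K] [Algebra k K] (t : K)
    (ht : Transcendental k t) (T : k[X][X]) (hm : T.Monic) (hirr : Irreducible T) (y : K)
    (hy : eval₂ (aeval t : k[X] →ₐ[k] K).toRingHom y T = 0) :
    (minpoly k⟮t⟯ y).natDegree = T.natDegree := by
  have ht' : Transcendental k (AdjoinSimple.gen k t) := by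
    intro h
    apply ht
    have := h.algebraMap (A := K)
    rwa [AdjoinSimple.algebraMap_gen] at this
  let _ : Algebra k[X] k⟮t⟯ := (aeval (AdjoinSimple.gen k t) : k[X] →ₐ[k] k⟮t⟯).toRingHom.toAlgebra
  have hmap : ∀ r : k[X], algebraMap k[X] k⟮t⟯ r = aeval (AdjoinSimple.gen k t) r := fun r => rfl
  have hinj : Function.Injective (algebraMap k[X] k⟮t⟯) := by
    intro a b hab
    rw [hmap, hmap] at hab
    exact transcendental_iff_injective.1 ht' hab
  have : FaithfulSMul k[X] k⟮t⟯ := (faithfulSMul_iff_algebraMap_injective _ _).2 hinj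
  have : IsFractionRing k[X] k⟮t⟯ := by
    refine IsFractionRing.of_field k[X] k⟮t⟯ fun z => ?_
    obtain ⟨r, s, h⟩ := (mem_adjoin_simple_iff k (z : K)).1 z.2
    refine ⟨r, s, ?_⟩
    apply Subtype.ext
    rw [h, hmap, hmap]
    have e : ∀ r : k[X], ((aeval (AdjoinSimple.gen k t) r : k⟮t⟯) : K) = aeval t r := by
      intro r
      have := (aeval_algebraMap_apply K (AdjoinSimple.gen k t) r)
      rw [AdjoinSimple.algebraMap_gen] at this
      exact this.symm
    rw [← e, ← e]
    rfl
  have h1 : Irreducible (T.map (algebraMap k[X] k⟮t⟯)) :=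
    (hm.irreducible_iff_irreducible_map_fraction_map).1 hirr
  have h2 : aeval y (T.map (algebraMap k[X] k⟮t⟯)) = 0 := by
    rw [aeval_def, eval₂_map, ← hy]
    congr 1
    refine Polynomial.ringHom_ext ?_ ?_
    · intro a
      simp [hmap]
    · simp [hmap]
  rw [← minpoly.eq_of_irreducible_of_monic h1 h2 (hm.map _), hm.natDegree_map]

end Pool.Agent.R316.DS
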