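import Pool.Agent.R316.DSa

set_option autoImplicit false

open Polynomial IntermediateField

namespace Pool.Agent.R316.DS

variable {K : Type*} [Field K] [CharZero K]

/-- `ℚ` is relatively algebraically closed in the subset `S` of `K`. -/
def Reg (S : Set K) : Prop := ∀ x ∈ S, IsAlgebraic ℚ x → ∃ r : ℚ, x = (r : K)

/-- A finite extension `F = ℚ(t)(w)`; elements of `F(α)` have degree at most `[F : ℚ(t)]` over
`ℚ(α)(t)`. -/
theorem degree_le (t : K) (F : IntermediateField ℚ⟮t⟯ K) [FiniteDimensional ℚ⟮t⟯ F] (α y : K)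
    (hy : y ∈ F ⊔ ℚ⟮t⟯⟮α⟯) :
    (minpoly (ℚ⟮α⟯⟮t⟯) y).natDegree ≤ Module.finrank ℚ⟮t⟯ F := by
  obtain ⟨w, hw⟩ := Field.exists_primitive_element ℚ⟮t⟯ F
  have hF : F = ℚ⟮t⟯⟮(w : K)⟯ := by
    have h1 : IntermediateField.map F.val ℚ⟮t⟯⟮w⟯ = ℚ⟮t⟯⟮(w : K)⟯ := by
      rw [IntermediateField.adjoin_map, Set.image_singleton]
      rfl
    rw [hw, ← AlgHom.fieldRange_eq_map, IntermediateField.fieldRange_val] at h1
    exact h1
  have hwint : IsIntegral ℚ⟮t⟯ (w : K) := (Algebra.IsIntegral.isIntegral (R := ℚ⟮t⟯) w).map F.val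
  have hn : (minpoly ℚ⟮t⟯ (w : K)).natDegree = Module.finrank ℚ⟮t⟯ F := by
    rw [← IntermediateField.adjoin.finrank hwint, ← hF]
  -- the field `M = ℚ(α)(t)`
  set M := ℚ⟮α⟯⟮t⟯ with hM
  have hαM : α ∈ M := by
    have := M.algebraMap_mem (AdjoinSimple.gen ℚ α)
    rwa [AdjoinSimple.algebraMap_gen] at this
  have htM : t ∈ M := mem_adjoin_simple_self _ _
  have hLM : ∀ x : K, x ∈ ℚ⟮t⟯ → x ∈ M := by
    intro x hx
    have : ℚ⟮t⟯ ≤ M.toSubfield.toIntermediateField (K := ℚ) (fun q => by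
        rw [eq_ratCast]
        exact SubfieldClass.ratCast_mem M.toSubfield q) := by
      rw [adjoin_simple_le_iff]
      exact htM
    exact this hx
  let j : ℚ⟮t⟯ →+* M :=
    { toFun := fun x => ⟨x.1, hLM x.1 x.2⟩
      map_one' := rfl
      map_mul' := fun _ _ => rfl
      map_zero' := rfl
      map_add' := fun _ _ => rfl }
  have hroot : aeval (w : K) ((minpoly ℚ⟮t⟯ (w : K)).map j) = 0 := by
    rw [aeval_def, eval₂_map]
    have e : (algebraMap M K).comp j = algebraMap ℚ⟮t⟯ K := by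
      ext x
      rfl
    rw [e, ← aeval_def, minpoly.aeval]
  have hmon := (minpoly.monic hwint)
  have hwM : IsIntegral M (w : K) := ⟨_, hmon.map j, hroot⟩
  have h2 : (minpoly M (w : K)).natDegree ≤ Module.finrank ℚ⟮t⟯ F := by
    rw [← hn, ← hmon.natDegree_map j]
    exact natDegree_le_natDegree (minpoly.min M (w : K) (hmon.map j) hroot)
  have hfin : FiniteDimensional M M⟮(w : K)⟯ := adjoin.finiteDimensional hwM
  have hyN : y ∈ M⟮(w : K)⟯ := by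
    have : F ⊔ ℚ⟮t⟯⟮α⟯ ≤ (M⟮(w : K)⟯).toSubfield.toIntermediateField (K := ℚ⟮t⟯) (fun x => by
        have := (M⟮(w : K)⟯).algebraMap_mem (j x)
        exact this) := by
      refine sup_le ?_ ?_
      · refine hF.le.trans ?_
        rw [adjoin_simple_le_iff]
        exact mem_adjoin_simple_self M (w : K)
      · rw [adjoin_simple_le_iff]
        exact (M⟮(w : K)⟯).algebraMap_mem ⟨α, hαM⟩
    exact this hy
  have h3 := minpoly.natDegree_le (A := M) (⟨y, hyN⟩ : M⟮(w : K)⟯)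
  rw [minpoly_eq, adjoin.finrank hwM] at h3
  exact h3.trans h2

/-- The core step: adjoining a root of an Eisenstein polynomial of prime degree larger than
`[F : ℚ(t)]` does not create new algebraic numbers. -/
theorem core (t : K) (ht : Transcendental ℚ t) (F : IntermediateField ℚ⟮t⟯ K)
    [FiniteDimensional ℚ⟮t⟯ F] (hF : Reg (F : Set K)) (G : ℚ[X][X]) (hG : G.Monic) (l : ℕ)
    (hl : 1 ≤ l) (hp : G.natDegree.Prime) (hlt : Module.finrank ℚ⟮t⟯ F < G.natDegree) (y : K)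
    (hy : eval₂ (aeval t : ℚ[X] →ₐ[ℚ] K).toRingHom y (scaleRoots G (X ^ l) - C X) = 0) :
    FiniteDimensional ℚ⟮t⟯ (F ⊔ ℚ⟮t⟯⟮y⟯ : IntermediateField ℚ⟮t⟯ K) ∧
      Reg ((F ⊔ ℚ⟮t⟯⟮y⟯ : IntermediateField ℚ⟮t⟯ K) : Set K) := by
  set p := G.natDegree with hpdef
  obtain ⟨hm, hdeg, hirr⟩ := eis_irr G hG hp.two_le l hl
  have hy0 : (minpoly ℚ⟮t⟯ y).natDegree = p := by
    rw [natDegree_minpoly t ht _ hm hirr y hy, hdeg]
  have hyint : IsIntegral ℚ⟮t⟯ y := by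
    by_contra h
    rw [minpoly.eq_zero h, natDegree_zero] at hy0
    exact hp.ne_zero hy0.symm
  have hfy : FiniteDimensional ℚ⟮t⟯ ℚ⟮t⟯⟮y⟯ := adjoin.finiteDimensional hyint
  have hfd : FiniteDimensional ℚ⟮t⟯ (F ⊔ ℚ⟮t⟯⟮y⟯ : IntermediateField ℚ⟮t⟯ K) :=
    finiteDimensional_sup _ _
  refine ⟨hfd, fun α hα halg => ?_⟩
  have hry : Module.finrank ℚ⟮t⟯ ℚ⟮t⟯⟮y⟯ = p := by rw [adjoin.finrank hyint, hy0]
  set n := Module.finrank ℚ⟮t⟯ F with hn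
  have hn0 : 0 < n := Module.finrank_pos
  have hcop : Nat.Coprime n p := by
    rw [Nat.coprime_comm, hp.coprime_iff_not_dvd]
    intro h
    exact absurd (Nat.le_of_dvd hn0 h) (by omega)
  have htot : Module.finrank ℚ⟮t⟯ (F ⊔ ℚ⟮t⟯⟮y⟯ : IntermediateField ℚ⟮t⟯ K) = n * p := by
    refine le_antisymm ?_ ?_
    · have := finrank_sup_le F ℚ⟮t⟯⟮y⟯
      rwa [hry] at this
    · refine Nat.le_of_dvd Module.finrank_pos (hcop.mul_dvd_of_dvd_of_dvd ?_ ?_)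
      · exact finrank_dvd_of_le_right le_sup_left
      · have := finrank_dvd_of_le_right (le_sup_right : ℚ⟮t⟯⟮y⟯ ≤ F ⊔ ℚ⟮t⟯⟮y⟯)
        rwa [hry] at this
  have hle1 : F ⊔ ℚ⟮t⟯⟮α⟯ ≤ F ⊔ ℚ⟮t⟯⟮y⟯ := sup_le le_sup_left (by
    rw [adjoin_simple_le_iff]
    exact hα)
  have hαint : IsIntegral ℚ⟮t⟯ α := by
    have h1 : IsIntegral ℚ α := halg.isIntegral
    exact h1.tower_top
  have hfα : FiniteDimensional ℚ⟮t⟯ ℚ⟮t⟯⟮α⟯ := adjoin.finiteDimensional hαint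
  have hfd1 : FiniteDimensional ℚ⟮t⟯ (F ⊔ ℚ⟮t⟯⟮α⟯ : IntermediateField ℚ⟮t⟯ K) :=
    finiteDimensional_sup _ _
  obtain ⟨m', hm'⟩ : n ∣ Module.finrank ℚ⟮t⟯ (F ⊔ ℚ⟮t⟯⟮α⟯ : IntermediateField ℚ⟮t⟯ K) :=
    finrank_dvd_of_le_right le_sup_left
  have hd2 : Module.finrank ℚ⟮t⟯ (F ⊔ ℚ⟮t⟯⟮α⟯ : IntermediateField ℚ⟮t⟯ K) ∣ n * p := by
    rw [← htot]
    exact finrank_dvd_of_le_right hle1
  rw [hm'] at hd2
  have hd3 : m' ∣ p := Nat.dvd_of_mul_dvd_mul_left hn0 hd2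
  rcases (Nat.dvd_prime hp).1 hd3 with h | h
  · -- `α ∈ F`
    rw [h, mul_one] at hm'
    have h4 : F = F ⊔ ℚ⟮t⟯⟮α⟯ := eq_of_le_of_finrank_eq le_sup_left hm'.symm
    have h5 : α ∈ F := by
      rw [h4]
      exact (le_sup_right : ℚ⟮t⟯⟮α⟯ ≤ F ⊔ ℚ⟮t⟯⟮α⟯) (mem_adjoin_simple_self _ _)
    exact hF α h5 halg
  · -- `y ∈ F(α)`: contradiction
    exfalso
    rw [h, ← htot] at hm'
    have h4 : F ⊔ ℚ⟮t⟯⟮α⟯ = F ⊔ ℚ⟮t⟯⟮y⟯ := eq_of_le_of_finrank_eq hle1 hm'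
    have h5 : y ∈ F ⊔ ℚ⟮t⟯⟮α⟯ := by
      rw [h4]
      exact (le_sup_right : ℚ⟮t⟯⟮y⟯ ≤ F ⊔ ℚ⟮t⟯⟮y⟯) (mem_adjoin_simple_self _ _)
    have h6 := degree_le t F α y h5
    have hαQ : IsIntegral ℚ α := halg.isIntegral
    have : Algebra.IsAlgebraic ℚ ℚ⟮α⟯ := by
      have : FiniteDimensional ℚ ℚ⟮α⟯ := adjoin.finiteDimensional hαQ
      infer_instance
    have ht2 : Transcendental ℚ⟮α⟯ t := fun h => ht (h.restrictScalars ℚ)
    set f : ℚ[X] →+* (ℚ⟮α⟯)[X] := mapRingHom (algebraMap ℚ ℚ⟮α⟯) with hf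
    have hGm : (G.map f).Monic := hG.map f
    have hGd : (G.map f).natDegree = p := hG.natDegree_map f
    obtain ⟨hm2, hdeg2, hirr2⟩ := eis_irr (G.map f) hGm (by rw [hGd]; exact hp.two_le) l hl
    have h7 : scaleRoots (G.map f) (X ^ l) - C X = (scaleRoots G (X ^ l) - C X).map f := by
      rw [Polynomial.map_sub, map_C, map_scaleRoots]
      · simp [hf]
      · rw [hG.leadingCoeff, map_one]
        exact one_ne_zero
    have h8 : eval₂ (aeval t : (ℚ⟮α⟯)[X] →ₐ[ℚ⟮α⟯] K).toRingHom y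
        (scaleRoots (G.map f) (X ^ l) - C X) = 0 := by
      rw [h7, eval₂_map, ← hy]
      congr 1
      refine Polynomial.ringHom_ext ?_ ?_
      · intro a
        simp [hf]
      · simp [hf]
    rw [natDegree_minpoly t ht2 _ hm2 hirr2 y h8, hdeg2, hGd] at h6
    omega

end Pool.Agent.R316.DS
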