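import Pool.Agent.R316.DSb

set_option autoImplicit false

open Polynomial IntermediateField

namespace Pool.Agent.R316.DS

section Ordered

variable {K : Type*} [Field K] [LinearOrder K] [IsStrictOrderedRing K]

theorem rat_lt {t : K} (ht : ∀ n : ℕ, (n : K) < t) (q : ℚ) : (q : K) < t := by
  obtain ⟨n, hn⟩ := exists_nat_gt q
  exact lt_trans (by exact_mod_cast hn) (ht n)

theorem one_lt {t : K} (ht : ∀ n : ℕ, (n : K) < t) : 1 < t := by simpa using ht 1

theorem poly_le {t : K} (ht : ∀ n : ℕ, (n : K) < t) (q : ℚ[X]) : ∃ N : ℕ, |aeval t q| ≤ t ^ N := by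
  have h1 := one_lt ht
  induction q using Polynomial.induction_on' with
  | add p q hp hq =>
    obtain ⟨N, hN⟩ := hp
    obtain ⟨M, hM⟩ := hq
    refine ⟨N + M + 1, ?_⟩
    have h2 : t ^ N ≤ t ^ (N + M) := pow_le_pow_right₀ h1.le (by omega)
    have h3 : t ^ M ≤ t ^ (N + M) := pow_le_pow_right₀ h1.le (by omega)
    have h4 : (2 : K) ≤ t := by exact_mod_cast (ht 2).le
    rw [map_add, pow_succ]
    calc |aeval t p + aeval t q| ≤ |aeval t p| + |aeval t q| := abs_add_le _ _
      _ ≤ t ^ (N + M) + t ^ (N + M) := by linarith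
      _ = t ^ (N + M) * 2 := by ring
      _ ≤ t ^ (N + M) * t := mul_le_mul_of_nonneg_left h4 (by positivity)
  | monomial n a =>
    refine ⟨n + 1, ?_⟩
    rw [aeval_monomial, abs_mul, abs_pow, abs_of_pos (zero_lt_one.trans h1), eq_ratCast, pow_succ,
      mul_comm]
    refine mul_le_mul_of_nonneg_left ?_ (by have := zero_lt_one.trans h1; positivity)
    rw [← Rat.cast_abs]
    exact (rat_lt ht _).le

theorem poly_ge {t : K} (ht : ∀ n : ℕ, (n : K) < t) : ∀ (n : ℕ) (q : ℚ[X]), q.natDegree ≤ n →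
    q ≠ 0 → ∃ c : ℚ, 0 < c ∧ (c : K) ≤ |aeval t q| := by
  have h1 := one_lt ht
  have h0 : 0 < t := zero_lt_one.trans h1
  intro n
  induction n with
  | zero =>
    intro q hq hq0
    obtain ⟨c, rfl⟩ := natDegree_eq_zero.1 (Nat.le_zero.1 hq)
    have hc : c ≠ 0 := fun h => hq0 (by rw [h, map_zero])
    refine ⟨|c|, abs_pos.2 hc, ?_⟩
    rw [aeval_C, eq_ratCast, Rat.cast_abs]
  | succ n ih =>
    intro q hq hq0
    by_cases hd : q.divX = 0
    · rw [divX_eq_zero_iff] at hd
      refine ih q ?_ hq0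
      rw [hd, natDegree_C]
      omega
    · obtain ⟨c, hc, hc1⟩ := ih q.divX (by rw [natDegree_divX_eq_natDegree_tsub_one]; omega) hd
      refine ⟨1, one_pos, ?_⟩
      have e : aeval t q = aeval t q.divX * t + ((q.coeff 0 : ℚ) : K) := by
        conv_lhs => rw [← divX_mul_X_add q]
        simp
      rw [e]
      have h2 : (((1 + |q.coeff 0|) / c : ℚ) : K) < t := rat_lt ht _
      have hcK : (0 : K) < c := by exact_mod_cast hc
      have h3 : 1 + |((q.coeff 0 : ℚ) : K)| < (c : K) * t := by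
        rw [Rat.cast_div, div_lt_iff₀ hcK] at h2
        push_cast at h2
        linarith
      have h4 : (c : K) * t ≤ |aeval t q.divX * t| := by
        rw [abs_mul, abs_of_pos h0]
        exact mul_le_mul_of_nonneg_right hc1 h0.le
      have h5 : |aeval t q.divX * t| - |((q.coeff 0 : ℚ) : K)| ≤
          |aeval t q.divX * t + ((q.coeff 0 : ℚ) : K)| := by
        have := abs_sub_abs_le_abs_sub (aeval t q.divX * t) (-((q.coeff 0 : ℚ) : K))
        rwa [abs_neg, sub_neg_eq_add] at this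
      push_cast
      linarith

theorem transcendental_t {t : K} (ht : ∀ n : ℕ, (n : K) < t) : Transcendental ℚ t := by
  rw [transcendental_iff]
  intro p hp
  by_contra h
  obtain ⟨c, hc, hc1⟩ := poly_ge ht _ p le_rfl h
  rw [hp, abs_zero] at hc1
  have : (0 : K) < c := by exact_mod_cast hc
  linarith

end Ordered

/-- Every element of `K` becomes integral over `ℚ[t]` after multiplication with some `D(t)`, with a
monic polynomial of which it is a simple root. -/
theorem exists_integral {K : Type*} [Field K] [CharZero K] (t : K) (ht : Transcendental ℚ t) (a : K)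
    (ha : IsAlgebraic ℚ⟮t⟯ a) : ∃ (D : ℚ[X]) (P : ℚ[X][X]), D ≠ 0 ∧ P.Monic ∧
      eval₂ (aeval t : ℚ[X] →ₐ[ℚ] K).toRingHom (aeval t D * a) P = 0 ∧
      eval₂ (aeval t : ℚ[X] →ₐ[ℚ] K).toRingHom (aeval t D * a) (derivative P) ≠ 0 := by
  let _ : Algebra ℚ[X] K := (aeval t : ℚ[X] →ₐ[ℚ] K).toRingHom.toAlgebra
  have hmapK : ∀ r : ℚ[X], algebraMap ℚ[X] K r = aeval t r := fun r => rfl
  have hinjK : Function.Injective (algebraMap ℚ[X] K) := transcendental_iff_injective.1 ht
  have : FaithfulSMul ℚ[X] K := (faithfulSMul_iff_algebraMap_injective _ _).2 hinjK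
  have hta : IsAlgebraic ℚ[X] a := by
    let _ : Algebra ℚ[X] ℚ⟮t⟯ := (aeval (AdjoinSimple.gen ℚ t) : ℚ[X] →ₐ[ℚ] ℚ⟮t⟯).toRingHom.toAlgebra
    have hmap : ∀ r : ℚ[X], algebraMap ℚ[X] ℚ⟮t⟯ r = aeval (AdjoinSimple.gen ℚ t) r := fun r => rfl
    have e : ∀ r : ℚ[X], ((aeval (AdjoinSimple.gen ℚ t) r : ℚ⟮t⟯) : K) = aeval t r := by
      intro r
      have := (aeval_algebraMap_apply K (AdjoinSimple.gen ℚ t) r)
      rw [AdjoinSimple.algebraMap_gen] at this
      exact this.symm
    have hinj : Function.Injective (algebraMap ℚ[X] ℚ⟮t⟯) := by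
      intro x y hxy
      apply hinjK
      rw [hmapK, hmapK, ← e, ← e]
      rw [hmap, hmap] at hxy
      rw [hxy]
    have : FaithfulSMul ℚ[X] ℚ⟮t⟯ := (faithfulSMul_iff_algebraMap_injective _ _).2 hinj
    have : IsScalarTower ℚ[X] ℚ⟮t⟯ K := IsScalarTower.of_algebraMap_eq (fun r => (e r).symm)
    have : IsFractionRing ℚ[X] ℚ⟮t⟯ := by
      refine IsFractionRing.of_field ℚ[X] ℚ⟮t⟯ fun z => ?_
      obtain ⟨r, s, h⟩ := (mem_adjoin_simple_iff ℚ (z : K)).1 z.2
      refine ⟨r, s, ?_⟩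
      apply Subtype.ext
      rw [h, hmap, hmap, ← e, ← e]
      rfl
    exact (IsFractionRing.isAlgebraic_iff ℚ[X] ℚ⟮t⟯ K).2 ha
  obtain ⟨D, hD, hint⟩ := hta.exists_integral_multiple
  have hD2 : D • a = aeval t D * a := by rw [Algebra.smul_def, hmapK]
  rw [hD2] at hint
  set z := aeval t D * a with hz
  refine ⟨D, minpoly ℚ[X] z, hD, minpoly.monic hint, ?_, ?_⟩
  · exact minpoly.aeval ℚ[X] z
  · intro h
    have hpos : 0 < (minpoly ℚ[X] z).natDegree := minpoly.natDegree_pos hint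
    have hne : derivative (minpoly ℚ[X] z) ≠ 0 := by
      intro h2
      have h3 := natDegree_eq_zero_of_derivative_eq_zero h2
      omega
    have h4 := minpoly.IsIntegrallyClosed.degree_le_of_ne_zero (R := ℚ[X]) (s := z) hne h
    have h5 := degree_derivative_lt (minpoly.monic hint).ne_zero
    exact absurd h4 (not_le.2 h5)

end Pool.Agent.R316.DS
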