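import Pool.Agent.R316.DSc

set_option autoImplicit false

open Polynomial IntermediateField

namespace Pool.Agent.R316.DS

section Ordered

variable {K : Type*} [Field K] [LinearOrder K] [IsStrictOrderedRing K]

/-- the intermediate value property for polynomials -/
def IVP (K : Type*) [Field K] [LinearOrder K] : Prop :=
  ∀ (f : K[X]) (a b : K), a < b → f.eval a * f.eval b < 0 → ∃ c, a < c ∧ c < b ∧ f.eval c = 0

theorem root_bound (f : K[X]) (hf : f.Monic) (z : K) (hz : f.eval z = 0) :
    |z| ≤ 1 + ∑ i ∈ Finset.range f.natDegree, |f.coeff i| := by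
  have hS : 0 ≤ ∑ i ∈ Finset.range f.natDegree, |f.coeff i| :=
    Finset.sum_nonneg fun i _ => abs_nonneg _
  rcases le_or_gt |z| 1 with h | h
  · linarith
  · have h1 : z ^ f.natDegree = -∑ i ∈ Finset.range f.natDegree, f.coeff i * z ^ i := by
      have h2 := hz
      rw [eval_eq_sum_range, Finset.sum_range_succ, hf.coeff_natDegree, one_mul] at h2
      linear_combination h2
    have hd : f.natDegree ≠ 0 := by
      intro hd
      rw [hd] at h1
      simp at h1
    obtain ⟨d, hd'⟩ := Nat.exists_eq_succ_of_ne_zero hd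
    rw [hd'] at h1 ⊢
    have h3 : |z| ^ (d + 1) ≤ (∑ i ∈ Finset.range (d + 1), |f.coeff i|) * |z| ^ d := by
      rw [← abs_pow, h1, abs_neg, Finset.sum_mul]
      refine (Finset.abs_sum_le_sum_abs _ _).trans (Finset.sum_le_sum fun i hi => ?_)
      rw [abs_mul, abs_pow]
      refine mul_le_mul_of_nonneg_left ?_ (abs_nonneg _)
      exact pow_le_pow_right₀ h.le (by have := Finset.mem_range.1 hi; omega)
    rw [pow_succ'] at h3
    have h4 := le_of_mul_le_mul_right h3 (pow_pos (zero_lt_one.trans h) d)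
    linarith

theorem cofinal {t : K} (ht : ∀ n : ℕ, (n : K) < t) (halg : ∀ x : K, IsAlgebraic ℚ⟮t⟯ x) (x : K) :
    ∃ N : ℕ, |x| ≤ t ^ N := by
  have h1 := one_lt ht
  have h0 : 0 < t := zero_lt_one.trans h1
  obtain ⟨D, P, hD, hP, hz, -⟩ := exists_integral t (transcendental_t ht) x (halg x)
  set φ := (aeval t : ℚ[X] →ₐ[ℚ] K).toRingHom with hφ
  have h2 := root_bound (P.map φ) (hP.map φ) (aeval t D * x) (by rw [eval_map]; exact hz)
  have h3 : ∀ n : ℕ, ∃ N : ℕ, ∑ i ∈ Finset.range n, |(P.map φ).coeff i| ≤ t ^ N := by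
    intro n
    induction n with
    | zero => exact ⟨0, by simp⟩
    | succ n ih =>
      obtain ⟨N, hN⟩ := ih
      obtain ⟨M, hM⟩ := poly_le ht (P.coeff n)
      refine ⟨N + M + 1, ?_⟩
      rw [Finset.sum_range_succ, coeff_map]
      have h5 : t ^ N ≤ t ^ (N + M) := pow_le_pow_right₀ h1.le (by omega)
      have h6 : t ^ M ≤ t ^ (N + M) := pow_le_pow_right₀ h1.le (by omega)
      have h4 : (2 : K) ≤ t := by exact_mod_cast (ht 2).le
      have h7 : |φ (P.coeff n)| ≤ t ^ M := hM
      calc _ ≤ t ^ (N + M) + t ^ (N + M) := by linarith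
        _ = t ^ (N + M) * 2 := by ring
        _ ≤ t ^ (N + M) * t := mul_le_mul_of_nonneg_left h4 (by positivity)
        _ = t ^ (N + M + 1) := (pow_succ _ _).symm
  obtain ⟨N, hN⟩ := h3 (P.map φ).natDegree
  obtain ⟨c, hc, hc1⟩ := poly_ge ht _ D le_rfl hD
  have hcK : (0 : K) < c := by exact_mod_cast hc
  refine ⟨N + 2, ?_⟩
  rw [abs_mul] at h2
  have h8 : (c : K) * |x| ≤ 2 * t ^ N := by
    have h9 : (c : K) * |x| ≤ |aeval t D| * |x| := mul_le_mul_of_nonneg_right hc1 (abs_nonneg _)
    have h10 : 1 ≤ t ^ N := one_le_pow₀ h1.le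
    linarith
  have h11 : ((2 / c : ℚ) : K) < t := rat_lt ht _
  push_cast at h11
  have h12 : |x| ≤ 2 / (c : K) * t ^ N := by
    rw [div_mul_eq_mul_div, le_div_iff₀ hcK]
    linarith
  calc |x| ≤ 2 / (c : K) * t ^ N := h12
    _ ≤ t * t ^ N := mul_le_mul_of_nonneg_right h11.le (by positivity)
    _ = t ^ (N + 1) := (pow_succ' _ _).symm
    _ ≤ t ^ (N + 2) := pow_le_pow_right₀ h1.le (by omega)

/-- A simple root of a polynomial moves little if the constant term is changed a little. -/
theorem perturb (hK : IVP K) (f : K[X]) (a : K) (ha : f.eval a = 0)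
    (ha' : f.derivative.eval a ≠ 0) (ε : K) (hε : 0 < ε) :
    ∃ δ : K, 0 < δ ∧ ∀ s : K, |s| < δ → ∃ b : K, |b - a| < ε ∧ f.eval b = s := by
  obtain ⟨g, hg⟩ := dvd_iff_isRoot.2 (show IsRoot f a from ha)
  have hga : g.eval a ≠ 0 := by
    intro h
    apply ha'
    rw [hg, derivative_mul]
    simp [h]
  -- `g` keeps its sign near `a`
  obtain ⟨η, hη, hηε, hsign⟩ : ∃ η : K, 0 < η ∧ η < ε ∧ ∀ x, |x - a| ≤ η → 0 < g.eval x * g.eval a := by
    let _ : TopologicalSpace K := Preorder.topology K
    have : OrderTopology K := ⟨rfl⟩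
    have hc : Continuous fun x => g.eval x * g.eval a := (g.continuous).mul continuous_const
    have h1 : ∀ᶠ x in nhds a, 0 < g.eval x * g.eval a :=
      hc.continuousAt.eventually_const_lt (by
        have := mul_self_pos.2 hga
        exact this)
    obtain ⟨r, hr, hr1⟩ := (nhds_basis_abs_sub_lt a).eventually_iff.1 h1
    refine ⟨min (r / 2) (ε / 2), by positivity, (min_le_right _ _).trans_lt (half_lt_self hε), ?_⟩
    intro x hx
    refine hr1 (lt_of_le_of_lt hx ((min_le_left _ _).trans_lt (half_lt_self hr)))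
  have hp : 0 < f.eval (a + η) * g.eval a := by
    rw [hg, eval_mul, eval_sub, eval_X, eval_C, add_sub_cancel_left, mul_assoc]
    exact mul_pos hη (hsign _ (by rw [add_sub_cancel_left, abs_of_pos hη]))
  have hn : f.eval (a - η) * g.eval a < 0 := by
    rw [hg, eval_mul, eval_sub, eval_X, eval_C, mul_assoc]
    have h2 := hsign (a - η) (by rw [show a - η - a = -η by ring, abs_neg, abs_of_pos hη])
    have : a - η - a < 0 := by linarith
    exact mul_neg_of_neg_of_pos this h2
  have hfp : f.eval (a + η) ≠ 0 := fun h => by rw [h, zero_mul] at hp; exact lt_irrefl _ hp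
  have hfn : f.eval (a - η) ≠ 0 := fun h => by rw [h, zero_mul] at hn; exact lt_irrefl _ hn
  refine ⟨min |f.eval (a + η)| |f.eval (a - η)|, lt_min (abs_pos.2 hfp) (abs_pos.2 hfn), ?_⟩
  intro s hs
  have hs1 := lt_of_lt_of_le hs (min_le_left _ _)
  have hs2 := lt_of_lt_of_le hs (min_le_right _ _)
  obtain ⟨b, hb1, hb2, hb3⟩ := hK (f - C s) (a - η) (a + η) (by linarith) (by
    simp only [eval_sub, eval_C]
    rw [abs_lt] at hs1 hs2
    rcases lt_or_gt_of_ne hga with h | h
    · have h3 : f.eval (a + η) < 0 := by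
        by_contra hcon
        push Not at hcon
        exact absurd hp (not_lt.2 (mul_nonpos_of_nonneg_of_nonpos hcon h.le))
      have h4 : 0 < f.eval (a - η) := by
        by_contra hcon
        push Not at hcon
        exact absurd hn (not_lt.2 (mul_nonneg_of_nonpos_of_nonpos hcon h.le))
      rw [abs_of_neg h3] at hs1
      rw [abs_of_pos h4] at hs2
      exact mul_neg_of_pos_of_neg (by linarith [hs2.2]) (by linarith [hs1.1])
    · have h3 : 0 < f.eval (a + η) := by
        by_contra hcon
        push Not at hcon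
        exact absurd hp (not_lt.2 (mul_nonpos_of_nonpos_of_nonneg hcon h.le))
      have h4 : f.eval (a - η) < 0 := by
        by_contra hcon
        push Not at hcon
        exact absurd hn (not_lt.2 (mul_nonneg hcon h.le))
      rw [abs_of_pos h3] at hs1
      rw [abs_of_neg h4] at hs2
      exact mul_neg_of_neg_of_pos (by linarith [hs2.1]) (by linarith [hs1.2]))
  refine ⟨b, ?_, ?_⟩
  · rw [abs_lt]
    constructor <;> linarith
  · rw [eval_sub, eval_C] at hb3
    linarith

end Ordered

end Pool.Agent.R316.DS
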