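import Pool.Agent.R316.DSd

set_option autoImplicit false

open Polynomial IntermediateField

namespace Pool.Agent.R316.DS

section Ordered

variable {K : Type*} [Field K] [LinearOrder K] [IsStrictOrderedRing K]

/-- One step of the construction. -/
theorem step (hK : IVP K) {t : K} (ht : ∀ n : ℕ, (n : K) < t)
    (halg : ∀ x : K, IsAlgebraic ℚ⟮t⟯ x) (F : IntermediateField ℚ⟮t⟯ K)
    (hfd : FiniteDimensional ℚ⟮t⟯ F) (hF : Reg (F : Set K)) (a ε : K) :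
    ∃ F' : IntermediateField ℚ⟮t⟯ K, (FiniteDimensional ℚ⟮t⟯ F' ∧ Reg (F' : Set K)) ∧ F ≤ F' ∧
      (0 < ε → ∃ b ∈ F', |b - a| < ε) := by
  by_cases hε : 0 < ε
  swap
  · exact ⟨F, ⟨hfd, hF⟩, le_rfl, fun h => absurd h hε⟩
  have htr := transcendental_t ht
  obtain ⟨D, P, hD, hP, hz, hz'⟩ := exists_integral t htr a (halg a)
  set φ := (aeval t : ℚ[X] →ₐ[ℚ] K).toRingHom with hφ
  have hφX : φ X = t := aeval_X t
  have hDt : aeval t D ≠ 0 := fun h => hD ((transcendental_iff.1 htr) D h)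
  by_cases hz0 : aeval t D * a = 0
  · have ha : a = 0 := by
      rcases mul_eq_zero.1 hz0 with h | h
      · exact absurd h hDt
      · exact h
    exact ⟨F, ⟨hfd, hF⟩, le_rfl, fun _ => ⟨0, F.zero_mem, by rw [ha, sub_zero, abs_zero]; exact hε⟩⟩
  set z := aeval t D * a with hzdef
  obtain ⟨p, hpge, hp⟩ := Nat.exists_infinite_primes (Module.finrank ℚ⟮t⟯ F + P.natDegree + 1)
  set G : ℚ[X][X] := P * X ^ (p - P.natDegree) with hG
  have hGm : G.Monic := hP.mul (monic_X_pow _)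
  have hGd : G.natDegree = p := by
    rw [hG, hP.natDegree_mul (monic_X_pow _), natDegree_X_pow]
    omega
  have hfz : (G.map φ).eval z = 0 := by
    rw [hG, Polynomial.map_mul, eval_mul, eval_map, hz, zero_mul]
  have hfz' : (derivative (G.map φ)).eval z ≠ 0 := by
    rw [hG, Polynomial.map_mul, derivative_mul, eval_add, eval_mul, eval_mul, eval_map φ z (p := P),
      hz, zero_mul, add_zero, derivative_map, eval_map]
    refine mul_ne_zero hz' ?_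
    rw [Polynomial.map_pow, map_X, eval_pow, eval_X]
    exact pow_ne_zero _ hz0
  obtain ⟨δ, hδ, hb⟩ := perturb hK (G.map φ) z hfz hfz' (ε * |aeval t D|)
    (mul_pos hε (abs_pos.2 hDt))
  obtain ⟨N, hN⟩ := cofinal ht halg δ⁻¹
  have h1 := one_lt ht
  have h0 : 0 < t := zero_lt_one.trans h1
  have hp2 := hp.two_le
  set l := N + 2 with hl
  have hs : |t / (t ^ l) ^ p| < δ := by
    have e : t / (t ^ l) ^ p = (t ^ (l * p - 1))⁻¹ := by
      rw [← pow_mul, ← Nat.sub_add_cancel (show 1 ≤ l * p by nlinarith), pow_succ, Nat.add_sub_cancel]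
      field_simp
    rw [e, abs_of_pos (by positivity), inv_lt_comm₀ (by positivity) hδ]
    rw [abs_of_pos (by positivity)] at hN
    refine lt_of_le_of_lt hN (pow_lt_pow_right₀ h1 ?_)
    have : l * 2 ≤ l * p := Nat.mul_le_mul_left _ hp2
    omega
  obtain ⟨b, hb1, hb2⟩ := hb _ hs
  set y := t ^ l * b with hy
  have htl : (t ^ l : K) ≠ 0 := pow_ne_zero _ h0.ne'
  have hroot : eval₂ φ y (scaleRoots G (X ^ l) - C X) = 0 := by
    have e1 : y = φ (X ^ l) * b := by rw [hy, map_pow, hφX]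
    rw [eval₂_sub, eval₂_C, e1, scaleRoots_eval₂_mul, hGd, ← eval_map, hb2, hφX, map_pow, hφX]
    rw [mul_div_cancel₀ _ (pow_ne_zero _ htl), sub_self]
  obtain ⟨h2, h3⟩ := core t htr F hF G hGm l (by omega) (by rw [hGd]; exact hp) (by omega) y hroot
  refine ⟨F ⊔ ℚ⟮t⟯⟮y⟯, ⟨h2, h3⟩, le_sup_left, fun _ => ⟨y / (t ^ l * aeval t D), ?_, ?_⟩⟩
  · have htF : t ∈ F ⊔ ℚ⟮t⟯⟮y⟯ := (F ⊔ ℚ⟮t⟯⟮y⟯).algebraMap_mem (AdjoinSimple.gen ℚ t)
    have hDF : aeval t D ∈ F ⊔ ℚ⟮t⟯⟮y⟯ := by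
      have := (F ⊔ ℚ⟮t⟯⟮y⟯).algebraMap_mem (aeval (AdjoinSimple.gen ℚ t) D)
      rwa [← aeval_algebraMap_apply, AdjoinSimple.algebraMap_gen] at this
    refine div_mem ?_ (mul_mem (pow_mem htF _) hDF)
    exact (le_sup_right : ℚ⟮t⟯⟮y⟯ ≤ F ⊔ ℚ⟮t⟯⟮y⟯) (mem_adjoin_simple_self _ _)
  · have e : y / (t ^ l * aeval t D) - a = (b - z) / aeval t D := by
      rw [hy, hzdef]
      field_simp
    rw [e, abs_div, div_lt_iff₀ (abs_pos.2 hDt)]
    exact hb1

/-- `ℚ` is relatively algebraically closed in `ℚ(t)`. -/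
theorem reg_bot {t : K} (ht : ∀ n : ℕ, (n : K) < t) :
    Reg (((⊥ : IntermediateField ℚ⟮t⟯ K)) : Set K) := by
  intro α hα halg
  have htr := transcendental_t ht
  obtain ⟨⟨x, hx⟩, rfl⟩ := IntermediateField.mem_bot.1 hα
  change IsAlgebraic ℚ x at halg
  change ∃ r : ℚ, x = (r : K)
  obtain ⟨r, s, h⟩ := (mem_adjoin_simple_iff ℚ x).1 hx
  by_cases hs : s = 0
  · refine ⟨0, ?_⟩
    rw [h, hs, map_zero, div_zero, Rat.cast_zero]
  have hst : aeval t s ≠ 0 := fun h => hs ((transcendental_iff.1 htr) s h)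
  have : Algebra.IsAlgebraic ℚ ℚ⟮x⟯ := by
    have : FiniteDimensional ℚ ℚ⟮x⟯ := adjoin.finiteDimensional halg.isIntegral
    infer_instance
  have ht2 : Transcendental ℚ⟮x⟯ t := fun h => htr (h.restrictScalars ℚ)
  set g := AdjoinSimple.gen ℚ x with hg
  have h1 : aeval t (C g * s.map (algebraMap ℚ ℚ⟮x⟯) - r.map (algebraMap ℚ ℚ⟮x⟯)) = 0 := by
    rw [map_sub, map_mul, aeval_C, aeval_map_algebraMap, aeval_map_algebraMap,
      AdjoinSimple.algebraMap_gen, h, div_mul_cancel₀ _ hst, sub_self]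
  have h2 := (transcendental_iff.1 ht2) _ h1
  obtain ⟨i, hi⟩ : ∃ i, s.coeff i ≠ 0 := by
    by_contra hcon
    push Not at hcon
    exact hs (Polynomial.ext (by simpa using hcon))
  have h3 := congrArg (fun p => algebraMap ℚ⟮x⟯ K (p.coeff i)) h2
  simp only [coeff_sub, coeff_C_mul, coeff_map, coeff_zero, map_zero, map_sub, map_mul,
    hg, AdjoinSimple.algebraMap_gen] at h3
  refine ⟨r.coeff i / s.coeff i, ?_⟩
  have h4 : ((s.coeff i : ℚ) : K) ≠ 0 := by exact_mod_cast hi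
  rw [Rat.cast_div, eq_div_iff h4]
  have e : ∀ q : ℚ, algebraMap ℚ⟮x⟯ K (algebraMap ℚ ℚ⟮x⟯ q) = (q : K) := by
    intro q
    rw [← IsScalarTower.algebraMap_apply, eq_ratCast]
  rw [e, e] at h3
  linear_combination h3

theorem countable_K {t : K} (halg : ∀ x : K, IsAlgebraic ℚ⟮t⟯ x) : Countable K := by
  have h0 : Countable ℚ[X] := by
    rw [← Cardinal.mk_le_aleph0_iff]
    exact (Polynomial.cardinalMk_le_max).trans (max_le (Cardinal.mk_le_aleph0_iff.2 inferInstance) le_rfl)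
  have h1 : Countable ℚ⟮t⟯ := by
    have h2 : Function.Surjective (fun rs : ℚ[X] × ℚ[X] =>
        (⟨aeval t rs.1 / aeval t rs.2, (mem_adjoin_simple_iff ℚ _).2 ⟨rs.1, rs.2, rfl⟩⟩ : ℚ⟮t⟯)) := by
      intro z
      obtain ⟨r, s, h⟩ := (mem_adjoin_simple_iff ℚ (z : K)).1 z.2
      exact ⟨(r, s), Subtype.ext h.symm⟩
    exact h2.countable
  have : Algebra.IsAlgebraic ℚ⟮t⟯ K := ⟨halg⟩
  have h2 := Algebra.IsAlgebraic.cardinalMk_le_max ℚ⟮t⟯ K
  rw [← Cardinal.mk_le_aleph0_iff]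
  exact h2.trans (max_le (Cardinal.mk_le_aleph0_iff.2 h1) le_rfl)

/-- The dense subfield. -/
theorem main (hK : IVP K) {t : K} (ht : ∀ n : ℕ, (n : K) < t)
    (halg : ∀ x : K, IsAlgebraic ℚ⟮t⟯ x) :
    ∃ F : Subfield K, t ∈ F ∧ (∀ a b : K, a < b → ∃ f ∈ F, a < f ∧ f < b) ∧
      ∀ x ∈ F, IsAlgebraic ℚ x → ∃ r : ℚ, x = (r : K) := by
  have hc := countable_K halg
  obtain ⟨e, he⟩ := exists_surjective_nat (K × K)
  let S := {F : IntermediateField ℚ⟮t⟯ K // FiniteDimensional ℚ⟮t⟯ F ∧ Reg (F : Set K)}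
  have hstep : ∀ (F : S) (aε : K × K), ∃ F' : S, F.1 ≤ F'.1 ∧
      (0 < aε.2 → ∃ b ∈ F'.1, |b - aε.1| < aε.2) := by
    rintro ⟨F, h1, h2⟩ ⟨a, ε⟩
    obtain ⟨F', h3, h4, h5⟩ := step hK ht halg F h1 h2 a ε
    exact ⟨⟨F', h3⟩, h4, h5⟩
  choose g hg1 hg2 using hstep
  let F0 : S := ⟨⊥, inferInstance, reg_bot ht⟩
  let f : ℕ → S := fun n => Nat.rec F0 (fun n F => g F (e n)) n
  have hf : ∀ n, f (n + 1) = g (f n) (e n) := fun n => rfl
  have hmono : Monotone fun n => (f n).1 := monotone_nat_of_le_succ fun n => by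
    rw [hf]
    exact hg1 _ _
  have hdir : Directed (· ≤ ·) fun n => (f n).1 := hmono.directed_le
  have hmem : ∀ x : K, x ∈ (⨆ n, (f n).1) ↔ ∃ n, x ∈ (f n).1 := by
    intro x
    have := congrArg (fun s : Set K => x ∈ s) (coe_iSup_of_directed hdir)
    simp only [SetLike.mem_coe, Set.mem_iUnion] at this
    exact this.to_iff
  refine ⟨(⨆ n, (f n).1).toSubfield, ?_, ?_, ?_⟩
  · exact (⨆ n, (f n).1).algebraMap_mem (AdjoinSimple.gen ℚ t)
  · intro a b hab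
    obtain ⟨n, hn⟩ := he ((a + b) / 2, (b - a) / 2)
    obtain ⟨x, hx1, hx2⟩ := hg2 (f n) (e n) (by rw [hn]; simp only; linarith)
    rw [hn] at hx2
    simp only at hx2
    refine ⟨x, (hmem x).2 ⟨n + 1, by rw [hf]; exact hx1⟩, ?_⟩
    rw [abs_lt] at hx2
    constructor <;> linarith
  · intro x hx halgx
    obtain ⟨n, hn⟩ := (hmem x).1 hx
    exact (f n).2.2 x hn halgx

end Ordered

end Pool.Agent.R316.DS
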