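import Pool.Agent.R316.DSd

set_option autoImplicit false

open Polynomial IntermediateField

namespace Pool.Agent.R316.DS

section Galois

variable {K : Type*} [Field K] [LinearOrder K] [IsStrictOrderedRing K] [IsRealClosed K]

theorem odd_degree (E : Type*) [Field E] [Algebra K E] [FiniteDimensional K E]
    (h : Odd (Module.finrank K E)) : Module.finrank K E = 1 := by
  obtain ⟨θ, hθ⟩ := Field.exists_primitive_element K E
  have hint : IsIntegral K θ := Algebra.IsIntegral.isIntegral θ
  have h1 : Module.finrank K E = (minpoly K θ).natDegree := by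
    rw [← adjoin.finrank hint, hθ, IntermediateField.finrank_top']
  rw [h1] at h ⊢
  obtain ⟨r, hr⟩ := IsRealClosed.exists_isRoot_of_odd_natDegree h
  exact natDegree_eq_of_degree_eq_some (degree_eq_one_of_irreducible_of_root (minpoly.irreducible hint) hr)

theorem two_power (L : Type*) [Field L] [Algebra K L] [FiniteDimensional K L] [IsGalois K L] :
    ∃ m : ℕ, Module.finrank K L = 2 ^ m := by
  have : Fact (Nat.Prime 2) := ⟨Nat.prime_two⟩
  let P : Sylow 2 Gal(L/K) := default
  obtain ⟨m, hm⟩ := IsPGroup.iff_card.1 P.isPGroup'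
  refine ⟨m, ?_⟩
  have h1 : Module.finrank (fixedField (P : Subgroup Gal(L/K))) L = 2 ^ m := by
    rw [finrank_fixedField_eq_card]
    exact hm
  have h2 := Module.finrank_mul_finrank K (fixedField (P : Subgroup Gal(L/K))) L
  have h3 := (P : Subgroup Gal(L/K)).card_mul_index
  have h4 : Nat.card Gal(L/K) = Module.finrank K L := IsGalois.card_aut_eq_finrank K L
  have h5 := P.not_dvd_index
  have h6 : Odd (Module.finrank K (fixedField (P : Subgroup Gal(L/K)))) := by
    have h7 : Module.finrank K (fixedField (P : Subgroup Gal(L/K))) =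
        (P : Subgroup Gal(L/K)).index := by
      rw [h4, ← h2, h1] at h3
      have hcard : Nat.card (P : Subgroup Gal(L/K)) = 2 ^ m := hm
      rw [hcard, mul_comm] at h3
      exact (Nat.eq_of_mul_eq_mul_right (by positivity) h3).symm
    rw [h7, ← Nat.not_even_iff_odd, even_iff_two_dvd]
    exact h5
  rw [← h2, odd_degree _ h6, h1, one_mul]

/-- Every element of `K(i)` is a square. -/
theorem square_ki (x y : K) {L : Type*} [Field L] [Algebra K L] (i : L) (hi : i ^ 2 = -1) :
    ∃ u v : K, (algebraMap K L u + algebraMap K L v * i) ^ 2 =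
      algebraMap K L x + algebraMap K L y * i := by
  obtain ⟨r, hr⟩ := IsSquare.of_nonneg (by positivity : 0 ≤ x ^ 2 + y ^ 2)
  wlog hr0 : 0 ≤ r generalizing r
  · exact this (-r) (by rw [hr]; ring) (by linarith)
  have hxr : |x| ≤ r := abs_le_of_sq_le_sq (by nlinarith [sq_nonneg y]) hr0
  rw [abs_le] at hxr
  obtain ⟨u, hu⟩ := IsSquare.of_nonneg (by linarith [hxr.1] : 0 ≤ (r + x) / 2)
  obtain ⟨v, hv⟩ := IsSquare.of_nonneg (by linarith [hxr.2] : 0 ≤ (r - x) / 2)
  have huv : (2 * (u * v)) ^ 2 = y ^ 2 := by
    have e : (2 * (u * v)) ^ 2 = 4 * ((u * u) * (v * v)) := by ring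
    rw [e, ← hu, ← hv]
    linear_combination (-1 : K) * hr
  have hx : u ^ 2 - v ^ 2 = x := by
    rw [pow_two, pow_two, ← hu, ← hv]
    ring
  rcases sq_eq_sq_iff_eq_or_eq_neg.1 huv with h | h
  · refine ⟨u, v, ?_⟩
    rw [← hx, ← h]
    simp only [map_sub, map_mul, map_pow, map_ofNat]
    linear_combination (algebraMap K L v) ^ 2 * hi
  · refine ⟨u, -v, ?_⟩
    have h' : y = 2 * (u * (-v)) := by linear_combination h
    rw [← hx, h']
    simp only [map_sub, map_mul, map_pow, map_neg, map_ofNat]
    linear_combination (algebraMap K L v) ^ 2 * hi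

/-- A finite Galois extension of `K` containing `i` has degree two. -/
theorem finrank_le_two (L : Type*) [Field L] [Algebra K L] [FiniteDimensional K L] [IsGalois K L]
    (i : L) (hi : i ^ 2 = -1) : Module.finrank K L ≤ 2 := by
  have : Fact (Nat.Prime 2) := ⟨Nat.prime_two⟩
  have hint : IsIntegral K i := Algebra.IsIntegral.isIntegral i
  have hmp : minpoly K i = X ^ 2 + 1 := by
    symm
    refine minpoly.eq_of_irreducible_of_monic ?_ (by simp [hi]) (by monicity!)
    have hd : (X ^ 2 + 1 : K[X]).natDegree = 2 := by compute_degree!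
    rw [irreducible_iff_roots_eq_zero_of_degree_le_three (by omega) (by omega)]
    rw [Multiset.eq_zero_iff_forall_notMem]
    intro r hr
    have h1 : (X ^ 2 + 1 : K[X]) ≠ 0 := by
      intro h
      rw [h, natDegree_zero] at hd
      omega
    rw [mem_roots h1, IsRoot.def] at hr
    simp only [eval_add, eval_pow, eval_X, eval_one] at hr
    nlinarith [sq_nonneg r]
  have hd : (X ^ 2 + 1 : K[X]).natDegree = 2 := by compute_degree!
  have hN : Module.finrank K K⟮i⟯ = 2 := by rw [adjoin.finrank hint, hmp, hd]
  -- every element of `K(i)` is a square in `K(i)`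
  have hsq : ∀ c : K⟮i⟯, ∃ d : K⟮i⟯, d ^ 2 = c := by
    intro c
    have h1 : (c : L) ∈ Algebra.adjoin K {i} := by
      rw [← adjoin_simple_toSubalgebra_of_isAlgebraic hint.isAlgebraic]
      exact c.2
    rw [Algebra.adjoin_singleton_eq_range_aeval] at h1
    obtain ⟨p, hp⟩ := h1
    have h2 : aeval i (p %ₘ (X ^ 2 + 1 : K[X])) = (c : L) := by
      rw [← hmp, minpoly.aeval_modByMonic_minpoly]
      exact hp
    have h3 : (p %ₘ (X ^ 2 + 1 : K[X])).natDegree ≤ 1 := by
      have h4 : (X ^ 2 + 1 : K[X]).Monic := by monicity!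
      have := natDegree_modByMonic_lt p h4 (by
        intro h
        rw [h, natDegree_one] at hd
        omega)
      omega
    obtain ⟨y, x, hxy⟩ := exists_eq_X_add_C_of_natDegree_le_one h3
    rw [hxy] at h2
    simp only [map_add, map_mul, aeval_C, aeval_X] at h2
    obtain ⟨u, v, huv⟩ := square_ki x y i hi
    refine ⟨algebraMap K K⟮i⟯ u + algebraMap K K⟮i⟯ v * AdjoinSimple.gen K i, ?_⟩
    apply Subtype.ext
    rw [← h2, add_comm (algebraMap K L y * i), ← huv]
    rfl
  obtain ⟨m, hm⟩ := two_power (K := K) L
  have hmul := Module.finrank_mul_finrank K K⟮i⟯ L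
  rw [hN, hm] at hmul
  by_contra hcon
  push Not at hcon
  rw [hm] at hcon
  have hm2 : 2 ≤ m := by
    by_contra h
    push Not at h
    interval_cases m <;> simp at hcon
  obtain ⟨k, rfl⟩ : ∃ k, m = k + 2 := ⟨m - 2, by omega⟩
  have hNL : Module.finrank K⟮i⟯ L = 2 ^ (k + 1) := by
    have : 2 * Module.finrank K⟮i⟯ L = 2 * 2 ^ (k + 1) := by rw [hmul]; ring
    exact Nat.eq_of_mul_eq_mul_left two_pos this
  have hcard : Nat.card Gal(L/K⟮i⟯) = 2 ^ (k + 1) := by
    rw [← hNL]
    exact IsGalois.card_aut_eq_finrank _ _
  obtain ⟨H, hH⟩ := Sylow.exists_subgroup_card_pow_prime (G := Gal(L/K⟮i⟯)) 2 (n := k)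
    (by rw [hcard]; exact pow_dvd_pow _ (by omega))
  have hE : Module.finrank K⟮i⟯ (fixedField H) = 2 := by
    have h1 := Module.finrank_mul_finrank K⟮i⟯ (fixedField H) L
    rw [finrank_fixedField_eq_card, hH, hNL, pow_succ'] at h1
    exact Nat.eq_of_mul_eq_mul_right (by positivity) h1
  obtain ⟨θ, hθ⟩ : ∃ θ : fixedField H, θ ∉ (⊥ : IntermediateField K⟮i⟯ (fixedField H)) := by
    by_contra h
    push Not at h
    have h2 : (⊥ : IntermediateField K⟮i⟯ (fixedField H)) = ⊤ := by
      rw [eq_top_iff]
      intro x _
      exact h x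
    have h3 : Module.finrank K⟮i⟯ (⊥ : IntermediateField K⟮i⟯ (fixedField H)) = 1 :=
      IntermediateField.finrank_bot
    rw [h2, IntermediateField.finrank_top', hE] at h3
    omega
  have hθint : IsIntegral K⟮i⟯ θ := Algebra.IsIntegral.isIntegral θ
  have hdeg : (minpoly K⟮i⟯ θ).natDegree = 2 := by
    have h1 : (minpoly K⟮i⟯ θ).natDegree ≤ 2 := by
      rw [← hE]
      exact minpoly.natDegree_le θ
    have h2 : (minpoly K⟮i⟯ θ).natDegree ≠ 1 := by
      intro h
      exact hθ (IntermediateField.mem_bot.2 (minpoly.natDegree_eq_one_iff.1 h))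
    have h3 : 0 < (minpoly K⟮i⟯ θ).natDegree := minpoly.natDegree_pos hθint
    omega
  have hirr := minpoly.irreducible hθint
  have hmon := minpoly.monic hθint
  set q := minpoly K⟮i⟯ θ with hq
  have hroot : ∃ r, q.IsRoot r := by
    obtain ⟨d, hd⟩ := hsq (discrim 1 (q.coeff 1) (q.coeff 0))
    refine ⟨(-(q.coeff 1) + d) / (2 * 1), ?_⟩
    rw [IsRoot.def, eval_eq_sum_range, hdeg]
    simp only [Finset.sum_range_succ, Finset.sum_range_zero]
    have h2 : q.coeff 2 = 1 := by
      rw [← hdeg]
      exact hmon.coeff_natDegree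
    rw [h2, discrim] at *
    have h20 : (2 : K⟮i⟯) ≠ 0 := two_ne_zero
    field_simp
    linear_combination hd
  obtain ⟨r, hr⟩ := hroot
  have h4 : q.natDegree = 1 :=
    natDegree_eq_of_degree_eq_some (degree_eq_one_of_irreducible_of_root hirr hr)
  omega

theorem irreducible_natDegree_le_two (q : K[X]) (hq : Irreducible q) : q.natDegree ≤ 2 := by
  set f : K[X] := q * (X ^ 2 + 1) with hf
  have hd : (X ^ 2 + 1 : K[X]).natDegree = 2 := by compute_degree!
  have h10 : (X ^ 2 + 1 : K[X]) ≠ 0 := by
    intro h
    rw [h, natDegree_zero] at hd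
    omega
  have hf0 : f ≠ 0 := mul_ne_zero hq.ne_zero h10
  let L := f.SplittingField
  have : IsGalois K L := { }
  have hsp : (f.map (algebraMap K L)).Splits := SplittingField.splits f
  have hsp1 : ((X ^ 2 + 1 : K[X]).map (algebraMap K L)).Splits := by
    refine hsp.of_dvd (by simpa using hf0) ?_
    exact Polynomial.map_dvd _ (Dvd.intro_left q rfl)
  have hsp2 : (q.map (algebraMap K L)).Splits := by
    refine hsp.of_dvd (by simpa using hf0) ?_
    exact Polynomial.map_dvd _ (Dvd.intro _ rfl)
  obtain ⟨i, hi⟩ := hsp1.exists_eval_eq_zero (by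
    rw [degree_map, degree_eq_natDegree h10, hd]
    norm_num)
  obtain ⟨ρ, hρ⟩ := hsp2.exists_eval_eq_zero (by
    rw [degree_map]
    exact (degree_pos_of_irreducible hq).ne')
  have hi2 : i ^ 2 = -1 := by
    rw [eval_map_algebraMap] at hi
    simp only [map_add, map_pow, aeval_X, map_one] at hi
    linear_combination hi
  have h2 := finrank_le_two (K := K) L i hi2
  have hρint : IsIntegral K ρ := Algebra.IsIntegral.isIntegral ρ
  have h3 : (minpoly K ρ).natDegree ≤ 2 := (minpoly.natDegree_le ρ).trans h2
  rw [eval_map_algebraMap] at hρ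
  have h4 : Associated (minpoly K ρ) q :=
    (minpoly.irreducible hρint).associated_of_dvd hq (minpoly.dvd K ρ hρ)
  rwa [natDegree_eq_of_degree_eq (degree_eq_degree_of_associated h4)] at h3

end Galois

theorem lin_root {K : Type*} [Field K] [LinearOrder K] [IsStrictOrderedRing K] (A B a b : K)
    (hA : A ≠ 0) (hab : a < b) (hs : (A * a + B) * (A * b + B) < 0) :
    a < -B / A ∧ -B / A < b := by
  set r := -B / A with hr
  have hB : B = -(A * r) := by
    rw [hr]
    field_simp
  have h1 : (a - r) * (b - r) < 0 := by
    by_contra h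
    push Not at h
    have h2 := mul_nonneg (sq_nonneg A) h
    rw [hB] at hs
    nlinarith
  constructor
  · by_contra h
    push Not at h
    exact absurd h1 (not_lt.2 (mul_nonneg (by linarith) (by linarith)))
  · by_contra h
    push Not at h
    exact absurd h1 (not_lt.2 (mul_nonneg_of_nonpos_of_nonpos (by linarith) (by linarith)))

/-- Real closed fields have the intermediate value property for polynomials. -/
theorem ivp_of_isRealClosed {K : Type*} [Field K] [LinearOrder K] [IsStrictOrderedRing K]
    [IsRealClosed K] : IVP K := by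
  have key : ∀ (n : ℕ) (f : K[X]) (a b : K), f.natDegree ≤ n → a < b → f.eval a * f.eval b < 0 →
      ∃ c, a < c ∧ c < b ∧ f.eval c = 0 := by
    intro n
    induction n with
    | zero =>
      intro f a b hf hab hs
      obtain ⟨c, rfl⟩ := natDegree_eq_zero.1 (Nat.le_zero.1 hf)
      rw [eval_C, eval_C] at hs
      exact absurd hs (not_lt.2 (mul_self_nonneg c))
    | succ n ih =>
      intro f a b hf hab hs
      have hf0 : f ≠ 0 := by
        rintro rfl
        simp at hs
      by_cases hu : IsUnit f
      · exact ih f a b (by rw [natDegree_eq_zero_of_isUnit hu]; omega) hab hs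
      obtain ⟨q, hq, h, rfl⟩ := WfDvdMonoid.exists_irreducible_factor hu hf0
      have h0 : h ≠ 0 := right_ne_zero_of_mul hf0
      have hq1 : 0 < q.natDegree := hq.natDegree_pos
      have hq2 := irreducible_natDegree_le_two q hq
      rw [natDegree_mul hq.ne_zero h0] at hf
      rw [eval_mul, eval_mul] at hs
      by_cases hsq : q.eval a * q.eval b < 0
      · -- `q` is linear
        have hq1' : q.natDegree = 1 := by
          by_contra hcon
          have hq22 : q.natDegree = 2 := by omega
          -- no sign change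
          have hc2 : q.coeff 2 ≠ 0 := by
            rw [← hq22]
            exact leadingCoeff_ne_zero.2 hq.ne_zero
          set A := q.coeff 2
          set B := q.coeff 1
          set C' := q.coeff 0
          have hev : ∀ x, q.eval x = A * x ^ 2 + B * x + C' := by
            intro x
            rw [eval_eq_sum_range, hq22]
            simp only [Finset.sum_range_succ, Finset.sum_range_zero]
            ring
          have hdisc : discrim A B C' < 0 := by
            by_contra hcon2
            push Not at hcon2
            obtain ⟨d, hd⟩ := IsSquare.of_nonneg hcon2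
            have hr : q.eval ((-B + d) / (2 * A)) = 0 := by
              rw [hev]
              rw [discrim] at hd
              field_simp
              linear_combination (-1 : K) * hd
            have h4 : q.natDegree = 1 := natDegree_eq_of_degree_eq_some
              (degree_eq_one_of_irreducible_of_root hq hr)
            omega
          have hpos : ∀ x, 0 < A * q.eval x := by
            intro x
            have e : 4 * (A * q.eval x) = (2 * A * x + B) ^ 2 - discrim A B C' := by
              rw [hev, discrim]
              ring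
            nlinarith [sq_nonneg (2 * A * x + B)]
          have h5 := mul_pos (hpos a) (hpos b)
          have h6 : A * q.eval a * (A * q.eval b) = A ^ 2 * (q.eval a * q.eval b) := by ring
          rw [h6] at h5
          exact absurd h5 (not_lt.2 (mul_nonpos_of_nonneg_of_nonpos (sq_nonneg _) hsq.le))
        obtain ⟨A, B, hAB⟩ := exists_eq_X_add_C_of_natDegree_le_one hq1'.le
        have hA : A ≠ 0 := by
          rintro rfl
          rw [hAB] at hq1'
          simp at hq1'
        have hev : ∀ x, q.eval x = A * x + B := by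
          intro x
          rw [hAB]
          simp
        rw [hev, hev] at hsq
        obtain ⟨h8, h9⟩ := lin_root A B a b hA hab hsq
        refine ⟨-B / A, h8, h9, ?_⟩
        · rw [eval_mul, hev, mul_div_cancel₀ _ hA, neg_add_cancel, zero_mul]
      · push Not at hsq
        have hs2 : h.eval a * h.eval b < 0 := by
          by_contra hcon
          push Not at hcon
          have := mul_nonneg hsq hcon
          nlinarith
        obtain ⟨c, hc1, hc2, hc3⟩ := ih h a b (by omega) hab hs2
        exact ⟨c, hc1, hc2, by rw [eval_mul, hc3, mul_zero]⟩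
  intro f a b hab hs
  exact key _ f a b le_rfl hab hs

end Pool.Agent.R316.DS
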