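import Mathlib

/-!
Carlitz polynomials over `F_q(t)` and the closed forms of the power sums
`S_d(s) = sum over monic a of degree d of a^(-s)`.
-/

open Polynomial Finset

namespace Pool.Agent.R316.Ff

section frob
variable {F : Type*} [Field F] [Fintype F] {R : Type*} [CommRing R] [Algebra F R]
  {q : ℕ}

theorem frob_add (hq : Fintype.card F = q) (x y : R) : (x + y) ^ q = x ^ q + y ^ q := by
  subst hq; exact map_add (FiniteField.frobeniusAlgHom F R) x y

theorem frob_sub (hq : Fintype.card F = q) (x y : R) : (x - y) ^ q = x ^ q - y ^ q := by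
  subst hq; exact map_sub (FiniteField.frobeniusAlgHom F R) x y

theorem frob_neg (hq : Fintype.card F = q) (x : R) : (-x) ^ q = -x ^ q := by
  subst hq; exact map_neg (FiniteField.frobeniusAlgHom F R) x

theorem frob_sum (hq : Fintype.card F = q) {ι : Type*} (s : Finset ι) (f : ι → R) :
    (∑ i ∈ s, f i) ^ q = ∑ i ∈ s, f i ^ q := by
  subst hq; exact map_sum (FiniteField.frobeniusAlgHom F R) f s

theorem frob_smul (hq : Fintype.card F = q) (a : F) (x : R) : (a • x) ^ q = a • x ^ q := by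
  subst hq; exact map_smul (FiniteField.frobeniusAlgHom F R) a x

theorem frob_pow_add (hq : Fintype.card F = q) (n : ℕ) (x y : R) :
    (x + y) ^ (q ^ n) = x ^ (q ^ n) + y ^ (q ^ n) := by
  induction n with
  | zero => simp
  | succ n ih => rw [pow_succ, pow_mul, ih, frob_add hq, ← pow_mul, ← pow_mul]

theorem frob_pow_smul (hq : Fintype.card F = q) (n : ℕ) (a : F) (x : R) :
    (a • x) ^ (q ^ n) = a • x ^ (q ^ n) := by
  induction n with
  | zero => simp
  | succ n ih => rw [pow_succ, pow_mul, ih, frob_smul hq, ← pow_mul]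

theorem cast_q (hq : Fintype.card F = q) : (q : R) = 0 := by
  subst hq
  have h := FiniteField.cast_card_eq_zero F
  have h2 := congrArg (algebraMap F R) h
  rwa [map_natCast, map_zero] at h2

end frob

variable {K : Type*} [Field K]

/-- `[i] = t^(q^i) - t`. -/
def br (q : ℕ) (t : K) (i : ℕ) : K := t ^ (q ^ i) - t

/-- `ell_d = prod_{i=1}^d (t - t^(q^i))`. -/
def ell (q : ℕ) (t : K) : ℕ → K
  | 0 => 1
  | d + 1 => ell q t d * (t - t ^ (q ^ (d + 1)))

/-- coefficients of the Carlitz polynomial `E_d`. -/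
def ee (q : ℕ) (t : K) (d : ℕ) : ℕ → K
  | 0 => (ell q t d)⁻¹
  | i + 1 => (t ^ (q ^ (i + 1)) - t ^ (q ^ (d + 1))) * (ee q t d i) ^ q / br q t (i + 1)

section carlitz
variable {F : Type*} [Field F] [Fintype F] [Algebra F K] {q : ℕ} (hq : Fintype.card F = q)
  {t : K} (ht : ∀ i, 0 < i → t ^ (q ^ i) ≠ t)

include ht in
theorem br_ne (i : ℕ) (hi : 0 < i) : br q t i ≠ 0 := sub_ne_zero.mpr (ht i hi)

include ht in
theorem ell_ne (d : ℕ) : ell q t d ≠ 0 := by
  induction d with
  | zero => simp [ell]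
  | succ d ih => exact mul_ne_zero ih (sub_ne_zero.mpr (ht _ (Nat.succ_pos _)).symm)

include hq ht in
theorem ee_B (d i : ℕ) :
    ee q t d i = (t ^ (q ^ i) - t ^ (q ^ (d + 1))) * ee q t (d + 1) i := by
  induction i with
  | zero =>
    have h1 := ell_ne ht d
    have h2 : t - t ^ (q ^ (d + 1)) ≠ 0 := sub_ne_zero.mpr (ht _ (Nat.succ_pos _)).symm
    simp only [ee, ell, pow_zero, pow_one]
    field_simp
  | succ i ih =>
    have e1 : (t ^ (q ^ i) - t ^ (q ^ (d + 1))) ^ q
        = t ^ (q ^ (i + 1)) - t ^ (q ^ (d + 1 + 1)) := by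
      rw [frob_sub hq, ← pow_mul, ← pow_mul, ← pow_succ, ← pow_succ]
    have e2 : (ee q t d i) ^ q
        = (t ^ (q ^ (i + 1)) - t ^ (q ^ (d + 1 + 1))) * (ee q t (d + 1) i) ^ q := by
      rw [ih, mul_pow, e1]
    simp only [ee]
    rw [e2]
    ring

include hq ht in
theorem ee_A' (d i : ℕ) : br q t (i + 1) * ee q t (d + 1) (i + 1) = (ee q t d i) ^ q := by
  have e1 : (t ^ (q ^ i) - t ^ (q ^ (d + 1))) ^ q
      = t ^ (q ^ (i + 1)) - t ^ (q ^ (d + 1 + 1)) := by
    rw [frob_sub hq, ← pow_mul, ← pow_mul, ← pow_succ, ← pow_succ]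
  have h := br_ne ht (i + 1) (Nat.succ_pos _)
  rw [ee_B hq ht d i, mul_pow, e1]
  simp only [ee]
  field_simp

include hq ht in
theorem ee_A (d i : ℕ) :
    br q t (d + 1) * ee q t (d + 1) (i + 1) = (ee q t d i) ^ q - ee q t d (i + 1) := by
  rw [← ee_A' hq ht, ee_B hq ht d (i + 1)]
  simp only [br]
  ring

include hq ht in
theorem ee_A0 (d : ℕ) : br q t (d + 1) * ee q t (d + 1) 0 = - ee q t d 0 := by
  rw [ee_B hq ht d 0]
  simp only [br, pow_zero, pow_one]
  ring

theorem ee_zero (hq0 : 0 < q) (d i : ℕ) (h : d < i) : ee q t d i = 0 := by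
  induction i with
  | zero => omega
  | succ i ih =>
    rcases Nat.lt_or_ge d i with h1 | h1
    · simp only [ee, ih h1, zero_pow hq0.ne', mul_zero, zero_div]
    · have : i = d := by omega
      subst this
      simp [ee]

/-- the Carlitz polynomial `E_d`, as a function. -/
def Ev (q : ℕ) (t : K) (d : ℕ) (y : K) : K := ∑ i ∈ range (d + 1), ee q t d i * y ^ (q ^ i)

include hq in
theorem Ev_add (d : ℕ) (x y : K) : Ev q t d (x + y) = Ev q t d x + Ev q t d y := by
  simp only [Ev, frob_pow_add hq, mul_add, sum_add_distrib]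

include hq in
theorem Ev_smul (d : ℕ) (a : F) (y : K) : Ev q t d (a • y) = a • Ev q t d y := by
  simp only [Ev, frob_pow_smul hq, smul_sum, mul_smul_comm]

include hq in
theorem Ev_zero (d : ℕ) : Ev q t d 0 = 0 := by
  have := Ev_add (t := t) hq d 0 0
  simpa using this

include hq in
theorem Ev_sum (d : ℕ) {ι : Type*} (s : Finset ι) (f : ι → K) :
    Ev q t d (∑ i ∈ s, f i) = ∑ i ∈ s, Ev q t d (f i) := by
  classical
  induction s using Finset.induction_on with
  | empty => simpa using Ev_zero hq d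
  | insert a s ha ih => rw [sum_insert ha, sum_insert ha, Ev_add hq, ih]

include hq ht in
theorem Ev_t (d : ℕ) (y : K) :
    Ev q t (d + 1) (t * y) = t * Ev q t (d + 1) y + (Ev q t d y) ^ q := by
  simp only [Ev]
  rw [frob_sum hq, sum_range_succ' _ (d + 1), sum_range_succ' _ (d + 1), mul_add, mul_sum]
  have e : ∀ i, ee q t (d + 1) (i + 1) * (t * y) ^ (q ^ (i + 1))
      = t * (ee q t (d + 1) (i + 1) * y ^ (q ^ (i + 1))) + (ee q t d i * y ^ (q ^ i)) ^ q := by
    intro i
    rw [mul_pow (ee q t d i), ← ee_A' hq ht, mul_pow, ← pow_mul, ← pow_succ]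
    simp only [br]
    ring
  simp only [e, sum_add_distrib, pow_zero, pow_one]
  ring

include hq ht in
theorem Ev_succ (d : ℕ) (y : K) :
    br q t (d + 1) * Ev q t (d + 1) y = (Ev q t d y) ^ q - Ev q t d y := by
  have hq0 : 0 < q := by rw [← hq]; exact Fintype.card_pos
  have h2 : Ev q t d y = (∑ i ∈ range (d + 1), ee q t d (i + 1) * y ^ (q ^ (i + 1)))
      + ee q t d 0 * y := by
    have : Ev q t d y = ∑ i ∈ range (d + 1 + 1), ee q t d i * y ^ (q ^ i) := by
      rw [sum_range_succ, ee_zero hq0 d (d + 1) (Nat.lt_succ_self d)]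
      simp [Ev]
    rw [this, sum_range_succ']
    simp
  have h3 : (Ev q t d y) ^ q = ∑ i ∈ range (d + 1), (ee q t d i) ^ q * y ^ (q ^ (i + 1)) := by
    simp only [Ev]
    rw [frob_sum hq]
    refine sum_congr rfl fun i _ => ?_
    rw [mul_pow, ← pow_mul, ← pow_succ]
  rw [h3]
  conv_rhs => rw [h2]
  have h4 : Ev q t (d + 1) y = (∑ i ∈ range (d + 1), ee q t (d + 1) (i + 1) * y ^ (q ^ (i + 1)))
      + ee q t (d + 1) 0 * y := by
    simp only [Ev]
    rw [sum_range_succ']
    simp
  rw [h4, mul_add, mul_sum]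
  have e : ∀ i, br q t (d + 1) * (ee q t (d + 1) (i + 1) * y ^ (q ^ (i + 1)))
      = (ee q t d i) ^ q * y ^ (q ^ (i + 1)) - ee q t d (i + 1) * y ^ (q ^ (i + 1)) := by
    intro i
    rw [← mul_assoc, ee_A hq ht, sub_mul]
  simp only [e, sum_sub_distrib]
  rw [← mul_assoc, ee_A0 hq ht]
  ring

include hq ht in
theorem Ev_one (d : ℕ) : Ev q t (d + 1) 1 = 0 := by
  have hq0 : 0 < q := by rw [← hq]; exact Fintype.card_pos
  have hb : ∀ d, br q t (d + 1) ≠ 0 := fun d => br_ne ht _ (Nat.succ_pos _)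
  induction d with
  | zero =>
    have h := Ev_succ hq ht 0 1
    have h0 : Ev q t 0 1 = 1 := by simp [Ev, ee, ell]
    rw [h0, one_pow, sub_self] at h
    exact (mul_eq_zero.mp h).resolve_left (hb 0)
  | succ d ih =>
    have h := Ev_succ hq ht (d + 1) 1
    rw [ih, zero_pow hq0.ne', sub_zero] at h
    exact (mul_eq_zero.mp h).resolve_left (hb _)

include hq ht in
theorem Ev_tpow (j : ℕ) : ∀ d, j < d → Ev q t d (t ^ j) = 0 := by
  have hq0 : 0 < q := by rw [← hq]; exact Fintype.card_pos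
  induction j with
  | zero =>
    intro d hd
    obtain ⟨e, rfl⟩ : ∃ e, d = e + 1 := ⟨d - 1, by omega⟩
    simpa using Ev_one hq ht e
  | succ j ih =>
    intro d hd
    obtain ⟨e, rfl⟩ : ∃ e, d = e + 1 := ⟨d - 1, by omega⟩
    rw [pow_succ', Ev_t hq ht, ih (e + 1) (by omega), ih e (by omega), zero_pow hq0.ne']
    simp

include hq ht in
theorem Ev_tpow_self (d : ℕ) : Ev q t d (t ^ d) = 1 := by
  induction d with
  | zero => simp [Ev, ee, ell]
  | succ d ih =>
    rw [pow_succ', Ev_t hq ht, Ev_tpow hq ht d (d + 1) (Nat.lt_succ_self d), ih]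
    simp

/-- the element `sum_{i<d} c_i t^i`. -/
def lo (t : K) {d : ℕ} (c : Fin d → F) : K := ∑ i : Fin d, c i • t ^ (i : ℕ)

/-- the monic element `t^d + sum_{i<d} c_i t^i`. -/
def el (t : K) {d : ℕ} (c : Fin d → F) : K := t ^ d + lo t c

/-- the power sum `S_d(s)` over monic elements of degree `d`. -/
noncomputable def SS (F : Type*) [Field F] [Fintype F] [Algebra F K] (t : K) (d s : ℕ) : K :=
  ∑ c : Fin d → F, ((el t c)⁻¹) ^ s

include hq ht in
theorem Ev_lo {d : ℕ} (c : Fin d → F) : Ev q t d (lo t c) = 0 := by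
  rw [lo, Ev_sum hq]
  refine sum_eq_zero fun i _ => ?_
  rw [Ev_smul hq, Ev_tpow hq ht _ _ i.2, smul_zero]

include hq ht in
theorem Ev_el {d : ℕ} (c : Fin d → F) : Ev q t d (el t c) = 1 := by
  rw [el, Ev_add hq, Ev_lo hq ht, Ev_tpow_self hq ht, add_zero]

/-- the Carlitz polynomial as a polynomial. -/
noncomputable def EP (q : ℕ) (t : K) (d : ℕ) : K[X] :=
  ∑ i ∈ range (d + 1), C (ee q t d i) * X ^ (q ^ i)

theorem EP_eval (d : ℕ) (y : K) : (EP q t d).eval y = Ev q t d y := by
  simp [EP, Ev, eval_finsetSum]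

theorem EP_deg (hq0 : 0 < q) (d : ℕ) : (EP q t d).natDegree ≤ q ^ d := by
  refine natDegree_sum_le_of_forall_le _ _ fun i hi => ?_
  refine (natDegree_C_mul_X_pow_le _ _).trans ?_
  exact Nat.pow_le_pow_right hq0 (by simpa [Nat.lt_succ_iff] using hi)

theorem EP_coeff (hq1 : 1 < q) (d n : ℕ) :
    (EP q t d).coeff n = if q ^ (Nat.log q n) = n then ee q t d (Nat.log q n) else 0 := by
  simp only [EP, finsetSum_coeff, coeff_C_mul, coeff_X_pow, mul_ite, mul_one, mul_zero]
  split_ifs with h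
  · rcases Nat.lt_or_ge d (Nat.log q n) with h1 | h1
    · rw [ee_zero (by omega) _ _ h1]
      refine sum_eq_zero fun i hi => ?_
      rw [if_neg]
      intro h2
      have h3 : Nat.log q n = i := by rw [h2, Nat.log_pow hq1]
      simp at hi
      omega
    · rw [sum_eq_single (Nat.log q n)]
      · rw [if_pos h.symm]
      · intro b _ hb
        rw [if_neg]
        intro h2
        exact hb (by rw [h2, Nat.log_pow hq1])
      · intro h2
        simp at h2
        omega
  · refine sum_eq_zero fun i hi => ?_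
    rw [if_neg]
    intro h2
    apply h
    rw [h2, Nat.log_pow hq1]

include hq in
theorem EP_deriv (d : ℕ) : derivative (EP q t d) = C (ee q t d 0) := by
  simp only [EP, derivative_sum, derivative_C_mul_X_pow]
  rw [sum_range_succ', sum_eq_zero, zero_add]
  · simp
  · intro i _
    rw [Nat.cast_pow, pow_succ, cast_q hq]
    simp

end carlitz

section logder

/-- the generating function of the powers of `u`. -/
noncomputable def geo (u : K) : PowerSeries K := PowerSeries.mk fun n => u ^ (n + 1)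

theorem geo_mul (u : K) : geo u * ((1 - C u * X : K[X]) : PowerSeries K) = PowerSeries.C u := by
  ext n
  have e : ((1 - C u * X : K[X]) : PowerSeries K) = 1 - PowerSeries.C u * PowerSeries.X := by
    simp
  rw [e, mul_sub, mul_one, map_sub]
  rcases n with _ | n
  · simp [geo]
  · rw [← mul_assoc, PowerSeries.coeff_succ_mul_X, mul_comm (geo u), PowerSeries.coeff_C_mul,
      PowerSeries.coeff_C]
    simp only [geo, PowerSeries.coeff_mk, Nat.succ_ne_zero, if_false]
    ring

theorem logder {ι : Type*} [DecidableEq ι] (s : Finset ι) (u : ι → K) :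
    (∑ i ∈ s, geo (u i)) * ((∏ i ∈ s, (1 - C (u i) * X) : K[X]) : PowerSeries K)
      = - ((derivative (∏ i ∈ s, (1 - C (u i) * X)) : K[X]) : PowerSeries K) := by
  rw [derivative_prod_finset, sum_mul]
  have h2 : ∀ i, derivative (1 - C (u i) * X : K[X]) = - C (u i) := by
    intro i
    simp
  simp only [h2]
  have h3 : (-((∑ x ∈ s, (∏ j ∈ s.erase x, (1 - C (u j) * X)) * -C (u x) : K[X]) : PowerSeries K))
      = ∑ x ∈ s, PowerSeries.C (u x) * ((∏ j ∈ s.erase x, (1 - C (u j) * X) : K[X]) : PowerSeries K) := by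
    simp only [mul_neg, sum_neg_distrib, Polynomial.coe_neg, neg_neg]
    rw [← Polynomial.coeToPowerSeries.ringHom_apply, map_sum]
    refine sum_congr rfl fun i _ => ?_
    rw [Polynomial.coeToPowerSeries.ringHom_apply, Polynomial.coe_mul, Polynomial.coe_C, mul_comm]
  rw [h3]
  refine sum_congr rfl fun i hi => ?_
  rw [← mul_prod_erase s _ hi, Polynomial.coe_mul, ← mul_assoc, geo_mul]

end logder

end Pool.Agent.R316.Ff
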