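import Pool.Agent.R316.FfA

/-!
Closed forms: `S_d(s) = h_{s-1}(z_d)/ell_d^s` and `S_{<d}(s) = delta_s(z_d)/ell_d^s` when
`(q-1) | s`.
-/

open Polynomial Finset

namespace Pool.Agent.R316.Ff

variable {K : Type*} [Field K]

section trans
variable {F : Type*} [Field F] [Algebra F K] {t : K}

theorem lo_inj (ht : Transcendental F t) {d : ℕ} (c : Fin d → F) (h : lo t c = 0) : c = 0 := by
  by_contra hc
  apply ht
  refine ⟨∑ i : Fin d, C (c i) * X ^ (i : ℕ), ?_, ?_⟩
  · intro h0
    apply hc
    ext j
    have h1 := congrArg (fun p => coeff p (j : ℕ)) h0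
    simp only [finsetSum_coeff, coeff_C_mul, coeff_X_pow, mul_ite, mul_one, mul_zero,
      coeff_zero] at h1
    rw [sum_eq_single j] at h1
    · simpa using h1
    · intro b _ hb
      rw [if_neg]
      intro h2
      exact hb (Fin.ext h2.symm)
    · simp
  · rw [map_sum, ← h, lo]
    refine sum_congr rfl fun i _ => ?_
    rw [map_mul, aeval_C, map_pow, aeval_X, Algebra.smul_def]

theorem lo_sub {d : ℕ} (c c' : Fin d → F) : lo t (c - c') = lo t c - lo t c' := by
  simp [lo, sub_smul, sum_sub_distrib]

theorem lo_snoc {d : ℕ} (c : Fin d → F) (a : F) :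
    lo t (Fin.snoc c a : Fin (d + 1) → F) = a • t ^ d + lo t c := by
  rw [lo, Fin.sum_univ_castSucc]
  simp [lo, Fin.snoc_castSucc, Fin.snoc_last, add_comm]

theorem lo_smul {d : ℕ} (c : Fin d → F) (a : F) : lo t (a • c) = a • lo t c := by
  simp [lo, smul_sum, mul_smul]

theorem lo_zero {d : ℕ} : lo t (0 : Fin d → F) = 0 := by
  simp [lo]

theorem el_eq_snoc {d : ℕ} (c : Fin d → F) :
    el t c = lo t (Fin.snoc c (1 : F) : Fin (d + 1) → F) := by
  rw [lo_snoc, one_smul, el]

theorem el_ne (ht : Transcendental F t) {d : ℕ} (c : Fin d → F) : el t c ≠ 0 := by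
  intro h
  rw [el_eq_snoc] at h
  have h2 := congrFun (lo_inj ht _ h) (Fin.last d)
  simp at h2

theorem el_inj (ht : Transcendental F t) {d : ℕ} : Function.Injective (el t (F := F) (d := d)) := by
  intro c c' h
  have h1 : lo t (c - c') = 0 := by
    rw [lo_sub]
    have := h
    simp only [el, add_right_inj] at this
    rw [this, sub_self]
  exact sub_eq_zero.mp (lo_inj ht _ h1)

theorem tne (ht : Transcendental F t) {q : ℕ} (hq1 : 1 < q) (i : ℕ) (hi : 0 < i) :
    t ^ (q ^ i) ≠ t := by
  intro h
  apply ht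
  refine ⟨X ^ (q ^ i) - X, ?_, by simp [h]⟩
  have : 1 < q ^ i := Nat.one_lt_pow hi.ne' hq1
  exact FiniteField.X_pow_card_sub_X_ne_zero F this

end trans

section prods
variable {F : Type*} [Field F] [Fintype F] [Algebra F K] {q : ℕ} (hq : Fintype.card F = q)
  {t : K} (ht : Transcendental F t)

include hq in
theorem q1 : 1 < q := by rw [← hq]; exact Fintype.one_lt_card

include hq ht in
theorem tnq (i : ℕ) (hi : 0 < i) : t ^ (q ^ i) ≠ t := tne ht (q1 hq) i hi

include hq ht in
theorem prod_el (d : ℕ) :
    (∏ c : Fin d → F, (1 - C ((el t c)⁻¹) * X) : K[X]) = 1 - EP q t d := by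
  classical
  have hq1 := q1 hq
  have hcard : Fintype.card (Fin d → F) = q ^ d := by simp [hq]
  refine Polynomial.eq_of_degrees_lt_of_eval_index_eq (s := (Finset.univ : Finset (Option (Fin d → F))))
    (v := fun o => match o with | none => (0 : K) | some c => el t c) ?_ ?_ ?_ ?_
  · intro a _ b _ hab
    rcases a with _ | a <;> rcases b with _ | b
    · rfl
    · exact absurd hab.symm (el_ne ht b)
    · exact absurd hab (el_ne ht a)
    · exact congrArg some (el_inj ht hab)
  · rw [card_univ, Fintype.card_option, hcard]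
    refine lt_of_le_of_lt degree_le_natDegree ?_
    rw [Nat.cast_lt]
    refine Nat.lt_succ_of_le ?_
    refine (natDegree_prod_le _ _).trans ?_
    rw [← hcard, ← card_univ, card_eq_sum_ones]
    refine sum_le_sum fun c _ => ?_
    refine (natDegree_sub_le _ _).trans ?_
    simp only [natDegree_one]
    refine max_le (by simp) ?_
    simpa using natDegree_C_mul_X_pow_le ((el t c)⁻¹) 1
  · rw [card_univ, Fintype.card_option, hcard]
    refine lt_of_le_of_lt degree_le_natDegree ?_
    rw [Nat.cast_lt]
    refine Nat.lt_succ_of_le ?_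
    refine (natDegree_sub_le _ _).trans ?_
    simp only [natDegree_one]
    exact max_le (by simp) (EP_deg (by omega) d)
  · intro o _
    rcases o with _ | c
    · simp only [eval_prod, eval_sub, eval_one, eval_mul, eval_C, eval_X, mul_zero, sub_zero,
        prod_const_one, EP_eval, Ev_zero hq]
    · simp only [eval_sub, eval_one, EP_eval, Ev_el hq (tnq hq ht), sub_self]
      rw [eval_prod]
      refine prod_eq_zero (mem_univ c) ?_
      simp [inv_mul_cancel₀ (el_ne ht c)]

/-- `x psi(x)/x`-type polynomial `ell_d E_d(x)/x`. -/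
noncomputable def PP (q : ℕ) (t : K) (d : ℕ) : K[X] :=
  ∑ i ∈ range (d + 1), C (ell q t d * ee q t d i) * X ^ (q ^ i - 1)

theorem PP_mul (hq0 : 0 < q) (d : ℕ) : X * PP q t d = C (ell q t d) * EP q t d := by
  simp only [PP, EP, mul_sum]
  refine sum_congr rfl fun i _ => ?_
  have : X ^ (q ^ i) = (X * X ^ (q ^ i - 1) : K[X]) := by
    rw [← pow_succ', Nat.sub_add_cancel (Nat.pow_pos hq0)]
  rw [this, C_mul]
  ring

include hq ht in
theorem prod_lo [DecidableEq F] (d : ℕ) :
    (∏ c ∈ (univ.erase (0 : Fin d → F)), (1 - C ((lo t c)⁻¹) * X) : K[X]) = PP q t d := by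
  have hq1 := q1 hq
  have hcard : (univ : Finset (Fin d → F)).card = q ^ d := by simp [hq]
  refine Polynomial.eq_of_degrees_lt_of_eval_index_eq (s := (Finset.univ : Finset (Fin d → F)))
    (v := fun c => lo t c) ?_ ?_ ?_ ?_
  · intro a _ b _ hab
    have hab' : lo t (a - b) = 0 := by rw [lo_sub]; exact sub_eq_zero.mpr hab
    exact sub_eq_zero.mp (lo_inj ht _ hab')
  · rw [hcard]
    refine lt_of_le_of_lt degree_le_natDegree ?_
    rw [Nat.cast_lt]
    refine lt_of_le_of_lt (b := (univ.erase (0 : Fin d → F)).card) ?_ ?_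
    · refine (natDegree_prod_le _ _).trans ?_
      rw [card_eq_sum_ones]
      refine sum_le_sum fun c _ => ?_
      refine (natDegree_sub_le _ _).trans ?_
      simp only [natDegree_one]
      refine max_le (by simp) ?_
      simpa using natDegree_C_mul_X_pow_le ((lo t c)⁻¹) 1
    · rw [← hcard]
      exact card_erase_lt_of_mem (mem_univ _)
  · rw [hcard]
    refine lt_of_le_of_lt degree_le_natDegree ?_
    rw [Nat.cast_lt]
    have hpos : 0 < q ^ d := Nat.pow_pos (by omega)
    refine lt_of_le_of_lt (b := q ^ d - 1) ?_ (by omega)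
    refine natDegree_sum_le_of_forall_le _ _ fun i hi => ?_
    refine (natDegree_C_mul_X_pow_le _ _).trans ?_
    refine Nat.sub_le_sub_right ?_ 1
    exact Nat.pow_le_pow_right (by omega) (by simpa [Nat.lt_succ_iff] using hi)
  · intro c _
    by_cases hc : c = 0
    · subst hc
      rw [lo_zero, eval_prod]
      simp only [eval_sub, eval_one, eval_mul, eval_C, eval_X, mul_zero, sub_zero,
        prod_const_one]
      simp only [PP, eval_finsetSum, eval_mul, eval_C, eval_pow, eval_X]
      rw [sum_eq_single 0]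
      · simp [ee, mul_inv_cancel₀ (ell_ne (tnq hq ht) d)]
      · intro i _ hi
        have : 1 < q ^ i := Nat.one_lt_pow hi hq1
        rw [zero_pow (by omega), mul_zero]
      · simp
    · have hl : lo t c ≠ 0 := fun h => hc (lo_inj ht _ h)
      have h1 : (PP q t d).eval (lo t c) = 0 := by
        have h2 := congrArg (eval (lo t c)) (PP_mul (t := t) (show 0 < q by omega) d)
        rw [eval_mul, eval_mul, eval_X, eval_C, EP_eval, Ev_lo hq (tnq hq ht), mul_zero] at h2
        exact (mul_eq_zero.mp h2).resolve_left hl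
      rw [h1, eval_prod]
      refine prod_eq_zero (mem_erase.mpr ⟨hc, mem_univ c⟩) ?_
      simp [inv_mul_cancel₀ hl]

include hq ht in
/-- the generating series of `S_d`. -/
theorem gen_S (d : ℕ) :
    PowerSeries.mk (fun n => SS F t d (n + 1)) * ((1 - EP q t d : K[X]) : PowerSeries K)
      = PowerSeries.C ((ell q t d)⁻¹) := by
  classical
  have h := logder (univ : Finset (Fin d → F)) (fun c => (el t c)⁻¹)
  rw [prod_el hq ht] at h
  have e1 : (∑ c : Fin d → F, geo ((el t c)⁻¹)) = PowerSeries.mk (fun n => SS F t d (n + 1)) := by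
    ext n
    simp [geo, SS]
  rw [e1] at h
  rw [h, derivative_sub, derivative_one, zero_sub, EP_deriv hq, Polynomial.coe_neg, neg_neg,
    Polynomial.coe_C, ee]

include hq ht in
theorem gen_T [DecidableEq F] (d : ℕ) :
    (PowerSeries.X * (∑ c ∈ (univ.erase (0 : Fin d → F)), geo ((lo t c)⁻¹)))
      * ((PP q t d : K[X]) : PowerSeries K) = ((PP q t d : K[X]) : PowerSeries K) - 1 := by
  have hq0 : 0 < q := by have := q1 hq; omega
  have h := logder (univ.erase (0 : Fin d → F)) (fun c => (lo t c)⁻¹)
  rw [prod_lo hq ht] at h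
  rw [mul_assoc, h]
  have h2 := congrArg derivative (PP_mul (t := t) hq0 d)
  rw [derivative_mul, derivative_X, one_mul, derivative_C_mul, EP_deriv hq, ← C_mul, ee,
    mul_inv_cancel₀ (ell_ne (tnq hq ht) d), C_1] at h2
  have h3 : X * -derivative (PP q t d) = PP q t d - 1 := by
    linear_combination -h2
  have h4 := congrArg (fun p : K[X] => (p : PowerSeries K)) h3
  simpa using h4

end prods

end Pool.Agent.R316.Ff
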