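import Pool.Agent.R316.FfB

/-!
The universal polynomials `g_i`, `h_n`, `delta_s` in the variable `A`.
-/

open Polynomial Finset

namespace Pool.Agent.R316.Ff

variable {K : Type*} [Field K]

section sums
variable {F : Type*} [Field F] [Fintype F] [Algebra F K] {q : ℕ} (hq : Fintype.card F = q)
  {t : K} (ht : Transcendental F t)

include hq in
/-- power sums over all elements of degree less than `d`. -/
theorem TT_succ (d s : ℕ) (hs : 0 < s) (hqs : (q - 1) ∣ s) :
    (∑ c : Fin (d + 1) → F, ((lo t c)⁻¹) ^ s)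
      = (∑ c : Fin d → F, ((lo t c)⁻¹) ^ s) - SS F t d s := by
  classical
  have hq1 := q1 hq
  rw [← (Fin.snocEquiv (fun _ : Fin (d + 1) => F)).sum_comp, Fintype.sum_prod_type]
  simp only [Fin.snocEquiv, Equiv.coe_fn_mk]
  have e2 : (∑ a : F, ∑ c : Fin d → F, ((a • t ^ d + lo t c)⁻¹) ^ s)
      = (∑ c : Fin d → F, ((lo t c)⁻¹) ^ s) - SS F t d s := by
    rw [← add_sum_erase _ _ (mem_univ (0 : F))]
    simp only [zero_smul, zero_add]
    rw [sub_eq_add_neg]
    congr 1
    have e3 : ∀ a ∈ univ.erase (0 : F),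
        (∑ c : Fin d → F, ((a • t ^ d + lo t c)⁻¹) ^ s) = SS F t d s := by
      intro a ha
      have ha0 : a ≠ 0 := (mem_erase.mp ha).1
      rw [SS]
      refine (Fintype.sum_equiv (MulAction.toPerm (Units.mk0 a ha0) : Equiv.Perm (Fin d → F)) _ _ ?_).symm
      intro c
      have : (MulAction.toPerm (Units.mk0 a ha0) : Equiv.Perm (Fin d → F)) c = a • c := rfl
      rw [this, lo_smul, ← smul_add, el]
      rw [Algebra.smul_def, mul_inv, mul_pow, inv_pow (algebraMap F K a)]
      have h1 : (algebraMap F K a) ^ s = 1 := by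
        obtain ⟨k, rfl⟩ := hqs
        rw [← map_pow, pow_mul]
        have := FiniteField.pow_card_sub_one_eq_one a ha0
        rw [hq] at this
        rw [this, one_pow, map_one]
      rw [h1, inv_one, one_mul]
    rw [sum_congr rfl e3, sum_const, card_erase_of_mem (mem_univ _), card_univ, hq, nsmul_eq_mul,
      Nat.cast_sub (by omega), cast_q (R := K) hq]
    simp
  rw [← e2]
  refine sum_congr rfl fun a _ => sum_congr rfl fun c _ => ?_
  rw [← lo_snoc]

include hq in
theorem TT_eq (d s : ℕ) (hs : 0 < s) (hqs : (q - 1) ∣ s) :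
    (∑ c : Fin d → F, ((lo t c)⁻¹) ^ s) = - ∑ e ∈ range d, SS F t e s := by
  induction d with
  | zero => simp [lo, hs.ne']
  | succ d ih => rw [TT_succ hq d s hs hqs, ih, sum_range_succ]; ring

end sums

/-- the polynomials `g_i(A)`. -/
noncomputable def g (q : ℕ) (t : K) : ℕ → K[X]
  | 0 => 1
  | i + 1 => (g q t i) ^ q * (1 - (1 - X) * C (br q t 1 / br q t (i + 1)))

/-- `psi = sum g_i x^(q^i)`. -/
noncomputable def psi (q : ℕ) (t : K) : PowerSeries K[X] :=
  PowerSeries.mk fun n => if q ^ (Nat.log q n) = n then g q t (Nat.log q n) else 0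

/-- `1/(1-psi)`. -/
noncomputable def hS (q : ℕ) (t : K) : PowerSeries K[X] := PowerSeries.invOfUnit (1 - psi q t) 1

/-- the coefficients of `1/(1-psi)`. -/
noncomputable def hh (q : ℕ) (t : K) (n : ℕ) : K[X] := PowerSeries.coeff n (hS q t)

/-- `psi/x`. -/
noncomputable def phi (q : ℕ) (t : K) : PowerSeries K[X] :=
  PowerSeries.mk fun n => PowerSeries.coeff (n + 1) (psi q t)

/-- `x/psi`. -/
noncomputable def dS (q : ℕ) (t : K) : PowerSeries K[X] := PowerSeries.invOfUnit (phi q t) 1

/-- the coefficients of `x/psi`. -/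
noncomputable def dd (q : ℕ) (t : K) (n : ℕ) : K[X] := PowerSeries.coeff n (dS q t)

theorem psi_coeff (q : ℕ) (t : K) (n : ℕ) : PowerSeries.coeff n (psi q t)
    = if q ^ (Nat.log q n) = n then g q t (Nat.log q n) else 0 := by
  simp [psi]

theorem psi_zero (q : ℕ) (t : K) : PowerSeries.coeff 0 (psi q t) = 0 := by
  simp [psi]

theorem psi_one (q : ℕ) (t : K) : PowerSeries.coeff 1 (psi q t) = 1 := by
  simp [psi, g]

theorem hS_mul (q : ℕ) (t : K) : (1 - psi q t) * hS q t = 1 := by
  refine PowerSeries.mul_invOfUnit _ _ ?_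
  rw [map_sub, map_one, ← PowerSeries.coeff_zero_eq_constantCoeff_apply, psi_zero]
  simp

theorem dS_mul (q : ℕ) (t : K) : phi q t * dS q t = 1 := by
  refine PowerSeries.mul_invOfUnit _ _ ?_
  rw [← PowerSeries.coeff_zero_eq_constantCoeff_apply, phi, PowerSeries.coeff_mk, zero_add, psi_one]
  simp

theorem X_mul_phi (q : ℕ) (t : K) : PowerSeries.X * phi q t = psi q t := by
  ext1 n
  rcases n with _ | n
  · simp [psi_zero]
  · rw [PowerSeries.coeff_succ_X_mul, phi, PowerSeries.coeff_mk]

/-- the value of `A` at `z_d`. -/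
def AA (q : ℕ) (t : K) (d : ℕ) : K := - (t ^ (q ^ (d + 1)) - t ^ q) / br q t 1

section evals
variable {F : Type*} [Field F] [Fintype F] [Algebra F K] {q : ℕ} (hq : Fintype.card F = q)
  {t : K} (ht : Transcendental F t)

include hq ht in
theorem g_eval (d i : ℕ) : (g q t i).eval (AA q t d) = (ell q t d) ^ (q ^ i) * ee q t d i := by
  have hb : ∀ i, br q t (i + 1) ≠ 0 := fun i => br_ne (tnq hq ht) _ (Nat.succ_pos _)
  induction i with
  | zero => simp [g, ee, mul_inv_cancel₀ (ell_ne (tnq hq ht) d)]
  | succ i ih =>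
    have h1 := hb 0
    have h2 := hb i
    rw [g, eval_mul, eval_pow, ih, mul_pow, ← pow_mul, ← pow_succ]
    simp only [eval_sub, eval_one, eval_mul, eval_X, eval_C, ee]
    have e : (1 - (1 - AA q t d) * (br q t 1 / br q t (i + 1)))
        = (t ^ (q ^ (i + 1)) - t ^ (q ^ (d + 1))) / br q t (i + 1) := by
      rw [eq_div_iff h2]
      simp only [AA]
      rw [zero_add] at h1
      field_simp
      simp only [br, pow_one]
      ring
    rw [e]
    ring

include hq ht in
theorem map_psi (d : ℕ) : PowerSeries.map (evalRingHom (AA q t d)) (psi q t)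
    = PowerSeries.rescale (ell q t d) ((EP q t d : K[X]) : PowerSeries K) := by
  ext n
  rw [PowerSeries.coeff_map, PowerSeries.coeff_rescale, Polynomial.coeff_coe, psi_coeff,
    EP_coeff (q1 hq)]
  split_ifs with h
  · rw [coe_evalRingHom, g_eval hq ht, h]
  · simp

include hq ht in
theorem map_hS (d : ℕ) : PowerSeries.map (evalRingHom (AA q t d)) (hS q t)
    = PowerSeries.mk fun n => (ell q t d) ^ (n + 1) * SS F t d (n + 1) := by
  have h1 := congrArg (PowerSeries.map (evalRingHom (AA q t d))) (hS_mul q t)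
  rw [map_mul, map_sub, map_one, map_psi hq ht] at h1
  have h2 := congrArg (PowerSeries.rescale (ell q t d)) (gen_S hq ht d)
  rw [map_mul] at h2
  have h3 : PowerSeries.rescale (ell q t d) ((1 - EP q t d : K[X]) : PowerSeries K)
      = 1 - PowerSeries.rescale (ell q t d) ((EP q t d : K[X]) : PowerSeries K) := by
    rw [Polynomial.coe_sub, Polynomial.coe_one, map_sub, map_one]
  rw [h3] at h2
  have h4 : PowerSeries.rescale (ell q t d) (PowerSeries.C ((ell q t d)⁻¹))
      = PowerSeries.C ((ell q t d)⁻¹) := by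
    ext n
    rw [PowerSeries.coeff_rescale, PowerSeries.coeff_C]
    split_ifs with h
    · subst h; simp
    · simp
  rw [h4] at h2
  have h5 : (PowerSeries.mk fun n => (ell q t d) ^ (n + 1) * SS F t d (n + 1))
      = PowerSeries.C (ell q t d) * PowerSeries.rescale (ell q t d)
        (PowerSeries.mk fun n => SS F t d (n + 1)) := by
    ext n
    rw [PowerSeries.coeff_C_mul, PowerSeries.coeff_rescale, PowerSeries.coeff_mk,
      PowerSeries.coeff_mk]
    ring
  have h6 : PowerSeries.C (ell q t d) * PowerSeries.C ((ell q t d)⁻¹) = (1 : PowerSeries K) := by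
    rw [← map_mul, mul_inv_cancel₀ (ell_ne (tnq hq ht) d), map_one]
  rw [h5]
  set U := PowerSeries.rescale (ell q t d) ((EP q t d : K[X]) : PowerSeries K)
  set V := PowerSeries.rescale (ell q t d) (PowerSeries.mk fun n => SS F t d (n + 1))
  set W := (PowerSeries.map (evalRingHom (AA q t d))) (hS q t)
  calc W = W * (PowerSeries.C (ell q t d) * (V * (1 - U))) := by rw [h2, h6, mul_one]
    _ = (PowerSeries.C (ell q t d) * V) * ((1 - U) * W) := by ring
    _ = _ := by rw [h1, mul_one]

include hq ht in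
/-- the closed form of `S_d(n+1)`. -/
theorem hh_eval (d n : ℕ) :
    (hh q t n).eval (AA q t d) = (ell q t d) ^ (n + 1) * SS F t d (n + 1) := by
  have h := congrArg (PowerSeries.coeff n) (map_hS hq ht d)
  rwa [PowerSeries.coeff_map, PowerSeries.coeff_mk, coe_evalRingHom] at h

include hq ht in
theorem map_phi (d : ℕ) : PowerSeries.map (evalRingHom (AA q t d)) (phi q t)
    = PowerSeries.rescale (ell q t d) ((PP q t d : K[X]) : PowerSeries K) := by
  have hq0 : 0 < q := by have := q1 hq; omega
  have h1 : (PowerSeries.X : PowerSeries K) * PowerSeries.map (evalRingHom (AA q t d)) (phi q t)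
      = PowerSeries.rescale (ell q t d) ((EP q t d : K[X]) : PowerSeries K) := by
    rw [← map_psi hq ht, ← X_mul_phi, map_mul]
    simp
  have h2 := congrArg (fun p : K[X] => PowerSeries.rescale (ell q t d) (p : PowerSeries K))
    (PP_mul (t := t) hq0 d)
  simp only [Polynomial.coe_mul, map_mul, Polynomial.coe_X, Polynomial.coe_C,
    PowerSeries.rescale_X] at h2
  have h4 : PowerSeries.rescale (ell q t d) (PowerSeries.C (ell q t d))
      = PowerSeries.C (ell q t d) := by
    ext n
    rw [PowerSeries.coeff_rescale, PowerSeries.coeff_C]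
    split_ifs with h
    · subst h; simp
    · simp
  rw [h4, ← h1, mul_assoc] at h2
  have hC : (PowerSeries.C (ell q t d) : PowerSeries K) ≠ 0 := by
    rw [Ne, map_eq_zero_iff _ PowerSeries.C_injective]
    exact ell_ne (tnq hq ht) d
  have h5 := mul_left_cancel₀ hC h2
  exact (mul_left_cancel₀ PowerSeries.X_ne_zero h5).symm

include hq ht in
/-- the closed form of `S_{<d}(s)` for `s` divisible by `q-1`. -/
theorem dd_eval (d s : ℕ) (hs : 0 < s) (hqs : (q - 1) ∣ s) :
    (dd q t s).eval (AA q t d) = (ell q t d) ^ s * ∑ e ∈ range d, SS F t e s := by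
  classical
  have h1 := congrArg (PowerSeries.map (evalRingHom (AA q t d))) (dS_mul q t)
  rw [map_mul, map_one, map_phi hq ht] at h1
  have h2 := congrArg (PowerSeries.rescale (ell q t d)) (gen_T hq ht d)
  rw [map_mul, map_sub, map_one] at h2
  set P := PowerSeries.rescale (ell q t d) ((PP q t d : K[X]) : PowerSeries K)
  set D := (PowerSeries.map (evalRingHom (AA q t d))) (dS q t) with hD
  set G := PowerSeries.rescale (ell q t d)
    (PowerSeries.X * ∑ c ∈ (univ.erase (0 : Fin d → F)), geo ((lo t c)⁻¹)) with hG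
  have h3 : D = 1 - G := by
    calc D = P * D - (P - 1) * D := by ring
      _ = P * D - G * (P * D) := by rw [← h2]; ring
      _ = 1 - G := by rw [h1, mul_one]
  have h4 := congrArg (PowerSeries.coeff s) h3
  obtain ⟨m, rfl⟩ : ∃ m, s = m + 1 := ⟨s - 1, by omega⟩
  rw [hD, PowerSeries.coeff_map, coe_evalRingHom, map_sub, hG, PowerSeries.coeff_rescale,
    PowerSeries.coeff_succ_X_mul, map_sum, PowerSeries.coeff_one, if_neg (Nat.succ_ne_zero m),
    zero_sub] at h4
  rw [dd, h4]
  have h5 : (∑ c ∈ univ.erase (0 : Fin d → F), PowerSeries.coeff m (geo ((lo t c)⁻¹)))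
      = ∑ c : Fin d → F, ((lo t c)⁻¹) ^ (m + 1) := by
    simp only [geo, PowerSeries.coeff_mk]
    rw [← add_sum_erase _ _ (mem_univ (0 : Fin d → F)), lo_zero]
    simp
  rw [h5, TT_eq hq d (m + 1) hs hqs]
  ring

end evals

end Pool.Agent.R316.Ff
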