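import Pool.Agent.R316.FfC

/-!
Gauss norms and degrees of the universal polynomials.
-/

set_option linter.unusedSectionVars false

open Polynomial Finset

namespace Pool.Agent.R316.Ff

section gauss
variable {K : Type*} [NormedField K] [IsUltrametricDist K]

theorem norm_sum_lt {C : ℝ} (hC : 0 < C) {ι : Type*} (s : Finset ι) (f : ι → K)
    (h : ∀ i ∈ s, ‖f i‖ < C) : ‖∑ i ∈ s, f i‖ < C := by
  classical
  induction s using Finset.induction_on with
  | empty => simpa using hC
  | insert a s ha ih =>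
    rw [sum_insert ha]
    refine lt_of_le_of_lt (IsUltrametricDist.norm_add_le_max _ _) (max_lt ?_ ?_)
    · exact h a (mem_insert_self _ _)
    · exact ih fun i hi => h i (mem_insert_of_mem hi)

/-- all coefficients have norm at most `M`. -/
def GB (M : ℝ) (p : K[X]) : Prop := ∀ i, ‖p.coeff i‖ ≤ M

theorem GB.add {M : ℝ} {p r : K[X]} (hp : GB M p) (hr : GB M r) : GB M (p + r) := by
  intro i
  rw [coeff_add]
  exact (IsUltrametricDist.norm_add_le_max _ _).trans (max_le (hp i) (hr i))

theorem GB.neg {M : ℝ} {p : K[X]} (hp : GB M p) : GB M (-p) := by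
  intro i
  rw [coeff_neg, norm_neg]
  exact hp i

theorem GB.sub {M : ℝ} {p r : K[X]} (hp : GB M p) (hr : GB M r) : GB M (p - r) := by
  rw [sub_eq_add_neg]; exact hp.add hr.neg

theorem GB.mono {M N : ℝ} (h : M ≤ N) {p : K[X]} (hp : GB M p) : GB N p :=
  fun i => (hp i).trans h

theorem GB.sum {M : ℝ} (hM : 0 ≤ M) {ι : Type*} (s : Finset ι) (f : ι → K[X])
    (h : ∀ i ∈ s, GB M (f i)) : GB M (∑ i ∈ s, f i) := by
  intro i
  rw [finsetSum_coeff]
  exact IsUltrametricDist.norm_sum_le_of_forall_le_of_nonneg hM fun j hj => h j hj i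

theorem GB.mul {M N : ℝ} (hM : 0 ≤ M) (hN : 0 ≤ N) {p r : K[X]} (hp : GB M p) (hr : GB N r) :
    GB (M * N) (p * r) := by
  intro i
  rw [coeff_mul]
  refine IsUltrametricDist.norm_sum_le_of_forall_le_of_nonneg (mul_nonneg hM hN) fun j _ => ?_
  rw [norm_mul]
  exact mul_le_mul (hp _) (hr _) (norm_nonneg _) hM

theorem GB.mul1 {p r : K[X]} (hp : GB 1 p) (hr : GB 1 r) : GB 1 (p * r) := by
  simpa using hp.mul zero_le_one zero_le_one hr

theorem GB.C {M : ℝ} (hM : 0 ≤ M) {a : K} (h : ‖a‖ ≤ M) : GB M (C a) := by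
  intro i
  rw [coeff_C]
  split_ifs
  · exact h
  · simpa using hM

theorem GB.one : GB 1 (1 : K[X]) := by
  have : (1 : K[X]) = Polynomial.C 1 := by simp
  rw [this]
  exact GB.C zero_le_one (by simp)

theorem GB.zero {M : ℝ} (hM : 0 ≤ M) : GB M (0 : K[X]) := by
  intro i; simpa using hM

theorem GB.X : GB 1 (X : K[X]) := by
  intro i
  rw [coeff_X]
  split_ifs <;> simp

theorem GB.pow {p : K[X]} (hp : GB 1 p) (n : ℕ) : GB 1 (p ^ n) := by
  induction n with
  | zero => simpa using GB.one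
  | succ n ih => rw [pow_succ]; exact ih.mul1 hp

end gauss

section br
variable {K : Type*} [NormedField K] [IsUltrametricDist K] {q : ℕ} (hq1 : 1 < q) {t : K}
  (ht : 1 < ‖t‖)

theorem norm_sub_of_lt {x y : K} (h : ‖y‖ < ‖x‖) : ‖x - y‖ = ‖x‖ := by
  rw [sub_eq_add_neg, IsUltrametricDist.norm_add_eq_max_of_norm_ne_norm, norm_neg, max_eq_left h.le]
  rw [norm_neg]; exact h.ne'

theorem norm_add_of_lt {x y : K} (h : ‖y‖ < ‖x‖) : ‖x + y‖ = ‖x‖ := by
  rw [IsUltrametricDist.norm_add_eq_max_of_norm_ne_norm h.ne', max_eq_left h.le]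

include hq1 ht in
theorem norm_br (i : ℕ) (hi : 0 < i) : ‖br q t i‖ = ‖t‖ ^ (q ^ i) := by
  have h1 : 1 < q ^ i := Nat.one_lt_pow hi.ne' hq1
  rw [br, norm_sub_of_lt, norm_pow]
  rw [norm_pow]
  calc ‖t‖ = ‖t‖ ^ 1 := (pow_one _).symm
    _ < ‖t‖ ^ (q ^ i) := pow_lt_pow_right₀ ht h1

include hq1 ht in
theorem norm_c (i : ℕ) : ‖br q t 1 / br q t (i + 1)‖ ≤ 1 := by
  rw [norm_div, norm_br hq1 ht 1 one_pos, norm_br hq1 ht (i + 1) (Nat.succ_pos _)]
  rw [div_le_one (by positivity)]
  exact pow_le_pow_right₀ ht.le (Nat.pow_le_pow_right (by omega) (by omega))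

include hq1 ht in
theorem norm_c_lt (i : ℕ) (hi : 0 < i) : ‖br q t 1 / br q t (i + 1)‖ < 1 := by
  rw [norm_div, norm_br hq1 ht 1 one_pos, norm_br hq1 ht (i + 1) (Nat.succ_pos _)]
  rw [div_lt_one (by positivity)]
  exact pow_lt_pow_right₀ ht (Nat.pow_lt_pow_right hq1 (by omega))

include hq1 ht in
theorem br_ne' (i : ℕ) : br q t (i + 1) ≠ 0 := by
  intro h
  have := norm_br hq1 ht (i + 1) (Nat.succ_pos _)
  rw [h, norm_zero] at this
  have h2 : 0 < ‖t‖ ^ (q ^ (i + 1)) := by positivity
  rw [← this] at h2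
  exact lt_irrefl _ h2

/-- the weight function `(q^i-1)/(q-1)`. -/
def wt (q : ℕ) : ℕ → ℕ
  | 0 => 0
  | i + 1 => q * wt q i + 1

omit [IsUltrametricDist K] in
theorem wt_eq (hq1 : 1 < q) (i : ℕ) : (q - 1) * wt q i + 1 = q ^ i := by
  induction i with
  | zero => simp [wt]
  | succ i ih =>
    obtain ⟨r, rfl⟩ : ∃ r, q = r + 1 := ⟨q - 1, by omega⟩
    rw [pow_succ, ← ih, wt]
    simp only [Nat.add_sub_cancel]
    ring

theorem lin_deg (a : K) : (1 - (1 - X) * C a : K[X]).natDegree ≤ 1 := by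
  refine (natDegree_sub_le _ _).trans ?_
  simp only [natDegree_one]
  refine max_le (by simp) ?_
  refine (natDegree_mul_le).trans ?_
  simp only [natDegree_C, add_zero]
  refine (natDegree_sub_le _ _).trans ?_
  simp

theorem lin_coeff (a : K) : (1 - (1 - X) * C a : K[X]).coeff 1 = a := by
  rw [coeff_sub, sub_mul, one_mul, coeff_sub, coeff_C_of_ne_zero one_ne_zero, coeff_X_mul,
    coeff_C_zero, coeff_one, if_neg one_ne_zero]
  ring

theorem lin_coeff0 (a : K) : (1 - (1 - X) * C a : K[X]).coeff 0 = 1 - a := by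
  simp

theorem g_deg (t : K) (i : ℕ) : (g q t i).natDegree ≤ wt q i := by
  induction i with
  | zero => simp [g, wt]
  | succ i ih =>
    rw [g, wt]
    refine natDegree_mul_le.trans (add_le_add ?_ (lin_deg _))
    exact natDegree_pow_le.trans (Nat.mul_le_mul_left _ ih)

include hq1 ht in
theorem g_GB (i : ℕ) : GB 1 (g q t i) := by
  induction i with
  | zero => exact GB.one
  | succ i ih =>
    rw [g]
    refine (ih.pow _).mul1 ?_
    refine GB.one.sub ((GB.one.sub GB.X).mul1 ?_)
    exact GB.C zero_le_one (norm_c hq1 ht i)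

include hq1 ht in
theorem g_one : g q t 1 = X := by
  have h : br q t (0 + 1) ≠ 0 := br_ne' hq1 ht 0
  rw [g, g, one_pow, one_mul]
  simp only [zero_add] at h ⊢
  rw [div_self h]
  simp

include hq1 ht in
theorem g_coeff0 (i : ℕ) : (g q t (i + 1)).coeff 0 = 0 := by
  induction i with
  | zero => rw [zero_add, g_one hq1 ht]; simp
  | succ i ih =>
    rw [g, mul_coeff_zero, coeff_zero_eq_eval_zero, eval_pow, ← coeff_zero_eq_eval_zero, ih,
      zero_pow (by omega), zero_mul]

include hq1 ht in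
theorem g_top (i : ℕ) (hi : 2 ≤ i) : ‖(g q t i).coeff (wt q i)‖ < 1 := by
  obtain ⟨j, rfl⟩ : ∃ j, i = j + 1 := ⟨i - 1, by omega⟩
  rw [g, wt, coeff_mul_add_eq_of_natDegree_le _ (lin_deg _), lin_coeff, norm_mul]
  · calc _ ≤ 1 * ‖br q t 1 / br q t (j + 1)‖ :=
        mul_le_mul_of_nonneg_right (((g_GB hq1 ht j).pow q) _) (norm_nonneg _)
      _ < 1 := by rw [one_mul]; exact norm_c_lt hq1 ht j (by omega)
  · exact natDegree_pow_le.trans (Nat.mul_le_mul_left _ (g_deg t j))

/-- norm bounded by one and degree at most `n/(q-1)`. -/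
def WD (q n : ℕ) (p : K[X]) : Prop := GB 1 p ∧ (q - 1) * p.natDegree ≤ n

theorem WD.mul {q m n : ℕ} {p r : K[X]} (hp : WD q m p) (hr : WD q n r) : WD q (m + n) (p * r) := by
  refine ⟨hp.1.mul1 hr.1, ?_⟩
  refine (Nat.mul_le_mul_left _ natDegree_mul_le).trans ?_
  rw [mul_add]
  exact add_le_add hp.2 hr.2

theorem WD.sum {q n : ℕ} {ι : Type*} (s : Finset ι) (f : ι → K[X])
    (h : ∀ i ∈ s, WD q n (f i)) : WD q n (∑ i ∈ s, f i) := by
  classical
  induction s using Finset.induction_on with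
  | empty => exact ⟨GB.zero zero_le_one, by simp⟩
  | insert a s ha ih =>
    rw [sum_insert ha]
    have h1 := h a (mem_insert_self _ _)
    have h2 := ih fun i hi => h i (mem_insert_of_mem hi)
    refine ⟨h1.1.add h2.1, ?_⟩
    refine (Nat.mul_le_mul_left _ (natDegree_add_le _ _)).trans ?_
    rcases le_total (f a).natDegree (∑ i ∈ s, f i).natDegree with h3 | h3
    · rw [max_eq_right h3]; exact h2.2
    · rw [max_eq_left h3]; exact h1.2

theorem WD.neg {q n : ℕ} {p : K[X]} (hp : WD q n p) : WD q n (-p) :=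
  ⟨hp.1.neg, by rw [natDegree_neg]; exact hp.2⟩

theorem WD.one {q n : ℕ} : WD q n (1 : K[X]) := ⟨GB.one, by simp⟩

theorem WD.mono {q m n : ℕ} (h : m ≤ n) {p : K[X]} (hp : WD q m p) : WD q n p := ⟨hp.1, hp.2.trans h⟩

include hq1 ht in
theorem psi_WD (n : ℕ) : WD q (n - 1) (PowerSeries.coeff n (psi q t)) := by
  rw [psi_coeff]
  split_ifs with h
  · refine ⟨g_GB hq1 ht _, ?_⟩
    have h1 := wt_eq hq1 (Nat.log q n)
    have h2 := Nat.mul_le_mul_left (q - 1) (g_deg (q := q) t (Nat.log q n))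
    omega
  · exact ⟨GB.zero zero_le_one, by simp⟩

include hq1 ht in
theorem phi_WD (n : ℕ) : WD q n (PowerSeries.coeff n (phi q t)) := by
  have := psi_WD hq1 ht (n + 1)
  simpa [phi] using this

theorem hh_rec (q : ℕ) (t : K) (n : ℕ) : hh q t n = (if n = 0 then 1 else 0)
    + ∑ p ∈ antidiagonal n, PowerSeries.coeff p.1 (psi q t) * hh q t p.2 := by
  have h := hS_mul q t
  have h2 : hS q t = 1 + psi q t * hS q t := by linear_combination h
  have h3 := congrArg (PowerSeries.coeff n) h2
  rw [map_add, PowerSeries.coeff_mul, PowerSeries.coeff_one] at h3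
  exact h3

theorem dd_rec (q : ℕ) (t : K) (n : ℕ) : dd q t n = (if n = 0 then 1 else 0)
    - ∑ p ∈ (antidiagonal n).filter (fun p => p.1 ≠ 0),
      PowerSeries.coeff p.1 (phi q t) * dd q t p.2 := by
  have h := dS_mul q t
  have h3 := congrArg (PowerSeries.coeff n) h
  rw [PowerSeries.coeff_mul, PowerSeries.coeff_one] at h3
  rw [← h3]
  have h0 : PowerSeries.coeff 0 (phi q t) = 1 := by
    rw [phi, PowerSeries.coeff_mk, zero_add, psi_one]
  have h4 : (∑ p ∈ antidiagonal n, PowerSeries.coeff p.1 (phi q t) * PowerSeries.coeff p.2 (dS q t))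
    = (∑ p ∈ (antidiagonal n).filter (fun p => p.1 ≠ 0),
        PowerSeries.coeff p.1 (phi q t) * dd q t p.2) + dd q t n := by
    rw [← sum_filter_add_sum_filter_not (antidiagonal n) (fun p => p.1 ≠ 0)]
    congr 1
    rw [sum_eq_single (0, n)]
    · rw [h0, one_mul]; rfl
    · rintro ⟨a, b⟩ hab hne
      simp only [mem_filter, Finset.HasAntidiagonal.mem_antidiagonal, not_not] at hab
      exfalso
      apply hne
      ext <;> simp <;> omega
    · intro h5
      exfalso
      apply h5
      simp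
  rw [h4]
  ring

include hq1 ht in
theorem hh_WD (n : ℕ) : WD q n (hh q t n) := by
  induction n using Nat.strong_induction_on with
  | _ n ih =>
    rw [hh_rec]
    split_ifs with h
    · subst h
      have h0 : (∑ p ∈ antidiagonal 0, PowerSeries.coeff p.1 (psi q t) * hh q t p.2) = 0 := by
        simp [psi_zero]
      rw [h0, add_zero]
      exact WD.one
    · rw [zero_add]
      refine WD.sum _ _ ?_
      rintro ⟨a, b⟩ hab
      rw [Finset.HasAntidiagonal.mem_antidiagonal] at hab
      simp only at hab ⊢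
      rcases Nat.eq_zero_or_pos a with ha | ha
      · subst ha
        rw [psi_zero, zero_mul]
        exact ⟨GB.zero zero_le_one, by simp⟩
      · exact ((psi_WD hq1 ht a).mul (ih b (by omega))).mono (by omega)

include hq1 ht in
theorem dd_WD (n : ℕ) : WD q n (dd q t n) := by
  induction n using Nat.strong_induction_on with
  | _ n ih =>
    rw [dd_rec, sub_eq_add_neg]
    have h1 : WD q n (-∑ p ∈ (antidiagonal n).filter (fun p => p.1 ≠ 0),
      PowerSeries.coeff p.1 (phi q t) * dd q t p.2) := by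
      refine WD.neg (WD.sum _ _ ?_)
      rintro ⟨a, b⟩ hab
      simp only [mem_filter, Finset.HasAntidiagonal.mem_antidiagonal] at hab
      exact ((phi_WD hq1 ht a).mul (ih b (by omega))).mono (by omega)
    split_ifs with h
    · have h2 := WD.sum (q := q) (n := n) (univ : Finset (Fin 2))
        ![(1 : K[X]), (-∑ p ∈ (antidiagonal n).filter (fun p => p.1 ≠ 0),
          PowerSeries.coeff p.1 (phi q t) * dd q t p.2)] (by
          intro i _
          fin_cases i
          · exact WD.one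
          · exact h1)
      simpa using h2
    · simpa using h1

include hq1 ht in
theorem psi_coeff0 (n : ℕ) (hn : n ≠ 1) : (PowerSeries.coeff n (psi q t)).coeff 0 = 0 := by
  rw [psi_coeff]
  split_ifs with h
  · have h1 : Nat.log q n ≠ 0 := by
      intro h0
      rw [h0] at h
      simp at h
      exact hn h.symm
    obtain ⟨j, hj⟩ : ∃ j, Nat.log q n = j + 1 := ⟨Nat.log q n - 1, by omega⟩
    rw [hj]
    exact g_coeff0 hq1 ht j
  · simp

include hq1 ht in
theorem hh_coeff0 (n : ℕ) : (hh q t n).coeff 0 = 1 := by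
  induction n with
  | zero =>
    rw [hh_rec]
    simp [psi_zero]
  | succ n ih =>
    rw [hh_rec, if_neg (Nat.succ_ne_zero n), zero_add, finsetSum_coeff,
      sum_eq_single (1, n)]
    · rw [psi_one, one_mul, ih]
    · rintro ⟨a, b⟩ hab hne
      rw [Finset.HasAntidiagonal.mem_antidiagonal] at hab
      simp only at hab ⊢
      rw [mul_coeff_zero, psi_coeff0 hq1 ht, zero_mul]
      rintro rfl
      apply hne
      ext <;> simp <;> omega
    · intro h
      exfalso
      apply h
      simp [add_comm]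

include hq1 ht in
theorem phi_coeff0 (n : ℕ) (hn : n ≠ 0) : (PowerSeries.coeff n (phi q t)).coeff 0 = 0 := by
  rw [phi, PowerSeries.coeff_mk]
  exact psi_coeff0 hq1 ht _ (by omega)

include hq1 ht in
theorem dd_coeff0 (n : ℕ) (hn : 0 < n) : (dd q t n).coeff 0 = 0 := by
  rw [dd_rec, if_neg hn.ne', zero_sub, coeff_neg, finsetSum_coeff, neg_eq_zero]
  refine sum_eq_zero ?_
  rintro ⟨a, b⟩ hab
  simp only [mem_filter, Finset.HasAntidiagonal.mem_antidiagonal] at hab
  rw [mul_coeff_zero, phi_coeff0 hq1 ht _ hab.2, zero_mul]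

include hq1 ht in
theorem dd_top_aux (m : ℕ) :
    ‖(dd q t ((q - 1) * (m + 1))).coeff (m + 1) + (dd q t ((q - 1) * m)).coeff m‖ < 1 := by
  have hq0 : 0 < q - 1 := by omega
  have hne : (q - 1) * (m + 1) ≠ 0 := Nat.mul_ne_zero hq0.ne' (Nat.succ_ne_zero m)
  rw [dd_rec, if_neg hne, zero_sub, coeff_neg, finsetSum_coeff]
  have hmem : (q - 1, (q - 1) * m) ∈ (antidiagonal ((q - 1) * (m + 1))).filter (fun p => p.1 ≠ 0) := by
    rw [mem_filter, Finset.HasAntidiagonal.mem_antidiagonal]
    constructor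
    · simp only; ring
    · exact hq0.ne'
  rw [← add_sum_erase _ _ hmem]
  have h1 : PowerSeries.coeff (q - 1) (phi q t) = X := by
    rw [phi, PowerSeries.coeff_mk, Nat.sub_add_cancel (by omega), psi_coeff]
    have hl : Nat.log q q = 1 := by
      conv_lhs => rw [← pow_one q]
      have := Nat.log_pow hq1 1
      simpa using this
    rw [hl, pow_one, if_pos rfl, g_one hq1 ht]
  simp only [h1, coeff_X_mul]
  rw [neg_add, neg_add_cancel_comm, norm_neg]
  refine norm_sum_lt one_pos _ _ ?_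
  rintro ⟨a, b⟩ hab
  simp only [mem_erase, mem_filter, Finset.HasAntidiagonal.mem_antidiagonal] at hab
  obtain ⟨hne1, hsum, ha0⟩ := hab
  simp only
  rw [phi, PowerSeries.coeff_mk, psi_coeff]
  split_ifs with h
  · set i := Nat.log q (a + 1) with hi
    have hw := wt_eq hq1 i
    have ha : a = (q - 1) * wt q i := by omega
    have hi0 : i ≠ 0 := by
      rintro h0
      rw [h0] at h
      simp at h
      exact ha0 h
    have hi1 : i ≠ 1 := by
      rintro h0
      rw [h0] at ha
      apply hne1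
      simp [wt] at ha
      have hb : b = (q - 1) * m := by
        rw [ha, mul_add, mul_one] at hsum
        omega
      rw [ha, hb]
    have hle : wt q i ≤ m + 1 := by
      by_contra hcon
      have : (q - 1) * (m + 1) < (q - 1) * wt q i := Nat.mul_lt_mul_of_pos_left (by omega) hq0
      omega
    obtain ⟨e, he⟩ := Nat.exists_eq_add_of_le hle
    have hb : b = (q - 1) * e := by
      rw [he, mul_add] at hsum
      omega
    rw [he, coeff_mul_add_eq_of_natDegree_le (g_deg t i), norm_mul]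
    · calc _ ≤ ‖(g q t i).coeff (wt q i)‖ * 1 :=
          mul_le_mul_of_nonneg_left ((dd_WD hq1 ht b).1 _) (norm_nonneg _)
        _ < 1 := by rw [mul_one]; exact g_top hq1 ht i (by omega)
    · have h3 := (dd_WD hq1 ht b).2
      rw [hb] at h3 ⊢
      exact Nat.le_of_mul_le_mul_left h3 hq0
  · simp

include hq1 ht in
theorem dd_top (m : ℕ) : ‖(dd q t ((q - 1) * m)).coeff m‖ = 1 := by
  induction m with
  | zero =>
    have h0 : (dd q t 0) = 1 := by
      rw [dd_rec, if_pos rfl, sum_eq_zero, sub_zero]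
      rintro ⟨a, b⟩ hab
      simp only [mem_filter, Finset.HasAntidiagonal.mem_antidiagonal] at hab
      omega
    rw [mul_zero, h0]
    simp
  | succ m ih =>
    have h := dd_top_aux hq1 ht m
    set x := (dd q t ((q - 1) * (m + 1))).coeff (m + 1)
    set y := (dd q t ((q - 1) * m)).coeff m
    have : x = (x + y) - y := by ring
    rw [this, norm_sub_rev, norm_sub_of_lt, ih]
    rw [ih]
    exact h

end br

end Pool.Agent.R316.Ff
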