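import Pool.Agent.R316.FfD

/-!
The algebraic part: consequences of the functional equation.
-/

set_option linter.unusedSectionVars false

open Polynomial Finset

namespace Pool.Agent.R316.Ff

section alg
variable {F : Type*} [Field F] [Fintype F] {K : Type*} [Field K] [Algebra F K] {q : ℕ}
  (hq : Fintype.card F = q) {t : K}

/-- the affine Frobenius-type substitution `A(z) = -(z-t)^q/c`. -/
noncomputable def Az (q : ℕ) (t : K) : K[X] := C (-(br q t 1)⁻¹) * (X - C t) ^ q

include hq in
/-- extraction of the polynomial `M`. -/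
theorem exists_M (w : ℕ) (hw : 0 < w) (p Pr : K[X])
    (H : expand K q p = (C t - X ^ q) ^ w * (p - Pr.comp (Az q t))) :
    ∃ M : K[X], M.comp (X ^ q + C (br q t 1)) = (-X) ^ w * M - Pr.comp (C (-(br q t 1)⁻¹) * X ^ q)
      ∧ p = (C t - X) ^ w * M.comp (X - C t) := by
  classical
  have hq1 := q1 hq
  have hmon : ((X - C t) ^ w : K[X]).Monic := (monic_X_sub_C t).pow w
  set M1 := p /ₘ (X - C t) ^ w with hM1
  set r1 := p %ₘ (X - C t) ^ w with hr1
  have hdiv : r1 + (X - C t) ^ w * M1 = p := modByMonic_add_div p _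
  have hr1deg : r1.natDegree < w := by
    have h1 := natDegree_modByMonic_lt p hmon (by
      intro h
      have := congrArg natDegree h
      rw [natDegree_pow, natDegree_X_sub_C] at this
      simp at this
      omega)
    rwa [natDegree_pow, natDegree_X_sub_C, mul_one] at h1
  have hsign : (C t - X ^ q : K[X]) ^ w = C ((-1) ^ w) * (X ^ q - C t) ^ w := by
    rw [← neg_sub (X ^ q) (C t), neg_pow]
    simp
  have hexp : expand K q r1 + (X ^ q - C t) ^ w * expand K q M1 = expand K q p := by
    rw [← hdiv, map_add, map_mul, map_pow, map_sub, expand_X, expand_C]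
  have hdvd : (X ^ q - C t : K[X]) ^ w ∣ expand K q r1 := by
    have h2 : expand K q r1 = (X ^ q - C t) ^ w * (C ((-1) ^ w) * (p - Pr.comp (Az q t))
        - expand K q M1) := by
      have h3 := hexp
      rw [H, hsign] at h3
      linear_combination h3
    exact ⟨_, h2⟩
  have hr0 : r1 = 0 := by
    have h4 : expand K q r1 = 0 := by
      refine eq_zero_of_dvd_of_natDegree_lt hdvd ?_
      rw [natDegree_expand, natDegree_pow, natDegree_X_pow_sub_C]
      exact Nat.mul_lt_mul_of_pos_right hr1deg (by omega)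
    exact (expand_eq_zero (by omega)).mp h4
  rw [hr0, zero_add] at hdiv
  set M0 : K[X] := C ((-1) ^ w) * M1 with hM0
  have hp : p = (C t - X) ^ w * M0 := by
    rw [← hdiv, hM0, ← neg_sub X (C t), neg_pow (X - C t) w]
    have : (C ((-1 : K) ^ w) : K[X]) = (-1) ^ w := by simp
    rw [this]
    have h5 : ((-1 : K[X]) ^ w) * (-1) ^ w = 1 := by
      rw [← mul_pow]; simp
    linear_combination (-(X - C t) ^ w * M1) * h5
  have hne : (C t - X ^ q : K[X]) ^ w ≠ 0 := by
    refine pow_ne_zero _ ?_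
    rw [← neg_sub, neg_ne_zero]
    exact X_pow_sub_C_ne_zero (by omega) t
  have hE : expand K q M0 = (C t - X) ^ w * M0 - Pr.comp (Az q t) := by
    apply mul_left_cancel₀ hne
    have h6 := H
    rw [hp] at h6
    rw [map_mul, map_pow, map_sub, expand_X, expand_C] at h6
    exact h6
  refine ⟨M0.comp (X + C t), ?_, ?_⟩
  · have h7 := congrArg (fun f : K[X] => f.comp (X + C t)) hE
    simp only [sub_comp, mul_comp, pow_comp, C_comp, X_comp] at h7
    have h8 : (expand K q M0).comp (X + C t) = M0.comp (X ^ q + C (t ^ q)) := by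
      rw [expand_eq_comp_X_pow, comp_assoc]
      congr 1
      rw [X_pow_comp]
      have := frob_add (F := F) (R := K[X]) hq X (C t)
      rw [this, C_pow]
    have h9 : (M0.comp (X + C t)).comp (X ^ q + C (br q t 1)) = M0.comp (X ^ q + C (t ^ q)) := by
      rw [comp_assoc]
      congr 1
      simp only [add_comp, X_comp, C_comp, br, pow_one, C_sub]
      ring
    rw [h9, ← h8, h7]
    congr 1
    · congr 1
      ring
    · rw [comp_assoc]
      congr 1
      simp only [Az, mul_comp, C_comp, pow_comp, sub_comp, X_comp, add_sub_cancel_right]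
  · rw [comp_assoc]
    simp only [add_comp, X_comp, C_comp, sub_add_cancel, comp_X]
    exact hp

/-- the polynomial `G = F + Pr` -/
noncomputable def GG (q : ℕ) (t : K) (M Pr : K[X]) : K[X] :=
  M.comp (C (br q t 1) * (1 - X)) + Pr

theorem GG_comp (hc : br q t 1 ≠ 0) (w : ℕ) (M Pr : K[X])
    (hE : M.comp (X ^ q + C (br q t 1)) = (-X) ^ w * M - Pr.comp (C (-(br q t 1)⁻¹) * X ^ q)) :
    expand K q ((GG q t M Pr).comp (C (-(br q t 1)⁻¹) * X)) = (-X) ^ w * M := by
  have h1 : expand K q ((GG q t M Pr).comp (C (-(br q t 1)⁻¹) * X))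
      = (GG q t M Pr).comp (C (-(br q t 1)⁻¹) * X ^ q) := by
    rw [expand_eq_comp_X_pow, comp_assoc]
    simp
  rw [h1, GG, add_comp, comp_assoc]
  have h2 : (C (br q t 1) * (1 - X)).comp (C (-(br q t 1)⁻¹) * X ^ q)
      = (X ^ q + C (br q t 1) : K[X]) := by
    simp only [mul_comp, C_comp, sub_comp, one_comp, X_comp]
    have h3 : (C (br q t 1) * C (-(br q t 1)⁻¹) : K[X]) = -1 := by
      rw [← C_mul, mul_neg, mul_inv_cancel₀ hc]
      simp
    linear_combination (-X ^ q) * h3
  rw [h2, hE]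
  ring

theorem GG_coeff (hq0 : 0 < q) (hc : br q t 1 ≠ 0) (w : ℕ) (M Pr : K[X])
    (hE : M.comp (X ^ q + C (br q t 1)) = (-X) ^ w * M - Pr.comp (C (-(br q t 1)⁻¹) * X ^ q))
    (n : ℕ) :
    (if q ∣ n then (GG q t M Pr).coeff (n / q) * (-(br q t 1)⁻¹) ^ (n / q) else 0)
      = if w ≤ n then (-1) ^ w * M.coeff (n - w) else 0 := by
  have h := congrArg (fun f : K[X] => f.coeff n) (GG_comp hc w M Pr hE)
  simp only [coeff_expand hq0, comp_C_mul_X_coeff] at h
  rw [h]
  have h2 : ((-X) ^ w * M : K[X]) = C ((-1) ^ w) * (X ^ w * M) := by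
    rw [neg_pow]
    simp [mul_assoc]
  rw [h2, coeff_C_mul, coeff_X_pow_mul']
  simp

theorem GG_coeff_low (hq0 : 0 < q) (hc : br q t 1 ≠ 0) (w : ℕ) (M Pr : K[X])
    (hE : M.comp (X ^ q + C (br q t 1)) = (-X) ^ w * M - Pr.comp (C (-(br q t 1)⁻¹) * X ^ q))
    (a : ℕ) (ha : q * a < w) : (GG q t M Pr).coeff a = 0 := by
  have h := GG_coeff hq0 hc w M Pr hE (q * a)
  rw [if_pos (Dvd.intro _ rfl), if_neg (by omega), Nat.mul_div_cancel_left _ hq0] at h
  refine (mul_eq_zero.mp h).resolve_right ?_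
  exact pow_ne_zero _ (neg_ne_zero.mpr (inv_ne_zero hc))

theorem GG_coeff_high (hq0 : 0 < q) (hc : br q t 1 ≠ 0) (w : ℕ) (M Pr : K[X])
    (hE : M.comp (X ^ q + C (br q t 1)) = (-X) ^ w * M - Pr.comp (C (-(br q t 1)⁻¹) * X ^ q))
    (j : ℕ) (hj : M.coeff j ≠ 0) : ∃ a, q * a = w + j ∧
      M.coeff j = (-1) ^ w * (GG q t M Pr).coeff a * (-(br q t 1)⁻¹) ^ a := by
  have h := GG_coeff hq0 hc w M Pr hE (w + j)
  rw [if_pos (Nat.le_add_right w j), Nat.add_sub_cancel_left] at h
  have h1 : ((-1 : K) ^ w) * (-1) ^ w = 1 := by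
    rw [← mul_pow]; simp
  have h2 : ((-1 : K) ^ w) * M.coeff j ≠ 0 := mul_ne_zero (pow_ne_zero _ (by simp)) hj
  split_ifs at h with h3
  · obtain ⟨a, ha⟩ := h3
    refine ⟨a, ha.symm, ?_⟩
    rw [ha, Nat.mul_div_cancel_left _ hq0] at h
    rw [mul_assoc, h, ← mul_assoc, h1, one_mul]
  · exact absurd h.symm h2

theorem M_deg (hq1 : 1 < q) (hc : br q t 1 ≠ 0) (w : ℕ) (M Pr : K[X])
    (hE : M.comp (X ^ q + C (br q t 1)) = (-X) ^ w * M - Pr.comp (C (-(br q t 1)⁻¹) * X ^ q))
    (hPr : (q - 1) * Pr.natDegree ≤ w) : (q - 1) * M.natDegree ≤ w := by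
  by_cases hM : M = 0
  · simp [hM]
  rcases Nat.lt_or_ge Pr.natDegree M.natDegree with h1 | h1
  · have hlead : M.coeff M.natDegree ≠ 0 := by
      rw [coeff_natDegree]; exact leadingCoeff_ne_zero.mpr hM
    obtain ⟨a, ha, hMa⟩ := GG_coeff_high (by omega) hc w M Pr hE _ hlead
    have hGa : (GG q t M Pr).coeff a ≠ 0 := by
      intro h0
      apply hlead
      rw [hMa, h0]
      simp
    have hale : a ≤ M.natDegree := by
      have h2 : a ≤ (GG q t M Pr).natDegree := le_natDegree_of_ne_zero hGa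
      refine h2.trans ?_
      rw [GG]
      refine (natDegree_add_le _ _).trans (max_le ?_ h1.le)
      refine natDegree_comp_le.trans ?_
      refine (Nat.mul_le_mul_left _ (?_ : _ ≤ 1)).trans (by simp)
      refine natDegree_mul_le.trans ?_
      simp only [natDegree_C, zero_add]
      exact (natDegree_sub_le _ _).trans (by simp)
    have h3 : w + M.natDegree ≤ q * M.natDegree := by
      rw [← ha]; exact Nat.mul_le_mul_left _ hale
    -- degree of the left side
    have hGtop : (GG q t M Pr).coeff M.natDegree ≠ 0 := by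
      rw [GG, coeff_add, coeff_eq_zero_of_natDegree_lt h1, add_zero]
      have h4 : (C (br q t 1) * (1 - X) : K[X]).natDegree = 1 := by
        have : (C (br q t 1) * (1 - X) : K[X]) = C (-(br q t 1)) * X + C (br q t 1) := by
          rw [C_neg]; ring
        rw [this]
        exact natDegree_linear (neg_ne_zero.mpr hc)
      have h5 : (C (br q t 1) * (1 - X) : K[X]).leadingCoeff = -(br q t 1) := by
        have : (C (br q t 1) * (1 - X) : K[X]) = C (-(br q t 1)) * X + C (br q t 1) := by
          rw [C_neg]; ring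
        rw [this]
        exact leadingCoeff_linear (neg_ne_zero.mpr hc)
      have h6 : (M.comp (C (br q t 1) * (1 - X))).natDegree = M.natDegree := by
        rw [natDegree_comp, h4, mul_one]
      have h7 : (M.comp (C (br q t 1) * (1 - X))).coeff M.natDegree
          = (M.comp (C (br q t 1) * (1 - X))).leadingCoeff := by
        rw [leadingCoeff, h6]
      rw [h7, leadingCoeff_comp (by rw [h4]; exact one_ne_zero), h5]
      exact mul_ne_zero (leadingCoeff_ne_zero.mpr hM) (pow_ne_zero _ (neg_ne_zero.mpr hc))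
    have h8 : (expand K q ((GG q t M Pr).comp (C (-(br q t 1)⁻¹) * X))).coeff (M.natDegree * q) ≠ 0 := by
      rw [coeff_expand_mul (by omega), comp_C_mul_X_coeff]
      exact mul_ne_zero hGtop (pow_ne_zero _ (neg_ne_zero.mpr (inv_ne_zero hc)))
    rw [GG_comp hc w M Pr hE] at h8
    have h9 : M.natDegree * q ≤ ((-X) ^ w * M).natDegree := le_natDegree_of_ne_zero h8
    have h10 : ((-X : K[X]) ^ w * M).natDegree ≤ w + M.natDegree := by
      refine natDegree_mul_le.trans (Nat.add_le_add_right ?_ _)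
      refine natDegree_pow_le.trans ?_
      simp
    obtain ⟨e, rfl⟩ : ∃ e, q = e + 1 := ⟨q - 1, by omega⟩
    have h11 := h9.trans h10
    simp only [Nat.add_sub_cancel]
    nlinarith
  · exact (Nat.mul_le_mul_left _ h1).trans hPr

end alg

end Pool.Agent.R316.Ff
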