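import Pool.Agent.R316.FfE

/-!
The norm argument: a lower bound for `s₂` in terms of `s₁`.
-/

set_option linter.unusedSectionVars false

open Polynomial Finset

namespace Pool.Agent.R316.Ff

section norms
variable {K : Type*} [NormedField K] [IsUltrametricDist K] {q : ℕ} (hq1 : 1 < q) {t : K}
  (ht : 1 < ‖t‖)

theorem comp_sum (c : K) (M : K[X]) : M.comp (C c * (1 - X))
    = ∑ j ∈ range (M.natDegree + 1), C (M.coeff j * c ^ j) * (1 - X) ^ j := by
  rw [comp, eval₂_eq_sum_range]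
  refine sum_congr rfl fun j _ => ?_
  rw [mul_pow, C_mul, C_pow]
  ring

theorem GB_comp {φ : ℝ} (hφ : 0 ≤ φ) (c : K) (M : K[X])
    (h : ∀ j, ‖M.coeff j * c ^ j‖ ≤ φ) : GB φ (M.comp (C c * (1 - X))) := by
  rw [comp_sum]
  refine GB.sum hφ _ _ fun j _ => ?_
  have h1 := (GB.C hφ (h j)).mul hφ zero_le_one ((GB.one.sub GB.X).pow j)
  simpa using h1

theorem comp_coeff_lt (c : K) (M : K[X]) {φ : ℝ} (hφ : 0 < φ)
    (h : ∀ j, ‖M.coeff j * c ^ j‖ < φ) (a : ℕ) : ‖(M.comp (C c * (1 - X))).coeff a‖ < φ := by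
  rw [comp_sum, finsetSum_coeff]
  refine norm_sum_lt hφ _ _ fun j _ => ?_
  rw [coeff_C_mul, norm_mul]
  calc _ ≤ ‖M.coeff j * c ^ j‖ * 1 :=
        mul_le_mul_of_nonneg_left (((GB.one.sub GB.X).pow j) a) (norm_nonneg _)
    _ < φ := by rw [mul_one]; exact h j

include hq1 ht in
theorem norm_br_gt : 1 < ‖br q t 1‖ := by
  rw [norm_br hq1 ht 1 one_pos, pow_one]
  exact one_lt_pow₀ ht (by omega)

include hq1 ht in
theorem br1_ne : br q t 1 ≠ 0 := by
  have := br_ne' hq1 ht 0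
  simpa using this

/-- key norm lemma -/
theorem M_small (w : ℕ) (hw : 0 < w) (M Pr : K[X])
    (hE : M.comp (X ^ q + C (br q t 1)) = (-X) ^ w * M - Pr.comp (C (-(br q t 1)⁻¹) * X ^ q))
    (hq1 : 1 < q) (ht : 1 < ‖t‖)
    (hPr : (q - 1) * Pr.natDegree ≤ w) (hPG : GB 1 Pr) (hP0 : ‖Pr.coeff 0‖ < 1) :
    ∀ j, ‖M.coeff j * (br q t 1) ^ j‖ < 1 := by
  set c := br q t 1 with hcdef
  have hc1 : 1 < ‖c‖ := norm_br_gt hq1 ht
  have hc : c ≠ 0 := br1_ne hq1 ht
  have hq0 : 0 < q := by omega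
  by_contra hcon
  push Not at hcon
  obtain ⟨j0, hj0⟩ := hcon
  have hMdeg := M_deg hq1 hc w M Pr hE hPr
  have hj0s : j0 ∈ M.support := by
    rw [mem_support_iff]
    intro h
    rw [h, zero_mul, norm_zero] at hj0
    linarith
  obtain ⟨j1, hj1s, hmax⟩ := Finset.exists_max_image M.support (fun j => ‖M.coeff j * c ^ j‖)
    ⟨j0, hj0s⟩
  set φ := ‖M.coeff j1 * c ^ j1‖ with hφ
  have hφ1 : 1 ≤ φ := hj0.trans (hmax j0 hj0s)
  have hle : ∀ j, ‖M.coeff j * c ^ j‖ ≤ φ := by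
    intro j
    by_cases hj : j ∈ M.support
    · exact hmax j hj
    · rw [notMem_support_iff] at hj
      rw [hj, zero_mul, norm_zero]
      linarith
  have hG : GB φ (GG q t M Pr) := (GB_comp (by linarith) c M hle).add (hPG.mono hφ1)
  -- strictness
  have hlt : ∀ j, (q - 1) * j < w → ‖M.coeff j * c ^ j‖ < φ := by
    intro j hjw
    by_cases hj : M.coeff j = 0
    · rw [hj, zero_mul, norm_zero]
      linarith
    · obtain ⟨a, ha, hMa⟩ := GG_coeff_high hq0 hc w M Pr hE j hj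
      have haj : j + 1 ≤ a := by
        by_contra hcon
        have h1 : a ≤ j := by omega
        have h2 : q * a ≤ q * j := Nat.mul_le_mul_left _ h1
        have h3 : q * j = (q - 1) * j + j := by
          obtain ⟨e, rfl⟩ : ∃ e, q = e + 1 := ⟨q - 1, by omega⟩
          simp only [Nat.add_sub_cancel]
          ring
        omega
      obtain ⟨e, he⟩ := Nat.exists_eq_add_of_le haj
      have h4 : ‖M.coeff j‖ = ‖(GG q t M Pr).coeff a‖ * (‖c‖⁻¹) ^ a := by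
        conv_lhs => rw [hMa]
        rw [norm_mul, norm_mul, norm_pow, norm_neg, norm_one, one_pow, one_mul, norm_pow, norm_neg,
          norm_inv]
      rw [norm_mul, norm_pow, h4]
      have hcpos : 0 < ‖c‖ := by linarith
      have h5 : (‖c‖⁻¹) ^ a * ‖c‖ ^ j = (‖c‖⁻¹) ^ (e + 1) := by
        rw [he, show j + 1 + e = (e + 1) + j by ring, pow_add (‖c‖⁻¹), mul_assoc, ← mul_pow,
          inv_mul_cancel₀ hcpos.ne', one_pow, mul_one]
      rw [mul_assoc, h5]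
      have h6 : (‖c‖⁻¹) ^ (e + 1) < 1 := pow_lt_one₀ (by positivity) (inv_lt_one_of_one_lt₀ hc1)
        (Nat.succ_ne_zero e)
      calc ‖(GG q t M Pr).coeff a‖ * (‖c‖⁻¹) ^ (e + 1) ≤ φ * (‖c‖⁻¹) ^ (e + 1) :=
            mul_le_mul_of_nonneg_right (hG a) (by positivity)
        _ < φ * 1 := mul_lt_mul_of_pos_left h6 (by linarith)
        _ = φ := mul_one φ
  have hj1w : (q - 1) * j1 = w := by
    have h1 : (q - 1) * j1 ≤ w :=
      (Nat.mul_le_mul_left _ (le_natDegree_of_mem_supp j1 hj1s)).trans hMdeg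
    rcases lt_or_eq_of_le h1 with h2 | h2
    · exact absurd (hlt j1 h2) (lt_irrefl _)
    · exact h2
  have hev : ‖M.eval c‖ = φ := by
    rw [eval_eq_sum_range, ← add_sum_erase (range (M.natDegree + 1)) _
      (mem_range.mpr (Nat.lt_succ_of_le (le_natDegree_of_mem_supp j1 hj1s)))]
    rw [norm_add_of_lt]
    refine norm_sum_lt (by linarith) _ _ fun j hj => ?_
    rw [mem_erase, mem_range] at hj
    refine hlt j ?_
    have h1 : (q - 1) * j ≤ w := (Nat.mul_le_mul_left _ (by omega)).trans hMdeg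
    rcases lt_or_eq_of_le h1 with h2 | h2
    · exact h2
    · exfalso
      apply hj.1
      rw [← hj1w] at h2
      exact Nat.eq_of_mul_eq_mul_left (by omega) h2
  have h0 := GG_coeff_low hq0 hc w M Pr hE 0 (by omega)
  rw [GG, coeff_add, coeff_zero_eq_eval_zero (M.comp _), eval_comp] at h0
  simp only [eval_mul, eval_C, eval_sub, eval_one, eval_X, sub_zero, mul_one] at h0
  have h1 : M.eval c = - Pr.coeff 0 := by linear_combination h0
  rw [h1, norm_neg] at hev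
  linarith

/-- the coefficients of low order of the source polynomial are small -/
theorem Pr_small (w : ℕ) (hw : 0 < w) (M Pr : K[X])
    (hE : M.comp (X ^ q + C (br q t 1)) = (-X) ^ w * M - Pr.comp (C (-(br q t 1)⁻¹) * X ^ q))
    (hq1 : 1 < q) (ht : 1 < ‖t‖)
    (hPr : (q - 1) * Pr.natDegree ≤ w) (hPG : GB 1 Pr) (hP0 : ‖Pr.coeff 0‖ < 1) (a : ℕ)
    (ha : q * a < w) : ‖Pr.coeff a‖ < 1 := by
  have hc : br q t 1 ≠ 0 := br1_ne hq1 ht
  have h1 := M_small w hw M Pr hE hq1 ht hPr hPG hP0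
  have h2 := GG_coeff_low (by omega) hc w M Pr hE a ha
  rw [GG, coeff_add] at h2
  have h3 : Pr.coeff a = -(M.comp (C (br q t 1) * (1 - X))).coeff a := by
    linear_combination h2
  rw [h3, norm_neg]
  exact comp_coeff_lt _ _ one_pos h1 a

/-- the source polynomial for a pair -/
noncomputable def Src (q : ℕ) (t : K) (s₁ s₂ : ℕ) (r : K) : K[X] :=
  hh q t (s₁ - 1) * dd q t s₂ - C r * hh q t (s₁ + s₂ - 1)

include hq1 ht in
theorem Src_deg (s₁ s₂ : ℕ) (r : K) :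
    (q - 1) * (Src q t s₁ s₂ r).natDegree ≤ s₁ + s₂ := by
  have h1 := ((hh_WD hq1 ht (s₁ - 1)).mul (dd_WD hq1 ht s₂)).2
  have h2 := (hh_WD hq1 ht (s₁ + s₂ - 1)).2
  have h3 : (C r * hh q t (s₁ + s₂ - 1)).natDegree ≤ (hh q t (s₁ + s₂ - 1)).natDegree :=
    natDegree_C_mul_le _ _
  have h4 : (Src q t s₁ s₂ r).natDegree ≤ _ := natDegree_sub_le _ _
  rcases le_max_iff.mp h4 with h5 | h5
  · have := Nat.mul_le_mul_left (q - 1) h5
    omega
  · have := Nat.mul_le_mul_left (q - 1) (h5.trans h3)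
    omega

include hq1 ht in
theorem Src_GB (s₁ s₂ : ℕ) (r : K) (hr : ‖r‖ < 1) : GB 1 (Src q t s₁ s₂ r) :=
  ((hh_WD hq1 ht (s₁ - 1)).1.mul1 (dd_WD hq1 ht s₂).1).sub
    ((GB.C zero_le_one hr.le).mul1 (hh_WD hq1 ht _).1)

include hq1 ht in
theorem Src_coeff0 (s₁ s₂ : ℕ) (hs₂ : 0 < s₂) (r : K) : (Src q t s₁ s₂ r).coeff 0 = -r := by
  rw [Src, coeff_sub, mul_coeff_zero, dd_coeff0 hq1 ht s₂ hs₂, coeff_C_mul, hh_coeff0 hq1 ht,
    hh_coeff0 hq1 ht]
  ring

include hq1 ht in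
/-- the lower bound `(q-1) s₁ ≤ s₂`. -/
theorem low_bound (s₁ s₂ : ℕ) (hs₁ : 0 < s₁) (hs₂ : 0 < s₂) (hdvd : (q - 1) ∣ s₂) (r : K)
    (hr : ‖r‖ < 1) (M : K[X])
    (hE : M.comp (X ^ q + C (br q t 1)) = (-X) ^ (s₁ + s₂) * M
      - (Src q t s₁ s₂ r).comp (C (-(br q t 1)⁻¹) * X ^ q)) :
    (q - 1) * s₁ ≤ s₂ := by
  classical
  obtain ⟨m, hm⟩ := hdvd
  have hex : ∃ k, ‖(dd q t s₂).coeff k‖ = 1 := ⟨m, by rw [hm]; exact dd_top hq1 ht m⟩
  set k0 := Nat.find hex with hk0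
  have hk0s : ‖(dd q t s₂).coeff k0‖ = 1 := Nat.find_spec hex
  have hk0m : k0 ≤ m := Nat.find_min' hex (by rw [hm]; exact dd_top hq1 ht m)
  have hk0l : ∀ j < k0, ‖(dd q t s₂).coeff j‖ < 1 := fun j hj =>
    lt_of_le_of_ne ((dd_WD hq1 ht s₂).1 j) (Nat.find_min hex hj)
  have hP : ‖(hh q t (s₁ - 1) * dd q t s₂).coeff k0‖ = 1 := by
    rw [coeff_mul, ← add_sum_erase (antidiagonal k0) _ (a := (0, k0)) (by simp)]
    simp only [hh_coeff0 hq1 ht, one_mul]
    rw [norm_add_of_lt, hk0s]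
    rw [hk0s]
    refine norm_sum_lt one_pos _ _ ?_
    rintro ⟨i, j⟩ hij
    rw [mem_erase, Finset.HasAntidiagonal.mem_antidiagonal] at hij
    simp only at hij ⊢
    have hjlt : j < k0 := by
      by_contra hcon
      apply hij.1
      have : j = k0 := by omega
      have h2 : i = 0 := by omega
      rw [this, h2]
    rw [norm_mul]
    calc _ ≤ 1 * ‖(dd q t s₂).coeff j‖ :=
          mul_le_mul_of_nonneg_right ((hh_WD hq1 ht _).1 _) (norm_nonneg _)
      _ < 1 := by rw [one_mul]; exact hk0l j hjlt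
  have hk0w : s₁ + s₂ ≤ q * k0 := by
    by_contra hcon
    push Not at hcon
    have h1 := Pr_small (s₁ + s₂) (by omega) M _ hE hq1 ht (Src_deg hq1 ht s₁ s₂ r)
      (Src_GB hq1 ht s₁ s₂ r hr) (by rw [Src_coeff0 hq1 ht s₁ s₂ hs₂, norm_neg]; exact hr) k0 hcon
    rw [Src, coeff_sub, coeff_C_mul] at h1
    have h2 : ‖r * (hh q t (s₁ + s₂ - 1)).coeff k0‖ < 1 := by
      rw [norm_mul]
      calc _ ≤ ‖r‖ * 1 := mul_le_mul_of_nonneg_left ((hh_WD hq1 ht _).1 _) (norm_nonneg _)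
        _ < 1 := by rw [mul_one]; exact hr
    rw [norm_sub_of_lt (by rw [hP]; exact h2), hP] at h1
    exact lt_irrefl _ h1
  obtain ⟨e, rfl⟩ : ∃ e, q = e + 1 := ⟨q - 1, by omega⟩
  simp only [Nat.add_sub_cancel] at hm ⊢
  have h1 : s₁ + s₂ ≤ (e + 1) * m := hk0w.trans (Nat.mul_le_mul_left _ hk0m)
  nlinarith

end norms

end Pool.Agent.R316.Ff
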