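import Pool.Agent.R316.FfF

/-!
Asymptotic expansions in powers of `1/z_n`, `z_n = t^(q^n)`.
-/

set_option linter.unusedSectionVars false

open Polynomial Finset Filter Topology

namespace Pool.Agent.R316.Ff

/-- `sg n = q + q^2 + ... + q^n`. -/
def sg (q : ℕ) : ℕ → ℕ
  | 0 => 0
  | n + 1 => sg q n + q ^ (n + 1)

theorem sg_succ (q n : ℕ) : sg q (n + 1) = q * sg q n + q := by
  induction n with
  | zero => simp [sg]
  | succ n ih =>
    have h1 : sg q (n + 1 + 1) = sg q (n + 1) + q ^ (n + 1 + 1) := rfl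
    have h2 : sg q (n + 1) = sg q n + q ^ (n + 1) := rfl
    have h3 : q * sg q (n + 1) = q * sg q n + q * q ^ (n + 1) := by rw [h2]; ring
    have h4 : q ^ (n + 1 + 1) = q * q ^ (n + 1) := pow_succ' _ _
    omega

theorem sg_add (q n k : ℕ) : q ^ k * sg q n ≤ sg q (n + k) := by
  induction k with
  | zero => simp
  | succ k ih =>
    rw [← add_assoc, sg_succ, pow_succ']
    nlinarith

theorem le_sg (q n : ℕ) (hn : 0 < n) : q ^ n ≤ sg q n := by
  obtain ⟨m, rfl⟩ : ∃ m, n = m + 1 := ⟨n - 1, by omega⟩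
  rw [sg]; omega

theorem lt_pow_self' {q n : ℕ} (hq1 : 1 < q) : n < q ^ n := Nat.lt_pow_self hq1

section polynorm
variable {K : Type*} [NormedField K] [IsUltrametricDist K]

theorem eval_le (P : K[X]) (m : ℕ) (hm : P.natDegree ≤ m) :
    ∃ C : ℝ, 0 ≤ C ∧ ∀ x : K, 1 ≤ ‖x‖ → ‖P.eval x‖ ≤ C * ‖x‖ ^ m := by
  refine ⟨∑ i ∈ range (P.natDegree + 1), ‖P.coeff i‖, sum_nonneg fun _ _ => norm_nonneg _, ?_⟩
  intro x hx
  rw [eval_eq_sum_range]
  refine IsUltrametricDist.norm_sum_le_of_forall_le_of_nonneg (by positivity) fun i hi => ?_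
  rw [norm_mul, norm_pow]
  have h1 : ‖P.coeff i‖ ≤ ∑ i ∈ range (P.natDegree + 1), ‖P.coeff i‖ :=
    single_le_sum (f := fun i => ‖P.coeff i‖) (fun _ _ => norm_nonneg _) hi
  have h2 : ‖x‖ ^ i ≤ ‖x‖ ^ m := pow_le_pow_right₀ hx (by rw [mem_range] at hi; omega)
  exact mul_le_mul h1 h2 (by positivity) (by positivity)

theorem eval_eq (P : K[X]) (hP : P ≠ 0) :
    ∃ B : ℝ, 1 ≤ B ∧ ∀ x : K, B ≤ ‖x‖ → ‖P.eval x‖ = ‖P.leadingCoeff‖ * ‖x‖ ^ P.natDegree := by
  by_cases hd : P.natDegree = 0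
  · refine ⟨1, le_rfl, fun x _ => ?_⟩
    rw [eq_C_of_natDegree_eq_zero hd]
    simp
  obtain ⟨C, hC, hCx⟩ := eval_le P.eraseLead (P.natDegree - 1) (eraseLead_natDegree_le P)
  have hl : 0 < ‖P.leadingCoeff‖ := norm_pos_iff.mpr (leadingCoeff_ne_zero.mpr hP)
  refine ⟨max 1 (C / ‖P.leadingCoeff‖ + 1), le_max_left _ _, fun x hx => ?_⟩
  have hx1 : 1 ≤ ‖x‖ := (le_max_left _ _).trans hx
  have hx2 : C / ‖P.leadingCoeff‖ + 1 ≤ ‖x‖ := (le_max_right _ _).trans hx
  have e : P.eval x = P.leadingCoeff * x ^ P.natDegree + P.eraseLead.eval x := by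
    conv_lhs => rw [← eraseLead_add_C_mul_X_pow P]
    rw [eval_add, eval_mul, eval_C, eval_pow, eval_X, add_comm]
  rw [e, norm_add_of_lt, norm_mul, norm_pow]
  rw [norm_mul, norm_pow]
  refine lt_of_le_of_lt (hCx x hx1) ?_
  obtain ⟨m, hm⟩ : ∃ m, P.natDegree = m + 1 := ⟨P.natDegree - 1, by omega⟩
  rw [hm, Nat.add_sub_cancel, pow_succ, ← mul_assoc, mul_comm _ (‖x‖), ← mul_assoc]
  refine mul_lt_mul_of_pos_right ?_ (by positivity)
  have h3 : C < ‖x‖ * ‖P.leadingCoeff‖ := by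
    rw [← div_lt_iff₀ hl]
    linarith
  exact h3

theorem eval_ge (P : K[X]) (hP : P ≠ 0) :
    ∃ B c : ℝ, 1 ≤ B ∧ 0 < c ∧ ∀ x : K, B ≤ ‖x‖ → c ≤ ‖P.eval x‖ := by
  obtain ⟨B, hB, h⟩ := eval_eq P hP
  refine ⟨B, ‖P.leadingCoeff‖, hB, norm_pos_iff.mpr (leadingCoeff_ne_zero.mpr hP), fun x hx => ?_⟩
  rw [h x hx]
  have : 1 ≤ ‖x‖ ^ P.natDegree := one_le_pow₀ (hB.trans hx)
  nlinarith [norm_nonneg P.leadingCoeff]

end polynorm

section exp
variable {K L : Type*} [NormedField K] [IsUltrametricDist K] [NormedField L]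
  [IsUltrametricDist L] [NormedAlgebra K L] {q : ℕ} (hq1 : 1 < q) {t : K} (ht : 1 < ‖t‖)

/-- `z_n = t^(q^n)`. -/
def zz (q : ℕ) (t : K) (n : ℕ) : K := t ^ (q ^ n)

theorem norm_zz (n : ℕ) : ‖zz q t n‖ = ‖t‖ ^ (q ^ n) := by rw [zz, norm_pow]

theorem zz_succ (n : ℕ) : zz q t (n + 1) = zz q t n ^ q := by
  rw [zz, zz, ← pow_mul, ← pow_succ]

include hq1 ht in
theorem tendsto_zz : Tendsto (fun n => ‖zz q t n‖) atTop atTop := by
  simp only [norm_zz]
  exact (tendsto_pow_atTop_atTop_of_one_lt ht).comp (tendsto_pow_atTop_atTop_of_one_lt hq1)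

include hq1 ht in
theorem one_le_zz (n : ℕ) : 1 ≤ ‖zz q t n‖ := by
  rw [norm_zz]; exact one_le_pow₀ ht.le

include hq1 ht in
theorem norm_ell (n : ℕ) : ‖ell q t n‖ = ‖t‖ ^ (sg q n) := by
  induction n with
  | zero => simp [ell, sg]
  | succ n ih =>
    rw [ell, norm_mul, ih, norm_sub_rev, sg, pow_add ‖t‖]
    congr 1
    have := norm_br hq1 ht (n + 1) (Nat.succ_pos n)
    rwa [br] at this

include hq1 ht in
theorem ell_ne' (n : ℕ) : ell q t n ≠ 0 := by
  rw [← norm_ne_zero_iff, norm_ell hq1 ht]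
  positivity

/-- asymptotic expandability. -/
def HasExp (q : ℕ) (t : K) (x : ℕ → L) : Prop :=
  ∀ N : ℕ, ∃ P Q : K[X], Q ≠ 0 ∧
    Tendsto (fun n => ‖zz q t n‖ ^ N *
      ‖x n - algebraMap K L (P.eval (zz q t n) / Q.eval (zz q t n))‖) atTop (𝓝 0)

include hq1 ht in
theorem ev_ge (B : ℝ) : ∀ᶠ n in atTop, B ≤ ‖zz q t n‖ :=
  (tendsto_zz hq1 ht).eventually_ge_atTop B

theorem HasExp.rat (P Q : K[X]) (hQ : Q ≠ 0) :
    HasExp q t (fun n => algebraMap K L (P.eval (zz q t n) / Q.eval (zz q t n))) := by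
  intro N
  refine ⟨P, Q, hQ, ?_⟩
  simp

theorem HasExp.poly (P : K[X]) :
    HasExp q t (fun n => algebraMap K L (P.eval (zz q t n))) := by
  intro N
  refine ⟨P, 1, one_ne_zero, ?_⟩
  simp

include hq1 ht in
theorem HasExp.add {x y : ℕ → L} (hx : HasExp q t x) (hy : HasExp q t y) :
    HasExp q t (fun n => x n + y n) := by
  intro N
  obtain ⟨P, Q, hQ, h1⟩ := hx N
  obtain ⟨P', Q', hQ', h2⟩ := hy N
  refine ⟨P * Q' + P' * Q, Q * Q', mul_ne_zero hQ hQ', ?_⟩
  have h3 := h1.add h2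
  rw [add_zero] at h3
  obtain ⟨B, c, hB, hc, hb⟩ := eval_ge Q hQ
  obtain ⟨B', c', hB', hc', hb'⟩ := eval_ge Q' hQ'
  refine squeeze_zero' (Eventually.of_forall fun n => by positivity) ?_ h3
  filter_upwards [ev_ge hq1 ht B, ev_ge hq1 ht B'] with n hn hn'
  have hQn : Q.eval (zz q t n) ≠ 0 := norm_pos_iff.mp (hc.trans_le (hb _ hn))
  have hQn' : Q'.eval (zz q t n) ≠ 0 := norm_pos_iff.mp (hc'.trans_le (hb' _ hn'))
  have e : x n + y n - algebraMap K L ((P * Q' + P' * Q).eval (zz q t n) / (Q * Q').eval (zz q t n))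
      = (x n - algebraMap K L (P.eval (zz q t n) / Q.eval (zz q t n)))
        + (y n - algebraMap K L (P'.eval (zz q t n) / Q'.eval (zz q t n))) := by
    have : (P * Q' + P' * Q).eval (zz q t n) / (Q * Q').eval (zz q t n)
      = P.eval (zz q t n) / Q.eval (zz q t n) + P'.eval (zz q t n) / Q'.eval (zz q t n) := by
      rw [eval_add, eval_mul, eval_mul, eval_mul]
      field_simp
    rw [this, map_add]
    ring
  rw [e, ← mul_add]
  exact mul_le_mul_of_nonneg_left (norm_add_le _ _) (by positivity)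

include hq1 ht in
theorem HasExp.mul_rat {x : ℕ → L} (hx : HasExp q t x) (U V : K[X]) (hV : V ≠ 0) :
    HasExp q t (fun n => algebraMap K L (U.eval (zz q t n) / V.eval (zz q t n)) * x n) := by
  intro N
  obtain ⟨C, hC, hCx⟩ := eval_le U U.natDegree le_rfl
  obtain ⟨B, c, hB, hc, hb⟩ := eval_ge V hV
  obtain ⟨P, Q, hQ, h1⟩ := hx (N + U.natDegree)
  refine ⟨U * P, V * Q, mul_ne_zero hV hQ, ?_⟩
  have h2 := h1.const_mul (C / c)
  rw [mul_zero] at h2
  refine squeeze_zero' (Eventually.of_forall fun n => by positivity) ?_ h2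
  filter_upwards [ev_ge hq1 ht B] with n hn
  have hVn := hb _ hn
  have e : algebraMap K L (U.eval (zz q t n) / V.eval (zz q t n)) * x n
      - algebraMap K L ((U * P).eval (zz q t n) / (V * Q).eval (zz q t n))
      = algebraMap K L (U.eval (zz q t n) / V.eval (zz q t n))
        * (x n - algebraMap K L (P.eval (zz q t n) / Q.eval (zz q t n))) := by
    rw [eval_mul, eval_mul, mul_div_mul_comm, map_mul]
    ring
  rw [e, norm_mul, norm_algebraMap', norm_div]
  have h3 : ‖U.eval (zz q t n)‖ / ‖V.eval (zz q t n)‖ ≤ C * ‖zz q t n‖ ^ U.natDegree / c :=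
    div_le_div₀ (by positivity) (hCx _ (one_le_zz hq1 ht n)) hc hVn
  set d := ‖x n - algebraMap K L (P.eval (zz q t n) / Q.eval (zz q t n))‖
  calc ‖zz q t n‖ ^ N * (‖U.eval (zz q t n)‖ / ‖V.eval (zz q t n)‖ * d)
      ≤ ‖zz q t n‖ ^ N * (C * ‖zz q t n‖ ^ U.natDegree / c * d) := by gcongr
    _ = C / c * (‖zz q t n‖ ^ (N + U.natDegree) * d) := by rw [pow_add]; ring

include hq1 ht in
theorem HasExp.mul_poly {x : ℕ → L} (hx : HasExp q t x) (U : K[X]) :
    HasExp q t (fun n => algebraMap K L (U.eval (zz q t n)) * x n) := by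
  have := hx.mul_rat hq1 ht U 1 one_ne_zero
  simpa using this

include hq1 ht in
theorem HasExp.neg {x : ℕ → L} (hx : HasExp q t x) : HasExp q t (fun n => - x n) := by
  have := hx.mul_poly hq1 ht (C (-1))
  simpa using this

include hq1 ht in
theorem HasExp.sub {x y : ℕ → L} (hx : HasExp q t x) (hy : HasExp q t y) :
    HasExp q t (fun n => x n - y n) := by
  simpa [sub_eq_add_neg] using hx.add hq1 ht (hy.neg hq1 ht)

include hq1 ht in
theorem HasExp.shift {x : ℕ → L} (hx : HasExp q t x) : HasExp q t (fun n => x (n + 1)) := by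
  intro N
  obtain ⟨P, Q, hQ, h1⟩ := hx N
  refine ⟨expand K q P, expand K q Q, (expand_ne_zero (by omega)).mpr hQ, ?_⟩
  have h2 := h1.comp (tendsto_add_atTop_nat 1)
  refine squeeze_zero (fun n => by positivity) (fun n => ?_) h2
  simp only [Function.comp, expand_eval]
  rw [← zz_succ]
  refine mul_le_mul_of_nonneg_right ?_ (norm_nonneg _)
  refine pow_le_pow_left₀ (norm_nonneg _) ?_ N
  rw [norm_zz, norm_zz]
  exact pow_le_pow_right₀ ht.le (Nat.pow_le_pow_right (by omega) (Nat.le_succ n))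

include hq1 ht in
/-- the recursion lemma. -/
theorem HasExp.rec (s : ℕ) {x y : ℕ → L} (hy : HasExp q t y)
    (hx : ∀ n, x n = y n + algebraMap K L ((ell q t n / ell q t (n + 1)) ^ s) * x (n + 1))
    (D : ℝ) (hC : ∀ n, ‖x n‖ * ‖ell q t n‖ ≤ D * ‖ell q t n‖ ^ s) : HasExp q t x := by
  -- the rational function
  have hV : (C t - X ^ q : K[X]) ^ s ≠ 0 := by
    refine pow_ne_zero _ ?_
    rw [← neg_sub, neg_ne_zero]
    exact X_pow_sub_C_ne_zero (by omega) t
  have hrat : ∀ n, (ell q t n / ell q t (n + 1)) ^ s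
      = (1 : K[X]).eval (zz q t n) / ((Polynomial.C t - X ^ q : K[X]) ^ s).eval (zz q t n) := by
    intro n
    have h1 := ell_ne' hq1 ht n
    have h2 : t - t ^ (q ^ (n + 1)) ≠ 0 := by
      have := ell_ne' hq1 ht (n + 1)
      rw [ell] at this
      exact right_ne_zero_of_mul this
    simp only [eval_one, eval_pow, eval_sub, eval_C, eval_X]
    rw [← zz_succ, zz, ell, div_pow, mul_pow]
    field_simp
  have key : ∀ k : ℕ, ∃ Y : ℕ → L, HasExp q t Y ∧
      ∀ n, x n = Y n + algebraMap K L ((ell q t n / ell q t (n + k)) ^ s) * x (n + k) := by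
    intro k
    induction k with
    | zero =>
      refine ⟨fun _ => 0, ?_, fun n => ?_⟩
      · have := HasExp.poly (q := q) (t := t) (L := L) (0 : K[X])
        simpa using this
      · simp [div_self (ell_ne' hq1 ht n)]
    | succ k ih =>
      obtain ⟨Y, hY, hxY⟩ := ih
      refine ⟨fun n => y n + algebraMap K L ((ell q t n / ell q t (n + 1)) ^ s) * Y (n + 1), ?_, ?_⟩
      · refine hy.add hq1 ht ?_
        have h1 := (hY.shift hq1 ht).mul_rat hq1 ht 1 _ hV
        simpa only [← hrat] using h1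
      · intro n
        rw [hx n, hxY (n + 1), mul_add, ← mul_assoc, ← map_mul, ← mul_pow,
          div_mul_div_cancel₀ (ell_ne' hq1 ht (n + 1)), ← add_assoc,
          show n + 1 + k = n + (k + 1) by ring]
  intro N
  -- choose k with q^k > N + s
  obtain ⟨Y, hY, hxY⟩ := key (N + s + 1)
  obtain ⟨P, Q, hQ, h1⟩ := hY N
  refine ⟨P, Q, hQ, ?_⟩
  -- bound of the tail
  have hC0 : 0 ≤ D := by
    have := hC 0
    simp only [ell, norm_one, one_pow, mul_one] at this
    exact (norm_nonneg _).trans this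
  have htail : Tendsto (fun n => D * ‖zz q t n‖⁻¹) atTop (𝓝 0) := by
    have := (tendsto_inv_atTop_zero.comp (tendsto_zz hq1 ht)).const_mul D
    simpa using this
  have h2 := h1.add htail
  rw [add_zero] at h2
  refine squeeze_zero' (Eventually.of_forall fun n => by positivity) ?_ h2
  filter_upwards [eventually_ge_atTop 1] with n hn
  set k := N + s + 1 with hk
  have hqk : N + s + 1 ≤ q ^ k := (lt_pow_self' (n := k) hq1).le
  have e : x n - algebraMap K L (P.eval (zz q t n) / Q.eval (zz q t n))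
      = (Y n - algebraMap K L (P.eval (zz q t n) / Q.eval (zz q t n)))
        + algebraMap K L ((ell q t n / ell q t (n + k)) ^ s) * x (n + k) := by
    rw [hxY n]; ring
  rw [e]
  refine (mul_le_mul_of_nonneg_left (norm_add_le _ _) (by positivity)).trans ?_
  rw [mul_add]
  refine add_le_add le_rfl ?_
  rw [norm_mul, norm_algebraMap', norm_pow, norm_div]
  have hb := hC (n + k)
  have hpos : 0 < ‖ell q t (n + k)‖ := norm_pos_iff.mpr (ell_ne' hq1 ht _)
  have hb2 : ‖x (n + k)‖ / ‖ell q t (n + k)‖ ^ s ≤ D / ‖ell q t (n + k)‖ := by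
    rw [div_le_div_iff₀ (by positivity) hpos]
    exact hb
  have h3 : (‖ell q t n‖ / ‖ell q t (n + k)‖) ^ s * ‖x (n + k)‖
      ≤ ‖ell q t n‖ ^ s * (D / ‖ell q t (n + k)‖) := by
    rw [div_pow, div_mul_eq_mul_div, mul_div_assoc]
    exact mul_le_mul_of_nonneg_left hb2 (by positivity)
  refine (mul_le_mul_of_nonneg_left h3 (by positivity)).trans ?_
  rw [norm_ell hq1 ht, norm_ell hq1 ht, norm_zz]
  have ht0 : 0 < ‖t‖ := by linarith
  rw [← div_eq_mul_inv, ← pow_mul, ← pow_mul, ← mul_assoc, ← pow_add, mul_div_assoc', 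
    div_le_div_iff₀ (by positivity) (by positivity)]
  have h4 : ‖t‖ ^ (q ^ n * N + sg q n * s) * ‖t‖ ^ (q ^ n) ≤ ‖t‖ ^ (sg q (n + k)) := by
    rw [← pow_add]
    refine pow_le_pow_right₀ ht.le ?_
    have h5 := sg_add q n k
    have h6 := le_sg q n hn
    calc q ^ n * N + sg q n * s + q ^ n ≤ sg q n * N + sg q n * s + sg q n := by
          gcongr
      _ = (N + s + 1) * sg q n := by ring
      _ ≤ q ^ k * sg q n := Nat.mul_le_mul_right _ hqk
      _ ≤ _ := h5
  calc ‖t‖ ^ (q ^ n * N + sg q n * s) * D * ‖t‖ ^ (q ^ n)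
      = D * (‖t‖ ^ (q ^ n * N + sg q n * s) * ‖t‖ ^ (q ^ n)) := by ring
    _ ≤ D * ‖t‖ ^ (sg q (n + k)) := mul_le_mul_of_nonneg_left h4 hC0

include hq1 ht in
/-- the polynomial part. -/
theorem HasExp.polyPart {x : ℕ → L} (hx : HasExp q t x) (N : ℕ) :
    ∃ p : K[X], Tendsto (fun n => ‖algebraMap K L (zz q t n) ^ N * x n
      - algebraMap K L (p.eval (zz q t n))‖) atTop (𝓝 0) := by
  obtain ⟨P, Q, hQ, h1⟩ := hx N
  set p := (X ^ N * P) / Q with hp
  set r := (X ^ N * P) % Q with hr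
  have hdiv : Q * p + r = X ^ N * P := EuclideanDomain.div_add_mod _ _
  have hdeg : r.degree < Q.degree := EuclideanDomain.mod_lt (X ^ N * P) hQ
  refine ⟨p, ?_⟩
  have hrat : Tendsto (fun n => ‖r.eval (zz q t n) / Q.eval (zz q t n)‖) atTop (𝓝 0) := by
    by_cases hr0 : r = 0
    · simp [hr0]
    have hnd : r.natDegree < Q.natDegree := natDegree_lt_natDegree hr0 hdeg
    obtain ⟨B, hB, hb⟩ := eval_eq Q hQ
    obtain ⟨C, hC, hCx⟩ := eval_le r r.natDegree le_rfl
    have hl : 0 < ‖Q.leadingCoeff‖ := norm_pos_iff.mpr (leadingCoeff_ne_zero.mpr hQ)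
    have h2 : Tendsto (fun n => C / ‖Q.leadingCoeff‖ * ‖zz q t n‖⁻¹) atTop (𝓝 0) := by
      have := (tendsto_inv_atTop_zero.comp (tendsto_zz hq1 ht)).const_mul (C / ‖Q.leadingCoeff‖)
      simpa using this
    refine squeeze_zero' (Eventually.of_forall fun n => by positivity) ?_ h2
    filter_upwards [ev_ge hq1 ht B] with n hn
    have hz1 := one_le_zz hq1 ht n
    have hz0 : 0 < ‖zz q t n‖ := by linarith
    rw [norm_div, hb _ hn]
    rw [← div_eq_mul_inv, div_div, div_le_div_iff₀ (by positivity) (by positivity)]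
    have h3 := hCx _ hz1
    have h4 : ‖zz q t n‖ ^ r.natDegree * ‖zz q t n‖ ≤ ‖zz q t n‖ ^ Q.natDegree := by
      rw [← pow_succ]
      exact pow_le_pow_right₀ hz1 hnd
    calc ‖r.eval (zz q t n)‖ * (‖Q.leadingCoeff‖ * ‖zz q t n‖)
        ≤ (C * ‖zz q t n‖ ^ r.natDegree) * (‖Q.leadingCoeff‖ * ‖zz q t n‖) := by gcongr
      _ = (C * ‖Q.leadingCoeff‖) * (‖zz q t n‖ ^ r.natDegree * ‖zz q t n‖) := by ring
      _ ≤ (C * ‖Q.leadingCoeff‖) * ‖zz q t n‖ ^ Q.natDegree := by gcongr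
      _ = _ := by ring
  have h5 := h1.add hrat
  rw [add_zero] at h5
  obtain ⟨B, c, hB, hc, hb⟩ := eval_ge Q hQ
  refine squeeze_zero' (Eventually.of_forall fun n => by positivity) ?_ h5
  filter_upwards [ev_ge hq1 ht B] with n hn
  have hQn : Q.eval (zz q t n) ≠ 0 := norm_pos_iff.mp (hc.trans_le (hb _ hn))
  have e : algebraMap K L (zz q t n) ^ N * x n - algebraMap K L (p.eval (zz q t n))
      = algebraMap K L (zz q t n) ^ N
          * (x n - algebraMap K L (P.eval (zz q t n) / Q.eval (zz q t n)))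
        + algebraMap K L (r.eval (zz q t n) / Q.eval (zz q t n)) := by
    have h6 := congrArg (eval (zz q t n)) hdiv
    simp only [eval_add, eval_mul, eval_pow, eval_X] at h6
    have h7 : r.eval (zz q t n) / Q.eval (zz q t n)
        = zz q t n ^ N * (P.eval (zz q t n) / Q.eval (zz q t n)) - p.eval (zz q t n) := by
      field_simp
      linear_combination h6
    rw [h7, map_sub, map_mul, map_pow]
    ring
  rw [e]
  refine (norm_add_le _ _).trans ?_
  rw [norm_mul, norm_pow, norm_algebraMap', norm_algebraMap']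

include hq1 ht in
/-- either super-polynomially small or of exact polynomial size. -/
theorem HasExp.dichotomy {x : ℕ → L} (hx : HasExp q t x) :
    (∀ N : ℕ, Tendsto (fun n => ‖zz q t n‖ ^ N * ‖x n‖) atTop (𝓝 0)) ∨
    ∃ (a : ℝ) (N d : ℕ), 0 < a ∧ ∀ᶠ n in atTop, ‖zz q t n‖ ^ N * ‖x n‖ = a * ‖zz q t n‖ ^ d := by
  by_cases h : ∃ (N : ℕ) (p : K[X]), p ≠ 0 ∧ Tendsto (fun n => ‖algebraMap K L (zz q t n) ^ N * x n
      - algebraMap K L (p.eval (zz q t n))‖) atTop (𝓝 0)
  · right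
    obtain ⟨N, p, hp, h1⟩ := h
    obtain ⟨B, hB, hb⟩ := eval_eq p hp
    have hl : 0 < ‖p.leadingCoeff‖ := norm_pos_iff.mpr (leadingCoeff_ne_zero.mpr hp)
    refine ⟨‖p.leadingCoeff‖, N, p.natDegree, hl, ?_⟩
    filter_upwards [ev_ge hq1 ht B, h1.eventually_lt_const hl] with n hn hn2
    have h2 : ‖algebraMap K L (p.eval (zz q t n))‖ = ‖p.leadingCoeff‖ * ‖zz q t n‖ ^ p.natDegree := by
      rw [norm_algebraMap', hb _ hn]
    have h3 : ‖p.leadingCoeff‖ ≤ ‖algebraMap K L (p.eval (zz q t n))‖ := by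
      rw [h2]
      have : 1 ≤ ‖zz q t n‖ ^ p.natDegree := one_le_pow₀ (one_le_zz hq1 ht n)
      nlinarith
    have h4 : ‖algebraMap K L (zz q t n) ^ N * x n‖ = ‖algebraMap K L (p.eval (zz q t n))‖ := by
      have e : algebraMap K L (zz q t n) ^ N * x n = algebraMap K L (p.eval (zz q t n))
          + (algebraMap K L (zz q t n) ^ N * x n - algebraMap K L (p.eval (zz q t n))) := by ring
      rw [e]
      exact norm_add_of_lt (hn2.trans_le h3)
    rw [← h2, ← h4, norm_mul, norm_pow, norm_algebraMap']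
  · left
    push Not at h
    intro N
    obtain ⟨p, hp⟩ := hx.polyPart hq1 ht N
    by_cases hp0 : p = 0
    · subst hp0
      simpa using hp
    · exact absurd hp (h N p hp0)

end exp

end Pool.Agent.R316.Ff
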