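import Pool.Agent.R316.FfG

/-!
Bounded denominators, the bridging lemma, and the even case.
-/

set_option linter.unusedSectionVars false

open Polynomial Finset Filter Topology

namespace Pool.Agent.R316.Ff

section bd
variable {K : Type*} [NormedField K] [IsUltrametricDist K] {q : ℕ} {t : K} {O : Subring K}

/-- bounded denominators. -/
def BD (O : Subring K) (x : ℕ → K) : Prop := ∃ D ∈ O, D ≠ 0 ∧ ∀ n, D * x n ∈ O

theorem BD.add {x y : ℕ → K} (hx : BD O x) (hy : BD O y) : BD O (fun n => x n + y n) := by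
  obtain ⟨D, hD, hD0, h⟩ := hx
  obtain ⟨E, hE, hE0, h'⟩ := hy
  refine ⟨D * E, O.mul_mem hD hE, mul_ne_zero hD0 hE0, fun n => ?_⟩
  have e : D * E * (x n + y n) = E * (D * x n) + D * (E * y n) := by ring
  rw [e]
  exact O.add_mem (O.mul_mem hE (h n)) (O.mul_mem hD (h' n))

theorem BD.mul {x y : ℕ → K} (hx : BD O x) (hy : BD O y) : BD O (fun n => x n * y n) := by
  obtain ⟨D, hD, hD0, h⟩ := hx
  obtain ⟨E, hE, hE0, h'⟩ := hy
  refine ⟨D * E, O.mul_mem hD hE, mul_ne_zero hD0 hE0, fun n => ?_⟩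
  have e : D * E * (x n * y n) = (D * x n) * (E * y n) := by ring
  rw [e]
  exact O.mul_mem (h n) (h' n)

theorem BD.neg {x : ℕ → K} (hx : BD O x) : BD O (fun n => - x n) := by
  obtain ⟨D, hD, hD0, h⟩ := hx
  refine ⟨D, hD, hD0, fun n => ?_⟩
  rw [mul_neg]
  exact O.neg_mem (h n)

theorem BD.sub {x y : ℕ → K} (hx : BD O x) (hy : BD O y) : BD O (fun n => x n - y n) := by
  simpa [sub_eq_add_neg] using hx.add hy.neg

theorem BD.const (hfrac : ∀ x : K, ∃ D ∈ O, D ≠ 0 ∧ D * x ∈ O) (a : K) : BD O (fun _ => a) := by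
  obtain ⟨D, hD, hD0, h⟩ := hfrac a
  exact ⟨D, hD, hD0, fun _ => h⟩

theorem BD.sum {ι : Type*} (s : Finset ι) (f : ι → ℕ → K) (h : ∀ i ∈ s, BD O (f i)) :
    BD O (fun n => ∑ i ∈ s, f i n) := by
  classical
  induction s using Finset.induction_on with
  | empty => exact ⟨1, O.one_mem, one_ne_zero, fun n => by simpa using O.zero_mem⟩
  | insert a s ha ih =>
    simp only [sum_insert ha]
    exact (h a (mem_insert_self _ _)).add (ih fun i hi => h i (mem_insert_of_mem hi))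

theorem zz_mem (htO : t ∈ O) (n : ℕ) : zz q t n ∈ O := O.pow_mem htO _

theorem BD.poly (htO : t ∈ O) (hfrac : ∀ x : K, ∃ D ∈ O, D ≠ 0 ∧ D * x ∈ O) (P : K[X]) :
    BD O (fun n => P.eval (zz q t n)) := by
  simp only [eval_eq_sum_range]
  refine BD.sum _ _ fun i _ => (BD.const hfrac _).mul ?_
  exact ⟨1, O.one_mem, one_ne_zero, fun n => by rw [one_mul]; exact O.pow_mem (zz_mem htO n) _⟩

theorem ell_div_mem (htO : t ∈ O) (hl : ∀ n, ell q t n ≠ 0) (d k : ℕ) :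
    ell q t (d + k) / ell q t d ∈ O := by
  induction k with
  | zero => rw [add_zero, div_self (hl d)]; exact O.one_mem
  | succ k ih =>
    rw [← add_assoc, ell, mul_div_right_comm]
    exact O.mul_mem ih (O.sub_mem htO (O.pow_mem htO _))

theorem BD.sumell (htO : t ∈ O) (hl : ∀ n, ell q t n ≠ 0) {y : ℕ → K} (hy : BD O y) (s : ℕ) :
    BD O (fun n => ell q t n ^ s * ∑ d ∈ range n, y d / ell q t d ^ s) := by
  obtain ⟨D, hD, hD0, h⟩ := hy
  refine ⟨D, hD, hD0, fun n => ?_⟩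
  simp only
  rw [mul_sum, mul_sum]
  refine O.sum_mem fun d hd => ?_
  rw [mem_range] at hd
  obtain ⟨k, rfl⟩ := Nat.exists_eq_add_of_le hd.le
  have e : D * (ell q t (d + k) ^ s * (y d / ell q t d ^ s))
      = (ell q t (d + k) / ell q t d) ^ s * (D * y d) := by
    rw [div_pow]; ring
  rw [e]
  exact O.mul_mem (O.pow_mem (ell_div_mem htO hl d k) _) (h d)

theorem BD.eventually_eq (hO : ∀ x ∈ O, x ≠ 0 → 1 ≤ ‖x‖) (htO : t ∈ O)
    (hfrac : ∀ x : K, ∃ D ∈ O, D ≠ 0 ∧ D * x ∈ O) {x : ℕ → K} (hx : BD O x) (P : K[X])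
    (hlim : Tendsto (fun n => ‖x n - P.eval (zz q t n)‖) atTop (𝓝 0)) :
    ∀ᶠ n in atTop, x n = P.eval (zz q t n) := by
  obtain ⟨D, hD, hD0, h⟩ := hx.sub (BD.poly (q := q) htO hfrac P)
  have hDn : 0 < ‖D‖ := norm_pos_iff.mpr hD0
  have h2 := hlim.eventually_lt_const (inv_pos.mpr hDn)
  filter_upwards [h2] with n hn
  by_contra hne
  have h3 := hO _ (h n) (mul_ne_zero hD0 (sub_ne_zero.mpr hne))
  rw [norm_mul] at h3
  have h4 : ‖D‖ * ‖x n - P.eval (zz q t n)‖ < ‖D‖ * ‖D‖⁻¹ := mul_lt_mul_of_pos_left hn hDn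
  rw [mul_inv_cancel₀ hDn.ne'] at h4
  linarith

end bd

section tail
variable {L : Type*} [NormedField L] [IsUltrametricDist L]

/-- the ultrametric tail bound. -/
theorem tail_bound {a : ℕ → L} {Z : L} {B : ℕ → ℝ} (hB : Antitone B) (hB0 : ∀ n, 0 ≤ B n)
    (ha : ∀ d, ‖a d‖ ≤ B d)
    (hlim : Tendsto (fun m => ∑ d ∈ range m, a d) atTop (𝓝 Z)) (n : ℕ) :
    ‖Z - ∑ d ∈ range n, a d‖ ≤ B n := by
  have h1 : Tendsto (fun m => ‖(∑ d ∈ range m, a d) - ∑ d ∈ range n, a d‖) atTop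
      (𝓝 ‖Z - ∑ d ∈ range n, a d‖) := (hlim.sub_const _).norm
  refine le_of_tendsto h1 ?_
  filter_upwards [eventually_ge_atTop n] with m hm
  rw [← sum_Ico_eq_sub _ hm]
  refine IsUltrametricDist.norm_sum_le_of_forall_le_of_nonneg (hB0 n) fun i hi => ?_
  exact (ha i).trans (hB (mem_Ico.mp hi).1)

end tail

section bridge
variable {K : Type*} [NormedField K] [IsUltrametricDist K] {q : ℕ} (hq1 : 1 < q) {t : K}
  (ht : 1 < ‖t‖) {O : Subring K} (hO : ∀ x ∈ O, x ≠ 0 → 1 ≤ ‖x‖) (htO : t ∈ O)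
  (hfrac : ∀ x : K, ∃ D ∈ O, D ≠ 0 ∧ D * x ∈ O)

include hq1 ht in
theorem ell_anti (C : ℝ) (hC : 0 ≤ C) : Antitone (fun n => C / ‖ell q t n‖) := by
  refine antitone_nat_of_succ_le fun n => ?_
  rw [norm_ell hq1 ht, norm_ell hq1 ht]
  have ht0 : 0 < ‖t‖ := by linarith
  refine div_le_div_of_nonneg_left hC (by positivity) ?_
  exact pow_le_pow_right₀ ht.le (by rw [sg]; omega)

include hq1 ht in
theorem poly_zero_of_tendsto (P : K[X])
    (h : Tendsto (fun n => ‖P.eval (zz q t n)‖) atTop (𝓝 0)) : P = 0 := by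
  by_contra hP
  obtain ⟨B, c, hB, hc, hb⟩ := eval_ge P hP
  have h2 := (h.eventually_lt_const hc).and (ev_ge hq1 ht B)
  obtain ⟨n, hn1, hn2⟩ := h2.exists
  exact absurd (hb _ hn2) (not_le.mpr hn1)

include hq1 ht hO htO hfrac in
theorem bridge (w : ℕ) (Pt : K[X]) (C : ℝ)
    (hC : ∀ d, ‖Pt.eval (zz q t d)‖ * ‖ell q t d‖ ≤ C * ‖ell q t d‖ ^ w)
    (hlim : Tendsto (fun m => ∑ d ∈ range m, Pt.eval (zz q t d) / ell q t d ^ w) atTop (𝓝 0)) :
    ∃ p : K[X], expand K q p = (Polynomial.C t - X ^ q) ^ w * (p - Pt) := by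
  have hl := ell_ne' hq1 ht
  have hlpos : ∀ n, 0 < ‖ell q t n‖ := fun n => norm_pos_iff.mpr (hl n)
  have hC0 : 0 ≤ C := by
    have := hC 0
    simp only [ell, norm_one, one_pow, mul_one] at this
    exact (norm_nonneg _).trans this
  set R : ℕ → K := fun n => -(ell q t n ^ w * ∑ d ∈ range n, Pt.eval (zz q t d) / ell q t d ^ w)
    with hR
  have hrec : ∀ n, R n = Pt.eval (zz q t n) + algebraMap K K ((ell q t n / ell q t (n + 1)) ^ w)
      * R (n + 1) := by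
    intro n
    have h1 := hl n
    have h2 := hl (n + 1)
    simp only [hR, Algebra.algebraMap_self, RingHom.id_apply]
    rw [sum_range_succ, div_pow]
    field_simp
    ring
  have htail : ∀ n, ‖R n‖ * ‖ell q t n‖ ≤ C * ‖ell q t n‖ ^ w := by
    intro n
    have h1 := tail_bound (ell_anti hq1 ht C hC0) (fun n => by positivity)
      (a := fun d => Pt.eval (zz q t d) / ell q t d ^ w) (fun d => by
        rw [norm_div, norm_pow, div_le_div_iff₀ (pow_pos (hlpos d) _) (hlpos d)]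
        exact hC d) hlim n
    rw [zero_sub, norm_neg] at h1
    simp only [hR, norm_neg, norm_mul, norm_pow]
    rw [le_div_iff₀ (hlpos n)] at h1
    calc _ = ‖ell q t n‖ ^ w * (‖∑ d ∈ range n, Pt.eval (zz q t d) / ell q t d ^ w‖ * ‖ell q t n‖) := by
          ring
      _ ≤ ‖ell q t n‖ ^ w * C := mul_le_mul_of_nonneg_left h1 (by positivity)
      _ = _ := by ring
  have hexp : HasExp q t R := by
    refine HasExp.rec hq1 ht w (y := fun n => Pt.eval (zz q t n)) ?_ hrec C htail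
    have := HasExp.poly (q := q) (t := t) (L := K) Pt
    simpa using this
  obtain ⟨p, hp⟩ := hexp.polyPart hq1 ht 0
  have hBD : BD O R := (BD.sumell htO hl (BD.poly (q := q) htO hfrac Pt) w).neg
  have hev := BD.eventually_eq (q := q) hO htO hfrac hBD p (by simpa using hp)
  refine ⟨p, ?_⟩
  rw [← sub_eq_zero]
  refine poly_zero_of_tendsto hq1 ht _ ?_
  refine tendsto_const_nhds.congr' ?_
  have hev2 := (tendsto_add_atTop_nat 1).eventually hev
  filter_upwards [hev, hev2] with n h1 h2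
  have h3 := hrec n
  rw [h1, h2] at h3
  have h4 : ell q t (n + 1) = ell q t n * (t - t ^ (q ^ (n + 1))) := rfl
  have h5 : t - t ^ (q ^ (n + 1)) ≠ 0 := by
    have := hl (n + 1)
    rw [h4] at this
    exact right_ne_zero_of_mul this
  have h6 : (ell q t n / ell q t (n + 1)) ^ w = ((t - t ^ (q ^ (n + 1))) ^ w)⁻¹ := by
    rw [h4, ← inv_pow]
    congr 1
    have := hl n
    field_simp
  rw [h6] at h3
  simp only [Algebra.algebraMap_self, RingHom.id_apply] at h3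
  have h7 : zz q t n ^ q = t ^ (q ^ (n + 1)) := by rw [← zz_succ]; rfl
  symm
  rw [norm_eq_zero]
  simp only [eval_sub, expand_eval, eval_mul, eval_pow, eval_C, eval_X]
  rw [← zz_succ, sub_eq_zero, zz_succ, h7, h3, ← h7, ← zz_succ]
  have h8 : (t - zz q t (n + 1)) ≠ 0 := by rw [zz]; exact h5
  field_simp
  ring

end bridge

section bounds
variable {F : Type*} [Field F] [Fintype F] {K : Type*} [NormedField K] [IsUltrametricDist K]
  [Algebra F K] {q : ℕ} (hq : Fintype.card F = q) {t : K} (ht : 1 < ‖t‖)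

theorem Az_eval (d : ℕ) (hq : Fintype.card F = q) : (Az q t).eval (zz q t d) = AA q t d := by
  have h1 := frob_sub (F := F) (R := K) hq (zz q t d) t
  rw [Az, eval_mul, eval_C, eval_pow, eval_sub, eval_X, eval_C, h1, AA, ← zz_succ, zz]
  ring

theorem sg_mul (hq1 : 1 < q) (n : ℕ) : (q - 1) * sg q n + q = q ^ (n + 1) := by
  obtain ⟨e, rfl⟩ : ∃ e, q = e + 1 := ⟨q - 1, by omega⟩
  induction n with
  | zero => simp [sg]
  | succ n ih =>
    rw [sg_succ]
    simp only [Nat.add_sub_cancel] at ih ⊢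
    rw [pow_succ' _ (n + 1), ← ih]
    ring

theorem Az_deg : (Az q t).natDegree ≤ q := by
  rw [Az]
  refine (natDegree_C_mul_le _ _).trans ?_
  refine natDegree_pow_le.trans ?_
  rw [natDegree_X_sub_C, mul_one]

include ht in
/-- values of polynomials in `A` at `z_d` are bounded by powers of `ell_d`. -/
theorem comp_bound (hq1 : 1 < q) (P : K[X]) (s : ℕ) (hs : 0 < s)
    (hP : (q - 1) * P.natDegree ≤ s - 1) :
    ∃ C : ℝ, ∀ d, ‖(P.comp (Az q t)).eval (zz q t d)‖ * ‖ell q t d‖ ≤ C * ‖ell q t d‖ ^ s := by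
  have hdeg : (P.comp (Az q t)).natDegree ≤ q * P.natDegree := by
    refine natDegree_comp_le.trans ?_
    rw [mul_comm]
    exact Nat.mul_le_mul_right _ Az_deg
  obtain ⟨C, hC, hCx⟩ := eval_le (P.comp (Az q t)) _ hdeg
  refine ⟨C * ‖t‖ ^ (q * P.natDegree), fun d => ?_⟩
  have h1 := hCx _ (one_le_zz hq1 ht d)
  have ht0 : 0 < ‖t‖ := by linarith
  have h2 : ‖zz q t d‖ ^ (q * P.natDegree) ≤ ‖t‖ ^ (q * P.natDegree) * ‖ell q t d‖ ^ (s - 1) := by
    rw [norm_zz, norm_ell hq1 ht, ← pow_mul, ← pow_mul, ← pow_add]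
    refine pow_le_pow_right₀ ht.le ?_
    have h3 := sg_mul hq1 d
    calc q ^ d * (q * P.natDegree) = q ^ (d + 1) * P.natDegree := by rw [pow_succ]; ring
      _ = q * P.natDegree + ((q - 1) * P.natDegree) * sg q d := by rw [← h3]; ring
      _ ≤ q * P.natDegree + (s - 1) * sg q d := by gcongr
      _ = _ := by ring
  calc _ ≤ (C * ‖zz q t d‖ ^ (q * P.natDegree)) * ‖ell q t d‖ := by gcongr
    _ ≤ (C * (‖t‖ ^ (q * P.natDegree) * ‖ell q t d‖ ^ (s - 1))) * ‖ell q t d‖ := by gcongr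
    _ = C * ‖t‖ ^ (q * P.natDegree) * ‖ell q t d‖ ^ (s - 1 + 1) := by rw [pow_succ]; ring
    _ = _ := by rw [Nat.sub_add_cancel hs]

theorem Src_deg' (hq1 : 1 < q) (ht : 1 < ‖t‖) (s₁ s₂ : ℕ) (hs₁ : 0 < s₁) (r : K) :
    (q - 1) * (Src q t s₁ s₂ r).natDegree ≤ s₁ + s₂ - 1 := by
  have h1 := ((hh_WD hq1 ht (s₁ - 1)).mul (dd_WD hq1 ht s₂)).2
  have h2 := (hh_WD hq1 ht (s₁ + s₂ - 1)).2
  have h3 : (C r * hh q t (s₁ + s₂ - 1)).natDegree ≤ (hh q t (s₁ + s₂ - 1)).natDegree :=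
    natDegree_C_mul_le _ _
  have h4 : (Src q t s₁ s₂ r).natDegree ≤ _ := natDegree_sub_le _ _
  rcases le_max_iff.mp h4 with h5 | h5
  · have := Nat.mul_le_mul_left (q - 1) h5
    omega
  · have := Nat.mul_le_mul_left (q - 1) (h5.trans h3)
    omega

theorem Src_eval (hq : Fintype.card F = q) (htr : Transcendental F t) (s₁ s₂ : ℕ) (hs₁ : 0 < s₁)
    (hs₂ : 0 < s₂) (hdvd : (q - 1) ∣ s₂) (r : K) (d : ℕ) :
    ((Src q t s₁ s₂ r).comp (Az q t)).eval (zz q t d)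
      = ell q t d ^ (s₁ + s₂) * (SS F t d s₁ * (∑ e ∈ range d, SS F t e s₂)
        - r * SS F t d (s₁ + s₂)) := by
  rw [eval_comp, Az_eval d hq, Src, eval_sub, eval_mul, eval_mul, eval_C,
    hh_eval hq htr, hh_eval hq htr, dd_eval hq htr d s₂ hs₂ hdvd,
    Nat.sub_add_cancel hs₁, Nat.sub_add_cancel (by omega : 1 ≤ s₁ + s₂), pow_add]
  ring

/-- the lower bound in the even case. -/
theorem even_low (hq : Fintype.card F = q) (htr : Transcendental F t) (ht : 1 < ‖t‖)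
    {O : Subring K} (hO : ∀ x ∈ O, x ≠ 0 → 1 ≤ ‖x‖) (htO : t ∈ O)
    (hfrac : ∀ x : K, ∃ D ∈ O, D ≠ 0 ∧ D * x ∈ O)
    (s₁ s₂ : ℕ) (hs₁ : 0 < s₁) (hs₂ : 0 < s₂) (hdvd : (q - 1) ∣ s₂) (r : K) (hr : ‖r‖ < 1)
    (hlim : Tendsto (fun m => ∑ d ∈ range m, (SS F t d s₁ * (∑ e ∈ range d, SS F t e s₂)
        - r * SS F t d (s₁ + s₂))) atTop (𝓝 0)) : (q - 1) * s₁ ≤ s₂ := by
  have hq1 := q1 hq
  have hl := ell_ne' hq1 ht
  obtain ⟨C, hC⟩ := comp_bound ht hq1 (Src q t s₁ s₂ r) (s₁ + s₂) (by omega)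
    (Src_deg' hq1 ht s₁ s₂ hs₁ r)
  obtain ⟨p, hp⟩ := bridge hq1 ht hO htO hfrac (s₁ + s₂) ((Src q t s₁ s₂ r).comp (Az q t)) C hC (by
    refine hlim.congr fun m => sum_congr rfl fun d _ => ?_
    rw [Src_eval hq htr s₁ s₂ hs₁ hs₂ hdvd, mul_div_cancel_left₀ _ (pow_ne_zero _ (hl d))])
  obtain ⟨M, hM, -⟩ := exists_M hq (s₁ + s₂) (by omega) p _ hp
  exact low_bound hq1 ht s₁ s₂ hs₁ hs₂ hdvd r hr M hM

end bounds

end Pool.Agent.R316.Ff
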