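import Pool.Agent.R316.FfH

/-!
Evenness: if `zeta(s₁,s₂)/zeta(s₁+s₂)` lies in `K` then `(q-1)` divides `s₂`.
-/

set_option linter.unusedSectionVars false

open Polynomial Finset Filter Topology

namespace Pool.Agent.R316.Ff

section pade
variable {K : Type*} [Field K]

/-- Pade-type linear algebra. -/
theorem pade (p : K[X]) (N M : ℕ) (hNM : M ≤ N) :
    ∃ Q : K[X], Q ≠ 0 ∧ Q.natDegree ≤ M ∧ ∀ i, N - M ≤ i → i < N → (Q * p).coeff i = 0 := by
  classical
  let f : (Fin (M + 1) → K) →ₗ[K] (Fin M → K) :=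
    { toFun := fun a i => ((∑ j : Fin (M + 1), C (a j) * X ^ (j : ℕ)) * p).coeff (N - M + i)
      map_add' := by
        intro a b
        ext i
        simp only [Pi.add_apply, C_add, add_mul, sum_add_distrib, coeff_add]
      map_smul' := by
        intro c a
        ext i
        simp only [Pi.smul_apply, smul_eq_mul, C_mul, RingHom.id_apply, mul_assoc]
        rw [← mul_sum, mul_assoc, coeff_C_mul] }
  have hker := LinearMap.ker_ne_bot_of_finrank_lt (f := f) (by simp)
  obtain ⟨a, ha, ha0⟩ := (Submodule.ne_bot_iff _).mp hker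
  rw [LinearMap.mem_ker] at ha
  refine ⟨∑ j : Fin (M + 1), C (a j) * X ^ (j : ℕ), ?_, ?_, ?_⟩
  · intro h0
    apply ha0
    ext j
    have h1 := congrArg (fun p => coeff p (j : ℕ)) h0
    simp only [finsetSum_coeff, coeff_C_mul, coeff_X_pow, mul_ite, mul_one, mul_zero,
      coeff_zero] at h1
    rw [sum_eq_single j] at h1
    · simpa using h1
    · intro b _ hb
      rw [if_neg]
      intro h2
      exact hb (Fin.ext h2.symm)
    · simp
  · refine natDegree_sum_le_of_forall_le _ _ fun j _ => ?_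
    refine (natDegree_C_mul_X_pow_le _ _).trans ?_
    have := j.2
    omega
  · intro i h1 h2
    have h3 := congrFun ha ⟨i - (N - M), by omega⟩
    simp only [LinearMap.coe_mk, AddHom.coe_mk, Pi.zero_apply, f] at h3
    rwa [Nat.add_sub_cancel' h1] at h3

end pade

section sizes
variable {F : Type*} [Field F] [Fintype F] {K : Type*} [NormedField K] [IsUltrametricDist K]
  [Algebra F K] {q : ℕ} (hq : Fintype.card F = q) {t : K} (ht : 1 < ‖t‖)

include hq in
theorem norm_F (a : F) : ‖algebraMap F K a‖ ≤ 1 := by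
  by_cases ha : a = 0
  · simp [ha]
  have h1 : (algebraMap F K a) ^ (q - 1) = 1 := by
    rw [← map_pow, ← hq, FiniteField.pow_card_sub_one_eq_one a ha, map_one]
  have h2 : ‖algebraMap F K a‖ ^ (q - 1) = 1 := by rw [← norm_pow, h1, norm_one]
  have hq1 := q1 hq
  exact ((pow_eq_one_iff_of_nonneg (norm_nonneg _) (by omega)).mp h2).le

include hq ht in
theorem norm_lo_lt {d : ℕ} (c : Fin d → F) : ‖lo t c‖ < ‖t‖ ^ d := by
  have ht0 : 0 < ‖t‖ := by linarith
  refine norm_sum_lt (by positivity) _ _ fun i _ => ?_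
  rw [Algebra.smul_def, norm_mul, norm_pow]
  calc _ ≤ 1 * ‖t‖ ^ (i : ℕ) := mul_le_mul_of_nonneg_right (norm_F hq _) (by positivity)
    _ < _ := by rw [one_mul]; exact pow_lt_pow_right₀ ht i.2

include hq ht in
theorem norm_el {d : ℕ} (c : Fin d → F) : ‖el t c‖ = ‖t‖ ^ d := by
  have := norm_lo_lt hq ht c
  rw [el, norm_add_of_lt, norm_pow]
  rwa [norm_pow]

include hq ht in
theorem norm_SS_le (d s : ℕ) : ‖SS F t d s‖ ≤ (‖t‖⁻¹) ^ (d * s) := by
  refine IsUltrametricDist.norm_sum_le_of_forall_le_of_nonneg (by positivity) fun c _ => ?_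
  rw [norm_pow, norm_inv, norm_el hq ht, ← inv_pow, ← pow_mul]

theorem SS_zero (s : ℕ) : SS F t 0 s = 1 := by
  simp [SS, el, lo]

include hq ht in
theorem norm_SS_lt (d s : ℕ) (hd : 0 < d) (hs : 0 < s) : ‖SS F t d s‖ < 1 := by
  refine lt_of_le_of_lt (norm_SS_le hq ht d s) ?_
  exact pow_lt_one₀ (by positivity) (inv_lt_one_of_one_lt₀ ht) (Nat.mul_pos hd hs).ne'

include hq ht in
theorem norm_SS_le_one (d s : ℕ) : ‖SS F t d s‖ ≤ 1 := by
  refine (norm_SS_le hq ht d s).trans ?_
  exact pow_le_one₀ (by positivity) (inv_le_one_of_one_le₀ ht.le)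

include hq ht in
theorem norm_sumS (n s : ℕ) (hn : 0 < n) (hs : 0 < s) : ‖∑ d ∈ range n, SS F t d s‖ = 1 := by
  rw [← add_sum_erase (range n) _ (mem_range.mpr hn), SS_zero, norm_add_of_lt, norm_one]
  rw [norm_one]
  refine norm_sum_lt one_pos _ _ fun i hi => ?_
  rw [mem_erase] at hi
  exact norm_SS_lt hq ht i s (Nat.pos_of_ne_zero hi.1) hs

include hq ht in
theorem norm_sumS_le (n s : ℕ) : ‖∑ d ∈ range n, SS F t d s‖ ≤ 1 :=
  IsUltrametricDist.norm_sum_le_of_forall_le_of_nonneg zero_le_one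
    fun i _ => norm_SS_le_one hq ht i s

end sizes

section flat
variable {K L : Type*} [NormedField K] [IsUltrametricDist K] [NormedField L]
  [IsUltrametricDist L] [NormedAlgebra K L] {q : ℕ} {t : K}

/-- super-polynomially small. -/
def Flat (q : ℕ) (t : K) (x : ℕ → L) : Prop :=
  ∀ N : ℕ, Tendsto (fun n => ‖zz q t n‖ ^ N * ‖x n‖) atTop (𝓝 0)

theorem Flat.add {x y : ℕ → L} (hx : Flat q t x) (hy : Flat q t y) :
    Flat q t (fun n => x n + y n) := by
  intro N
  have h := (hx N).add (hy N)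
  rw [add_zero] at h
  refine squeeze_zero (fun n => by positivity) (fun n => ?_) h
  rw [← mul_add]
  exact mul_le_mul_of_nonneg_left (norm_add_le _ _) (by positivity)

theorem Flat.mul_poly (hq1 : 1 < q) (ht : 1 < ‖t‖) {x : ℕ → L} (hx : Flat q t x) (P : K[X]) :
    Flat q t (fun n => algebraMap K L (P.eval (zz q t n)) * x n) := by
  intro N
  obtain ⟨C, hC, hCx⟩ := eval_le P P.natDegree le_rfl
  have h := (hx (N + P.natDegree)).const_mul C
  rw [mul_zero] at h
  refine squeeze_zero (fun n => by positivity) (fun n => ?_) h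
  rw [norm_mul, norm_algebraMap', pow_add]
  have h1 := hCx _ (one_le_zz hq1 ht n)
  calc ‖zz q t n‖ ^ N * (‖P.eval (zz q t n)‖ * ‖x n‖)
      ≤ ‖zz q t n‖ ^ N * ((C * ‖zz q t n‖ ^ P.natDegree) * ‖x n‖) := by gcongr
    _ = _ := by ring

theorem Flat.shift (hq1 : 1 < q) (ht : 1 < ‖t‖) {x : ℕ → L} (hx : Flat q t x) :
    Flat q t (fun n => x (n + 1)) := by
  intro N
  have h2 := (hx N).comp (tendsto_add_atTop_nat 1)
  refine squeeze_zero (fun n => by positivity) (fun n => ?_) h2
  simp only [Function.comp]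
  refine mul_le_mul_of_nonneg_right ?_ (norm_nonneg _)
  refine pow_le_pow_left₀ (norm_nonneg _) ?_ N
  rw [norm_zz, norm_zz]
  exact pow_le_pow_right₀ ht.le (Nat.pow_le_pow_right (by omega) (Nat.le_succ n))

theorem Flat.of_mul (hq1 : 1 < q) (ht : 1 < ‖t‖) {x : ℕ → L} (P : K[X]) (hP : P ≠ 0)
    (hx : Flat q t (fun n => algebraMap K L (P.eval (zz q t n)) * x n)) : Flat q t x := by
  intro N
  obtain ⟨B, c, hB, hc, hb⟩ := eval_ge P hP
  have h := (hx N).const_mul c⁻¹
  rw [mul_zero] at h
  refine squeeze_zero' (Eventually.of_forall fun n => by positivity) ?_ h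
  filter_upwards [ev_ge hq1 ht B] with n hn
  have h1 := hb _ hn
  rw [norm_mul, norm_algebraMap']
  calc ‖zz q t n‖ ^ N * ‖x n‖ = c⁻¹ * (‖zz q t n‖ ^ N * (c * ‖x n‖)) := by
        field_simp
    _ ≤ c⁻¹ * (‖zz q t n‖ ^ N * (‖P.eval (zz q t n)‖ * ‖x n‖)) := by gcongr

theorem Flat.poly_zero (hq1 : 1 < q) (ht : 1 < ‖t‖) (P : K[X])
    (h : Flat q t (fun n => algebraMap K L (P.eval (zz q t n)))) : P = 0 := by
  refine poly_zero_of_tendsto hq1 ht P ?_
  simpa using h 0

/-- A flat relation between `lam` and rational functions forces `lam` to start at `0`. -/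
theorem flat_case {F : Type*} [Field F] [Fintype F] [Algebra F K] (hq : Fintype.card F = q)
    (ht : 1 < ‖t‖) (s : ℕ) (hs : 0 < s) (h : K[X]) (lam : ℕ → L)
    (hrec : ∀ n, lam n = algebraMap K L (h.eval (zz q t n))
      + algebraMap K L ((ell q t n / ell q t (n + 1)) ^ s) * lam (n + 1))
    (Q1 Q0 : K[X]) (hQ1 : Q1 ≠ 0)
    (hflat : Flat q t (fun n => algebraMap K L (Q1.eval (zz q t n)) * lam n
      - algebraMap K L (Q0.eval (zz q t n)))) : lam 0 = 0 := by
  classical
  have hq1 := q1 hq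
  have hl := ell_ne' hq1 ht
  set gg := EuclideanDomain.gcd Q0 Q1 with hgg
  have hgne : gg ≠ 0 := by
    intro h0
    exact hQ1 (EuclideanDomain.gcd_eq_zero_iff.mp h0).2
  obtain ⟨q0, hq0⟩ : gg ∣ Q0 := EuclideanDomain.gcd_dvd_left _ _
  obtain ⟨q1', hq1'⟩ : gg ∣ Q1 := EuclideanDomain.gcd_dvd_right _ _
  have hcop : IsCoprime q0 q1' := by
    have hb := EuclideanDomain.gcd_eq_gcd_ab Q0 Q1
    rw [← hgg] at hb
    refine ⟨EuclideanDomain.gcdA Q0 Q1, EuclideanDomain.gcdB Q0 Q1, ?_⟩
    apply mul_left_cancel₀ hgne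
    rw [mul_one]
    linear_combination (-1 : K[X]) * hb - EuclideanDomain.gcdA Q0 Q1 * hq0
      - EuclideanDomain.gcdB Q0 Q1 * hq1'
  have hq1ne : q1' ≠ 0 := by
    rintro rfl
    exact hQ1 (by rw [hq1', mul_zero])
  -- the flat relation with coprime coefficients
  have hfl : Flat q t (fun n => algebraMap K L (q1'.eval (zz q t n)) * lam n
      - algebraMap K L (q0.eval (zz q t n))) := by
    refine Flat.of_mul hq1 ht gg hgne ?_
    convert hflat using 2 with n
    rw [hq0, hq1', eval_mul, eval_mul, map_mul, map_mul]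
    ring
  have hdiff : ∀ n, (t - zz q t n ^ q) ≠ 0 ∧ (ell q t n / ell q t (n + 1)) ^ s
      = ((t - zz q t n ^ q) ^ s)⁻¹ := by
    intro n
    have h4 : ell q t (n + 1) = ell q t n * (t - t ^ (q ^ (n + 1))) := rfl
    have h5 : t - t ^ (q ^ (n + 1)) ≠ 0 := by
      have := hl (n + 1)
      rw [h4] at this
      exact right_ne_zero_of_mul this
    have h7 : zz q t n ^ q = t ^ (q ^ (n + 1)) := by rw [← zz_succ]; rfl
    rw [h7]
    refine ⟨h5, ?_⟩
    rw [h4, ← inv_pow]
    congr 1
    have := hl n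
    field_simp
  -- polynomial identity
  have hW : expand K q q1' * (Polynomial.C t - X ^ q) ^ s * (q0 - q1' * h) - q1' * expand K q q0
      = 0 := by
    refine Flat.poly_zero (L := L) hq1 ht _ ?_
    have h1 := (hfl.mul_poly hq1 ht (-(expand K q q1' * (Polynomial.C t - X ^ q) ^ s))).add
      ((hfl.shift hq1 ht).mul_poly hq1 ht q1')
    convert h1 using 2 with n
    obtain ⟨h5, h6⟩ := hdiff n
    have h8 := hrec n
    rw [h6] at h8
    simp only [eval_sub, eval_mul, expand_eval, eval_pow, eval_C, eval_X, eval_neg]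
    rw [zz_succ]
    have h9 : algebraMap K L ((t - zz q t n ^ q) ^ s) * lam n
        = algebraMap K L ((t - zz q t n ^ q) ^ s) * algebraMap K L (h.eval (zz q t n))
          + lam (n + 1) := by
      have h10 : algebraMap K L ((t - zz q t n ^ q) ^ s)
          * algebraMap K L ((t - zz q t n ^ q) ^ s)⁻¹ = 1 := by
        rw [← map_mul, mul_inv_cancel₀ (pow_ne_zero _ h5), map_one]
      linear_combination (algebraMap K L ((t - zz q t n ^ q) ^ s)) * h8 + lam (n + 1) * h10
    simp only [map_sub, map_mul, map_neg]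
    linear_combination (algebraMap K L (q1'.eval (zz q t n ^ q)) *
      algebraMap K L (q1'.eval (zz q t n))) * h9
  have hcop2 : IsCoprime (expand K q q1') (expand K q q0) := by
    have := (hcop.symm).map (expand K q : K[X] →ₐ[K] K[X]).toRingHom
    exact this
  have hdvd : expand K q q1' ∣ q1' := by
    refine hcop2.dvd_of_dvd_mul_right ?_
    refine ⟨(Polynomial.C t - X ^ q) ^ s * (q0 - q1' * h), ?_⟩
    linear_combination (-1 : K[X]) * hW
  have hdeg0 : q1'.natDegree = 0 := by
    have h1 := natDegree_le_of_dvd hdvd hq1ne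
    rw [natDegree_expand] at h1
    by_contra h2
    have : q1'.natDegree * 1 < q1'.natDegree * q :=
      Nat.mul_lt_mul_of_pos_left hq1 (Nat.pos_of_ne_zero h2)
    omega
  obtain ⟨a, rfl⟩ : ∃ a, q1' = Polynomial.C a := ⟨_, eq_C_of_natDegree_eq_zero hdeg0⟩
  have ha : a ≠ 0 := by
    rintro rfl
    exact hq1ne (by simp)
  have haC : (Polynomial.C a : K[X]) ≠ 0 := by simpa using ha
  have hq0eq : expand K q q0 = (Polynomial.C t - X ^ q) ^ s * (q0 - Polynomial.C a * h) := by
    apply mul_left_cancel₀ haC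
    rw [expand_C] at hW
    linear_combination (-1 : K[X]) * hW
  -- the error is zero
  set er : ℕ → L := fun n => algebraMap K L a * lam n - algebraMap K L (q0.eval (zz q t n)) with her
  have hfl2 : Flat q t er := by
    simpa [her] using hfl
  have her_rec : ∀ n, er n = algebraMap K L ((ell q t n / ell q t (n + 1)) ^ s) * er (n + 1) := by
    intro n
    obtain ⟨h5, h6⟩ := hdiff n
    have h8 := hrec n
    rw [h6] at h8
    have h9 := congrArg (eval (zz q t n)) hq0eq
    simp only [eval_sub, eval_mul, expand_eval, eval_pow, eval_C, eval_X] at h9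
    rw [h6]
    simp only [her]
    rw [zz_succ, h9, h8]
    simp only [map_sub, map_mul]
    have h10 : algebraMap K L ((t - zz q t n ^ q) ^ s)⁻¹ * algebraMap K L ((t - zz q t n ^ q) ^ s)
        = 1 := by
      rw [← map_mul, inv_mul_cancel₀ (pow_ne_zero _ h5), map_one]
    linear_combination (algebraMap K L (q0.eval (zz q t n)) - algebraMap K L a *
      algebraMap K L (h.eval (zz q t n))) * h10
  have her_norm : ∀ n, ‖er n‖ = ‖ell q t n‖ ^ s * ‖er 0‖ := by
    intro n
    induction n with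
    | zero => simp [ell]
    | succ n ih =>
      have h1 := congrArg norm (her_rec n)
      rw [norm_mul, norm_algebraMap', ih, norm_pow, norm_div, div_pow] at h1
      have h2 : 0 < ‖ell q t n‖ := norm_pos_iff.mpr (hl n)
      have h3 : 0 < ‖ell q t (n + 1)‖ := norm_pos_iff.mpr (hl (n + 1))
      field_simp at h1
      linarith
  have her0 : er 0 = 0 := by
    have h1 := hfl2 0
    simp only [pow_zero, one_mul] at h1
    have h2 : ∀ n, ‖er 0‖ ≤ ‖er n‖ := by
      intro n
      rw [her_norm n]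
      have : 1 ≤ ‖ell q t n‖ ^ s := by
        rw [norm_ell hq1 ht]
        exact one_le_pow₀ (one_le_pow₀ ht.le)
      nlinarith [norm_nonneg (er 0)]
    have h3 : ‖er 0‖ ≤ 0 := ge_of_tendsto' h1 h2
    exact norm_le_zero_iff.mp h3
  have hroot : q0.eval t = 0 := by
    have h1 : q0 = (X - Polynomial.C t) * (q0 /ₘ (X - Polynomial.C t)) + Polynomial.C (q0.eval t) :=
      by
        conv_lhs => rw [← modByMonic_add_div q0 (X - Polynomial.C t), modByMonic_X_sub_C_eq_C_eval]
        ring
    have h2 : expand K q q0 = (X ^ q - Polynomial.C t) * expand K q (q0 /ₘ (X - Polynomial.C t))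
        + Polynomial.C (q0.eval t) := by
      conv_lhs => rw [h1]
      rw [map_add, map_mul, map_sub, expand_X, expand_C, expand_C]
    have h3 : (X ^ q - Polynomial.C t : K[X]) ∣ Polynomial.C (q0.eval t) := by
      obtain ⟨s', rfl⟩ : ∃ s', s = s' + 1 := ⟨s - 1, by omega⟩
      refine ⟨-(Polynomial.C t - X ^ q) ^ s' * (q0 - Polynomial.C a * h)
        - expand K q (q0 /ₘ (X - Polynomial.C t)), ?_⟩
      rw [hq0eq, pow_succ] at h2
      linear_combination (-1 : K[X]) * h2
    by_contra h4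
    have h5 := natDegree_le_of_dvd h3 (by simpa using h4)
    rw [natDegree_X_pow_sub_C, natDegree_C] at h5
    omega
  have h1 : algebraMap K L a * lam 0 = 0 := by
    have h2 := her0
    simp only [her, zz, pow_zero, pow_one, hroot, map_zero, sub_zero] at h2
    exact h2
  exact (mul_eq_zero.mp h1).resolve_left ((_root_.map_ne_zero _).mpr ha)

end flat

end Pool.Agent.R316.Ff
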