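import Pool.Agent.R316.FfI

/-!
The evenness theorem.
-/

set_option linter.unusedSectionVars false

open Polynomial Finset Filter Topology

namespace Pool.Agent.R316.Ff

theorem nsub_le_max {L : Type*} [NormedField L] [IsUltrametricDist L] (x y : L) :
    ‖x - y‖ ≤ max ‖x‖ ‖y‖ := by
  rw [sub_eq_add_neg, ← norm_neg y]
  exact IsUltrametricDist.norm_add_le_max _ _

section pade2
variable {K L : Type*} [NormedField K] [IsUltrametricDist K] [NormedField L]
  [IsUltrametricDist L] [NormedAlgebra K L] {q : ℕ} (hq1 : 1 < q) {t : K} (ht : 1 < ‖t‖)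

include hq1 ht in
/-- Pade approximation of an asymptotically expandable sequence. -/
theorem HasExp.pade {x : ℕ → L} (hx : HasExp q t x) (M : ℕ) :
    ∃ Q1 Q0 : K[X], Q1 ≠ 0 ∧ Tendsto (fun n => ‖zz q t n‖ ^ M *
      ‖algebraMap K L (Q1.eval (zz q t n)) * x n - algebraMap K L (Q0.eval (zz q t n))‖)
      atTop (𝓝 0) := by
  obtain ⟨p, hp⟩ := hx.polyPart hq1 ht (2 * (M + 1))
  obtain ⟨Q, hQ, hQd, hQc⟩ := Pool.Agent.R316.Ff.pade p (2 * (M + 1)) (M + 1) (by omega)
  set R0 : K[X] := ∑ i ∈ range (M + 1), C ((Q * p).coeff i) * X ^ i with hR0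
  have hR0c : ∀ i, R0.coeff i = if i < M + 1 then (Q * p).coeff i else 0 := by
    intro i
    simp only [hR0, finsetSum_coeff, coeff_C_mul, coeff_X_pow, mul_ite, mul_one, mul_zero]
    rw [sum_ite_eq]
    simp
  have hdvd : X ^ (2 * (M + 1)) ∣ Q * p - R0 := by
    rw [X_pow_dvd_iff]
    intro d hd
    rw [coeff_sub, hR0c]
    split_ifs with h
    · ring
    · rw [hQc d (by omega) hd, sub_zero]
  obtain ⟨Q0, hQ0⟩ := hdvd
  refine ⟨Q, Q0, hQ, ?_⟩
  obtain ⟨C1, hC1, hC1x⟩ := eval_le Q (M + 1) hQd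
  obtain ⟨C2, hC2, hC2x⟩ := eval_le R0 M (by
    refine natDegree_sum_le_of_forall_le _ _ fun i hi => ?_
    refine (natDegree_C_mul_X_pow_le _ _).trans ?_
    rw [mem_range] at hi
    omega)
  have h1 : Tendsto (fun n => C1 * ‖algebraMap K L (zz q t n) ^ (2 * (M + 1)) * x n
      - algebraMap K L (p.eval (zz q t n))‖ + C2 * ‖zz q t n‖⁻¹) atTop (𝓝 0) := by
    have a1 := hp.const_mul C1
    have a2 := (tendsto_inv_atTop_zero.comp (tendsto_zz hq1 ht)).const_mul C2
    have a3 := a1.add a2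
    simpa using a3
  refine squeeze_zero (fun n => by positivity) (fun n => ?_) h1
  have hz1 := one_le_zz hq1 ht n
  have hz0 : 0 < ‖zz q t n‖ := by linarith
  set z := zz q t n with hz
  set ε := ‖algebraMap K L z ^ (2 * (M + 1)) * x n - algebraMap K L (p.eval z)‖ with hε
  set ρ := algebraMap K L (Q.eval z) * x n - algebraMap K L (Q0.eval z) with hρ
  have e : algebraMap K L z ^ (2 * (M + 1)) * ρ
      = algebraMap K L (Q.eval z) * (algebraMap K L z ^ (2 * (M + 1)) * x n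
        - algebraMap K L (p.eval z)) + algebraMap K L (R0.eval z) := by
    have h2 := congrArg (eval z) hQ0
    simp only [eval_sub, eval_mul, eval_pow, eval_X] at h2
    have h3 := congrArg (algebraMap K L) h2
    simp only [map_sub, map_mul, map_pow] at h3
    rw [hρ]
    linear_combination h3
  have h4 : ‖z‖ ^ (2 * (M + 1)) * ‖ρ‖ ≤ C1 * ‖z‖ ^ (M + 1) * ε + C2 * ‖z‖ ^ M := by
    have h5 := congrArg norm e
    rw [norm_mul, norm_pow, norm_algebraMap'] at h5
    rw [h5]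
    refine (norm_add_le _ _).trans ?_
    rw [norm_mul, norm_algebraMap', norm_algebraMap']
    exact add_le_add (mul_le_mul_of_nonneg_right (hC1x _ hz1) (norm_nonneg _)) (hC2x _ hz1)
  have h6 : ‖z‖ ^ (M + 2) * (‖z‖ ^ M * ‖ρ‖) ≤ ‖z‖ ^ (M + 2) * (C1 * ε + C2 * ‖z‖⁻¹) := by
    calc ‖z‖ ^ (M + 2) * (‖z‖ ^ M * ‖ρ‖) = ‖z‖ ^ (2 * (M + 1)) * ‖ρ‖ := by
          rw [← mul_assoc, ← pow_add]; congr 2; ring
      _ ≤ C1 * ‖z‖ ^ (M + 1) * ε + C2 * ‖z‖ ^ M := h4
      _ ≤ C1 * ‖z‖ ^ (M + 2) * ε + C2 * ‖z‖ ^ (M + 1) := by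
          have a1 : ‖z‖ ^ (M + 1) ≤ ‖z‖ ^ (M + 2) := pow_le_pow_right₀ hz1 (by omega)
          have a2 : ‖z‖ ^ M ≤ ‖z‖ ^ (M + 1) := pow_le_pow_right₀ hz1 (by omega)
          have a3 : 0 ≤ ε := norm_nonneg _
          gcongr
      _ = ‖z‖ ^ (M + 2) * (C1 * ε + C2 * ‖z‖⁻¹) := by
          rw [mul_add]
          congr 1
          · ring
          · rw [show ‖z‖ ^ (M + 2) = ‖z‖ ^ (M + 1) * ‖z‖ by rw [← pow_succ]]
            field_simp
  exact le_of_mul_le_mul_left h6 (by positivity)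

end pade2

section even
variable {F : Type*} [Field F] [Fintype F] {K L : Type*} [NormedField K] [IsUltrametricDist K]
  [NormedField L] [IsUltrametricDist L] [NormedAlgebra K L] [Algebra F K] {q : ℕ}
  (hq : Fintype.card F = q) {t : K} (ht : 1 < ‖t‖) (htr : Transcendental F t)

/-- the polynomial giving `S_d(s)` -/
noncomputable def hA (q : ℕ) (t : K) (s : ℕ) : K[X] := (hh q t (s - 1)).comp (Az q t)

include hq htr in
theorem hA_eval (s : ℕ) (hs : 0 < s) (d : ℕ) :
    (hA q t s).eval (zz q t d) = ell q t d ^ s * SS F t d s := by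
  rw [hA, eval_comp, Az_eval d hq, hh_eval hq htr, Nat.sub_add_cancel hs]

include hq ht htr in
theorem SS_bound (s : ℕ) (hs : 0 < s) :
    ∃ C : ℝ, 0 ≤ C ∧ ∀ d, ‖SS F t d s‖ ≤ C / ‖ell q t d‖ := by
  have hq1 := q1 hq
  obtain ⟨C, hC⟩ := comp_bound ht hq1 (hh q t (s - 1)) s hs (hh_WD hq1 ht (s - 1)).2
  have hl := ell_ne' hq1 ht
  have hb : ∀ d, ‖SS F t d s‖ ≤ C / ‖ell q t d‖ := by
    intro d
    have h1 := hC d
    have h2 := hA_eval (F := F) hq htr s hs d
    rw [hA] at h2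
    rw [h2, norm_mul, norm_pow] at h1
    have h3 : 0 < ‖ell q t d‖ := norm_pos_iff.mpr (hl d)
    rw [le_div_iff₀ h3]
    have h4 : 0 < ‖ell q t d‖ ^ s := by positivity
    nlinarith
  refine ⟨C, ?_, hb⟩
  have h0 := hb 0
  simp only [ell, norm_one, div_one] at h0
  exact (norm_nonneg _).trans h0

include hq ht htr in
theorem evenness {O : Subring K} (hO : ∀ x ∈ O, x ≠ 0 → 1 ≤ ‖x‖) (htO : t ∈ O)
    (hfrac : ∀ x : K, ∃ D ∈ O, D ≠ 0 ∧ D * x ∈ O)
    (s₁ s₂ : ℕ) (hs₁ : 0 < s₁) (hs₂ : 0 < s₂) (Z : L)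
    (hZ : Tendsto (fun m => algebraMap K L (∑ d ∈ range m, SS F t d s₁)) atTop (𝓝 Z)) (r : K)
    (hlim : Tendsto (fun m => ∑ d ∈ range m, (SS F t d s₁ * (∑ e ∈ range d, SS F t e s₂)
        - r * SS F t d (s₁ + s₂))) atTop (𝓝 0)) : (q - 1) ∣ s₂ := by
  have hq1 := q1 hq
  have hl := ell_ne' hq1 ht
  have hlpos : ∀ n, 0 < ‖ell q t n‖ := fun n => norm_pos_iff.mpr (hl n)
  have hl1 : ∀ n, 1 ≤ ‖ell q t n‖ := fun n => by
    rw [norm_ell hq1 ht]; exact one_le_pow₀ ht.le
  set w := s₁ + s₂ with hw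
  set h1 := hA q t s₁ with hh1
  set h2 := hA q t s₂ with hh2
  set h3 := hA q t w with hh3
  have h1e : ∀ d, h1.eval (zz q t d) = ell q t d ^ s₁ * SS F t d s₁ := hA_eval hq htr s₁ hs₁
  have h2e : ∀ d, h2.eval (zz q t d) = ell q t d ^ s₂ * SS F t d s₂ := hA_eval hq htr s₂ hs₂
  have h3e : ∀ d, h3.eval (zz q t d) = ell q t d ^ w * SS F t d w := hA_eval hq htr w (by omega)
  obtain ⟨C1, hC1, hb1⟩ := SS_bound (F := F) hq ht htr s₁ hs₁
  obtain ⟨C3, hC3, hb3⟩ := SS_bound (F := F) hq ht htr w (by omega)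
  set ρ : ℕ → K := fun n => ell q t n / ell q t (n + 1) with hρ
  -- the sequence lam
  set lam : ℕ → L := fun n => algebraMap K L (ell q t n ^ s₁)
    * (Z - algebraMap K L (∑ d ∈ range n, SS F t d s₁)) with hlam
  have hlamrec : ∀ n, lam n = algebraMap K L (h1.eval (zz q t n))
      + algebraMap K L ((ρ n) ^ s₁) * lam (n + 1) := by
    intro n
    have e1 : (ρ n) ^ s₁ * ell q t (n + 1) ^ s₁ = ell q t n ^ s₁ := by
      simp only [hρ]
      rw [div_pow, div_mul_cancel₀ _ (pow_ne_zero _ (hl (n + 1)))]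
    have e2 := congrArg (algebraMap K L) e1
    rw [map_mul] at e2
    simp only [hlam]
    rw [h1e, sum_range_succ, map_add, map_mul]
    linear_combination (-(Z - (algebraMap K L (∑ x ∈ range n, SS F t x s₁)
      + algebraMap K L (SS F t n s₁)))) * e2
  have hlambd : ∀ n, ‖lam n‖ * ‖ell q t n‖ ≤ C1 * ‖ell q t n‖ ^ s₁ := by
    intro n
    have a1 := tail_bound (a := fun d => algebraMap K L (SS F t d s₁)) (Z := Z)
      (ell_anti hq1 ht C1 hC1) (fun n => by positivity) (fun d => by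
        rw [norm_algebraMap']; exact hb1 d) (by simpa only [map_sum] using hZ) n
    rw [← map_sum] at a1
    simp only [hlam, norm_mul, norm_algebraMap', norm_pow]
    rw [le_div_iff₀ (hlpos n)] at a1
    calc _ = ‖ell q t n‖ ^ s₁ * (‖Z - algebraMap K L (∑ d ∈ range n, SS F t d s₁)‖
          * ‖ell q t n‖) := by ring
      _ ≤ ‖ell q t n‖ ^ s₁ * C1 := mul_le_mul_of_nonneg_left a1 (by positivity)
      _ = _ := by ring
  have hlamexp : HasExp q t lam :=
    HasExp.rec hq1 ht s₁ (HasExp.poly h1) hlamrec C1 hlambd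
  -- the sequences b, R, B
  set b : ℕ → K := fun n => ell q t n ^ s₂ * ∑ d ∈ range n, SS F t d s₂ with hb
  set Xd : ℕ → K := fun d => SS F t d s₁ * (∑ e ∈ range d, SS F t e s₂) - r * SS F t d w with hXd
  set R : ℕ → K := fun n => -(ell q t n ^ w * ∑ d ∈ range n, Xd d) with hR
  set B : ℕ → L := fun n => algebraMap K L (R n) - algebraMap K L (b n) * lam n with hB
  set yB : ℕ → L := fun n => algebraMap K L ((C (-r) * h3).eval (zz q t n))
    + algebraMap K L (h2.eval (zz q t n)) * (lam n - algebraMap K L (h1.eval (zz q t n))) with hyB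
  have hbrec : ∀ n, (ρ n) ^ s₂ * b (n + 1) = b n + h2.eval (zz q t n) := by
    intro n
    simp only [hb, hρ]
    rw [h2e, sum_range_succ, ← mul_assoc, div_pow,
      div_mul_cancel₀ _ (pow_ne_zero _ (hl (n + 1)))]
    ring
  have hXe : ∀ n, ell q t n ^ w * Xd n = h1.eval (zz q t n) * b n - r * h3.eval (zz q t n) := by
    intro n
    simp only [hXd, hb]
    rw [h1e, h3e, hw, pow_add]
    ring
  have hRrec : ∀ n, (ρ n) ^ w * R (n + 1) = R n - ell q t n ^ w * Xd n := by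
    intro n
    simp only [hR, hρ]
    rw [sum_range_succ, mul_neg, ← mul_assoc, div_pow,
      div_mul_cancel₀ _ (pow_ne_zero _ (hl (n + 1)))]
    ring
  have hBrec : ∀ n, B n = yB n + algebraMap K L ((ρ n) ^ w) * B (n + 1) := by
    intro n
    have a1 := congrArg (algebraMap K L) (hbrec n)
    have a2 := congrArg (algebraMap K L) (hXe n)
    have a3 := congrArg (algebraMap K L) (hRrec n)
    have a4 := hlamrec n
    simp only [map_mul, map_add, map_sub] at a1 a2 a3 a4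
    simp only [hB, hyB]
    have a5 : algebraMap K L ((ρ n) ^ w) = algebraMap K L ((ρ n) ^ s₁)
        * algebraMap K L ((ρ n) ^ s₂) := by rw [← map_mul, ← pow_add]
    rw [mul_sub (algebraMap K L (ρ n ^ w)), a3]
    simp only [eval_mul, eval_neg, eval_C, map_mul, map_neg]
    have a6 : algebraMap K L (ρ n ^ w) * (algebraMap K L (b (n + 1)) * lam (n + 1))
        = (algebraMap K L (b n) + algebraMap K L (h2.eval (zz q t n)))
          * (lam n - algebraMap K L (h1.eval (zz q t n))) := by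
      linear_combination (algebraMap K L (b (n + 1)) * lam (n + 1)) * a5
        + (algebraMap K L (ρ n ^ s₁) * lam (n + 1)) * a1
        - (algebraMap K L (b n) + algebraMap K L (h2.eval (zz q t n))) * a4
    rw [a6, a2]
    ring
  have hXbd : ∀ d, ‖Xd d‖ ≤ max C1 (‖r‖ * C3) / ‖ell q t d‖ := by
    intro d
    simp only [hXd]
    refine (nsub_le_max _ _).trans (max_le ?_ ?_)
    · rw [norm_mul]
      calc _ ≤ ‖SS F t d s₁‖ * 1 :=
            mul_le_mul_of_nonneg_left (norm_sumS_le hq ht d s₂) (norm_nonneg _)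
        _ ≤ C1 / ‖ell q t d‖ := by rw [mul_one]; exact hb1 d
        _ ≤ _ := by gcongr; exact le_max_left _ _
    · rw [norm_mul]
      calc _ ≤ ‖r‖ * (C3 / ‖ell q t d‖) := mul_le_mul_of_nonneg_left (hb3 d) (norm_nonneg _)
        _ = (‖r‖ * C3) / ‖ell q t d‖ := by ring
        _ ≤ _ := by gcongr; exact le_max_right _ _
  have hmx : 0 ≤ max C1 (‖r‖ * C3) := le_max_of_le_left hC1
  have hRbd : ∀ n, ‖R n‖ * ‖ell q t n‖ ≤ max C1 (‖r‖ * C3) * ‖ell q t n‖ ^ w := by
    intro n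
    have a1 := tail_bound (a := Xd) (Z := 0) (ell_anti hq1 ht (max C1 (‖r‖ * C3)) hmx)
      (fun n => div_nonneg hmx (norm_nonneg _)) hXbd hlim n
    rw [zero_sub, norm_neg, le_div_iff₀ (hlpos n)] at a1
    simp only [hR, norm_neg, norm_mul, norm_pow]
    calc _ = ‖ell q t n‖ ^ w * (‖∑ d ∈ range n, Xd d‖ * ‖ell q t n‖) := by ring
      _ ≤ ‖ell q t n‖ ^ w * max C1 (‖r‖ * C3) := mul_le_mul_of_nonneg_left a1 (by positivity)
      _ = _ := by ring
  have hbbd : ∀ n, ‖b n‖ ≤ ‖ell q t n‖ ^ s₂ := by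
    intro n
    simp only [hb, norm_mul, norm_pow]
    calc _ ≤ ‖ell q t n‖ ^ s₂ * 1 :=
          mul_le_mul_of_nonneg_left (norm_sumS_le hq ht n s₂) (by positivity)
      _ = _ := mul_one _
  have hBbd : ∀ n, ‖B n‖ * ‖ell q t n‖ ≤ (max C1 (‖r‖ * C3) + C1) * ‖ell q t n‖ ^ w := by
    intro n
    simp only [hB]
    calc _ ≤ (‖R n‖ + ‖b n‖ * ‖lam n‖) * ‖ell q t n‖ := by
          refine mul_le_mul_of_nonneg_right ?_ (norm_nonneg _)
          refine (norm_sub_le _ _).trans ?_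
          rw [norm_mul, norm_algebraMap', norm_algebraMap']
      _ = ‖R n‖ * ‖ell q t n‖ + ‖b n‖ * (‖lam n‖ * ‖ell q t n‖) := by ring
      _ ≤ max C1 (‖r‖ * C3) * ‖ell q t n‖ ^ w
          + ‖ell q t n‖ ^ s₂ * (C1 * ‖ell q t n‖ ^ s₁) := by
          refine add_le_add (hRbd n) ?_
          exact mul_le_mul (hbbd n) (hlambd n) (by positivity) (by positivity)
      _ = _ := by rw [hw, pow_add]; ring
  have hBexp : HasExp q t B := by
    refine HasExp.rec hq1 ht w (y := yB) ?_ hBrec _ hBbd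
    refine (HasExp.poly _).add hq1 ht ?_
    exact (hlamexp.sub hq1 ht (HasExp.poly _)).mul_poly hq1 ht h2
  -- Pade approximation
  obtain ⟨Q1, Q0, hQ1, hpade⟩ := hlamexp.pade hq1 ht (q * s₂)
  set rho : ℕ → L := fun n => algebraMap K L (Q1.eval (zz q t n)) * lam n
    - algebraMap K L (Q0.eval (zz q t n)) with hrho
  have hrhoexp : HasExp q t rho := (hlamexp.mul_poly hq1 ht Q1).sub hq1 ht (HasExp.poly _)
  have hbz : ∀ n, ‖b n‖ ≤ ‖zz q t n‖ ^ (q * s₂) := by
    intro n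
    refine (hbbd n).trans ?_
    rw [norm_ell hq1 ht, norm_zz, ← pow_mul, ← pow_mul]
    refine pow_le_pow_right₀ ht.le ?_
    have a1 := sg_mul hq1 n
    have a2 : sg q n ≤ (q - 1) * sg q n := Nat.le_mul_of_pos_left _ (by omega)
    have a3 : sg q n ≤ q ^ (n + 1) := by omega
    calc sg q n * s₂ ≤ q ^ (n + 1) * s₂ := Nat.mul_le_mul_right _ a3
      _ = _ := by rw [pow_succ]; ring
  have hbrho : Tendsto (fun n => ‖b n‖ * ‖rho n‖) atTop (𝓝 0) := by
    refine squeeze_zero (fun n => by positivity) (fun n => ?_) hpade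
    exact mul_le_mul_of_nonneg_right (hbz n) (norm_nonneg _)
  obtain ⟨β, hβ⟩ := (hBexp.mul_poly hq1 ht Q1).polyPart hq1 ht 0
  simp only [pow_zero, one_mul] at hβ
  set E : ℕ → K := fun n => Q1.eval (zz q t n) * R n - b n * Q0.eval (zz q t n) with hE
  have hEb : ∀ n, algebraMap K L (E n) - algebraMap K L (β.eval (zz q t n))
      = (algebraMap K L (Q1.eval (zz q t n)) * B n - algebraMap K L (β.eval (zz q t n)))
        + algebraMap K L (b n) * rho n := by
    intro n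
    simp only [hE, hB, hrho, map_sub, map_mul]
    ring
  have hElim : Tendsto (fun n => ‖E n - β.eval (zz q t n)‖) atTop (𝓝 0) := by
    have a1 := hβ.add hbrho
    rw [add_zero] at a1
    refine squeeze_zero (fun n => by positivity) (fun n => ?_) a1
    rw [← norm_algebraMap' L, map_sub, hEb n]
    refine (norm_add_le _ _).trans ?_
    rw [norm_mul, norm_algebraMap']
  have hbBD : BD O b := by
    have a1 := BD.sumell (q := q) htO hl (BD.poly (q := q) htO hfrac h2) s₂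
    convert a1 using 2 with n
    simp only [hb]
    congr 1
    refine sum_congr rfl fun d _ => ?_
    rw [h2e, mul_div_cancel_left₀ _ (pow_ne_zero _ (hl d))]
  have hRBD : BD O R := by
    have a0 : BD O (fun n => h1.eval (zz q t n) * b n - (C r * h3).eval (zz q t n)) :=
      ((BD.poly (q := q) htO hfrac h1).mul hbBD).sub (BD.poly htO hfrac _)
    have a1 := (BD.sumell (q := q) htO hl a0 w).neg
    convert a1 using 2 with n
    simp only [hR]
    congr 2
    refine sum_congr rfl fun d _ => ?_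
    rw [eval_mul, eval_C, ← hXe, mul_div_cancel_left₀ _ (pow_ne_zero _ (hl d))]
  have hEBD : BD O E :=
    ((BD.poly (q := q) htO hfrac Q1).mul hRBD).sub (hbBD.mul (BD.poly htO hfrac Q0))
  have hEev := BD.eventually_eq (q := q) hO htO hfrac hEBD β hElim
  -- the sequence y
  set y : ℕ → L := fun n => algebraMap K L (β.eval (zz q t n))
    - algebraMap K L (Q1.eval (zz q t n)) * B n with hy
  have hyexp : HasExp q t y := (HasExp.poly β).sub hq1 ht (hBexp.mul_poly hq1 ht Q1)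
  have hyev : ∀ᶠ n in atTop, y n = algebraMap K L (b n) * rho n := by
    filter_upwards [hEev] with n hn
    have a1 := hEb n
    rw [hn, sub_self] at a1
    simp only [hy]
    linear_combination a1
  have hbn : ∀ n, 0 < n → ‖b n‖ = ‖ell q t n‖ ^ s₂ := by
    intro n hn
    simp only [hb, norm_mul, norm_pow]
    rw [norm_sumS hq ht n s₂ hn hs₂, mul_one]
  rcases hrhoexp.dichotomy hq1 ht with hflat | ⟨a1, N1, d1, ha1, hev1⟩
  · -- flat case: contradiction
    exfalso
    have h0 := flat_case (F := F) hq ht s₁ hs₁ h1 lam hlamrec Q1 Q0 hQ1 hflat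
    simp only [hlam, ell, one_pow, map_one, one_mul, range_zero, sum_empty, map_zero,
      sub_zero] at h0
    have h5 : Tendsto (fun m => ‖algebraMap K L (∑ d ∈ range m, SS F t d s₁)‖) atTop (𝓝 ‖Z‖) :=
      hZ.norm
    have h6 : Tendsto (fun m => ‖algebraMap K L (∑ d ∈ range m, SS F t d s₁)‖) atTop (𝓝 1) := by
      refine tendsto_const_nhds.congr' ?_
      filter_upwards [eventually_ge_atTop 1] with m hm
      rw [norm_algebraMap', norm_sumS hq ht m s₁ hm hs₁]
    have h7 := tendsto_nhds_unique h5 h6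
    rw [h0, norm_zero] at h7
    exact zero_ne_one h7
  · rcases hyexp.dichotomy hq1 ht with hflat | ⟨a2, N2, d2, ha2, hev2⟩
    · exfalso
      have h5 := (hflat N1).eventually_lt_const ha1
      obtain ⟨n, hn1, hn2, hn3, hn4⟩ := (h5.and (hev1.and (hyev.and (eventually_ge_atTop 1)))).exists
      rw [hn3, norm_mul, norm_algebraMap', hbn n hn4] at hn1
      have h6 : 1 ≤ ‖ell q t n‖ ^ s₂ := one_le_pow₀ (hl1 n)
      have h7 : 1 ≤ ‖zz q t n‖ ^ d1 := one_le_pow₀ (one_le_zz hq1 ht n)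
      have h8 : ‖zz q t n‖ ^ N1 * (‖ell q t n‖ ^ s₂ * ‖rho n‖)
          = ‖ell q t n‖ ^ s₂ * (a1 * ‖zz q t n‖ ^ d1) := by rw [← hn2]; ring
      rw [h8] at hn1
      have h9 : a1 ≤ a1 * ‖zz q t n‖ ^ d1 := le_mul_of_one_le_right ha1.le h7
      have h10 : a1 * ‖zz q t n‖ ^ d1 ≤ ‖ell q t n‖ ^ s₂ * (a1 * ‖zz q t n‖ ^ d1) :=
        le_mul_of_one_le_left (by positivity) h6
      linarith
    · -- exact sizes
      have hkey : ∀ᶠ n in atTop, a1 * ‖t‖ ^ (s₂ * sg q n + (d1 + N2) * q ^ n)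
          = a2 * ‖t‖ ^ ((N1 + d2) * q ^ n) := by
        filter_upwards [hev1, hev2, hyev, eventually_ge_atTop 1] with n g1 g2 g3 g4
        rw [g3, norm_mul, norm_algebraMap', hbn n g4] at g2
        have g5 : ‖ell q t n‖ ^ s₂ = ‖t‖ ^ (s₂ * sg q n) := by
          rw [norm_ell hq1 ht, ← pow_mul, mul_comm]
        have g6 : ∀ k : ℕ, ‖zz q t n‖ ^ k = ‖t‖ ^ (k * q ^ n) := by
          intro k
          rw [norm_zz, ← pow_mul, mul_comm]
        have ht0 : 0 < ‖t‖ := by linarith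
        calc a1 * ‖t‖ ^ (s₂ * sg q n + (d1 + N2) * q ^ n)
            = (a1 * ‖zz q t n‖ ^ d1) * (‖ell q t n‖ ^ s₂ * ‖zz q t n‖ ^ N2) := by
              rw [g5, g6, g6, add_mul, pow_add, pow_add]; ring
          _ = ‖zz q t n‖ ^ N1 * (‖zz q t n‖ ^ N2 * (‖ell q t n‖ ^ s₂ * ‖rho n‖)) := by
              rw [← g1]; ring
          _ = ‖zz q t n‖ ^ N1 * (a2 * ‖zz q t n‖ ^ d2) := by rw [g2]
          _ = _ := by rw [g6, g6, add_mul, pow_add]; ring
      have hkey2 := (tendsto_add_atTop_nat 1).eventually hkey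
      obtain ⟨n, k1, k2⟩ := (hkey.and hkey2).exists
      have k3 : ‖t‖ ^ (s₂ * sg q n + (d1 + N2) * q ^ n + (N1 + d2) * q ^ (n + 1))
          = ‖t‖ ^ (s₂ * sg q (n + 1) + (d1 + N2) * q ^ (n + 1) + (N1 + d2) * q ^ n) := by
        have ha12 : a1 * a2 ≠ 0 := (mul_pos ha1 ha2).ne'
        apply mul_left_cancel₀ ha12
        rw [pow_add _ (s₂ * sg q n + _), pow_add _ (s₂ * sg q (n + 1) + _)]
        calc a1 * a2 * (‖t‖ ^ (s₂ * sg q n + (d1 + N2) * q ^ n) * ‖t‖ ^ ((N1 + d2) * q ^ (n + 1)))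
            = (a1 * ‖t‖ ^ (s₂ * sg q n + (d1 + N2) * q ^ n))
              * (a2 * ‖t‖ ^ ((N1 + d2) * q ^ (n + 1))) := by ring
          _ = (a2 * ‖t‖ ^ ((N1 + d2) * q ^ n))
              * (a1 * ‖t‖ ^ (s₂ * sg q (n + 1) + (d1 + N2) * q ^ (n + 1))) := by rw [k1, ← k2]
          _ = _ := by ring
      have k4 := pow_right_injective₀ (by linarith : 0 < ‖t‖) ht.ne' k3
      have k5 : sg q (n + 1) = sg q n + q ^ (n + 1) := rfl
      rw [k5, pow_succ] at k4
      obtain ⟨e, he⟩ : ∃ e, q = e + 1 := ⟨q - 1, by omega⟩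
      have hpos : 0 < q ^ n := Nat.pow_pos (by omega)
      have k6 : s₂ * q + (d1 + N2) * (q - 1) = (N1 + d2) * (q - 1) := by
        apply Nat.eq_of_mul_eq_mul_left hpos
        subst he
        simp only [Nat.add_sub_cancel] at k4 ⊢
        nlinarith
      have k7 : (q - 1) ∣ s₂ * q := by
        have a1 : (q - 1) ∣ s₂ * q + (d1 + N2) * (q - 1) := by rw [k6]; exact Dvd.intro_left _ rfl
        exact (Nat.dvd_add_iff_left (Dvd.intro_left _ rfl)).mpr a1
      have k8 : Nat.Coprime (q - 1) q := by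
        subst he
        simp
      exact k8.dvd_of_dvd_mul_right k7

end even

end Pool.Agent.R316.Ff
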