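import Pool.Agent.R316.FfJ

/-!
The abstract main theorem in a complete ultrametric field containing `F(t)`.
-/

set_option linter.unusedSectionVars false

open Polynomial Finset Filter Topology

namespace Pool.Agent.R316.Ff

section norms
variable {F : Type*} [Field F] [Fintype F] {L : Type*} [NormedField L] [IsUltrametricDist L]
  [Algebra F L] {q : ℕ} (hq : Fintype.card F = q) {t : L} (ht : 1 < ‖t‖)

include hq in
theorem norm_F_eq (a : F) (ha : a ≠ 0) : ‖algebraMap F L a‖ = 1 := by
  have h1 : (algebraMap F L a) ^ (q - 1) = 1 := by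
    rw [← map_pow, ← hq, FiniteField.pow_card_sub_one_eq_one a ha, map_one]
  have h2 : ‖algebraMap F L a‖ ^ (q - 1) = 1 := by rw [← norm_pow, h1, norm_one]
  have hq1 := q1 hq
  exact (pow_eq_one_iff_of_nonneg (norm_nonneg _) (by omega)).mp h2

include hq ht in
theorem norm_aeval (p : F[X]) (hp : p ≠ 0) : ‖aeval t p‖ = ‖t‖ ^ p.natDegree := by
  rw [aeval_eq_sum_range, sum_range_succ, add_comm]
  have h1 : ‖p.coeff p.natDegree • t ^ p.natDegree‖ = ‖t‖ ^ p.natDegree := by
    rw [Algebra.smul_def, norm_mul, norm_pow, norm_F_eq hq _ (by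
      rw [coeff_natDegree]; exact leadingCoeff_ne_zero.mpr hp), one_mul]
  rw [norm_add_of_lt, h1]
  rw [h1, sum_range]
  exact norm_lo_lt hq ht (fun i : Fin p.natDegree => p.coeff i)

include hq ht in
theorem transc : Transcendental F t := by
  rintro ⟨p, hp, h0⟩
  have h1 := norm_aeval hq ht p hp
  rw [h0, norm_zero] at h1
  have : 0 < ‖t‖ ^ p.natDegree := by positivity
  rw [← h1] at this
  exact lt_irrefl _ this

end norms

section main
variable {F : Type*} [Field F] [Fintype F] {L : Type*} [NormedField L] [IsUltrametricDist L]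
  [Algebra F L] {q : ℕ} (hq : Fintype.card F = q) {t : L} (ht : 1 < ‖t‖)

/-- the subfield `F(t)`. -/
abbrev KK (F : Type*) [Field F] {L : Type*} [NormedField L] [Algebra F L] (t : L) :
    IntermediateField F L := IntermediateField.adjoin F {t}

instance instUltra (t : L) : IsUltrametricDist (KK F t) :=
  IsUltrametricDist.isUltrametricDist_of_forall_norm_add_le_max_norm fun x y =>
    IsUltrametricDist.norm_add_le_max (x : L) (y : L)

noncomputable instance instNA (t : L) : NormedAlgebra (KK F t) L where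
  norm_smul_le := fun x y => by
    rw [Algebra.smul_def, norm_mul]
    rfl

/-- `t` as an element of `F(t)`. -/
def tK (F : Type*) [Field F] {L : Type*} [NormedField L] [Algebra F L] (t : L) : KK F t :=
  ⟨t, IntermediateField.mem_adjoin_simple_self F t⟩

/-- the ring `F[t]`. -/
noncomputable def OO (F : Type*) [Field F] {L : Type*} [NormedField L] [Algebra F L] (t : L) :
    Subring (KK F t) := (aeval (R := F) (tK F t)).toRingHom.range

theorem mem_OO (t : L) (x : KK F t) : x ∈ OO F t ↔ ∃ p : F[X], aeval (tK F t) p = x := Iff.rfl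

theorem coe_SS (t : L) (d s : ℕ) : algebraMap (KK F t) L (SS F (tK F t) d s) = SS F t d s := by
  have h1 : ∀ c : Fin d → F, algebraMap (KK F t) L (el (tK F t) c) = el t c := by
    intro c
    simp only [el, lo, map_add, map_pow, map_sum, Algebra.smul_def, map_mul]
    rfl
  simp only [SS, map_sum, map_pow, map_inv₀, h1]

include hq ht in
theorem main_abs (s₁ s₂ : ℕ) (hs₁ : 0 < s₁) (hs₂ : 0 < s₂) (Z1 Zw Z2 : L)
    (h1 : Tendsto (fun m => ∑ d ∈ range m, SS F t d s₁) atTop (𝓝 Z1))
    (hw : Tendsto (fun m => ∑ d ∈ range m, SS F t d (s₁ + s₂)) atTop (𝓝 Zw))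
    (h2 : Tendsto (fun m => ∑ d ∈ range m, SS F t d s₁ * ∑ e ∈ range d, SS F t e s₂) atTop (𝓝 Z2))
    (a b : F[X]) (hr : Z2 / Zw = aeval t a / aeval t b) :
    (q - 1) ∣ s₂ ∧ (q - 1) * s₁ ≤ s₂ := by
  have hZw : ‖Zw‖ = 1 := by
    have h5 : Tendsto (fun m => ‖∑ d ∈ range m, SS F t d (s₁ + s₂)‖) atTop (𝓝 ‖Zw‖) := hw.norm
    have h6 : Tendsto (fun m => ‖∑ d ∈ range m, SS F t d (s₁ + s₂)‖) atTop (𝓝 1) := by
      refine tendsto_const_nhds.congr' ?_
      filter_upwards [eventually_ge_atTop 1] with m hm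
      rw [norm_sumS hq ht m _ hm (by omega)]
    exact tendsto_nhds_unique h5 h6
  have hZw0 : Zw ≠ 0 := by
    rw [← norm_ne_zero_iff, hZw]; exact one_ne_zero
  have hZ2 : ‖Z2‖ ≤ ‖t‖⁻¹ := by
    refine le_of_tendsto' h2.norm fun m => ?_
    refine IsUltrametricDist.norm_sum_le_of_forall_le_of_nonneg (by positivity) fun d _ => ?_
    rcases Nat.eq_zero_or_pos d with hd | hd
    · subst hd
      simp
    · rw [norm_mul]
      calc _ ≤ (‖t‖⁻¹) ^ (d * s₁) * 1 :=
            mul_le_mul (norm_SS_le hq ht d s₁) (norm_sumS_le hq ht d s₂) (norm_nonneg _)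
              (by positivity)
        _ = (‖t‖⁻¹) ^ (d * s₁) := mul_one _
        _ ≤ (‖t‖⁻¹) ^ 1 := pow_le_pow_of_le_one (by positivity) (inv_le_one_of_one_le₀ ht.le)
            (Nat.mul_pos hd hs₁)
        _ = _ := pow_one _
  -- the ratio as an element of `F(t)`
  have hmem : aeval t a / aeval t b ∈ KK F t :=
    IntermediateField.mem_adjoin_simple_iff F _ |>.mpr ⟨a, b, rfl⟩
  set r : KK F t := ⟨aeval t a / aeval t b, hmem⟩ with hrdef
  have hrcoe : algebraMap (KK F t) L r = aeval t a / aeval t b := rfl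
  have hZ2r : Z2 = algebraMap (KK F t) L r * Zw := by
    rw [hrcoe, ← hr, div_mul_cancel₀ _ hZw0]
  have hrnorm : ‖r‖ < 1 := by
    have h3 := congrArg norm hZ2r
    rw [norm_mul, hZw, mul_one, norm_algebraMap'] at h3
    rw [← h3]
    exact lt_of_le_of_lt hZ2 (inv_lt_one_of_one_lt₀ ht)
  have htK : 1 < ‖tK F t‖ := ht
  have htr : Transcendental F (tK F t) := transc hq htK
  have hO : ∀ x ∈ OO F t, x ≠ 0 → 1 ≤ ‖x‖ := by
    rintro x ⟨p, rfl⟩ hx
    have hp : p ≠ 0 := by
      rintro rfl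
      exact hx (map_zero _)
    change 1 ≤ ‖aeval (tK F t) p‖
    rw [norm_aeval hq htK p hp]
    exact one_le_pow₀ htK.le
  have htO : tK F t ∈ OO F t := ⟨X, by simp⟩
  have hfrac : ∀ x : KK F t, ∃ D ∈ OO F t, D ≠ 0 ∧ D * x ∈ OO F t := by
    rintro ⟨x, hx⟩
    obtain ⟨c, d, hcd⟩ := (IntermediateField.mem_adjoin_simple_iff F _).mp hx
    by_cases hd : aeval t d = 0
    · refine ⟨1, (OO F t).one_mem, one_ne_zero, ?_⟩
      have hx0 : (⟨x, hx⟩ : KK F t) = 0 := by
        apply Subtype.ext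
        change x = 0
        rw [hcd, hd, div_zero]
      rw [hx0, mul_zero]
      exact (OO F t).zero_mem
    · have hco : ∀ p : F[X], ((aeval (tK F t) p : KK F t) : L) = aeval t p := fun p => by
        have := Polynomial.aeval_algebraMap_apply L (tK F t) p
        exact this.symm
      refine ⟨aeval (tK F t) d, ⟨d, rfl⟩, ?_, ⟨c, ?_⟩⟩
      · intro h
        apply hd
        rw [← hco, h]
        rfl
      · apply Subtype.ext
        change ((aeval (tK F t) c : KK F t) : L) = ((aeval (tK F t) d : KK F t) : L) * x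
        rw [hco, hco, hcd]
        field_simp
  have hlim : Tendsto (fun m => ∑ d ∈ range m, (SS F (tK F t) d s₁ * (∑ e ∈ range d,
      SS F (tK F t) e s₂) - r * SS F (tK F t) d (s₁ + s₂))) atTop (𝓝 0) := by
    rw [tendsto_zero_iff_norm_tendsto_zero]
    have h3 : Tendsto (fun m => (∑ d ∈ range m, SS F t d s₁ * ∑ e ∈ range d, SS F t e s₂)
        - algebraMap (KK F t) L r * ∑ d ∈ range m, SS F t d (s₁ + s₂)) atTop (𝓝 0) := by
      have := h2.sub (hw.const_mul (algebraMap (KK F t) L r))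
      rwa [← hZ2r, sub_self] at this
    rw [tendsto_zero_iff_norm_tendsto_zero] at h3
    refine h3.congr fun m => ?_
    rw [← norm_algebraMap' L (∑ d ∈ range m, (SS F (tK F t) d s₁ * (∑ e ∈ range d,
      SS F (tK F t) e s₂) - r * SS F (tK F t) d (s₁ + s₂)))]
    congr 1
    rw [map_sum, mul_sum, ← sum_sub_distrib]
    refine sum_congr rfl fun d _ => ?_
    rw [map_sub, map_mul, map_mul, map_sum, coe_SS, coe_SS]
    simp only [coe_SS]
  have hZ1 : Tendsto (fun m => algebraMap (KK F t) L (∑ d ∈ range m, SS F (tK F t) d s₁)) atTop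
      (𝓝 Z1) := by
    refine h1.congr fun m => ?_
    rw [map_sum]
    simp only [coe_SS]
  have hev := evenness (L := L) hq htK htr hO htO hfrac s₁ s₂ hs₁ hs₂ Z1 hZ1 r hlim
  exact ⟨hev, even_low hq htr htK hO htO hfrac s₁ s₂ hs₁ hs₂ hev r hrnorm hlim⟩

end main

end Pool.Agent.R316.Ff
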