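import Pool.Agent.R316.FfK

/-!
Multizeta values in `F((1/t))`: definitions as sums over monic polynomials, and the
specialisation of the abstract theorem.
-/

set_option linter.unusedSectionVars false

open Polynomial Finset Filter Topology

namespace Pool.Agent.R316.Ff

section mk
variable {F : Type*} [Field F]

/-- the monic polynomial with given lower coefficients -/
noncomputable def mkM {d : ℕ} (c : Fin d → F) : F[X] := X ^ d + ∑ i : Fin d, C (c i) * X ^ (i : ℕ)

theorem mkM_monic {d : ℕ} (c : Fin d → F) : (mkM c).Monic :=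
  monic_X_pow_add (degree_sum_fin_lt c)

theorem mkM_natDegree {d : ℕ} (c : Fin d → F) : (mkM c).natDegree = d := by
  have h := degree_sum_fin_lt c
  have h1 : (mkM c).degree = d := by
    rw [mkM, degree_add_eq_left_of_degree_lt, degree_X_pow]
    rwa [degree_X_pow]
  exact natDegree_eq_of_degree_eq_some h1

theorem mkM_coeff {d : ℕ} (c : Fin d → F) (j : Fin d) : (mkM c).coeff j = c j := by
  rw [mkM, coeff_add, coeff_X_pow, if_neg (by have := j.2; omega), zero_add]
  simp only [finsetSum_coeff, coeff_C_mul, coeff_X_pow, mul_ite, mul_one, mul_zero]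
  rw [sum_eq_single j]
  · simp
  · intro b _ hb
    rw [if_neg]
    intro h2
    exact hb (Fin.ext h2.symm)
  · simp

theorem mkM_inj {d : ℕ} : Function.Injective (mkM (F := F) (d := d)) := by
  intro c c' h
  ext j
  rw [← mkM_coeff c, h, mkM_coeff]

theorem mkM_surj (p : F[X]) (hp : p.Monic) :
    mkM (fun i : Fin p.natDegree => p.coeff i) = p := by
  conv_rhs => rw [hp.as_sum, sum_range]
  rfl

/-- monic polynomials as a sigma type -/
noncomputable def eqM (F : Type*) [Field F] : (Σ d : ℕ, (Fin d → F)) ≃ {a : F[X] // a.Monic} :=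
  Equiv.ofBijective (fun x => ⟨mkM x.2, mkM_monic x.2⟩) (by
    constructor
    · rintro ⟨d, c⟩ ⟨e, c'⟩ h
      have h1 : mkM c = mkM c' := congrArg Subtype.val h
      have h2 : d = e := by rw [← mkM_natDegree c, h1, mkM_natDegree]
      subst h2
      rw [mkM_inj h1]
    · rintro ⟨p, hp⟩
      exact ⟨⟨p.natDegree, fun i => p.coeff i⟩, Subtype.ext (mkM_surj p hp)⟩)

/-- pairs of monic polynomials with strictly decreasing degrees as a sigma type -/
noncomputable def eqP (F : Type*) [Field F] : (Σ d : ℕ, (Fin d → F) × (Σ e : Fin d, (Fin e → F))) ≃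
    {p : F[X] × F[X] // p.1.Monic ∧ p.2.Monic ∧ p.2.natDegree < p.1.natDegree} :=
  Equiv.ofBijective (fun x => ⟨(mkM x.2.1, mkM x.2.2.2), mkM_monic _, mkM_monic _, by
      simp only [mkM_natDegree]; exact x.2.2.1.2⟩) (by
    constructor
    · rintro ⟨d, c, ⟨e, he⟩, b⟩ ⟨d', c', ⟨e', he'⟩, b'⟩ h
      have h1 : mkM c = mkM c' := congrArg (fun x => x.1.1) h
      have h3 : mkM b = mkM b' := congrArg (fun x => x.1.2) h
      have h2 : d = d' := by rw [← mkM_natDegree c, h1, mkM_natDegree]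
      subst h2
      have h4 : e = e' := by
        have := mkM_natDegree b
        rw [h3, mkM_natDegree] at this
        exact this.symm
      subst h4
      rw [mkM_inj h1, mkM_inj h3]
    · rintro ⟨⟨p, r⟩, hp, hr, hd⟩
      refine ⟨⟨p.natDegree, fun i => p.coeff i, ⟨r.natDegree, hd⟩, fun i => r.coeff i⟩,
        Subtype.ext (Prod.ext (mkM_surj p hp) (mkM_surj r hr))⟩)

theorem eqM_val (x : (Σ d : ℕ, (Fin d → F))) : ((eqM F) x).1 = mkM x.2 := rfl

theorem eqP_val1 (x : (Σ d : ℕ, (Fin d → F) × (Σ e : Fin d, (Fin e → F)))) :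
    ((eqP F) x).1.1 = mkM x.2.1 := rfl

theorem eqP_val2 (x : (Σ d : ℕ, (Fin d → F) × (Σ e : Fin d, (Fin e → F)))) :
    ((eqP F) x).1.2 = mkM x.2.2.2 := rfl

end mk

section sums
variable {L : Type*} [NormedField L] [IsUltrametricDist L] [CompleteSpace L]

theorem sigma_sum {T : ℕ → Type*} [∀ d, Fintype (T d)] (f : (Σ d, T d) → L) (B : ℕ → ℝ)
    (hB : Tendsto B atTop (𝓝 0)) (hf : ∀ d x, ‖f ⟨d, x⟩‖ ≤ B d) :
    Summable f ∧ Tendsto (fun m => ∑ d ∈ range m, ∑ x, f ⟨d, x⟩) atTop (𝓝 (∑' x, f x)) := by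
  have hsum : Summable f := by
    refine NonarchimedeanAddGroup.summable_of_tendsto_cofinite_zero ?_
    rw [tendsto_zero_iff_norm_tendsto_zero, Metric.tendsto_nhds]
    intro ε hε
    obtain ⟨D, hD⟩ := eventually_atTop.mp (hB.eventually_lt_const hε)
    rw [Filter.eventually_cofinite]
    refine Set.Finite.subset (s := ⋃ d ∈ {d : ℕ | d < D}, Set.range (Sigma.mk d)) ?_ ?_
    · exact Set.Finite.biUnion (Set.finite_lt_nat D) fun d _ => Set.finite_range _
    · rintro ⟨d, x⟩ hx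
      simp only [Set.mem_ofPred_eq, dist_zero_right, norm_norm, not_lt] at hx
      simp only [Set.mem_iUnion, Set.mem_range, Set.mem_ofPred_eq]
      refine ⟨d, ?_, x, rfl⟩
      by_contra hcon
      exact absurd (hx.trans (hf d x)) (not_le.mpr (hD d (not_lt.mp hcon)))
  refine ⟨hsum, ?_⟩
  have h1 : HasSum (fun d => ∑ x, f ⟨d, x⟩) (∑' x, f x) :=
    hsum.hasSum.sigma fun d => hasSum_fintype _
  exact h1.tendsto_sum_nat

variable {F : Type*} [Field F] [Fintype F] [Algebra F L] {q : ℕ} (hq : Fintype.card F = q)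
  {t : L} (ht : 1 < ‖t‖)

theorem aeval_mkM {d : ℕ} (c : Fin d → F) : aeval t (mkM c) = el t c := by
  simp [mkM, el, lo, Algebra.smul_def]

include hq ht in
theorem tendsto_inv_pow (s : ℕ) (hs : 0 < s) : Tendsto (fun d : ℕ => (‖t‖⁻¹) ^ (d * s)) atTop (𝓝 0) := by
  have h1 : ∀ d : ℕ, (‖t‖⁻¹) ^ (d * s) = ((‖t‖⁻¹) ^ s) ^ d := fun d => by rw [← pow_mul, mul_comm]
  simp only [h1]
  refine tendsto_pow_atTop_nhds_zero_of_lt_one (by positivity) ?_
  exact pow_lt_one₀ (by positivity) (inv_lt_one_of_one_lt₀ ht) hs.ne'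

include hq ht in
theorem zeta_lim (s : ℕ) (hs : 0 < s) :
    Summable (fun a : {a : F[X] // a.Monic} => ((aeval t a.1)⁻¹) ^ s) ∧
    Tendsto (fun m => ∑ d ∈ range m, SS F t d s) atTop
      (𝓝 (∑' a : {a : F[X] // a.Monic}, ((aeval t a.1)⁻¹) ^ s)) := by
  have h := sigma_sum (fun x : (Σ d : ℕ, (Fin d → F)) => ((el t x.2)⁻¹) ^ s)
    (fun d => (‖t‖⁻¹) ^ (d * s)) (tendsto_inv_pow hq ht s hs) (fun d x => by
      rw [norm_pow, norm_inv, norm_el hq ht, ← inv_pow, ← pow_mul])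
  have e : (fun x : (Σ d : ℕ, (Fin d → F)) => ((el t x.2)⁻¹) ^ s)
      = (fun a : {a : F[X] // a.Monic} => ((aeval t a.1)⁻¹) ^ s) ∘ (eqM F) := by
    funext x
    simp only [Function.comp, eqM_val, aeval_mkM]
  constructor
  · have h1 := h.1
    rw [e] at h1
    exact (eqM F).summable_iff.mp h1
  · have h2 := h.2
    rw [← (eqM F).tsum_eq]
    have e2 : ∀ x : (Σ d : ℕ, (Fin d → F)), ((aeval t ((eqM F) x).1)⁻¹) ^ s = ((el t x.2)⁻¹) ^ s := by
      intro x
      simp only [eqM_val, aeval_mkM]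
    simp only [e2]
    exact h2

include hq ht in
theorem zeta2_lim (s₁ s₂ : ℕ) (hs₁ : 0 < s₁) :
    Summable (fun p : {p : F[X] × F[X] // p.1.Monic ∧ p.2.Monic ∧ p.2.natDegree < p.1.natDegree} =>
      ((aeval t p.1.1)⁻¹) ^ s₁ * ((aeval t p.1.2)⁻¹) ^ s₂) ∧
    Tendsto (fun m => ∑ d ∈ range m, SS F t d s₁ * ∑ e ∈ range d, SS F t e s₂) atTop
      (𝓝 (∑' p : {p : F[X] × F[X] // p.1.Monic ∧ p.2.Monic ∧ p.2.natDegree < p.1.natDegree},
        ((aeval t p.1.1)⁻¹) ^ s₁ * ((aeval t p.1.2)⁻¹) ^ s₂)) := by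
  have h := sigma_sum (fun x : (Σ d : ℕ, (Fin d → F) × (Σ e : Fin d, (Fin e → F))) =>
      ((el t x.2.1)⁻¹) ^ s₁ * ((el t x.2.2.2)⁻¹) ^ s₂)
    (fun d => (‖t‖⁻¹) ^ (d * s₁)) (tendsto_inv_pow hq ht s₁ hs₁) (fun d x => by
      rw [norm_mul, norm_pow, norm_inv, norm_el hq ht, norm_pow, norm_inv, norm_el hq ht,
        ← inv_pow, ← inv_pow, ← pow_mul, ← pow_mul]
      refine mul_le_of_le_one_right (by positivity) ?_
      exact pow_le_one₀ (by positivity) (inv_le_one_of_one_le₀ ht.le))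
  have e2 : ∀ x : (Σ d : ℕ, (Fin d → F) × (Σ e : Fin d, (Fin e → F))),
      ((aeval t ((eqP F) x).1.1)⁻¹) ^ s₁ * ((aeval t ((eqP F) x).1.2)⁻¹) ^ s₂
        = ((el t x.2.1)⁻¹) ^ s₁ * ((el t x.2.2.2)⁻¹) ^ s₂ := by
    intro x
    simp only [eqP_val1, eqP_val2, aeval_mkM]
  constructor
  · have h1 := h.1
    rw [← (eqP F).summable_iff]
    refine h1.congr fun x => ?_
    rw [← e2]; rfl
  · have h2 := h.2
    rw [← (eqP F).tsum_eq]
    simp only [e2]
    refine h2.congr fun m => sum_congr rfl fun d _ => ?_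
    rw [Fintype.sum_prod_type, SS, sum_mul]
    refine sum_congr rfl fun c _ => ?_
    rw [Fintype.sum_sigma, Finset.sum_range, mul_sum]
    refine sum_congr rfl fun e _ => ?_
    simp only [SS, mul_sum]

end sums

end Pool.Agent.R316.Ff
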