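import Pool.Agent.R316.FfL

/-!
Specialisation to the field of Laurent series `F((1/t))`.
-/

open Polynomial Finset Filter Topology
open scoped LaurentSeries WithZero

namespace Pool.Agent.R316.Ff

/-- rank one structure on the valuation of the field of Laurent series. -/
@[reducible]
noncomputable def rk (F : Type*) [Field F] : (Valued.v : Valuation F⸨X⸩ ℤᵐ⁰).RankOne := by
  have : (Valued.v : Valuation F⸨X⸩ ℤᵐ⁰).IsRankOneDiscrete := by
    change ((PowerSeries.idealX F).valuation _ : Valuation F⸨X⸩ ℤᵐ⁰).IsRankOneDiscrete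
    infer_instance
  exact Valuation.IsRankOneDiscrete.rankOne (Valued.v : Valuation F⸨X⸩ ℤᵐ⁰) (e := 2) (by norm_num)

variable (F : Type*) [Field F]

theorem exp_one_gt : (1 : ℤᵐ⁰) < WithZero.exp (-(-1 : ℤ)) := by
  rw [← WithZero.exp_zero, WithZero.exp_lt_exp]
  norm_num

theorem laurent_main [Fintype F] (s₁ s₂ : ℕ) (hs₁ : 0 < s₁) (hs₂ : 0 < s₂) (a b : F[X])
    (h : (∑' p : {p : F[X] × F[X] // p.1.Monic ∧ p.2.Monic ∧ p.2.natDegree < p.1.natDegree},
        ((aeval (HahnSeries.single (-1) 1 : F⸨X⸩) p.1.1)⁻¹) ^ s₁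
          * ((aeval (HahnSeries.single (-1) 1 : F⸨X⸩) p.1.2)⁻¹) ^ s₂)
      / (∑' a : {a : F[X] // a.Monic},
        ((aeval (HahnSeries.single (-1) 1 : F⸨X⸩) a.1)⁻¹) ^ (s₁ + s₂))
      = aeval (HahnSeries.single (-1) 1 : F⸨X⸩) a / aeval (HahnSeries.single (-1) 1 : F⸨X⸩) b) :
    (Fintype.card F - 1) ∣ s₂ ∧ (Fintype.card F - 1) * s₁ ≤ s₂ := by
  let rr := rk F
  let inst : NormedField F⸨X⸩ := Valued.toNormedField F⸨X⸩ ℤᵐ⁰
  have i1 : IsUltrametricDist F⸨X⸩ := inferInstance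
  have i2 : CompleteSpace F⸨X⸩ := inferInstance
  have ht : 1 < ‖(HahnSeries.single (-1) 1 : F⸨X⸩)‖ := by
    rw [Valued.toNormedField.one_lt_norm_iff, LaurentSeries.valuation_single_zpow]
    exact exp_one_gt
  have h1 := (zeta_lim (F := F) rfl ht s₁ hs₁).2
  have hw := (zeta_lim (F := F) rfl ht (s₁ + s₂) (by omega)).2
  have h2 := (zeta2_lim (F := F) rfl ht s₁ s₂ hs₁).2
  exact main_abs (F := F) rfl ht s₁ s₂ hs₁ hs₂ _ _ _ h1 hw h2 a b h

theorem laurent_summable1 [Fintype F] (s : ℕ) (hs : 0 < s) :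
    Summable (fun a : {a : F[X] // a.Monic} =>
      ((aeval (HahnSeries.single (-1) 1 : F⸨X⸩) a.1)⁻¹) ^ s) := by
  let rr := rk F
  let inst : NormedField F⸨X⸩ := Valued.toNormedField F⸨X⸩ ℤᵐ⁰
  have i1 : IsUltrametricDist F⸨X⸩ := inferInstance
  have i2 : CompleteSpace F⸨X⸩ := inferInstance
  have ht : 1 < ‖(HahnSeries.single (-1) 1 : F⸨X⸩)‖ := by
    rw [Valued.toNormedField.one_lt_norm_iff, LaurentSeries.valuation_single_zpow]
    exact exp_one_gt
  exact (zeta_lim (F := F) rfl ht s hs).1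

theorem laurent_summable2 [Fintype F] (s₁ s₂ : ℕ) (hs₁ : 0 < s₁) :
    Summable (fun p : {p : F[X] × F[X] // p.1.Monic ∧ p.2.Monic ∧ p.2.natDegree < p.1.natDegree} =>
      ((aeval (HahnSeries.single (-1) 1 : F⸨X⸩) p.1.1)⁻¹) ^ s₁
        * ((aeval (HahnSeries.single (-1) 1 : F⸨X⸩) p.1.2)⁻¹) ^ s₂) := by
  let rr := rk F
  let inst : NormedField F⸨X⸩ := Valued.toNormedField F⸨X⸩ ℤᵐ⁰
  have i1 : IsUltrametricDist F⸨X⸩ := inferInstance
  have i2 : CompleteSpace F⸨X⸩ := inferInstance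
  have ht : 1 < ‖(HahnSeries.single (-1) 1 : F⸨X⸩)‖ := by
    rw [Valued.toNormedField.one_lt_norm_iff, LaurentSeries.valuation_single_zpow]
    exact exp_one_gt
  exact (zeta2_lim (F := F) rfl ht s₁ s₂ hs₁).1

end Pool.Agent.R316.Ff
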