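import Pool.Agent.R316.FfH

/-!
Frobenius recursions for the universal polynomials.
-/

set_option linter.unusedSectionVars false

open Polynomial Finset

namespace Pool.Agent.R316.Ff

section frobps
variable {F : Type*} [Field F] [Fintype F] {R : Type*} [CommRing R] [Algebra F R] {q : ℕ}

/-- coefficients of the `q`-th power of a power series. -/
theorem coeff_frob (hq : Fintype.card F = q) (f : PowerSeries R) (n : ℕ) :
    PowerSeries.coeff n (f ^ q) = if q ∣ n then (PowerSeries.coeff (n / q) f) ^ q else 0 := by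
  have hq1 := q1 hq
  have hq0 : 0 < q := by omega
  -- truncate
  set N := n + 1 with hN
  set g : R[X] := f.trunc N with hg
  have h1 : ∃ r : PowerSeries R, f = (g : PowerSeries R) + PowerSeries.X ^ N * r := by
    have h2 : PowerSeries.X ^ N ∣ f - (g : PowerSeries R) := by
      rw [PowerSeries.X_pow_dvd_iff]
      intro m hm
      rw [map_sub, Polynomial.coeff_coe, hg, PowerSeries.coeff_trunc, if_pos hm, sub_self]
    obtain ⟨r, hr⟩ := h2
    exact ⟨r, by rw [← hr]; ring⟩
  obtain ⟨r, hr⟩ := h1
  have h3 : f ^ q = ((g ^ q : R[X]) : PowerSeries R) + (PowerSeries.X ^ N * r) ^ q := by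
    conv_lhs => rw [hr]
    rw [frob_add (F := F) hq, Polynomial.coe_pow]
  have h4 : PowerSeries.coeff n ((PowerSeries.X ^ N * r) ^ q) = 0 := by
    rw [mul_pow, ← pow_mul, PowerSeries.coeff_X_pow_mul', if_neg]
    have : N ≤ N * q := Nat.le_mul_of_pos_right _ hq0
    omega
  rw [h3, map_add, h4, add_zero, Polynomial.coeff_coe]
  -- the polynomial
  have h5 : g ^ q = ∑ i ∈ range N, C ((g.coeff i) ^ q) * X ^ (q * i) := by
    have h6 : g = ∑ i ∈ range N, C (g.coeff i) * X ^ i := by
      refine Polynomial.as_sum_range_C_mul_X_pow' g ?_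
      exact PowerSeries.natDegree_trunc_lt f n
    conv_lhs => rw [h6]
    rw [frob_sum (F := F) hq]
    refine sum_congr rfl fun i _ => ?_
    rw [mul_pow, ← C_pow, ← pow_mul, mul_comm i q]
  rw [h5]
  simp only [finsetSum_coeff, coeff_C_mul, coeff_X_pow, mul_ite, mul_one, mul_zero]
  split_ifs with h
  · obtain ⟨k, rfl⟩ := h
    rw [Nat.mul_div_cancel_left _ hq0]
    have hkN : k < N := by
      have : k ≤ q * k := Nat.le_mul_of_pos_left _ hq0
      omega
    rw [sum_eq_single k]
    · rw [if_pos rfl, hg, PowerSeries.coeff_trunc, if_pos hkN]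
    · intro b _ hb
      rw [if_neg]
      intro h7
      exact hb (Nat.eq_of_mul_eq_mul_left hq0 h7.symm)
    · intro h7
      exact absurd (mem_range.mpr hkN) h7
  · refine sum_eq_zero fun i _ => ?_
    rw [if_neg]
    rintro rfl
    exact h (Dvd.intro _ rfl)

end frobps

section rec
variable {F : Type*} [Field F] [Fintype F] {K : Type*} [Field K] [Algebra F K] {q : ℕ}
  (hq : Fintype.card F = q) {t : K}

/-- `lambda_n = c_i g_i^q` if `n = q^i`, zero otherwise. -/
noncomputable def lam (q : ℕ) (t : K) (n : ℕ) : K[X] :=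
  if q ^ (Nat.log q n) = n then
    C (br q t 1 / br q t (Nat.log q n + 1)) * (g q t (Nat.log q n)) ^ q else 0

/-- the power series `Lambda`, supported on multiples of `q`. -/
noncomputable def Lam (q : ℕ) (t : K) : PowerSeries K[X] :=
  PowerSeries.mk fun n => if q ∣ n then lam q t (n / q) else 0

include hq in
theorem psi_frob : psi q t = PowerSeries.X + psi q t ^ q - PowerSeries.C (1 - X : K[X]) * Lam q t := by
  have hq1 := q1 hq
  have hq0 : 0 < q := by omega
  ext1 n
  rw [map_sub, map_add, PowerSeries.coeff_C_mul, coeff_frob (F := F) hq, Lam, PowerSeries.coeff_mk,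
    PowerSeries.coeff_X]
  by_cases hn : q ∣ n
  · rw [if_pos hn, if_pos hn]
    obtain ⟨k, rfl⟩ := hn
    rw [Nat.mul_div_cancel_left _ hq0]
    have hne : q * k ≠ 1 := by
      intro h
      have := Nat.eq_one_of_mul_eq_one_right h
      omega
    rw [if_neg hne, zero_add, psi_coeff, psi_coeff, lam]
    rcases Nat.eq_zero_or_pos k with hk | hk
    · subst hk
      simp [hq0.ne']
    · have hlog : Nat.log q (q * k) = Nat.log q k + 1 := by
        rw [mul_comm, Nat.log_mul_base hq1 hk.ne']
      rw [hlog, pow_succ, mul_comm q k]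
      by_cases h : q ^ Nat.log q k = k
      · rw [if_pos (by rw [h]), if_pos h, if_pos h, g]
        ring
      · rw [if_neg, if_neg h, if_neg h, zero_pow hq0.ne']
        · ring
        · intro h2
          exact h (Nat.eq_of_mul_eq_mul_right hq0 h2)
  · rw [if_neg hn, if_neg hn, mul_zero, add_zero, sub_zero, psi_coeff]
    by_cases h1 : n = 1
    · subst h1
      simp [g]
    · rw [if_neg h1, if_neg]
      intro h2
      have h3 : Nat.log q n ≠ 0 := by
        intro h0
        rw [h0, pow_zero] at h2
        exact h1 h2.symm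
      apply hn
      rw [← h2]
      exact dvd_pow_self q h3

end rec

section two
variable {F : Type*} [Field F] [Fintype F] {K : Type*} [Field K] [Algebra F K]
  (hq : Fintype.card F = 2) {t : K}

include hq in
theorem coeff_Lam_mul_sq (f : PowerSeries K[X]) (n : ℕ) :
    PowerSeries.coeff n (Lam 2 t * f ^ 2) = if 2 ∣ n then
      ∑ p ∈ antidiagonal (n / 2), lam 2 t p.1 * (PowerSeries.coeff p.2 f) ^ 2 else 0 := by
  -- both factors are supported on even exponents
  rw [PowerSeries.coeff_mul]
  have hcoe : ∀ m, PowerSeries.coeff m (f ^ 2)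
      = if 2 ∣ m then (PowerSeries.coeff (m / 2) f) ^ 2 else 0 := fun m => coeff_frob (F := F) hq f m
  split_ifs with h
  · obtain ⟨k, rfl⟩ := h
    rw [Nat.mul_div_cancel_left _ two_pos]
    symm
    refine sum_of_injOn (fun p : ℕ × ℕ => (2 * p.1, 2 * p.2)) ?_ ?_ ?_ ?_
    · intro a _ b _ hab
      simp only [Prod.mk.injEq] at hab
      ext <;> omega
    · intro p hp
      rw [mem_coe, Finset.HasAntidiagonal.mem_antidiagonal] at hp ⊢
      simp only
      omega
    · rintro ⟨a, b⟩ hab hnot
      rw [Finset.HasAntidiagonal.mem_antidiagonal] at hab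
      simp only at hab ⊢
      by_cases ha : 2 ∣ a
      · exfalso
        apply hnot
        obtain ⟨a', rfl⟩ := ha
        refine ⟨(a', b / 2), ?_, ?_⟩
        · rw [mem_coe, Finset.HasAntidiagonal.mem_antidiagonal]; simp only; omega
        · simp only [Prod.mk.injEq, true_and]
          omega
      · rw [Lam, PowerSeries.coeff_mk, if_neg ha, zero_mul]
    · rintro ⟨a, b⟩ _
      simp only
      rw [hcoe, if_pos (Dvd.intro _ rfl), Lam, PowerSeries.coeff_mk, if_pos (Dvd.intro _ rfl),
        Nat.mul_div_cancel_left _ two_pos, Nat.mul_div_cancel_left _ two_pos]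
  · refine sum_eq_zero ?_
    rintro ⟨a, b⟩ hab
    rw [Finset.HasAntidiagonal.mem_antidiagonal] at hab
    simp only at hab ⊢
    by_cases ha : 2 ∣ a
    · have hb : ¬ 2 ∣ b := by omega
      rw [hcoe, if_neg hb, mul_zero]
    · rw [Lam, PowerSeries.coeff_mk, if_neg ha, zero_mul]

include hq in
theorem two_zero {R : Type*} [CommRing R] [Algebra F R] : (2 : R) = 0 := by
  have := cast_q (R := R) hq
  exact_mod_cast this

include hq in
theorem neg_eq {R : Type*} [CommRing R] [Algebra F R] (x : R) : -x = x := by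
  have h := two_zero (R := R) hq
  linear_combination (-x) * h

include hq in
theorem dS_rec : PowerSeries.X * dS 2 t = PowerSeries.X * dS 2 t ^ 2 + PowerSeries.X ^ 2
    - PowerSeries.C (1 - X : K[X]) * (Lam 2 t * dS 2 t ^ 2) := by
  have h1 := psi_frob (t := t) hq
  have h2 := dS_mul 2 t
  have h3 := X_mul_phi 2 t
  have h4 : psi 2 t * dS 2 t = PowerSeries.X := by
    rw [← h3, mul_assoc, h2, mul_one]
  linear_combination (dS 2 t ^ 2) * h1 - (dS 2 t - psi 2 t * dS 2 t - PowerSeries.X) * h4

include hq in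
theorem hS_rec : hS 2 t = 1 + PowerSeries.X * hS 2 t ^ 2
    + PowerSeries.C (1 - X : K[X]) * (Lam 2 t * hS 2 t ^ 2) := by
  have h1 := psi_frob (t := t) hq
  have h2 := hS_mul 2 t
  have h5 := two_zero (F := F) (R := PowerSeries K[X]) hq
  -- (1 - psi) = (1 - psi)^2 - X + (1-A) Lam
  linear_combination (-(hS 2 t ^ 2)) * h1 + (-1 - PowerSeries.X * hS 2 t ^ 2 + hS 2 t) * h5
    + (hS 2 t - 2 - ((1 - psi 2 t) * hS 2 t - 1)) * h2

end two

end Pool.Agent.R316.Ff
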