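import Pool.Agent.R316.QA
import Pool.Agent.R316.FfK

/-!
Reduction calculus and leading forms for `q = 2`.
-/

set_option linter.unusedSectionVars false

open Polynomial Finset

namespace Pool.Agent.R316.Ff

section rec2
variable {F : Type*} [Field F] [Fintype F] {K : Type*} [Field K] [Algebra F K]
  (hq : Fintype.card F = 2) {t : K}

include hq in
theorem dd_even (R : ℕ) : dd 2 t (2 * R) = dd 2 t R ^ 2 := by
  have h := congrArg (PowerSeries.coeff (2 * R + 1)) (dS_rec (t := t) hq)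
  rw [map_sub, map_add, PowerSeries.coeff_succ_X_mul, PowerSeries.coeff_succ_X_mul,
    PowerSeries.coeff_C_mul, coeff_Lam_mul_sq hq, if_neg (by omega), mul_zero, sub_zero,
    coeff_frob (F := F) hq, if_pos (Dvd.intro _ rfl), Nat.mul_div_cancel_left _ two_pos,
    PowerSeries.coeff_X_pow, if_neg (by omega), add_zero] at h
  exact h

include hq in
theorem dd_odd (R : ℕ) : dd 2 t (2 * R + 1) = (if R = 0 then 1 else 0)
    - (1 - X) * ∑ p ∈ antidiagonal (R + 1), lam 2 t p.1 * (dd 2 t p.2) ^ 2 := by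
  have h := congrArg (PowerSeries.coeff (2 * R + 1 + 1)) (dS_rec (t := t) hq)
  rw [map_sub, map_add, PowerSeries.coeff_succ_X_mul, PowerSeries.coeff_succ_X_mul,
    PowerSeries.coeff_C_mul, coeff_Lam_mul_sq hq, if_pos ⟨R + 1, by ring⟩,
    coeff_frob (F := F) hq, if_neg (by omega),
    PowerSeries.coeff_X_pow, zero_add, show (2 * R + 1 + 1) / 2 = R + 1 by omega] at h
  rw [dd, h]
  congr 1
  by_cases hR : R = 0
  · subst hR; simp
  · rw [if_neg (by omega), if_neg hR]

include hq in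
theorem hh_odd (b : ℕ) : hh 2 t (2 * b + 1) = hh 2 t b ^ 2 := by
  have h := congrArg (PowerSeries.coeff (2 * b + 1)) (hS_rec (t := t) hq)
  rw [map_add, map_add, PowerSeries.coeff_succ_X_mul,
    PowerSeries.coeff_C_mul, coeff_Lam_mul_sq hq, if_neg (by omega), mul_zero, add_zero,
    coeff_frob (F := F) hq, if_pos (Dvd.intro _ rfl), Nat.mul_div_cancel_left _ two_pos,
    PowerSeries.coeff_one, if_neg (by omega), zero_add] at h
  exact h

include hq in
theorem hh_even (b : ℕ) : hh 2 t (2 * b) = (if b = 0 then 1 else 0)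
    + (1 - X) * ∑ p ∈ antidiagonal b, lam 2 t p.1 * (hh 2 t p.2) ^ 2 := by
  have h := congrArg (PowerSeries.coeff (2 * b)) (hS_rec (t := t) hq)
  rw [map_add, map_add, PowerSeries.coeff_C_mul, coeff_Lam_mul_sq hq, if_pos (Dvd.intro _ rfl),
    Nat.mul_div_cancel_left _ two_pos, PowerSeries.coeff_one] at h
  rw [hh, h]
  congr 1
  have h2 : PowerSeries.coeff (2 * b) (PowerSeries.X * hS 2 t ^ 2) = 0 := by
    rcases Nat.eq_zero_or_pos b with hb | hb
    · subst hb; simp
    · obtain ⟨c, rfl⟩ : ∃ c, b = c + 1 := ⟨b - 1, by omega⟩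
      rw [show 2 * (c + 1) = (2 * c + 1) + 1 by ring, PowerSeries.coeff_succ_X_mul,
        coeff_frob (F := F) hq, if_neg (by omega)]
  rw [h2, add_zero]
  by_cases hb : b = 0
  · subst hb; simp
  · rw [if_neg (by omega), if_neg hb]

theorem lam_pow (hq1 : 1 < 2) (i : ℕ) :
    lam 2 t (2 ^ i) = C (br 2 t 1 / br 2 t (i + 1)) * (g 2 t i) ^ 2 := by
  rw [lam, Nat.log_pow hq1, if_pos rfl]

theorem lam_cases (k : ℕ) : lam 2 t k = 0 ∨ ∃ i, k = 2 ^ i := by
  by_cases h : 2 ^ (Nat.log 2 k) = k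
  · exact Or.inr ⟨_, h.symm⟩
  · left
    rw [lam, if_neg h]

end rec2

section calc1
variable {F : Type*} [Field F] [Fintype F] {K : Type*} [NormedField K] [IsUltrametricDist K]
  [Algebra F K] {q : ℕ} (hq : Fintype.card F = q)

/-- bounded on the circle `|A| = |a|`, for the coefficients of index `< E`. -/
def BS (a : K) (M : ℝ) (E : ℕ∞) (p : K[X]) : Prop :=
  ∀ i : ℕ, (i : ℕ∞) < E → ‖p.coeff i * a ^ i‖ ≤ M

/-- `p(aX)/u` reduces to `p0`, for the coefficients of index `< E`. -/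
def RD (a u : K) (E : ℕ∞) (p : K[X]) (p0 : F[X]) : Prop :=
  ∀ i : ℕ, (i : ℕ∞) < E → ‖p.coeff i * a ^ i - u * algebraMap F K (p0.coeff i)‖ < ‖u‖

theorem BS.mono {a : K} {M N : ℝ} {E : ℕ∞} {p : K[X]} (h : M ≤ N) (hp : BS a M E p) : BS a N E p :=
  fun i hi => (hp i hi).trans h

theorem BS.add {a : K} {M : ℝ} {E : ℕ∞} {p r : K[X]} (hp : BS a M E p) (hr : BS a M E r) :
    BS a M E (p + r) := by
  intro i hi
  rw [coeff_add, add_mul]
  exact (IsUltrametricDist.norm_add_le_max _ _).trans (max_le (hp i hi) (hr i hi))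

theorem BS.neg {a : K} {M : ℝ} {E : ℕ∞} {p : K[X]} (hp : BS a M E p) : BS a M E (-p) := by
  intro i hi
  rw [coeff_neg, neg_mul, norm_neg]
  exact hp i hi

theorem BS.sub {a : K} {M : ℝ} {E : ℕ∞} {p r : K[X]} (hp : BS a M E p) (hr : BS a M E r) :
    BS a M E (p - r) := by
  rw [sub_eq_add_neg]; exact hp.add hr.neg

theorem BS.zero {a : K} {M : ℝ} (hM : 0 ≤ M) {E : ℕ∞} : BS a M E 0 := by
  intro i hi
  simpa using hM

theorem BS.sum {a : K} {M : ℝ} (hM : 0 ≤ M) {E : ℕ∞} {ι : Type*} (s : Finset ι) (f : ι → K[X])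
    (h : ∀ i ∈ s, BS a M E (f i)) : BS a M E (∑ i ∈ s, f i) := by
  classical
  induction s using Finset.induction_on with
  | empty => exact BS.zero hM
  | insert b s hb ih =>
    rw [sum_insert hb]
    exact (h b (mem_insert_self _ _)).add (ih fun i hi => h i (mem_insert_of_mem hi))

theorem BS.mul {a : K} {M N : ℝ} (hM : 0 ≤ M) (hN : 0 ≤ N) {E : ℕ∞} {p r : K[X]}
    (hp : BS a M E p) (hr : BS a N E r) : BS a (M * N) E (p * r) := by
  intro i hi
  rw [coeff_mul, sum_mul]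
  refine IsUltrametricDist.norm_sum_le_of_forall_le_of_nonneg (mul_nonneg hM hN) ?_
  rintro ⟨j, k⟩ hjk
  rw [Finset.HasAntidiagonal.mem_antidiagonal] at hjk
  simp only at hjk ⊢
  have hj : (j : ℕ∞) < E := lt_of_le_of_lt (by exact_mod_cast (by omega : j ≤ i)) hi
  have hk : (k : ℕ∞) < E := lt_of_le_of_lt (by exact_mod_cast (by omega : k ≤ i)) hi
  have e : p.coeff j * r.coeff k * a ^ i = (p.coeff j * a ^ j) * (r.coeff k * a ^ k) := by
    rw [← hjk, pow_add]; ring
  rw [e, norm_mul]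
  exact mul_le_mul (hp j hj) (hr k hk) (norm_nonneg _) hM

theorem BS.one {a : K} {E : ℕ∞} : BS a 1 E (1 : K[X]) := by
  intro i hi
  rw [coeff_one]
  split_ifs with h
  · subst h; simp
  · simp

theorem BS.pow {a : K} {M : ℝ} (hM : 0 ≤ M) {E : ℕ∞} {p : K[X]} (hp : BS a M E p) (n : ℕ) :
    BS a (M ^ n) E (p ^ n) := by
  induction n with
  | zero => simpa using BS.one
  | succ n ih => rw [pow_succ, pow_succ]; exact ih.mul (pow_nonneg hM n) hM hp

theorem BS.C {a : K} {E : ℕ∞} (x : K) : BS a ‖x‖ E (Polynomial.C x) := by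
  intro i hi
  rw [coeff_C]
  split_ifs with h
  · subst h; simp
  · simp

theorem BS.X {a : K} {E : ℕ∞} : BS a ‖a‖ E (X : K[X]) := by
  intro i hi
  rw [coeff_X]
  split_ifs with h
  · rw [← h]; simp
  · simp

include hq in
theorem norm_alg_le (x : F) : ‖algebraMap F K x‖ ≤ 1 := norm_F hq x

theorem RD.add {a u : K} {E : ℕ∞} {p r : K[X]} {p0 r0 : F[X]} (hp : RD a u E p p0)
    (hr : RD a u E r r0) : RD a u E (p + r) (p0 + r0) := by
  intro i hi
  rw [coeff_add, coeff_add, map_add]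
  have e : (p.coeff i + r.coeff i) * a ^ i - u * (algebraMap F K (p0.coeff i)
      + algebraMap F K (r0.coeff i)) = (p.coeff i * a ^ i - u * algebraMap F K (p0.coeff i))
        + (r.coeff i * a ^ i - u * algebraMap F K (r0.coeff i)) := by ring
  rw [e]
  exact lt_of_le_of_lt (IsUltrametricDist.norm_add_le_max _ _) (max_lt (hp i hi) (hr i hi))

theorem RD.neg {a u : K} {E : ℕ∞} {p : K[X]} {p0 : F[X]} (hp : RD a u E p p0) :
    RD a u E (-p) (-p0) := by
  intro i hi
  rw [coeff_neg, coeff_neg, map_neg]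
  have e : -p.coeff i * a ^ i - u * -algebraMap F K (p0.coeff i)
      = -(p.coeff i * a ^ i - u * algebraMap F K (p0.coeff i)) := by ring
  rw [e, norm_neg]
  exact hp i hi

theorem RD.sub {a u : K} {E : ℕ∞} {p r : K[X]} {p0 r0 : F[X]} (hp : RD a u E p p0)
    (hr : RD a u E r r0) : RD a u E (p - r) (p0 - r0) := by
  rw [sub_eq_add_neg, sub_eq_add_neg]; exact hp.add hr.neg

theorem RD.zero {a u : K} (hu : u ≠ 0) {E : ℕ∞} : RD a u E 0 (0 : F[X]) := by
  intro i hi
  simpa using hu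

theorem RD.small {a u : K} {E : ℕ∞} {p : K[X]} (h : ∀ i : ℕ, (i : ℕ∞) < E → ‖p.coeff i * a ^ i‖ < ‖u‖) :
    RD a u E p (0 : F[X]) := by
  intro i hi
  simpa using h i hi

theorem RD.of_BS {a u : K} {M : ℝ} {E : ℕ∞} {p : K[X]} (h : BS a M E p) (hM : M < ‖u‖) :
    RD a u E p (0 : F[X]) := RD.small fun i hi => lt_of_le_of_lt (h i hi) hM

theorem RD.sum {a u : K} (hu : u ≠ 0) {E : ℕ∞} {ι : Type*} (s : Finset ι) (f : ι → K[X])
    (f0 : ι → F[X]) (h : ∀ i ∈ s, RD a u E (f i) (f0 i)) :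
    RD a u E (∑ i ∈ s, f i) (∑ i ∈ s, f0 i) := by
  classical
  induction s using Finset.induction_on with
  | empty => exact RD.zero hu
  | insert b s hb ih =>
    rw [sum_insert hb, sum_insert hb]
    exact (h b (mem_insert_self _ _)).add (ih fun i hi => h i (mem_insert_of_mem hi))

include hq in
theorem RD.bs {a u : K} {E : ℕ∞} {p : K[X]} {p0 : F[X]} (hp : RD a u E p p0) :
    BS a ‖u‖ E p := by
  intro i hi
  have e : p.coeff i * a ^ i = (p.coeff i * a ^ i - u * algebraMap F K (p0.coeff i))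
      + u * algebraMap F K (p0.coeff i) := by ring
  rw [e]
  refine (IsUltrametricDist.norm_add_le_max _ _).trans (max_le (hp i hi).le ?_)
  rw [norm_mul]
  exact mul_le_of_le_one_right (norm_nonneg _) (norm_alg_le hq _)

include hq in
theorem RD.mul {a u v : K} (hu : u ≠ 0) (hv : v ≠ 0) {E : ℕ∞} {p r : K[X]} {p0 r0 : F[X]}
    (hp : RD a u E p p0) (hr : RD a v E r r0) : RD a (u * v) E (p * r) (p0 * r0) := by
  intro i hi
  rw [coeff_mul, coeff_mul, map_sum, sum_mul, mul_sum, ← sum_sub_distrib]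
  have hu' : 0 < ‖u‖ := norm_pos_iff.mpr hu
  have hv' : 0 < ‖v‖ := norm_pos_iff.mpr hv
  refine norm_sum_lt (norm_pos_iff.mpr (mul_ne_zero hu hv)) _ _ ?_
  rintro ⟨j, k⟩ hjk
  rw [Finset.HasAntidiagonal.mem_antidiagonal] at hjk
  simp only at hjk ⊢
  have hj : (j : ℕ∞) < E := lt_of_le_of_lt (by exact_mod_cast (by omega : j ≤ i)) hi
  have hk : (k : ℕ∞) < E := lt_of_le_of_lt (by exact_mod_cast (by omega : k ≤ i)) hi
  have e : p.coeff j * r.coeff k * a ^ i - u * v * algebraMap F K (p0.coeff j * r0.coeff k)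
      = (p.coeff j * a ^ j - u * algebraMap F K (p0.coeff j)) * (r.coeff k * a ^ k)
        + (u * algebraMap F K (p0.coeff j)) * (r.coeff k * a ^ k - v * algebraMap F K (r0.coeff k)) := by
    rw [← hjk, pow_add, map_mul]; ring
  rw [e, norm_mul u v]
  refine lt_of_le_of_lt (IsUltrametricDist.norm_add_le_max _ _) (max_lt ?_ ?_)
  · rw [norm_mul (p.coeff j * a ^ j - u * algebraMap F K (p0.coeff j))]
    calc _ ≤ ‖p.coeff j * a ^ j - u * algebraMap F K (p0.coeff j)‖ * ‖v‖ :=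
          mul_le_mul_of_nonneg_left (hr.bs hq k hk) (norm_nonneg _)
      _ < ‖u‖ * ‖v‖ := mul_lt_mul_of_pos_right (hp j hj) hv'
  · rw [norm_mul (u * algebraMap F K (p0.coeff j)), norm_mul u]
    calc _ ≤ ‖u‖ * ‖r.coeff k * a ^ k - v * algebraMap F K (r0.coeff k)‖ := by
          refine mul_le_mul_of_nonneg_right ?_ (norm_nonneg _)
          exact mul_le_of_le_one_right (norm_nonneg _) (norm_alg_le hq _)
      _ < ‖u‖ * ‖v‖ := mul_lt_mul_of_pos_left (hr k hk) hu'

theorem RD.one {a : K} {E : ℕ∞} : RD a 1 E (1 : K[X]) (1 : F[X]) := by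
  intro i hi
  rw [coeff_one, coeff_one]
  split_ifs with h
  · subst h; simp
  · simp

include hq in
theorem RD.pow {a u : K} (hu : u ≠ 0) {E : ℕ∞} {p : K[X]} {p0 : F[X]} (hp : RD a u E p p0)
    (n : ℕ) : RD a (u ^ n) E (p ^ n) (p0 ^ n) := by
  induction n with
  | zero => simpa using RD.one
  | succ n ih => rw [pow_succ, pow_succ, pow_succ]; exact ih.mul hq (pow_ne_zero n hu) hu hp

theorem RD.C {a u x : K} (h : ‖x - u‖ < ‖u‖) {E : ℕ∞} : RD a u E (Polynomial.C x) (1 : F[X]) := by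
  have hu : 0 < ‖u‖ := lt_of_le_of_lt (norm_nonneg _) h
  intro i hi
  rw [coeff_C, coeff_one]
  split_ifs with h1
  · subst h1; simpa using h
  · simpa using norm_pos_iff.mp hu

theorem RD.X {a : K} (ha : a ≠ 0) {E : ℕ∞} : RD a a E (X : K[X]) (X : F[X]) := by
  intro i hi
  rw [coeff_X, coeff_X]
  split_ifs with h1
  · rw [← h1]; simpa using ha
  · simpa using ha

include hq in
/-- the reduced coefficient is nonzero iff the norm is maximal -/
theorem RD.norm_eq {a u : K} {E : ℕ∞} {p : K[X]} {p0 : F[X]} (hp : RD a u E p p0) (i : ℕ)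
    (hi : (i : ℕ∞) < E) (h : p0.coeff i ≠ 0) : ‖p.coeff i * a ^ i‖ = ‖u‖ := by
  have e : p.coeff i * a ^ i = u * algebraMap F K (p0.coeff i)
      + (p.coeff i * a ^ i - u * algebraMap F K (p0.coeff i)) := by ring
  have h1 : ‖u * algebraMap F K (p0.coeff i)‖ = ‖u‖ := by
    rw [norm_mul, norm_F_eq hq _ h, mul_one]
  rw [e, norm_add_of_lt, h1]
  rw [h1]
  exact hp i hi

theorem RD.norm_lt {a u : K} {E : ℕ∞} {p : K[X]} {p0 : F[X]} (hp : RD a u E p p0) (i : ℕ)
    (hi : (i : ℕ∞) < E) (h : p0.coeff i = 0) : ‖p.coeff i * a ^ i‖ < ‖u‖ := by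
  have := hp i hi
  rwa [h, map_zero, mul_zero, sub_zero] at this

theorem RD.congr {a u : K} {E : ℕ∞} {p : K[X]} {p0 p1 : F[X]} (hp : RD a u E p p0)
    (h : ∀ i : ℕ, (i : ℕ∞) < E → p0.coeff i = p1.coeff i) : RD a u E p p1 := by
  intro i hi
  rw [← h i hi]
  exact hp i hi

/-- changing the size by a factor that reduces to one -/
theorem RD.change {a u v : K} {E : ℕ∞} {p : K[X]} {p0 : F[X]} (hq : Fintype.card F = q)
    (hp : RD a u E p p0) (h : ‖u - v‖ < ‖u‖) : RD a v E p p0 := by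
  have hv : ‖v‖ = ‖u‖ := by
    have : v = u - (u - v) := by ring
    rw [this, norm_sub_of_lt h]
  intro i hi
  have e : p.coeff i * a ^ i - v * algebraMap F K (p0.coeff i)
      = (p.coeff i * a ^ i - u * algebraMap F K (p0.coeff i))
        + (u - v) * algebraMap F K (p0.coeff i) := by ring
  rw [e, hv]
  refine lt_of_le_of_lt (IsUltrametricDist.norm_add_le_max _ _) (max_lt (hp i hi) ?_)
  rw [norm_mul]
  exact lt_of_le_of_lt (mul_le_of_le_one_right (norm_nonneg _) (norm_alg_le hq _)) h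

end calc1

section sq
variable {F : Type*} [Field F] [Fintype F]
  (hq : Fintype.card F = 2)

include hq in
theorem coeff_sq {R : Type*} [CommRing R] [Algebra F R] (p : R[X]) (n : ℕ) :
    (p ^ 2).coeff n = if 2 ∣ n then (p.coeff (n / 2)) ^ 2 else 0 := by
  have h := coeff_frob (F := F) (R := R) hq (p : PowerSeries R) n
  rw [← Polynomial.coe_pow, Polynomial.coeff_coe, Polynomial.coeff_coe] at h
  exact h

variable {K : Type*} [NormedField K] [IsUltrametricDist K] [Algebra F K]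

include hq in
theorem BS.sq {a : K} {M : ℝ} (hM : 0 ≤ M) {E : ℕ∞} {p : K[X]} (hp : BS a M E p) :
    BS a (M ^ 2) (2 * E) (p ^ 2) := by
  intro i hi
  rw [coeff_sq hq]
  split_ifs with h
  · obtain ⟨k, rfl⟩ := h
    rw [Nat.mul_div_cancel_left _ two_pos]
    have hk : (k : ℕ∞) < E := by
      by_contra hcon
      push Not at hcon
      have : 2 * E ≤ ((2 * k : ℕ) : ℕ∞) := by
        push_cast
        gcongr
      exact absurd hi (not_lt.mpr this)
    have e : p.coeff k ^ 2 * a ^ (2 * k) = (p.coeff k * a ^ k) ^ 2 := by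
      rw [mul_pow, ← pow_mul, mul_comm k 2]
    rw [e, norm_pow]
    exact pow_le_pow_left₀ (norm_nonneg _) (hp k hk) 2
  · simp [pow_nonneg hM 2]

include hq in
theorem RD.sq {a u : K} (hu : u ≠ 0) {E : ℕ∞} {p : K[X]} {p0 : F[X]} (hp : RD a u E p p0) :
    RD a (u ^ 2) (2 * E) (p ^ 2) (p0 ^ 2) := by
  intro i hi
  rw [coeff_sq hq, coeff_sq hq]
  split_ifs with h
  · obtain ⟨k, rfl⟩ := h
    rw [Nat.mul_div_cancel_left _ two_pos]
    have hk : (k : ℕ∞) < E := by
      by_contra hcon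
      push Not at hcon
      have : 2 * E ≤ ((2 * k : ℕ) : ℕ∞) := by
        push_cast
        gcongr
      exact absurd hi (not_lt.mpr this)
    have e : p.coeff k ^ 2 * a ^ (2 * k) - u ^ 2 * algebraMap F K (p0.coeff k ^ 2)
        = (p.coeff k * a ^ k - u * algebraMap F K (p0.coeff k)) ^ 2 := by
      rw [frob_sub (F := F) hq, map_pow, mul_pow, mul_pow, ← pow_mul, mul_comm k 2]
    rw [e, norm_pow, norm_pow]
    exact pow_lt_pow_left₀ (hp k hk) (norm_nonneg _) two_ne_zero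
  · simpa using pow_pos (norm_pos_iff.mpr hu) 2

end sq

end Pool.Agent.R316.Ff
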