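import Pool.Agent.R316.QB

/-!
Leading forms of the universal polynomials for `q = 2`.
-/

set_option linter.unusedSectionVars false

open Polynomial Finset

namespace Pool.Agent.R316.Ff

section basics
variable {F : Type*} [Field F] [Fintype F] {K : Type*} [NormedField K] [IsUltrametricDist K]
  [Algebra F K] (hq : Fintype.card F = 2) {t : K} (ht : 1 < ‖t‖)

/-- the constant `c_i`. -/
noncomputable def ci (t : K) (i : ℕ) : K := br 2 t 1 / br 2 t (i + 1)

include ht in
theorem c_gt : 1 < ‖br 2 t 1‖ := norm_br_gt one_lt_two ht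

include ht in
theorem c_ne : br 2 t 1 ≠ 0 := br1_ne one_lt_two ht

include ht in
theorem ci_norm (i : ℕ) : ‖ci t i‖ * ‖br 2 t 1‖ ^ (2 ^ i) = ‖br 2 t 1‖ := by
  have ht0 : 0 < ‖t‖ := by linarith
  have e : (‖t‖ ^ (2 ^ 1)) ^ (2 ^ i) = ‖t‖ ^ (2 ^ (i + 1)) := by
    rw [← pow_mul, pow_one, ← pow_succ']
  rw [ci, norm_div, norm_br one_lt_two ht 1 one_pos, norm_br one_lt_two ht (i + 1) (Nat.succ_pos _),
    e]
  field_simp

include hq ht in
theorem ci_approx (i : ℕ) : ‖ci t i - br 2 t 1 / br 2 t 1 ^ (2 ^ i)‖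
    < ‖br 2 t 1 / br 2 t 1 ^ (2 ^ i)‖ := by
  have hc := c_ne ht
  have hb := br_ne' one_lt_two ht i
  have hcn := norm_br one_lt_two ht 1 one_pos
  have hbn := norm_br one_lt_two ht (i + 1) (Nat.succ_pos _)
  have ht0 : 0 < ‖t‖ := by linarith
  have e1 : br 2 t 1 ^ (2 ^ i) = t ^ (2 ^ (i + 1)) - t ^ (2 ^ i) := by
    have h2 : ∀ n : ℕ, (t ^ 2 - t) ^ (2 ^ n) = (t ^ 2) ^ (2 ^ n) - t ^ (2 ^ n) := by
      intro n
      induction n with
      | zero => simp
      | succ n ih => rw [pow_succ 2 n, pow_mul, ih, frob_sub hq, ← pow_mul, ← pow_mul, ← pow_mul]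
    rw [br, pow_one, h2, ← pow_mul, ← pow_succ']
  have e2 : ci t i - br 2 t 1 / br 2 t 1 ^ (2 ^ i)
      = (br 2 t 1 / br 2 t 1 ^ (2 ^ i)) * ((t - t ^ (2 ^ i)) / br 2 t (i + 1)) := by
    have h3 : br 2 t 1 ^ (2 ^ i) - br 2 t (i + 1) = t - t ^ (2 ^ i) := by
      rw [e1, br]; ring
    rw [ci, ← h3]
    have h4 : br 2 t 1 ^ (2 ^ i) ≠ 0 := pow_ne_zero _ hc
    field_simp
  rw [e2, norm_mul]
  have h5 : 0 < ‖br 2 t 1 / br 2 t 1 ^ (2 ^ i)‖ := norm_pos_iff.mpr (div_ne_zero hc (pow_ne_zero _ hc))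
  refine mul_lt_of_lt_one_right h5 ?_
  rw [norm_div, div_lt_one (norm_pos_iff.mpr hb), hbn]
  refine lt_of_le_of_lt (nsub_le_max _ _) (max_lt ?_ ?_)
  · calc ‖t‖ = ‖t‖ ^ 1 := (pow_one _).symm
      _ < _ := pow_lt_pow_right₀ ht (Nat.one_lt_pow (Nat.succ_ne_zero i) one_lt_two)
  · rw [norm_pow]
    exact pow_lt_pow_right₀ ht (Nat.pow_lt_pow_right one_lt_two (Nat.lt_succ_self i))

include ht in
theorem ci_lt (i : ℕ) (hi : 0 < i) : ‖ci t i‖ < 1 := norm_c_lt one_lt_two ht i hi

include ht in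
theorem ci_zero : ci t 0 = 1 := by
  rw [ci, zero_add, div_self (c_ne ht)]

theorem lam_pow' (i : ℕ) : lam 2 t (2 ^ i) = C (ci t i) * (g 2 t i) ^ 2 := lam_pow one_lt_two i

include ht in
theorem lam_one : lam 2 t 1 = 1 := by
  have := lam_pow' (t := t) 0
  rw [pow_zero] at this
  rw [this, ci_zero ht, g]
  simp

theorem lam_zero : lam 2 t 0 = 0 := by
  rw [lam]; simp

include ht in
theorem lam_two : lam 2 t 2 = C (ci t 1) * X ^ 2 := by
  have := lam_pow' (t := t) 1
  rw [pow_one] at this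
  rw [this, g_one one_lt_two ht]

include ht in
theorem g_BS (i : ℕ) : BS (br 2 t 1) (‖br 2 t 1‖ ^ (2 ^ i)) ⊤ (g 2 t (i + 1)) := by
  set c := br 2 t 1 with hc
  have hc1 := c_gt ht
  induction i with
  | zero => rw [zero_add, g_one one_lt_two ht, pow_zero, pow_one]; exact BS.X
  | succ i ih =>
    rw [g]
    have h1 : BS c 1 ⊤ (1 - (1 - X) * C (br 2 t 1 / br 2 t (i + 1 + 1))) := by
      change BS c 1 ⊤ (1 - (1 - X) * C (ci t (i + 1)))
      have h2 := ci_lt ht (i + 1) (Nat.succ_pos i)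
      have h3 : ‖c‖ * ‖ci t (i + 1)‖ ≤ 1 := by
        have h4 := ci_norm ht (i + 1)
        rw [← hc] at h4
        have h5 : ‖c‖ ^ 2 ≤ ‖c‖ ^ (2 ^ (i + 1)) :=
          pow_le_pow_right₀ hc1.le (by rw [pow_succ]; have := Nat.one_le_two_pow (n := i); omega)
        have h6 : ‖ci t (i + 1)‖ * ‖c‖ ^ 2 ≤ ‖c‖ := by
          rw [← h4] at *
          nlinarith [norm_nonneg (ci t (i + 1))]
        have h7 : 0 < ‖c‖ := by linarith
        nlinarith
      have h8 : BS c 1 ⊤ (C (ci t (i + 1))) := (BS.C _).mono h2.le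
      have h9 : BS c 1 ⊤ (X * C (ci t (i + 1))) :=
        (BS.mul (norm_nonneg _) (norm_nonneg _) BS.X (BS.C _)).mono h3
      have e : (1 - (1 - X) * C (ci t (i + 1)) : K[X]) = 1 - C (ci t (i + 1)) + X * C (ci t (i + 1)) := by
        ring
      rw [e]
      exact (BS.one.sub h8).add h9
    have h2 := (ih.pow (by positivity) 2).mul (by positivity) zero_le_one h1
    rw [mul_one, ← pow_mul, ← pow_succ] at h2
    exact h2

include ht in
theorem lam_BS (i : ℕ) (hi : 0 < i) : BS (br 2 t 1) ‖br 2 t 1‖ ⊤ (lam 2 t (2 ^ i)) := by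
  obtain ⟨j, rfl⟩ : ∃ j, i = j + 1 := ⟨i - 1, by omega⟩
  rw [lam_pow']
  have h1 := (BS.C (a := br 2 t 1) (E := ⊤) (ci t (j + 1))).mul (norm_nonneg _) (by positivity)
    ((g_BS ht j).pow (by positivity) 2)
  rw [← pow_mul, ← pow_succ, ci_norm ht] at h1
  exact h1

include hq ht in
theorem g_RD1 (i : ℕ) : RD 1 1 ⊤ (g 2 t (i + 1)) (X ^ (2 ^ i) : F[X]) := by
  induction i with
  | zero =>
    rw [zero_add, g_one one_lt_two ht, pow_zero, pow_one]
    have := RD.X (F := F) (a := (1 : K)) one_ne_zero (E := ⊤)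
    simpa using this
  | succ i ih =>
    rw [g]
    change RD 1 1 ⊤ (g 2 t (i + 1) ^ 2 * (1 - (1 - X) * C (ci t (i + 1)))) _
    have h1 : RD 1 1 ⊤ (1 - (1 - X) * C (ci t (i + 1)) : K[X]) (1 : F[X]) := by
      have h2 : RD 1 1 ⊤ ((1 - X) * C (ci t (i + 1)) : K[X]) (0 : F[X]) := by
        refine RD.of_BS (M := ‖ci t (i + 1)‖) ?_ (by
          rw [norm_one]; exact ci_lt ht _ (Nat.succ_pos i))
        have h3 : BS (1 : K) 1 ⊤ (1 - X : K[X]) := by
          have := (BS.one (a := (1 : K)) (E := ⊤)).sub (BS.X.mono (by simp))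
          exact this
        have h4 := h3.mul zero_le_one (norm_nonneg _) (BS.C (ci t (i + 1)))
        rwa [one_mul] at h4
      have h5 := (RD.one (F := F) (a := (1 : K)) (E := ⊤)).sub h2
      simpa using h5
    have h6 := (ih.pow hq one_ne_zero 2).mul hq (pow_ne_zero 2 one_ne_zero) one_ne_zero h1
    rw [one_pow, one_mul, mul_one, ← pow_mul, ← pow_succ] at h6
    exact h6

include hq ht in
theorem lam_BS1 (i : ℕ) : BS (1 : K) ‖ci t i‖ ⊤ (lam 2 t (2 ^ i)) := by
  rw [lam_pow']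
  have h0 : BS (1 : K) 1 ⊤ (g 2 t i) := by
    rcases i with _ | i
    · exact BS.one
    · have := (g_RD1 hq ht i).bs hq
      simpa using this
  have h1 := (BS.C (a := (1 : K)) (E := ⊤) (ci t i)).mul (norm_nonneg _) (by positivity)
    (h0.pow zero_le_one 2)
  rwa [one_pow, mul_one] at h1

/-- `1 - X` at the scale `c`. -/
theorem oneX_RDc (hq : Fintype.card F = 2) (ht : 1 < ‖t‖) :
    RD (br 2 t 1) (br 2 t 1) ⊤ (1 - X : K[X]) (X : F[X]) := by
  have h1 : RD (br 2 t 1) (br 2 t 1) ⊤ (1 : K[X]) (0 : F[X]) := by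
    refine RD.of_BS BS.one ?_
    exact c_gt ht
  have h2 := h1.sub (RD.X (F := F) (c_ne ht) (E := ⊤))
  rw [zero_sub, neg_eq hq] at h2
  exact h2

include hq ht in
theorem oneX_RD1 : RD (1 : K) 1 ⊤ (1 - X : K[X]) (1 + X : F[X]) := by
  have h2 := (RD.one (F := F) (a := (1 : K)) (E := ⊤)).sub (RD.X (F := F) one_ne_zero)
  have e : (1 - X : F[X]) = 1 + X := by rw [sub_eq_add_neg, neg_eq hq]
  rwa [e] at h2

include hq ht in
/-- the leading form of `delta_s` at the scale `c`. -/
theorem dd_RDc (s : ℕ) : RD (br 2 t 1) (br 2 t 1 ^ s) ⊤ (dd 2 t s) (X ^ s : F[X]) := by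
  set c := br 2 t 1 with hc
  have hc1 := c_gt ht
  have hc0 := c_ne ht
  have hcpos : 0 < ‖c‖ := by linarith
  induction s using Nat.strong_induction_on with
  | _ s ih =>
    obtain ⟨R, rfl | rfl⟩ : ∃ R, s = 2 * R ∨ s = 2 * R + 1 := ⟨s / 2, by omega⟩
    · rcases Nat.eq_zero_or_pos R with hR | hR
      · subst hR
        have h0 : dd 2 t (2 * 0) = 1 := by
          rw [mul_zero, dd_rec, if_pos rfl, sum_eq_zero, sub_zero]
          rintro ⟨a, b⟩ hab
          simp only [mem_filter, Finset.HasAntidiagonal.mem_antidiagonal] at hab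
          omega
        rw [h0]
        simpa using RD.one
      · rw [dd_even hq]
        have h1 := (ih R (by omega)).pow hq (pow_ne_zero _ hc0) 2
        rwa [← pow_mul, ← pow_mul, mul_comm R 2] at h1
    · rw [dd_odd hq]
      have hone : RD c (c ^ (2 * R + 1)) ⊤ (if R = 0 then (1 : K[X]) else 0) (0 : F[X]) := by
        split_ifs with hR
        · subst hR
          refine RD.of_BS BS.one ?_
          simpa using hc1
        · exact RD.zero (pow_ne_zero _ hc0)
      have hmain : RD c (c ^ (2 * R + 1)) ⊤ ((1 - X) * ∑ p ∈ antidiagonal (R + 1),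
          lam 2 t p.1 * (dd 2 t p.2) ^ 2) (X ^ (2 * R + 1) : F[X]) := by
        rw [mul_sum, ← add_sum_erase _ _ (a := (1, R)) (by
          rw [Finset.HasAntidiagonal.mem_antidiagonal]; simp only; omega)]
        simp only [lam_one ht, one_mul]
        have h1 : RD c (c ^ (2 * R + 1)) ⊤ ((1 - X) * dd 2 t R ^ 2) (X ^ (2 * R + 1) : F[X]) := by
          have h2 := (oneX_RDc hq ht).mul hq hc0 (pow_ne_zero 2 (pow_ne_zero R hc0))
            ((ih R (by omega)).pow hq (pow_ne_zero _ hc0) 2)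
          rw [← pow_mul, ← pow_mul, ← pow_succ', ← pow_succ', mul_comm R 2] at h2
          exact h2
        have h3 : RD c (c ^ (2 * R + 1)) ⊤ (∑ p ∈ (antidiagonal (R + 1)).erase (1, R),
            (1 - X) * (lam 2 t p.1 * (dd 2 t p.2) ^ 2)) (0 : F[X]) := by
          refine RD.of_BS (M := ‖c‖ ^ (2 * R)) (BS.sum (by positivity) _ _ ?_) (by
            rw [norm_pow]; exact pow_lt_pow_right₀ hc1 (by omega))
          rintro ⟨a, b⟩ hab
          rw [mem_erase, Finset.HasAntidiagonal.mem_antidiagonal] at hab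
          obtain ⟨hne, hsum⟩ := hab
          simp only at hsum ⊢
          rcases lam_cases (t := t) a with h0 | ⟨i, rfl⟩
          · rw [h0, zero_mul, mul_zero]
            exact BS.zero (by positivity)
          · rcases Nat.eq_zero_or_pos i with hi | hi
            · exfalso
              subst hi
              apply hne
              ext <;> simp <;> omega
            · have h2i : 2 ≤ 2 ^ i := by
                calc 2 = 2 ^ 1 := rfl
                  _ ≤ 2 ^ i := Nat.pow_le_pow_right two_pos hi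
              have h4 := ((oneX_RDc hq ht).bs hq).mul (norm_nonneg _) (by positivity)
                ((lam_BS ht i hi).mul (norm_nonneg _) (by positivity)
                  ((ih b (by omega)).bs hq |>.pow (norm_nonneg _) 2))
              refine h4.mono ?_
              rw [norm_pow, ← hc, ← pow_mul, ← pow_succ', ← pow_succ']
              exact pow_le_pow_right₀ hc1.le (by omega)
        have h5 := h1.add h3
        rwa [add_zero] at h5
      have h6 := hone.sub hmain
      rwa [zero_sub, neg_eq hq] at h6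

end basics

end Pool.Agent.R316.Ff
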