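import Pool.Agent.R316.QC

/-!
More leading forms for `q = 2`.
-/

set_option linter.unusedSectionVars false

open Polynomial Finset

namespace Pool.Agent.R316.Ff

section forms
variable {F : Type*} [Field F] [Fintype F] {K : Type*} [NormedField K] [IsUltrametricDist K]
  [Algebra F K] (hq : Fintype.card F = 2) {t : K} (ht : 1 < ‖t‖)

theorem dd_zero' (t : K) : dd 2 t 0 = 1 := by
  rw [dd_rec, if_pos rfl, sum_eq_zero, sub_zero]
  rintro ⟨a, b⟩ hab
  simp only [mem_filter, Finset.HasAntidiagonal.mem_antidiagonal] at hab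
  omega

theorem log_two_mul (R : ℕ) (hR : 0 < R) : Nat.log 2 (2 * R) = Nat.log 2 R + 1 := by
  rw [mul_comm, Nat.log_mul_base one_lt_two hR.ne']

theorem log_two_mul_add (R : ℕ) (hR : 0 < R) : Nat.log 2 (2 * R + 1) = Nat.log 2 R + 1 := by
  have h := Nat.pow_log_le_self 2 hR.ne'
  have h2 := Nat.lt_pow_succ_log_self one_lt_two R
  refine (Nat.log_eq_iff (Or.inl (Nat.succ_ne_zero _))).mpr ⟨?_, ?_⟩
  · rw [pow_succ]; omega
  · rw [pow_succ]; simp only [Nat.succ_eq_add_one] at h2; omega

include hq ht in
/-- `delta_s` modulo the maximal ideal. -/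
theorem dd_RD1 (s : ℕ) (hs : 0 < s) : RD (1 : K) 1 ⊤ (dd 2 t s)
    (X ^ (2 ^ Nat.log 2 s) * (1 + X) ^ (s - 2 ^ Nat.log 2 s) : F[X]) := by
  induction s using Nat.strong_induction_on with
  | _ s ih =>
    obtain ⟨R, rfl | rfl⟩ : ∃ R, s = 2 * R ∨ s = 2 * R + 1 := ⟨s / 2, by omega⟩
    · have hR : 0 < R := by omega
      rw [dd_even hq, log_two_mul R hR]
      have h1 := (ih R (by omega) hR).pow hq one_ne_zero 2
      rw [one_pow, mul_pow, ← pow_mul, ← pow_mul, ← pow_succ] at h1
      have h2 := Nat.pow_log_le_self 2 hR.ne'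
      rw [show 2 * R - 2 ^ (Nat.log 2 R + 1) = (R - 2 ^ Nat.log 2 R) * 2 by rw [pow_succ]; omega]
      exact h1
    · rw [dd_odd hq]
      rcases Nat.eq_zero_or_pos R with hR | hR
      · subst hR
        rw [if_pos rfl, zero_add, ← add_sum_erase _ _ (a := (1, 0)) (by
          rw [Finset.HasAntidiagonal.mem_antidiagonal]; simp only), sum_eq_zero]
        · simp only [lam_one ht, dd_zero', one_pow, mul_one, add_zero]
          have e : (1 - (1 - X) : K[X]) = X := by ring
          rw [e]
          have := RD.X (F := F) (a := (1 : K)) one_ne_zero (E := ⊤)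
          simpa using this
        · rintro ⟨a, b⟩ hab
          rw [mem_erase, Finset.HasAntidiagonal.mem_antidiagonal] at hab
          have ha : a = 0 := by
            by_contra hcon
            apply hab.1
            simp only at hab
            have h2 := hab.2
            ext <;> simp <;> omega
          subst ha
          simp only [lam_zero, zero_mul]
      · rw [if_neg hR.ne', zero_sub, log_two_mul_add R hR]
        have hmain : RD (1 : K) 1 ⊤ ((1 - X) * ∑ p ∈ antidiagonal (R + 1),
            lam 2 t p.1 * (dd 2 t p.2) ^ 2) (X ^ (2 ^ (Nat.log 2 R + 1)) *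
              (1 + X) ^ (2 * R + 1 - 2 ^ (Nat.log 2 R + 1)) : F[X]) := by
          rw [mul_sum, ← add_sum_erase _ _ (a := (1, R)) (by
            rw [Finset.HasAntidiagonal.mem_antidiagonal]; simp only; omega)]
          simp only [lam_one ht, one_mul]
          have h1 : RD (1 : K) 1 ⊤ ((1 - X) * dd 2 t R ^ 2) (X ^ (2 ^ (Nat.log 2 R + 1)) *
              (1 + X) ^ (2 * R + 1 - 2 ^ (Nat.log 2 R + 1)) : F[X]) := by
            have h2 := (oneX_RD1 hq ht).mul hq one_ne_zero (pow_ne_zero 2 one_ne_zero)
              ((ih R (by omega) hR).pow hq one_ne_zero 2)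
            rw [one_pow, one_mul, mul_pow, ← pow_mul, ← pow_mul, ← pow_succ] at h2
            have h3 := Nat.pow_log_le_self 2 hR.ne'
            rw [show 2 * R + 1 - 2 ^ (Nat.log 2 R + 1) = (R - 2 ^ Nat.log 2 R) * 2 + 1 by
              rw [pow_succ]; omega]
            rw [show (X ^ 2 ^ (Nat.log 2 R + 1) * (1 + X) ^ ((R - 2 ^ Nat.log 2 R) * 2 + 1) : F[X])
              = (1 + X) * (X ^ 2 ^ (Nat.log 2 R + 1) * (1 + X) ^ ((R - 2 ^ Nat.log 2 R) * 2)) by
                rw [pow_succ]; ring]
            exact h2
          have h3 : RD (1 : K) 1 ⊤ (∑ p ∈ (antidiagonal (R + 1)).erase (1, R),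
              (1 - X) * (lam 2 t p.1 * (dd 2 t p.2) ^ 2)) (0 : F[X]) := by
            have h0 := RD.sum (F := F) (u := (1 : K)) (a := 1) one_ne_zero (E := ⊤)
              ((antidiagonal (R + 1)).erase (1, R))
              (fun p => (1 - X) * (lam 2 t p.1 * (dd 2 t p.2) ^ 2)) (fun _ => (0 : F[X])) (by
              rintro ⟨a, b⟩ hab
              rw [mem_erase, Finset.HasAntidiagonal.mem_antidiagonal] at hab
              obtain ⟨hne, hsum⟩ := hab
              simp only at hsum ⊢
              rcases lam_cases (t := t) a with h0 | ⟨i, rfl⟩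
              · rw [h0, zero_mul, mul_zero]
                exact RD.zero one_ne_zero
              · rcases Nat.eq_zero_or_pos i with hi | hi
                · exfalso
                  subst hi
                  apply hne
                  ext <;> simp <;> omega
                · have hbb : BS (1 : K) 1 ⊤ (dd 2 t b) := by
                    rcases Nat.eq_zero_or_pos b with hb | hb
                    · subst hb; rw [dd_zero']; exact BS.one
                    · have h2i : 2 ≤ 2 ^ i := by
                        calc 2 = 2 ^ 1 := rfl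
                          _ ≤ 2 ^ i := Nat.pow_le_pow_right two_pos hi
                      have := (ih b (by omega) hb).bs hq
                      simpa using this
                  have h4 := ((oneX_RD1 hq ht).bs hq).mul (norm_nonneg _) (by positivity)
                    ((lam_BS1 hq ht i).mul (norm_nonneg _) (by positivity)
                      (hbb.pow zero_le_one 2))
                  refine RD.of_BS h4 ?_
                  rw [one_pow, mul_one, norm_one, one_mul]
                  exact ci_lt ht i hi)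
            simpa using h0
          have h5 := h1.add h3
          rwa [add_zero] at h5
        have h6 := hmain.neg
        rwa [neg_eq hq (X ^ (2 ^ (Nat.log 2 R + 1)) *
              (1 + X) ^ (2 * R + 1 - 2 ^ (Nat.log 2 R + 1)) : F[X])] at h6

include ht in
theorem X_pow_dvd_g (i : ℕ) : (X : K[X]) ^ (2 ^ i) ∣ g 2 t (i + 1) := by
  induction i with
  | zero => rw [zero_add, g_one one_lt_two ht, pow_zero, pow_one]
  | succ i ih =>
    rw [g, pow_succ, pow_mul]
    exact Dvd.dvd.mul_right (pow_dvd_pow_of_dvd ih 2) _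

include ht in
theorem X_pow_dvd_lam (i : ℕ) (hi : 0 < i) : (X : K[X]) ^ (2 ^ i) ∣ lam 2 t (2 ^ i) := by
  obtain ⟨j, rfl⟩ : ∃ j, i = j + 1 := ⟨i - 1, by omega⟩
  rw [lam_pow', pow_succ, pow_mul]
  exact Dvd.dvd.mul_left (pow_dvd_pow_of_dvd (X_pow_dvd_g ht j) 2) _

include hq ht in
/-- `delta_s` vanishes to order `> s/2` at `A = 0`. -/
theorem dd_ord (s : ℕ) (hs : 0 < s) : (X : K[X]) ^ (s / 2 + 1) ∣ dd 2 t s := by
  induction s using Nat.strong_induction_on with
  | _ s ih =>
    obtain ⟨R, rfl | rfl⟩ : ∃ R, s = 2 * R ∨ s = 2 * R + 1 := ⟨s / 2, by omega⟩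
    · have hR : 0 < R := by omega
      rw [dd_even hq]
      refine (pow_dvd_pow X (by omega : 2 * R / 2 + 1 ≤ (R / 2 + 1) * 2)).trans ?_
      rw [pow_mul]
      exact pow_dvd_pow_of_dvd (ih R (by omega) hR) 2
    · rw [show (2 * R + 1) / 2 + 1 = R + 1 by omega]
      rcases Nat.eq_zero_or_pos R with hR | hR
      · subst hR
        have h0 := dd_coeff0 one_lt_two ht 1 one_pos
        rw [zero_add, pow_one, X_dvd_iff]
        simpa using h0
      · rw [dd_odd hq, if_neg hR.ne', zero_sub, dvd_neg]
        refine Dvd.dvd.mul_left (dvd_sum ?_) _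
        rintro ⟨a, b⟩ hab
        rw [Finset.HasAntidiagonal.mem_antidiagonal] at hab
        simp only at hab ⊢
        rcases lam_cases (t := t) a with h0 | ⟨i, rfl⟩
        · rw [h0, zero_mul]; exact dvd_zero _
        · have hb2 : ∀ b, b < 2 * R + 1 → (X : K[X]) ^ (if b = 0 then 0 else b + 1) ∣ dd 2 t b ^ 2 := by
            intro b hb
            split_ifs with h0
            · rw [pow_zero]; exact one_dvd _
            · refine (pow_dvd_pow X (by omega : b + 1 ≤ (b / 2 + 1) * 2)).trans ?_
              rw [pow_mul]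
              exact pow_dvd_pow_of_dvd (ih b hb (by omega)) 2
          rcases Nat.eq_zero_or_pos i with hi | hi
          · subst hi
            rw [pow_zero] at hab ⊢
            rw [lam_one ht, one_mul]
            have h1 := hb2 b (by omega)
            rw [if_neg (by omega)] at h1
            have : b + 1 = R + 1 := by omega
            rwa [this] at h1
          · have h2i : 2 ≤ 2 ^ i := by
              calc 2 = 2 ^ 1 := rfl
                _ ≤ 2 ^ i := Nat.pow_le_pow_right two_pos hi
            refine (pow_dvd_pow X (?_ : R + 1 ≤ 2 ^ i + (if b = 0 then 0 else b + 1))).trans ?_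
            · split_ifs <;> omega
            · rw [pow_add]
              exact mul_dvd_mul (X_pow_dvd_lam ht i hi) (hb2 b (by omega))

include hq ht in
theorem hh_BSc (n : ℕ) : BS (br 2 t 1) (‖br 2 t 1‖ ^ (n / 2)) ⊤ (hh 2 t n) := by
  set c := br 2 t 1 with hc
  have hc1 := c_gt ht
  rw [← hc] at hc1
  induction n using Nat.strong_induction_on with
  | _ n ih =>
    obtain ⟨b, rfl | rfl⟩ : ∃ b, n = 2 * b ∨ n = 2 * b + 1 := ⟨n / 2, by omega⟩
    · rw [show 2 * b / 2 = b by omega, hh_even hq]
      refine BS.add ?_ ?_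
      · split_ifs with hb
        · subst hb; simpa using BS.one
        · exact BS.zero (by positivity)
      · rw [mul_sum]
        refine BS.sum (by positivity) _ _ ?_
        rintro ⟨a, e⟩ hab
        rw [Finset.HasAntidiagonal.mem_antidiagonal] at hab
        simp only at hab ⊢
        rcases lam_cases (t := t) a with h0 | ⟨i, rfl⟩
        · rw [h0, zero_mul, mul_zero]; exact BS.zero (by positivity)
        · have hpos : 0 < 2 ^ i := Nat.two_pow_pos i
          have h1 := (ih e (by omega)).pow (by positivity) 2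
          rw [← pow_mul] at h1
          rcases Nat.eq_zero_or_pos i with hi | hi
          · subst hi
            rw [pow_zero] at hab ⊢
            rw [lam_one ht, one_mul]
            have h2 := ((oneX_RDc hq ht).bs hq).mul (norm_nonneg _) (by positivity) h1
            refine h2.mono ?_
            rw [← hc, ← pow_succ']
            exact pow_le_pow_right₀ hc1.le (by omega)
          · have h2i : 2 ≤ 2 ^ i := by
              calc 2 = 2 ^ 1 := rfl
                _ ≤ 2 ^ i := Nat.pow_le_pow_right two_pos hi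
            have h2 := ((oneX_RDc hq ht).bs hq).mul (norm_nonneg _) (by positivity)
              ((lam_BS ht i hi).mul (norm_nonneg _) (by positivity) h1)
            refine h2.mono ?_
            rw [← hc, ← pow_succ', ← pow_succ']
            exact pow_le_pow_right₀ hc1.le (by omega)
    · rw [show (2 * b + 1) / 2 = b by omega, hh_odd hq]
      have h1 := (ih b (by omega)).pow (by positivity) 2
      rw [← pow_mul] at h1
      exact h1.mono (pow_le_pow_right₀ hc1.le (by omega))

include hq ht in
/-- the second coefficient -/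
theorem lam2_RDc : RD (br 2 t 1) (br 2 t 1 ^ 2) ⊤ ((1 - X) * lam 2 t 2) (X ^ 3 : F[X]) := by
  have hc0 := c_ne ht
  have h1 : RD (br 2 t 1) (br 2 t 1)⁻¹ ⊤ (C (ci t 1)) (1 : F[X]) := by
    refine RD.C ?_
    have := ci_approx hq ht 1
    rw [pow_one] at this
    have e : br 2 t 1 / br 2 t 1 ^ 2 = (br 2 t 1)⁻¹ := by field_simp
    rwa [e] at this
  have h2 := (oneX_RDc hq ht).mul hq hc0 (mul_ne_zero (inv_ne_zero hc0) (pow_ne_zero 2 hc0))
    (h1.mul hq (inv_ne_zero hc0) (pow_ne_zero 2 hc0) ((RD.X (F := F) hc0).pow hq hc0 2))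
  rw [lam_two ht]
  have e1 : br 2 t 1 * ((br 2 t 1)⁻¹ * br 2 t 1 ^ 2) = br 2 t 1 ^ 2 := by field_simp
  rw [e1, one_mul, ← pow_succ'] at h2
  exact h2

theorem log_aux1 (k : ℕ) : 2 * (2 * k + 1) + 1 - 2 ^ Nat.log 2 (2 * k + 1 + 1)
    = 1 + (2 * k + 1 - 2 ^ Nat.log 2 (k + 1)) * 2 := by
  have h1 : Nat.log 2 (2 * k + 1 + 1) = Nat.log 2 (k + 1) + 1 := by
    rw [show 2 * k + 1 + 1 = 2 * (k + 1) by ring, log_two_mul _ (Nat.succ_pos k)]
  have h2 := Nat.pow_log_le_self 2 (Nat.succ_ne_zero k)
  simp only [Nat.succ_eq_add_one] at h2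
  rw [h1, pow_succ]
  omega

theorem log_aux2 (k : ℕ) : 2 * (2 * k + 2) + 1 - 2 ^ Nat.log 2 (2 * k + 2 + 1)
    = 3 + (2 * k + 1 - 2 ^ Nat.log 2 (k + 1)) * 2 := by
  have h1 : Nat.log 2 (2 * k + 2 + 1) = Nat.log 2 (k + 1) + 1 := by
    rw [show 2 * k + 2 + 1 = 2 * (k + 1) + 1 by ring, log_two_mul_add _ (Nat.succ_pos k)]
  have h2 := Nat.pow_log_le_self 2 (Nat.succ_ne_zero k)
  simp only [Nat.succ_eq_add_one] at h2
  rw [h1, pow_succ]
  omega

include hq ht in
/-- the leading form of `h_{2b}` at the scale `c` is a monomial. -/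
theorem hh_RDc (b : ℕ) : RD (br 2 t 1) (br 2 t 1 ^ b) ⊤ (hh 2 t (2 * b))
    (X ^ (2 * b + 1 - 2 ^ Nat.log 2 (b + 1)) : F[X]) := by
  set c := br 2 t 1 with hc
  have hc1 := c_gt ht
  rw [← hc] at hc1
  have hc0 : c ≠ 0 := c_ne ht
  induction b using Nat.strong_induction_on with
  | _ b ih =>
    rcases Nat.eq_zero_or_pos b with hb | hb
    · subst hb
      have h0 : hh 2 t (2 * 0) = 1 := by
        rw [hh_even hq, if_pos rfl]
        have : (∑ p ∈ antidiagonal 0, lam 2 t p.1 * (hh 2 t p.2) ^ 2) = 0 := by
          simp [lam_zero]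
        rw [this]; ring
      rw [h0]
      simpa using RD.one
    · rw [hh_even hq, if_neg hb.ne', zero_add, mul_sum]
      -- small terms
      have hsmall : ∀ a e, a + e = b → ∀ i, a = 2 ^ i → 2 ≤ i →
          RD c (c ^ b) ⊤ ((1 - X) * (lam 2 t a * (hh 2 t e) ^ 2)) (0 : F[X]) := by
        rintro a e hab i rfl hi
        have h4i : 4 ≤ 2 ^ i := by
          calc 4 = 2 ^ 2 := rfl
            _ ≤ 2 ^ i := Nat.pow_le_pow_right two_pos hi
        have h1 := (hh_BSc hq ht e).pow (by positivity) 2
        rw [← pow_mul] at h1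
        have h2 := ((oneX_RDc hq ht).bs hq).mul (norm_nonneg _) (by positivity)
          ((lam_BS ht i (by omega)).mul (norm_nonneg _) (by positivity) h1)
        refine RD.of_BS h2 ?_
        rw [← hc, ← pow_succ', ← pow_succ', norm_pow]
        exact pow_lt_pow_right₀ hc1 (by omega)
      obtain ⟨k, rfl | rfl⟩ : ∃ k, b = 2 * k + 1 ∨ b = 2 * k + 2 := ⟨(b - 1) / 2, by omega⟩
      · -- odd: the main term is (1, 2k)
        rw [log_aux1, ← add_sum_erase _ _ (a := (1, 2 * k)) (by
          rw [Finset.HasAntidiagonal.mem_antidiagonal]; simp only; omega)]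
        simp only [lam_one ht, one_mul]
        have h1 : RD c (c ^ (2 * k + 1)) ⊤ ((1 - X) * hh 2 t (2 * k) ^ 2)
            (X ^ (1 + (2 * k + 1 - 2 ^ Nat.log 2 (k + 1)) * 2) : F[X]) := by
          have h2 := (oneX_RDc hq ht).mul hq hc0 (pow_ne_zero 2 (pow_ne_zero k hc0))
            ((ih k (by omega)).pow hq (pow_ne_zero _ hc0) 2)
          rw [← hc, ← pow_mul, ← pow_mul, ← pow_succ', ← pow_succ', mul_comm k 2] at h2
          rw [add_comm 1]
          exact h2
        have h3 := RD.sum (F := F) (u := c ^ (2 * k + 1)) (a := c) (pow_ne_zero _ hc0) (E := ⊤)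
          ((antidiagonal (2 * k + 1)).erase (1, 2 * k))
          (fun p => (1 - X) * (lam 2 t p.1 * (hh 2 t p.2) ^ 2)) (fun _ => (0 : F[X])) (by
          rintro ⟨a, e⟩ hab
          rw [mem_erase, Finset.HasAntidiagonal.mem_antidiagonal] at hab
          obtain ⟨hne, hsum⟩ := hab
          simp only at hsum ⊢
          rcases lam_cases (t := t) a with h0 | ⟨i, hi⟩
          · rw [h0, zero_mul, mul_zero]
            exact RD.zero (pow_ne_zero _ hc0)
          · rcases (by omega : i = 0 ∨ i = 1 ∨ 2 ≤ i) with h | h | h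
            · exfalso
              subst h
              rw [pow_zero] at hi
              apply hne
              ext <;> simp <;> omega
            · subst h
              have ha : a = 2 := by simpa using hi
              -- e is odd
              have h5 := (hh_BSc hq ht e).pow (by positivity) 2
              rw [← pow_mul] at h5
              have h6 := ((lam2_RDc hq ht).bs hq).mul (norm_nonneg _) (by positivity) h5
              rw [← mul_assoc, ha]
              refine RD.of_BS h6 ?_
              rw [← hc, norm_pow, norm_pow, ← pow_add]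
              exact pow_lt_pow_right₀ hc1 (by omega)
            · exact hsmall a e hsum i hi h)
        have h5 := h1.add h3
        simpa using h5
      · rw [log_aux2, ← add_sum_erase _ _ (a := (2, 2 * k)) (by
          rw [Finset.HasAntidiagonal.mem_antidiagonal]; simp only; omega)]
        simp only
        have h1 : RD c (c ^ (2 * k + 2)) ⊤ ((1 - X) * (lam 2 t 2 * hh 2 t (2 * k) ^ 2))
            (X ^ (3 + (2 * k + 1 - 2 ^ Nat.log 2 (k + 1)) * 2) : F[X]) := by
          have h2 := (lam2_RDc hq ht).mul hq (pow_ne_zero 2 hc0) (pow_ne_zero 2 (pow_ne_zero k hc0))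
            ((ih k (by omega)).pow hq (pow_ne_zero _ hc0) 2)
          rw [← hc, ← pow_mul, ← pow_mul, ← pow_add, ← pow_add, mul_comm k 2, add_comm 2 (2 * k)]
            at h2
          rw [← mul_assoc]
          exact h2
        have h3 := RD.sum (F := F) (u := c ^ (2 * k + 2)) (a := c) (pow_ne_zero _ hc0) (E := ⊤)
          ((antidiagonal (2 * k + 2)).erase (2, 2 * k))
          (fun p => (1 - X) * (lam 2 t p.1 * (hh 2 t p.2) ^ 2)) (fun _ => (0 : F[X])) (by
          rintro ⟨a, e⟩ hab
          rw [mem_erase, Finset.HasAntidiagonal.mem_antidiagonal] at hab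
          obtain ⟨hne, hsum⟩ := hab
          simp only at hsum ⊢
          rcases lam_cases (t := t) a with h0 | ⟨i, hi⟩
          · rw [h0, zero_mul, mul_zero]
            exact RD.zero (pow_ne_zero _ hc0)
          · rcases (by omega : i = 0 ∨ i = 1 ∨ 2 ≤ i) with h | h | h
            · subst h
              have ha : a = 1 := by simpa using hi
              have h5 := (hh_BSc hq ht e).pow (by positivity) 2
              rw [← pow_mul] at h5
              have h6 := ((oneX_RDc hq ht).bs hq).mul (norm_nonneg _) (by positivity) h5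
              rw [ha, lam_one ht, one_mul]
              refine RD.of_BS h6 ?_
              rw [← hc, norm_pow, ← pow_succ']
              exact pow_lt_pow_right₀ hc1 (by omega)
            · exfalso
              subst h
              rw [pow_one] at hi
              apply hne
              ext <;> simp <;> omega
            · exact hsmall a e hsum i hi h)
        have h5 := h1.add h3
        simpa using h5

include hq in
theorem hh_twist (v b : ℕ) : hh 2 t (2 ^ v * (2 * b + 1) - 1) = hh 2 t (2 * b) ^ (2 ^ v) := by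
  induction v with
  | zero => simp
  | succ v ih =>
    have hpos : 0 < 2 ^ v * (2 * b + 1) := Nat.mul_pos (Nat.two_pow_pos v) (Nat.succ_pos _)
    have e : 2 ^ (v + 1) * (2 * b + 1) - 1 = 2 * (2 ^ v * (2 * b + 1) - 1) + 1 := by
      rw [pow_succ]
      have : 2 ^ v * 2 * (2 * b + 1) = 2 * (2 ^ v * (2 * b + 1)) := by ring
      rw [this]
      omega
    rw [e, hh_odd hq, ih, ← pow_mul, ← pow_succ]

include hq ht in
theorem hh_RDc' (v b : ℕ) : RD (br 2 t 1) (br 2 t 1 ^ (2 ^ v * b)) ⊤
    (hh 2 t (2 ^ v * (2 * b + 1) - 1))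
    (X ^ (2 ^ v * (2 * b + 1 - 2 ^ Nat.log 2 (b + 1))) : F[X]) := by
  rw [hh_twist hq]
  have h := (hh_RDc hq ht b).pow hq (pow_ne_zero _ (c_ne ht)) (2 ^ v)
  rwa [← pow_mul, ← pow_mul, mul_comm b, mul_comm _ (2 ^ v)] at h

end forms

end Pool.Agent.R316.Ff
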