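import Pool.Agent.R316.QD

/-!
A polynomial identity over a field with two elements.
-/

set_option linter.unusedSectionVars false

open Polynomial Finset

namespace Pool.Agent.R316.Ff

section th
variable {F : Type*} [Field F] [Fintype F] (hq : Fintype.card F = 2)

/-- `theta'_m`. -/
noncomputable def th (F : Type*) [Field F] (m : ℕ) : F[X] :=
  if m = 0 then 1 else X ^ (2 ^ (Nat.log 2 m + 1)) * (1 + X) ^ (2 * m - 2 ^ (Nat.log 2 m + 1))

theorem th_zero : th F 0 = 1 := by simp [th]

theorem th_one : th F 1 = X ^ 2 := by simp [th]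

theorem th_even (m : ℕ) : th F (2 * m) = th F m ^ 2 := by
  rcases Nat.eq_zero_or_pos m with hm | hm
  · subst hm; simp [th]
  · rw [th, if_neg (by omega), th, if_neg hm.ne', log_two_mul m hm, mul_pow, ← pow_mul, ← pow_mul,
      ← pow_succ]
    congr 2
    rw [pow_succ _ (Nat.log 2 m + 1)]
    omega

theorem th_odd (m : ℕ) (hm : 0 < m) : th F (2 * m + 1) = (1 + X) ^ 2 * th F m ^ 2 := by
  have h := Nat.pow_log_le_self 2 hm.ne'
  rw [th, if_neg (by omega), th, if_neg hm.ne', log_two_mul_add m hm, mul_pow, ← pow_mul, ← pow_mul,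
    ← pow_succ]
  have e : 2 * (2 * m + 1) - 2 ^ (Nat.log 2 m + 1 + 1) = 2 + (2 * m - 2 ^ (Nat.log 2 m + 1)) * 2 := by
    rw [pow_succ _ (Nat.log 2 m + 1), pow_succ _ (Nat.log 2 m)]
    omega
  rw [e, pow_add (1 + X : F[X]) 2]
  ring

include hq in
theorem two_zero' : (2 : F[X]) = 0 := two_zero (F := F) hq

include hq in
theorem onePlus_pow (n : ℕ) : (1 + X : F[X]) ^ (2 ^ n) = 1 + X ^ (2 ^ n) := by
  rw [frob_pow_add (F := F) hq, one_pow]

include hq in
/-- relation between `th B` and `th (B-1)`. -/
theorem th_pred (B : ℕ) (hB : 2 ≤ B) :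
    th F B = (1 + X) ^ 2 * th F (B - 1) + (if 2 ^ Nat.log 2 B = B then X ^ B else 0) := by
  have h1 := Nat.pow_log_le_self 2 (show B ≠ 0 by omega)
  have h2 := Nat.lt_pow_succ_log_self one_lt_two B
  simp only [Nat.succ_eq_add_one] at h2
  split_ifs with h
  · -- power of two
    set f := Nat.log 2 B with hf
    have hf1 : 1 ≤ f := by
      by_contra hcon
      have : f = 0 := by omega
      rw [this] at h
      simp at h
      omega
    obtain ⟨e, he⟩ : ∃ e, f = e + 1 := ⟨f - 1, by omega⟩
    have hlog : Nat.log 2 (B - 1) = e := by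
      refine (Nat.log_eq_iff (Or.inr ⟨one_lt_two, by omega⟩)).mpr ⟨?_, ?_⟩
      · rw [← h, he, pow_succ]
        have := Nat.two_pow_pos e
        omega
      · rw [← h, he]
        have := Nat.two_pow_pos (e + 1)
        omega
    rw [th, if_neg (by omega), th, if_neg (by omega), hlog, ← hf, ← he, h, pow_succ 2 f, h]
    have e1 : 2 * B - B * 2 = 0 := by omega
    have e2 : 2 * (B - 1) - B = B - 2 := by omega
    rw [e1, e2, pow_zero, mul_one]
    have e3 : (1 + X : F[X]) ^ 2 * (X ^ B * (1 + X) ^ (B - 2)) = X ^ B * (1 + X) ^ B := by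
      have : (1 + X : F[X]) ^ B = (1 + X) ^ 2 * (1 + X) ^ (B - 2) := by
        rw [← pow_add]; congr 1; omega
      rw [this]; ring
    rw [e3]
    have e4 : (1 + X : F[X]) ^ B = 1 + X ^ B := by
      conv_lhs => rw [← h]
      rw [onePlus_pow hq, h]
    rw [e4]
    have h5 := two_zero' hq
    rw [pow_mul]
    linear_combination (-(X ^ B)) * h5
  · have hlog : Nat.log 2 (B - 1) = Nat.log 2 B := by
      refine (Nat.log_eq_iff (Or.inr ⟨one_lt_two, by omega⟩)).mpr ⟨?_, ?_⟩
      · omega
      · omega
    rw [th, if_neg (by omega), th, if_neg (by omega), hlog, add_zero]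
    have h3 : 2 ^ (Nat.log 2 B + 1) ≤ 2 * (B - 1) := by
      rw [pow_succ]; omega
    have e2 : 2 * B - 2 ^ (Nat.log 2 B + 1) = 2 + (2 * (B - 1) - 2 ^ (Nat.log 2 B + 1)) := by omega
    rw [e2, pow_add]
    ring

/-- the sum `sum_j X^(2^j) th(B - 2^j)`. -/
noncomputable def thS (F : Type*) [Field F] (N B : ℕ) : F[X] :=
  ∑ j ∈ range N, if 2 ^ j ≤ B then X ^ (2 ^ j) * th F (B - 2 ^ j) else 0

theorem thS_one (N : ℕ) : thS F (N + 1) 1 = X := by
  rw [thS, sum_range_succ']
  rw [sum_eq_zero]
  · simp [th]
  · intro i _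
    rw [if_neg]
    have := Nat.two_pow_pos i
    rw [pow_succ]
    omega

include hq in
/-- the key identity. -/
theorem thS_eq (N : ℕ) : ∀ B, 2 ≤ B → B < 2 ^ N → thS F N B = (1 + X) * th F (B - 1) := by
  have h5 := two_zero' (F := F) hq
  induction N with
  | zero => intro B h1 h2; simp at h2; omega
  | succ N ih =>
    intro B hB hBN
    rw [thS, sum_range_succ']
    simp only [pow_zero, pow_one]
    rw [if_pos (by omega)]
    -- reduce to B'
    obtain ⟨B', hB'⟩ : ∃ B', B = 2 * B' ∨ B = 2 * B' + 1 := ⟨B / 2, by omega⟩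
    have hB'1 : 1 ≤ B' := by omega
    have hB'N : B' < 2 ^ N := by rw [pow_succ] at hBN; omega
    have hN : 1 ≤ N := by
      by_contra hcon
      have : N = 0 := by omega
      subst this
      simp at hB'N
      omega
    obtain ⟨N', rfl⟩ : ∃ N', N = N' + 1 := ⟨N - 1, by omega⟩
    have hSB' : thS F (N' + 1) B' = if B' = 1 then X else (1 + X) * th F (B' - 1) := by
      split_ifs with h
      · subst h; exact thS_one N'
      · exact ih B' (by omega) hB'N
    have hsq : (thS F (N' + 1) B') ^ 2
        = ∑ j ∈ range (N' + 1), if 2 ^ j ≤ B' then (X ^ (2 ^ j) * th F (B' - 2 ^ j)) ^ 2 else 0 := by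
      rw [thS, frob_sum (F := F) hq]
      refine sum_congr rfl fun j _ => ?_
      split_ifs
      · rfl
      · simp
    rcases hB' with rfl | rfl
    · have e1 : (∑ i ∈ range (N' + 1), if 2 ^ (i + 1) ≤ 2 * B' then
          X ^ (2 ^ (i + 1)) * th F (2 * B' - 2 ^ (i + 1)) else 0) = (thS F (N' + 1) B') ^ 2 := by
        rw [hsq]
        refine sum_congr rfl fun i _ => ?_
        by_cases h : 2 ^ i ≤ B'
        · rw [if_pos (by rw [pow_succ]; omega), if_pos h,
            show 2 * B' - 2 ^ (i + 1) = 2 * (B' - 2 ^ i) by rw [pow_succ]; omega, th_even, mul_pow,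
            ← pow_mul, ← pow_succ]
        · rw [if_neg (by rw [pow_succ]; omega), if_neg h]
      rw [e1, hSB']
      split_ifs with h
      · subst h
        simp only [mul_one, Nat.add_one_sub_one, th_one]
        ring
      · rw [show 2 * B' - 1 = 2 * (B' - 1) + 1 by omega, th_odd (B' - 1) (by omega)]
        ring
    · have e1 : (∑ i ∈ range (N' + 1), if 2 ^ (i + 1) ≤ 2 * B' + 1 then
          X ^ (2 ^ (i + 1)) * th F (2 * B' + 1 - 2 ^ (i + 1)) else 0)
          = (1 + X) ^ 2 * (thS F (N' + 1) B') ^ 2 + (if 2 ^ Nat.log 2 B' = B' then X ^ (2 * B') else 0) := by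
        rw [hsq, mul_sum]
        by_cases hpow : 2 ^ Nat.log 2 B' = B'
        · rw [if_pos hpow]
          have hmem : Nat.log 2 B' ∈ range (N' + 1) := by
            rw [mem_range]
            by_contra hcon
            push Not at hcon
            have := Nat.pow_le_pow_right two_pos hcon
            rw [hpow] at this
            omega
          rw [← add_sum_erase _ _ hmem, ← add_sum_erase (range (N' + 1))
            (fun j => (1 + X : F[X]) ^ 2 * (if 2 ^ j ≤ B' then (X ^ (2 ^ j) * th F (B' - 2 ^ j)) ^ 2 else 0)) hmem]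
          have e2 : (∑ i ∈ (range (N' + 1)).erase (Nat.log 2 B'), if 2 ^ (i + 1) ≤ 2 * B' + 1 then
              X ^ (2 ^ (i + 1)) * th F (2 * B' + 1 - 2 ^ (i + 1)) else 0)
              = ∑ j ∈ (range (N' + 1)).erase (Nat.log 2 B'),
                (1 + X : F[X]) ^ 2 * (if 2 ^ j ≤ B' then (X ^ (2 ^ j) * th F (B' - 2 ^ j)) ^ 2 else 0) := by
            refine sum_congr rfl fun i hi => ?_
            rw [mem_erase] at hi
            by_cases h : 2 ^ i ≤ B'
            · have hne : 2 ^ i ≠ B' := by
                rintro h6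
                apply hi.1
                rw [← h6, Nat.log_pow one_lt_two]
              rw [if_pos (by rw [pow_succ]; omega), if_pos h,
                show 2 * B' + 1 - 2 ^ (i + 1) = 2 * (B' - 2 ^ i) + 1 by rw [pow_succ]; omega,
                th_odd _ (by omega), mul_pow, ← pow_mul, ← pow_succ]
              ring
            · rw [if_neg (by rw [pow_succ]; omega), if_neg h, mul_zero]
          rw [e2, pow_succ, hpow, if_pos (by omega), if_pos le_rfl, Nat.sub_self,
            show 2 * B' + 1 - B' * 2 = 1 by omega, th_one, th_zero, pow_mul, pow_mul X 2 B',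
            mul_one]
          have e3 : (X ^ B' : F[X]) ^ 2 = (X ^ 2) ^ B' := by rw [← pow_mul, ← pow_mul, mul_comm]
          rw [e3]
          linear_combination (-((X ^ 2) ^ B' * (1 + X))) * h5
        · rw [if_neg hpow, add_zero]
          refine sum_congr rfl fun i hi => ?_
          by_cases h : 2 ^ i ≤ B'
          · have hne : 2 ^ i ≠ B' := by
              rintro h6
              apply hpow
              rw [← h6, Nat.log_pow one_lt_two]
            rw [if_pos (by rw [pow_succ]; omega), if_pos h,
              show 2 * B' + 1 - 2 ^ (i + 1) = 2 * (B' - 2 ^ i) + 1 by rw [pow_succ]; omega,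
              th_odd _ (by omega), mul_pow, ← pow_mul, ← pow_succ]
            ring
          · rw [if_neg (by rw [pow_succ]; omega), if_neg h, mul_zero]
      rw [e1, hSB', Nat.add_sub_cancel, th_even]
      split_ifs with h h'
      · subst h
        rw [th_one]
        linear_combination (X ^ 2 + X ^ 3) * h5
      · exfalso
        subst h
        exact h' (by simp)
      · have h6 := th_pred hq B' (by omega)
        rw [if_pos (by assumption)] at h6
        rw [h6, pow_mul X 2 B', ← pow_mul X 2 B', mul_comm 2 B', pow_mul X B' 2]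
        linear_combination (-((1 + X) ^ 2 * th F (B' - 1) * X ^ B')) * h5
      · have h6 := th_pred hq B' (by omega)
        rw [if_neg (by assumption)] at h6
        rw [h6]
        ring

end th

end Pool.Agent.R316.Ff
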