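import Pool.Agent.R316.QE

/-!
The low coefficients of `delta_s`.
-/

set_option linter.unusedSectionVars false

open Polynomial Finset

namespace Pool.Agent.R316.Ff

section low
variable {F : Type*} [Field F] [Fintype F] {K : Type*} [NormedField K] [IsUltrametricDist K]
  [Algebra F K] (hq : Fintype.card F = 2) {t : K} (ht : 1 < ‖t‖)

theorem RD.restrict {a u : K} {E E' : ℕ∞} (h : E ≤ E') {p : K[X]} {p0 : F[X]}
    (hp : RD a u E' p p0) : RD a u E p p0 := fun i hi => hp i (lt_of_lt_of_le hi h)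

theorem BS.restrict {a : K} {M : ℝ} {E E' : ℕ∞} (h : E ≤ E') {p : K[X]}
    (hp : BS a M E' p) : BS a M E p := fun i hi => hp i (lt_of_lt_of_le hi h)

theorem lam_sum {R : Type*} [Field R] {t : R} (n N : ℕ) (h : n < 2 ^ N) (G : ℕ → R[X]) :
    ∑ p ∈ antidiagonal n, lam 2 t p.1 * G p.2
      = ∑ i ∈ range N, if 2 ^ i ≤ n then lam 2 t (2 ^ i) * G (n - 2 ^ i) else 0 := by
  classical
  rw [Finset.Nat.sum_antidiagonal_eq_sum_range_succ (fun a b => lam 2 t a * G b), ← sum_filter]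
  have h1 : ∑ i ∈ (range N).filter (fun i => 2 ^ i ≤ n), lam 2 t (2 ^ i) * G (n - 2 ^ i)
      = ∑ a ∈ ((range N).filter (fun i => 2 ^ i ≤ n)).image (fun i => 2 ^ i),
        lam 2 t a * G (n - a) := by
    rw [sum_image]
    intro i _ j _ hij
    exact Nat.pow_right_injective le_rfl hij
  rw [h1]
  symm
  refine sum_subset ?_ ?_
  · intro a ha
    rw [mem_image] at ha
    obtain ⟨i, hi, rfl⟩ := ha
    rw [mem_filter] at hi
    rw [mem_range]
    omega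
  · intro a ha hna
    rcases lam_cases (t := t) a with h0 | ⟨i, rfl⟩
    · rw [h0, zero_mul]
    · exfalso
      apply hna
      rw [mem_image]
      refine ⟨i, ?_, rfl⟩
      rw [mem_range] at ha
      rw [mem_filter, mem_range]
      refine ⟨?_, by omega⟩
      by_contra hcon
      push Not at hcon
      have := Nat.pow_le_pow_right two_pos hcon
      omega

include hq in
theorem dd_one' (ht : 1 < ‖t‖) : dd 2 t 1 = X := by
  have h := dd_odd (t := t) hq 0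
  rw [mul_zero, zero_add, if_pos rfl, lam_sum 1 1 (by norm_num) (fun b => dd 2 t b ^ 2)] at h
  simp only [range_one, sum_singleton, pow_zero, le_refl, if_true, Nat.sub_self, lam_one ht,
    dd_zero', one_pow, mul_one] at h
  rw [h]; ring

include hq ht in
theorem dd_two_pow (k : ℕ) : dd 2 t (2 ^ k) = X ^ (2 ^ k) := by
  induction k with
  | zero => rw [pow_zero, pow_one, dd_one' hq ht]
  | succ k ih => rw [pow_succ, mul_comm, dd_even hq, ih, ← pow_mul, mul_comm]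

include hq ht in
theorem lam_RD1 (i : ℕ) (hi : 0 < i) : RD (1 : K) (br 2 t 1 / br 2 t 1 ^ (2 ^ i)) ⊤
    (lam 2 t (2 ^ i)) (X ^ (2 ^ i) : F[X]) := by
  obtain ⟨j, rfl⟩ : ∃ j, i = j + 1 := ⟨i - 1, by omega⟩
  rw [lam_pow']
  have hc0 := c_ne ht
  have h1 : RD (1 : K) (br 2 t 1 / br 2 t 1 ^ (2 ^ (j + 1))) ⊤ (C (ci t (j + 1))) (1 : F[X]) :=
    RD.C (ci_approx hq ht (j + 1))
  have h2 := h1.mul hq (div_ne_zero hc0 (pow_ne_zero _ hc0)) (pow_ne_zero 2 one_ne_zero)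
    ((g_RD1 hq ht j).pow hq one_ne_zero 2)
  rw [one_pow, mul_one, one_mul, ← pow_mul, ← pow_succ] at h2
  exact h2

theorem two_mul_pow (n : ℕ) (hn : 1 ≤ n) : (2 : ℕ∞) * ((2 ^ (n - 1) : ℕ) : ℕ∞) = ((2 ^ n : ℕ) : ℕ∞) := by
  obtain ⟨k, rfl⟩ : ∃ k, n = k + 1 := ⟨n - 1, by omega⟩
  rw [Nat.add_sub_cancel, pow_succ']
  push_cast
  rfl

/-- the reduced term -/
noncomputable def f0 (F : Type*) [Field F] (Y : F[X]) (m i : ℕ) : F[X] :=
  if 2 ^ i < m then (if (m - 2 ^ i) % 2 = 1 then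
    (if i = 0 then 1 else X ^ (2 ^ i)) * (Y * th F ((m - 2 ^ i + 1) / 2) ^ 2) else 0)
  else if 2 ^ i = m + 1 then X ^ (2 ^ i) * Y else 0

theorem f0_sum_even (Y : F[X]) (N k : ℕ) (hk : 0 < k) :
    ∑ i ∈ range (N + 1), f0 F Y (2 * k) i = Y * th F (2 * k) := by
  rw [sum_range_succ', sum_eq_zero, zero_add, f0, pow_zero, if_pos (by omega), if_pos (by omega),
    if_pos rfl, one_mul, show (2 * k - 1 + 1) / 2 = k by omega, th_even]
  intro i _
  rw [f0, pow_succ]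
  split_ifs <;> first | rfl | (exfalso; omega)

include hq in
theorem f0_sum_odd (Y : F[X]) (N k : ℕ) (hk : k + 1 < 2 ^ (N + 1)) :
    ∑ i ∈ range (N + 1 + 1), f0 F Y (2 * k + 1) i = Y * th F (2 * k + 1) := by
  have h1 : ∑ i ∈ range (N + 1 + 1), f0 F Y (2 * k + 1) i = Y * (thS F (N + 1) (k + 1)) ^ 2 := by
    rw [sum_range_succ', thS, frob_sum (F := F) hq, mul_sum]
    have h0 : f0 F Y (2 * k + 1) 0 = 0 := by
      rw [f0, pow_zero]
      split_ifs <;> first | rfl | (exfalso; omega)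
    rw [h0, add_zero]
    refine sum_congr rfl fun i _ => ?_
    have hpos := Nat.two_pow_pos i
    rw [f0]
    by_cases h2 : 2 ^ i ≤ k
    · rw [if_pos (by rw [pow_succ]; omega), if_pos (by rw [pow_succ]; omega), if_neg (Nat.succ_ne_zero i),
        if_pos (by omega), show (2 * k + 1 - 2 ^ (i + 1) + 1) / 2 = k + 1 - 2 ^ i by
          rw [pow_succ]; omega, pow_succ, pow_mul]
      ring
    · rw [if_neg (by rw [pow_succ]; omega)]
      by_cases h3 : 2 ^ i = k + 1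
      · rw [if_pos (by rw [pow_succ]; omega), if_pos (by omega), h3, Nat.sub_self, th_zero, mul_one,
          ← pow_mul, pow_succ, h3, mul_comm]
      · rw [if_neg (by rw [pow_succ]; omega), if_neg (by omega)]
        simp
  rw [h1]
  rcases Nat.eq_zero_or_pos k with hk0 | hk0
  · subst hk0
    rw [zero_add, thS_one, mul_zero, zero_add, th_one]
  · rw [thS_eq hq (N + 1) (k + 1) (by omega) hk, Nat.add_sub_cancel, th_odd k hk0]
    ring

include hq ht in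
theorem lemD_step (n : ℕ) (hn : 2 ≤ n)
    (IH1 : ∀ m, 1 ≤ m → 2 * m ≤ 2 ^ (n - 1) → RD (1 : K) ((br 2 t 1 ^ m)⁻¹) ((2 ^ (n - 1) : ℕ) : ℕ∞)
      (dd 2 t (2 ^ (n - 1) + 2 * m - 1))
      (X ^ (2 ^ (n - 2)) * (1 + X) ^ (2 ^ (n - 2) - 1) * th F m : F[X]))
    (IH2 : ∀ e, 1 ≤ e → e < 2 ^ (n - 1) → BS (1 : K) ((‖br 2 t 1‖⁻¹) ^ ((e + 2) / 2))
      ((2 ^ (n - 1) : ℕ) : ℕ∞) (dd 2 t (2 ^ (n - 1) + e)))
    (m : ℕ) (hm : 1 ≤ m) (hmn : 2 * m ≤ 2 ^ n) :
    RD (1 : K) ((br 2 t 1 ^ m)⁻¹) ((2 ^ n : ℕ) : ℕ∞) (dd 2 t (2 ^ n + 2 * m - 1))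
      (X ^ (2 ^ (n - 1)) * (1 + X) ^ (2 ^ (n - 1) - 1) * th F m : F[X]) := by
  set c := br 2 t 1 with hc
  have hc1 := c_gt ht
  rw [← hc] at hc1
  have hc0 : c ≠ 0 := c_ne ht
  have hcpos : 0 < ‖c‖ := by linarith
  have hu : (c ^ m)⁻¹ ≠ 0 := inv_ne_zero (pow_ne_zero _ hc0)
  obtain ⟨k, rfl⟩ : ∃ k, n = k + 2 := ⟨n - 2, by omega⟩
  simp only [Nat.add_sub_cancel, show k + 2 - 1 = k + 1 by omega] at IH1 IH2 ⊢
  have hpk : 2 ^ (k + 2) = 2 * 2 ^ (k + 1) := by rw [pow_succ]; ring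
  have hpk1 : 2 ^ (k + 1) = 2 * 2 ^ k := by rw [pow_succ]; ring
  have hkpos := Nat.two_pow_pos k
  have hEE : (2 : ℕ∞) * ((2 ^ (k + 1) : ℕ) : ℕ∞) = ((2 ^ (k + 2) : ℕ) : ℕ∞) := two_mul_pow (k + 2) (by omega)
  rw [show 2 ^ (k + 2) + 2 * m - 1 = 2 * (2 ^ (k + 1) + m - 1) + 1 by omega, dd_odd hq,
    if_neg (by omega), zero_sub, show 2 ^ (k + 1) + m - 1 + 1 = 2 ^ (k + 1) + m by omega,
    lam_sum (2 ^ (k + 1) + m) (k + 2 + 1) (by rw [pow_succ 2 (k + 2)]; omega)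
      (fun b => dd 2 t b ^ 2)]
  set Y : F[X] := X ^ (2 ^ (k + 1)) * (1 + X) ^ (2 ^ (k + 1) - 2) with hY
  have hYsq : Y = (X ^ (2 ^ k) * (1 + X) ^ (2 ^ k - 1)) ^ 2 := by
    rw [hY, mul_pow, ← pow_mul, ← pow_mul, pow_succ,
      show 2 ^ k * 2 - 2 = (2 ^ k - 1) * 2 by omega]
  -- the terms
  have hterm : ∀ i ∈ range (k + 2 + 1), RD (1 : K) ((c ^ m)⁻¹) ((2 ^ (k + 2) : ℕ) : ℕ∞)
      (if 2 ^ i ≤ 2 ^ (k + 1) + m then lam 2 t (2 ^ i) * dd 2 t (2 ^ (k + 1) + m - 2 ^ i) ^ 2 else 0)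
      (f0 F Y m i) := by
    intro i _
    have hlamBS : BS (1 : K) (‖c‖ * (‖c‖⁻¹) ^ (2 ^ i)) ((2 ^ (k + 2) : ℕ) : ℕ∞) (lam 2 t (2 ^ i)) := by
      have h1 := (lam_BS1 hq ht i).restrict (E := ((2 ^ (k + 2) : ℕ) : ℕ∞)) le_top
      have h2 := ci_norm ht i
      rw [← hc] at h2
      have h3 : ‖ci t i‖ = ‖c‖ * (‖c‖⁻¹) ^ (2 ^ i) := by
        rw [inv_pow, eq_mul_inv_iff_mul_eq₀ (pow_ne_zero _ hcpos.ne')]
        exact h2
      rwa [h3] at h1
    have hlam1 : RD (1 : K) (c / c ^ (2 ^ i)) ((2 ^ (k + 2) : ℕ) : ℕ∞) (lam 2 t (2 ^ i))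
        (if i = 0 then 1 else X ^ (2 ^ i) : F[X]) := by
      split_ifs with h
      · subst h
        rw [pow_zero, pow_one, lam_one ht, div_self hc0]
        exact RD.one
      · exact (lam_RD1 hq ht i (by omega)).restrict le_top
    have hnu : ‖(c ^ m)⁻¹‖ = (‖c‖⁻¹) ^ m := by rw [norm_inv, norm_pow, inv_pow]
    have hinv : ‖c‖⁻¹ < 1 := inv_lt_one_of_one_lt₀ hc1
    have hinv0 : 0 < ‖c‖⁻¹ := inv_pos.mpr hcpos
    have hipos := Nat.two_pow_pos i
    rw [f0]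
    by_cases h1 : 2 ^ i < m
    · have hle : 2 ^ i ≤ 2 ^ (k + 1) + m := by omega
      rw [if_pos h1, if_pos hle]
      have hb : 2 ^ (k + 1) + m - 2 ^ i = 2 ^ (k + 1) + (m - 2 ^ i) := by omega
      rw [hb]
      by_cases h2 : (m - 2 ^ i) % 2 = 1
      · rw [if_pos h2]
        set m2 := (m - 2 ^ i + 1) / 2 with hm2
        have hm2' : m - 2 ^ i = 2 * m2 - 1 := by omega
        have h3 := (IH1 m2 (by omega) (by omega)).sq hq (inv_ne_zero (pow_ne_zero _ hc0))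
        rw [hEE, mul_pow _ (th F m2), ← hYsq] at h3
        have h4 := hlam1.mul hq (div_ne_zero hc0 (pow_ne_zero _ hc0))
          (pow_ne_zero 2 (inv_ne_zero (pow_ne_zero _ hc0))) h3
        have e : c / c ^ 2 ^ i * ((c ^ m2)⁻¹) ^ 2 = (c ^ m)⁻¹ := by
          have : c ^ m = c ^ (2 ^ i) * c ^ (2 * m2 - 1) := by rw [← pow_add]; congr 1; omega
          rw [this]
          have h5 : c * c ^ (2 * m2 - 1) = (c ^ m2) ^ 2 := by
            rw [← pow_succ', ← pow_mul]; congr 1; omega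
          have h6 : c ^ m2 ≠ 0 := pow_ne_zero _ hc0
          have h7 : c ^ (2 ^ i) ≠ 0 := pow_ne_zero _ hc0
          have h8 : c ^ (2 * m2 - 1) ≠ 0 := pow_ne_zero _ hc0
          field_simp
          rw [h5]
        rw [e] at h4
        have e2 : 2 ^ (k + 1) + (m - 2 ^ i) = 2 ^ (k + 1) + 2 * m2 - 1 := by omega
        rw [e2]
        exact h4
      · rw [if_neg h2]
        have h3 := (IH2 (m - 2 ^ i) (by omega) (by omega)).sq hq (by positivity)
        rw [hEE, ← pow_mul] at h3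
        have h4 := hlamBS.mul (by positivity) (by positivity) h3
        refine RD.of_BS h4 ?_
        rw [hnu, mul_assoc, ← pow_add]
        have e : 2 ^ i + (m - 2 ^ i + 2) / 2 * 2 = m + 1 + 1 := by omega
        rw [e, pow_succ', ← mul_assoc, mul_inv_cancel₀ hcpos.ne', one_mul, pow_succ]
        exact mul_lt_of_lt_one_right (pow_pos hinv0 m) hinv
    · rw [if_neg h1]
      rcases lt_trichotomy (2 ^ i) (m + 1) with h2 | h2 | h2
      · have h3 : 2 ^ i = m := by omega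
        have hle : 2 ^ i ≤ 2 ^ (k + 1) + m := by omega
        have hne : ¬ 2 ^ i = m + 1 := by omega
        rw [if_neg hne, if_pos hle, h3, Nat.add_sub_cancel, dd_two_pow hq ht, ← pow_mul]
        refine RD.small ?_
        intro j hj
        have hj' : j < 2 ^ (k + 2) := by exact_mod_cast hj
        have hnle : ¬ 2 ^ (k + 1) * 2 ≤ j := by omega
        rw [coeff_mul_X_pow', if_neg hnle, zero_mul, norm_zero]
        exact norm_pos_iff.mpr hu
      · rcases Nat.eq_zero_or_pos i with hi | hi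
        · exfalso; subst hi; simp at h2; omega
        have hle : 2 ^ i ≤ 2 ^ (k + 1) + m := by omega
        rw [if_pos h2, if_pos hle, show 2 ^ (k + 1) + m - 2 ^ i = 2 ^ (k + 1) - 1 by omega]
        have h3 := ((dd_RD1 hq ht (2 ^ (k + 1) - 1) (by omega)).restrict
          (E := ((2 ^ (k + 1) : ℕ) : ℕ∞)) le_top).sq hq one_ne_zero
        have hlog : Nat.log 2 (2 ^ (k + 1) - 1) = k := by
          refine (Nat.log_eq_iff (Or.inr ⟨one_lt_two, by omega⟩)).mpr ⟨?_, ?_⟩ <;> omega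
        rw [hlog, hEE, one_pow, show 2 ^ (k + 1) - 1 - 2 ^ k = 2 ^ k - 1 by omega, ← hYsq] at h3
        have h4 := hlam1.mul hq (div_ne_zero hc0 (pow_ne_zero _ hc0)) one_ne_zero h3
        rw [if_neg (by omega), mul_one] at h4
        have e : c / c ^ 2 ^ i = (c ^ m)⁻¹ := by
          rw [h2, pow_succ']
          have h7 : c ^ m ≠ 0 := pow_ne_zero _ hc0
          field_simp
        rw [e] at h4
        exact h4
      · have hne : ¬ 2 ^ i = m + 1 := by omega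
        rw [if_neg hne]
        split_ifs with h3
        · have hbb : BS (1 : K) 1 ((2 ^ (k + 2) : ℕ) : ℕ∞) (dd 2 t (2 ^ (k + 1) + m - 2 ^ i)) := by
            rcases Nat.eq_zero_or_pos (2 ^ (k + 1) + m - 2 ^ i) with hb | hb
            · rw [hb, dd_zero']; exact BS.one
            · have := ((dd_RD1 hq ht _ hb).bs hq).restrict (E := ((2 ^ (k + 2) : ℕ) : ℕ∞)) le_top
              simpa using this
          have h4 := hlamBS.mul (by positivity) (by positivity) (hbb.pow zero_le_one 2)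
          refine RD.of_BS h4 ?_
          rw [hnu, one_pow, mul_one]
          obtain ⟨e, he⟩ : ∃ e, 2 ^ i = e + 1 := ⟨2 ^ i - 1, by omega⟩
          rw [he, pow_succ', ← mul_assoc, mul_inv_cancel₀ hcpos.ne', one_mul]
          exact pow_lt_pow_right_of_lt_one₀ hinv0 hinv (by omega)
        · exact RD.zero hu
  have hsum := RD.sum (F := F) hu (range (k + 2 + 1)) _ _ hterm
  have hval : ∑ i ∈ range (k + 2 + 1), f0 F Y m i = Y * th F m := by
    obtain ⟨r, hr | hr⟩ : ∃ r, m = 2 * r ∨ m = 2 * r + 1 := ⟨m / 2, by omega⟩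
    · rw [hr]
      exact f0_sum_even Y (k + 2) r (by omega)
    · rw [hr]
      exact f0_sum_odd hq Y (k + 1) r (by omega)
  rw [hval] at hsum
  have hfin := ((oneX_RD1 hq ht).restrict (E := ((2 ^ (k + 2) : ℕ) : ℕ∞)) le_top).mul hq one_ne_zero
    hu hsum
  rw [one_mul] at hfin
  have hfin2 := hfin.neg
  rw [neg_eq hq ((1 + X) * (Y * th F m) : F[X])] at hfin2
  have e : (1 + X) * (Y * th F m) = X ^ (2 ^ (k + 1)) * (1 + X) ^ (2 ^ (k + 1) - 1) * th F m := by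
    rw [hY, show 2 ^ (k + 1) - 1 = (2 ^ (k + 1) - 2) + 1 by omega, pow_succ]
    ring
  rw [e] at hfin2
  exact hfin2

include hq ht in
/-- Lemma D. -/
theorem lemD (n : ℕ) (hn : 1 ≤ n) :
    (∀ m, 1 ≤ m → 2 * m ≤ 2 ^ n → RD (1 : K) ((br 2 t 1 ^ m)⁻¹) ((2 ^ n : ℕ) : ℕ∞)
      (dd 2 t (2 ^ n + 2 * m - 1))
      (X ^ (2 ^ (n - 1)) * (1 + X) ^ (2 ^ (n - 1) - 1) * th F m : F[X])) ∧
    (∀ e, 1 ≤ e → e < 2 ^ n → BS (1 : K) ((‖br 2 t 1‖⁻¹) ^ ((e + 2) / 2))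
      ((2 ^ n : ℕ) : ℕ∞) (dd 2 t (2 ^ n + e))) := by
  have hc1 := c_gt ht
  have hc0 : br 2 t 1 ≠ 0 := c_ne ht
  have hcpos : 0 < ‖br 2 t 1‖ := by linarith
  have hinv : ‖br 2 t 1‖⁻¹ < 1 := inv_lt_one_of_one_lt₀ hc1
  have hinv0 : 0 < ‖br 2 t 1‖⁻¹ := inv_pos.mpr hcpos
  -- the second part for odd `e` follows from the first
  have hodd : ∀ n, (∀ m, 1 ≤ m → 2 * m ≤ 2 ^ n → RD (1 : K) ((br 2 t 1 ^ m)⁻¹) ((2 ^ n : ℕ) : ℕ∞)
      (dd 2 t (2 ^ n + 2 * m - 1))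
      (X ^ (2 ^ (n - 1)) * (1 + X) ^ (2 ^ (n - 1) - 1) * th F m : F[X])) →
      ∀ e, e % 2 = 1 → e < 2 ^ n → BS (1 : K) ((‖br 2 t 1‖⁻¹) ^ ((e + 2) / 2))
      ((2 ^ n : ℕ) : ℕ∞) (dd 2 t (2 ^ n + e)) := by
    intro n h e he hen
    have h1 : 2 * ((e + 1) / 2) ≤ 2 ^ n := by
      rcases n with _ | n
      · simp at hen; omega
      · rw [pow_succ] at hen ⊢; omega
    have h2 := (h ((e + 1) / 2) (by omega) h1).bs hq
    rw [show 2 ^ n + 2 * ((e + 1) / 2) - 1 = 2 ^ n + e by omega, norm_inv, norm_pow] at h2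
    rw [inv_pow, show (e + 2) / 2 = (e + 1) / 2 by omega]
    exact h2
  induction n, hn using Nat.le_induction with
  | base =>
    have h1 : ∀ m, 1 ≤ m → 2 * m ≤ 2 ^ 1 → RD (1 : K) ((br 2 t 1 ^ m)⁻¹) ((2 ^ 1 : ℕ) : ℕ∞)
      (dd 2 t (2 ^ 1 + 2 * m - 1))
      (X ^ (2 ^ (1 - 1)) * (1 + X) ^ (2 ^ (1 - 1) - 1) * th F m : F[X]) := by
      intro m hm hm1
      have hm2 : m = 1 := by simp at hm1; omega
      subst hm2
      intro i hi
      have hi' : i < 2 := by exact_mod_cast hi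
      have hord := dd_ord hq ht (2 ^ 1 + 2 * 1 - 1) (by norm_num)
      rw [X_pow_dvd_iff] at hord
      have e1 : (dd 2 t (2 ^ 1 + 2 * 1 - 1)).coeff i = 0 := hord i (by omega)
      have e2 : (X ^ (2 ^ (1 - 1)) * (1 + X) ^ (2 ^ (1 - 1) - 1) * th F 1 : F[X]).coeff i = 0 := by
        simp only [Nat.sub_self, pow_zero, pow_one, mul_one, th_one]
        rw [← pow_succ', coeff_X_pow, if_neg (by omega)]
      rw [e1, e2]
      simpa using hc0
    refine ⟨h1, ?_⟩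
    intro e he1 he2
    exact hodd 1 h1 e (by simp at he2; omega) he2
  | succ n hn ih =>
    obtain ⟨IH1, IH2⟩ := ih
    have h1 : ∀ m, 1 ≤ m → 2 * m ≤ 2 ^ (n + 1) → RD (1 : K) ((br 2 t 1 ^ m)⁻¹)
      ((2 ^ (n + 1) : ℕ) : ℕ∞) (dd 2 t (2 ^ (n + 1) + 2 * m - 1))
      (X ^ (2 ^ (n + 1 - 1)) * (1 + X) ^ (2 ^ (n + 1 - 1) - 1) * th F m : F[X]) := by
      intro m hm hmn
      refine lemD_step hq ht (n + 1) (by omega) ?_ ?_ m hm hmn
      · intro m' hm' hm2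
        exact IH1 m' hm' hm2
      · intro e he1 he2
        exact IH2 e he1 he2
    refine ⟨h1, ?_⟩
    intro e he1 he2
    rcases Nat.mod_two_eq_zero_or_one e with he | he
    · obtain ⟨m, rfl⟩ : ∃ m, e = 2 * m := ⟨e / 2, by omega⟩
      have h2 := (IH2 m (by omega) (by rw [pow_succ] at he2; omega)).sq hq (by positivity)
      have h3 := two_mul_pow (n + 1) (by omega)
      rw [Nat.add_sub_cancel] at h3
      rw [h3, ← pow_mul, ← dd_even hq] at h2
      rw [show 2 ^ (n + 1) + 2 * m = 2 * (2 ^ n + m) by rw [pow_succ]; ring]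
      refine h2.mono ?_
      exact pow_le_pow_of_le_one hinv0.le hinv.le (by omega)
    · exact hodd (n + 1) h1 e he he2

end low

end Pool.Agent.R316.Ff
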