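import Pool.Agent.R316.QF

/-!
The classification for `q = 2`.
-/

set_option linter.unusedSectionVars false

open Polynomial Finset

namespace Pool.Agent.R316.Ff

section comp
variable {F : Type*} [Field F] [Fintype F] {K : Type*} [NormedField K] [IsUltrametricDist K]
  [Algebra F K] (hq : Fintype.card F = 2) {t : K} (ht : 1 < ‖t‖)

theorem RD.C' {a u x : K} (hu : u ≠ 0) (f : F) (h : ‖x - u * algebraMap F K f‖ < ‖u‖) {E : ℕ∞} :
    RD a u E (Polynomial.C x) (Polynomial.C f) := by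
  intro i hi
  rw [coeff_C, coeff_C]
  split_ifs with h1
  · subst h1; simpa using h
  · simpa using hu

include hq ht in
theorem comp_RD {u : K} (hu : u ≠ 0) (w : ℕ) (M : K[X]) (p0 : F[X]) (hM : RD (br 2 t 1) u ⊤ M p0)
    (h1 : M.natDegree ≤ w) (h2 : p0.natDegree ≤ w) :
    RD 1 u ⊤ (M.comp (C (br 2 t 1) * (1 - X))) (p0.comp (1 + X)) := by
  have e1 : M.comp (C (br 2 t 1) * (1 - X))
      = ∑ j ∈ range (w + 1), C (M.coeff j * br 2 t 1 ^ j) * (1 - X) ^ j := by
    rw [comp, eval₂_eq_sum_range' _ (Nat.lt_succ_of_le h1)]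
    refine sum_congr rfl fun j _ => ?_
    rw [mul_pow, C_mul, C_pow]
    ring
  have e2 : p0.comp (1 + X) = ∑ j ∈ range (w + 1), C (p0.coeff j) * (1 + X) ^ j := by
    rw [comp, eval₂_eq_sum_range' _ (Nat.lt_succ_of_le h2)]
  rw [e1, e2]
  refine RD.sum hu _ _ _ fun j _ => ?_
  have h3 : RD 1 u ⊤ (C (M.coeff j * br 2 t 1 ^ j)) (C (p0.coeff j)) :=
    RD.C' hu _ (hM j (by exact ENat.coe_lt_top j))
  have h4 := h3.mul hq hu (pow_ne_zero j one_ne_zero) ((oneX_RD1 hq ht).pow hq one_ne_zero j)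
  rwa [one_pow, mul_one] at h4

end comp

section main
variable {F : Type*} [Field F] [Fintype F] {K : Type*} [NormedField K] [IsUltrametricDist K]
  [Algebra F K] (hq : Fintype.card F = 2) {t : K} (ht : 1 < ‖t‖)

/-- the source polynomial -/
noncomputable def PQ (t : K) (s₁ s₂ : ℕ) : K[X] := hh 2 t (s₁ - 1) * dd 2 t s₂

/-- the functional equation -/
def FE (t : K) (w : ℕ) (P M : K[X]) : Prop :=
  M.comp (X ^ 2 + C (br 2 t 1)) = (-X) ^ w * M - P.comp (C (-(br 2 t 1)⁻¹) * X ^ 2)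

/-- the transformed polynomial -/
noncomputable def FF (t : K) (M : K[X]) : K[X] := M.comp (C (br 2 t 1) * (1 - X))

include hq ht in
theorem N_eq {w : ℕ} {P M : K[X]} (hE : FE t w P M) (j a : ℕ) (h : 2 * a = w + j) :
    M.coeff j * br 2 t 1 ^ j * br 2 t 1 ^ w = ((FF t M).coeff a + P.coeff a) * br 2 t 1 ^ a := by
  have hc := c_ne ht
  have h1 := GG_coeff two_pos hc w M P hE (2 * a)
  rw [if_pos (Dvd.intro _ rfl), if_pos (by omega), Nat.mul_div_cancel_left _ two_pos,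
    show 2 * a - w = j by omega, GG, coeff_add, neg_eq hq (1 : K), one_pow, one_mul,
    neg_eq hq ((br 2 t 1)⁻¹ : K)] at h1
  rw [FF, ← h1, mul_assoc, mul_assoc, ← pow_add, add_comm j w, ← h, two_mul, pow_add, ← mul_assoc
    ((br 2 t 1)⁻¹ ^ a), ← mul_pow, inv_mul_cancel₀ hc, one_pow, one_mul]

include hq ht in
theorem N_odd {w : ℕ} {P M : K[X]} (hE : FE t w P M) (j : ℕ) (h : ¬ 2 ∣ w + j) :
    M.coeff j = 0 := by
  have hc := c_ne ht
  have h1 := GG_coeff two_pos hc w M P hE (w + j)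
  rw [if_neg h, if_pos (by omega), Nat.add_sub_cancel_left, neg_eq hq (1 : K), one_pow,
    one_mul] at h1
  exact h1.symm

include ht in
theorem F_low {w : ℕ} {P M : K[X]} (hE : FE t w P M) (a : ℕ) (h : 2 * a < w) :
    (FF t M).coeff a = - P.coeff a := by
  have hc := c_ne ht
  have h1 := GG_coeff_low two_pos hc w M P hE a h
  rw [GG, coeff_add] at h1
  rw [FF]
  linear_combination h1

include ht in
theorem eval_zero' {w : ℕ} (hw : 0 < w) {P M : K[X]} (hE : FE t w P M) (hP : P.coeff 0 = 0) :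
    M.eval (br 2 t 1) = 0 := by
  have h1 := F_low ht hE 0 (by omega)
  rw [hP, neg_zero, FF, coeff_zero_eq_eval_zero, eval_comp] at h1
  simpa using h1

include hq ht in
/-- Claim 1. -/
theorem claim1 {w : ℕ} (hw : 0 < w) {P M : K[X]} (hE : FE t w P M) (hP : P.coeff 0 = 0)
    (hdeg : M.natDegree ≤ w) (β : ℕ) (hβ : β ≤ w)
    (hPb : BS (br 2 t 1) (‖br 2 t 1‖ ^ (w - β)) ⊤ P) (j : ℕ) :
    ‖M.coeff j * br 2 t 1 ^ j‖ ≤ (‖br 2 t 1‖⁻¹) ^ β := by
  set c := br 2 t 1 with hcdef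
  have hc1 : 1 < ‖c‖ := c_gt ht
  have hc : c ≠ 0 := c_ne ht
  have hcpos : 0 < ‖c‖ := by linarith
  have hinv0 : 0 < ‖c‖⁻¹ := inv_pos.mpr hcpos
  have hinv1 : ‖c‖⁻¹ < 1 := inv_lt_one_of_one_lt₀ hc1
  by_contra hcon
  push Not at hcon
  have hj0s : j ∈ M.support := by
    rw [mem_support_iff]
    intro h
    rw [h, zero_mul, norm_zero] at hcon
    exact absurd hcon (not_lt.mpr (by positivity))
  obtain ⟨j1, hj1s, hmax⟩ := Finset.exists_max_image M.support (fun j => ‖M.coeff j * c ^ j‖)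
    ⟨j, hj0s⟩
  set φ := ‖M.coeff j1 * c ^ j1‖ with hφ
  have hφ1 : (‖c‖⁻¹) ^ β < φ := lt_of_lt_of_le hcon (hmax j hj0s)
  have hφ0 : 0 < φ := lt_of_le_of_lt (by positivity) hφ1
  have hle : ∀ j, ‖M.coeff j * c ^ j‖ ≤ φ := by
    intro j
    by_cases hj : j ∈ M.support
    · exact hmax j hj
    · rw [notMem_support_iff] at hj
      rw [hj, zero_mul, norm_zero]
      exact hφ0.le
  have hF : GB φ (FF t M) := GB_comp hφ0.le c M hle
  have hlt : ∀ j, j < w → ‖M.coeff j * c ^ j‖ < φ := by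
    intro j hjw
    by_cases hpar : 2 ∣ w + j
    · obtain ⟨a, ha⟩ := hpar
      have h1 := N_eq hq ht hE j a ha.symm
      have haw : a < w := by omega
      obtain ⟨e, he⟩ := Nat.exists_eq_add_of_lt haw
      have h2 := congrArg norm h1
      rw [norm_mul, norm_mul ((FF t M).coeff a + P.coeff a), ← hcdef, norm_pow, norm_pow] at h2
      have h3 : ‖(FF t M).coeff a + P.coeff a‖ * ‖c‖ ^ a < φ * ‖c‖ ^ w := by
        have h4 : ‖(FF t M).coeff a‖ * ‖c‖ ^ a < φ * ‖c‖ ^ w := by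
          calc _ ≤ φ * ‖c‖ ^ a := mul_le_mul_of_nonneg_right (hF a) (by positivity)
            _ < _ := mul_lt_mul_of_pos_left (pow_lt_pow_right₀ hc1 haw) hφ0
        have h5 : ‖P.coeff a‖ * ‖c‖ ^ a < φ * ‖c‖ ^ w := by
          have h6 := hPb a (ENat.coe_lt_top a)
          rw [norm_mul, norm_pow] at h6
          refine lt_of_le_of_lt h6 ?_
          have h7 : ‖c‖ ^ (w - β) = (‖c‖⁻¹) ^ β * ‖c‖ ^ w := by
            have : ‖c‖ ^ w = ‖c‖ ^ β * ‖c‖ ^ (w - β) := by rw [← pow_add]; congr 1; omega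
            rw [this, ← mul_assoc, ← mul_pow, inv_mul_cancel₀ hcpos.ne', one_pow, one_mul]
          rw [h7]
          exact mul_lt_mul_of_pos_right hφ1 (by positivity)
        calc _ ≤ max ‖(FF t M).coeff a‖ ‖P.coeff a‖ * ‖c‖ ^ a :=
              mul_le_mul_of_nonneg_right (IsUltrametricDist.norm_add_le_max _ _) (by positivity)
          _ = max (‖(FF t M).coeff a‖ * ‖c‖ ^ a) (‖P.coeff a‖ * ‖c‖ ^ a) :=
              max_mul_of_nonneg _ _ (by positivity)
          _ < _ := max_lt h4 h5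
      rw [← h2] at h3
      exact lt_of_mul_lt_mul_right h3 (by positivity)
    · rw [N_odd hq ht hE j hpar, zero_mul, norm_zero]
      exact hφ0
  have hj1w : j1 = w := by
    have h1 : j1 ≤ w := (le_natDegree_of_mem_supp j1 hj1s).trans hdeg
    rcases lt_or_eq_of_le h1 with h2 | h2
    · exact absurd (hlt j1 h2) (lt_irrefl _)
    · exact h2
  have hev : ‖M.eval c‖ = φ := by
    rw [eval_eq_sum_range' (Nat.lt_succ_of_le hdeg), sum_range_succ, add_comm, ← hj1w,
      norm_add_of_lt]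
    refine norm_sum_lt (by linarith) _ _ fun j hj => ?_
    rw [mem_range] at hj
    exact hlt j (by omega)
  rw [eval_zero' ht hw hE hP, norm_zero] at hev
  exact absurd hev hφ0.ne

include hq ht in
/-- Claim 2, first part. -/
theorem claim2 {w : ℕ} (hw : 0 < w) {P M : K[X]} (hE : FE t w P M) (hP : P.coeff 0 = 0)
    (hdeg : M.natDegree ≤ w) (β n : ℕ) (hβ : β ≤ w) (hn0 : 0 < n) (hn : 2 * n ≤ w)
    (hPb : RD (br 2 t 1) (br 2 t 1 ^ (w - β)) ⊤ P (X ^ (w - n) : F[X])) :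
    RD (br 2 t 1) ((br 2 t 1 ^ β)⁻¹) ⊤ M (X ^ (w - 2 * n) + X ^ w : F[X]) := by
  have h1 := claim1 hq ht hw hE hP hdeg β hβ (by
    have := hPb.bs hq
    rwa [norm_pow] at this)
  set c := br 2 t 1 with hcdef
  have hc1 : 1 < ‖c‖ := c_gt ht
  have hc : c ≠ 0 := c_ne ht
  have hcpos : 0 < ‖c‖ := by linarith
  set u : K := (c ^ β)⁻¹ with hu
  have hu0 : u ≠ 0 := inv_ne_zero (pow_ne_zero _ hc)
  have hun : ‖u‖ = (‖c‖⁻¹) ^ β := by rw [hu, norm_inv, norm_pow, inv_pow]
  have hupos : 0 < ‖u‖ := norm_pos_iff.mpr hu0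
  have hF : GB ‖u‖ (FF t M) := GB_comp hupos.le c M (fun j => by rw [hun]; exact h1 j)
  have hlt : ∀ j, j < w → ‖M.coeff j * c ^ j
      - u * algebraMap F K ((X ^ (w - 2 * n) + X ^ w : F[X]).coeff j)‖ < ‖u‖ := by
    intro j hjw
    rw [coeff_add, coeff_X_pow, coeff_X_pow, if_neg (by omega : ¬ j = w), add_zero]
    by_cases hpar : 2 ∣ w + j
    · obtain ⟨a, ha⟩ := hpar
      have haw : a < w := by omega
      have h2 := N_eq hq ht hE j a ha.symm
      rw [← hcdef] at h2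
      have h3 := hPb a (ENat.coe_lt_top a)
      rw [coeff_X_pow] at h3
      have hiff : (a = w - n) ↔ (j = w - 2 * n) := by omega
      have hcw : c ^ w ≠ 0 := pow_ne_zero _ hc
      have hcw' : c ^ (w - β) = u * c ^ w := by
        have : c ^ w = c ^ β * c ^ (w - β) := by rw [← pow_add]; congr 1; omega
        rw [this, hu, ← mul_assoc, inv_mul_cancel₀ (pow_ne_zero _ hc), one_mul]
      have e : (M.coeff j * c ^ j - u * algebraMap F K (if j = w - 2 * n then 1 else 0)) * c ^ w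
          = (FF t M).coeff a * c ^ a + (P.coeff a * c ^ a
            - c ^ (w - β) * algebraMap F K (if a = w - n then 1 else 0)) := by
        rw [sub_mul, h2, hcw']
        simp only [hiff]
        ring
      have h4 : ‖(FF t M).coeff a * c ^ a‖ < ‖u‖ * ‖c ^ w‖ := by
        rw [norm_mul, norm_pow, norm_pow]
        calc _ ≤ ‖u‖ * ‖c‖ ^ a := mul_le_mul_of_nonneg_right (hF a) (by positivity)
          _ < _ := mul_lt_mul_of_pos_left (pow_lt_pow_right₀ hc1 haw) hupos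
      rw [hcw', norm_mul u] at h3
      rw [hcw'] at e
      have h5 := congrArg norm e
      rw [norm_mul (_ - _)] at h5
      have h6 : ‖M.coeff j * c ^ j - u * algebraMap F K (if j = w - 2 * n then 1 else 0)‖ * ‖c ^ w‖
          < ‖u‖ * ‖c ^ w‖ := by
        rw [h5]
        exact lt_of_le_of_lt (IsUltrametricDist.norm_add_le_max _ _) (max_lt h4 h3)
      exact lt_of_mul_lt_mul_right h6 (norm_nonneg _)
    · rw [N_odd hq ht hE j hpar, if_neg (by omega)]
      simpa using hu0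
  intro j _
  rcases lt_trichotomy j w with hj | hj | hj
  · exact hlt j hj
  · subst hj
    have h2 := eval_zero' ht hw hE hP
    rw [eval_eq_sum_range' (Nat.lt_succ_of_le hdeg), sum_range_succ, ← hcdef] at h2
    have h3 : ‖∑ i ∈ range j, (M.coeff i * c ^ i
        - u * algebraMap F K ((X ^ (j - 2 * n) + X ^ j : F[X]).coeff i))‖ < ‖u‖ :=
      norm_sum_lt hupos _ _ fun i hi => hlt i (mem_range.mp hi)
    rw [sum_sub_distrib, ← mul_sum, ← map_sum] at h3
    have h4 : ∑ i ∈ range j, ((X ^ (j - 2 * n) + X ^ j : F[X]).coeff i) = 1 := by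
      simp only [coeff_add, coeff_X_pow]
      rw [sum_add_distrib, sum_ite_eq', if_pos (by rw [mem_range]; omega), sum_ite_eq', if_neg (by
        simp), add_zero]
    rw [h4, map_one, mul_one] at h3
    rw [coeff_add, coeff_X_pow, coeff_X_pow, if_neg (by omega), if_pos rfl, zero_add, map_one,
      mul_one]
    have h5 : M.coeff j * c ^ j - u = -((∑ i ∈ range j, M.coeff i * c ^ i) - u) - 2 * u := by
      linear_combination h2
    rw [h5, two_zero (R := K) hq, zero_mul, sub_zero, norm_neg]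
    exact h3
  · rw [coeff_eq_zero_of_natDegree_lt (by omega : M.natDegree < j), coeff_add, coeff_X_pow,
      coeff_X_pow, if_neg (by omega), if_neg (by omega)]
    simpa using hu0

include hq ht in
/-- Claim 2, second part. -/
theorem claim2' {w : ℕ} (hw : 0 < w) {P M : K[X]} (hE : FE t w P M) (hP : P.coeff 0 = 0)
    (hdeg : M.natDegree ≤ w) (β k : ℕ) (hβ : β ≤ w) (hn : 2 ^ (k + 1) ≤ w)
    (hPb : RD (br 2 t 1) (br 2 t 1 ^ (w - β)) ⊤ P (X ^ (w - 2 ^ k) : F[X])) :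
    RD (1 : K) ((br 2 t 1 ^ β)⁻¹) ⊤ (FF t M)
      (X ^ (2 ^ (k + 1)) * (1 + X) ^ (w - 2 ^ (k + 1)) : F[X]) := by
  have hk : 2 ^ (k + 1) = 2 * 2 ^ k := by rw [pow_succ]; ring
  have h1 := claim2 hq ht hw hE hP hdeg β (2 ^ k) hβ (Nat.two_pow_pos k) (by omega) hPb
  have hu0 : (br 2 t 1 ^ β)⁻¹ ≠ 0 := inv_ne_zero (pow_ne_zero _ (c_ne ht))
  have h2 := comp_RD hq ht hu0 w M _ h1 hdeg (by
    refine (natDegree_add_le _ _).trans ?_
    simp)
  have e : ((X ^ (w - 2 * 2 ^ k) + X ^ w : F[X])).comp (1 + X)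
      = X ^ (2 ^ (k + 1)) * (1 + X) ^ (w - 2 ^ (k + 1)) := by
    rw [add_comp, X_pow_comp, X_pow_comp, ← hk]
    have h3 : (1 + X : F[X]) ^ w = (1 + X) ^ (2 ^ (k + 1)) * (1 + X) ^ (w - 2 ^ (k + 1)) := by
      rw [← pow_add]; congr 1; omega
    rw [h3, onePlus_pow hq]
    have h5 := two_zero' (F := F) hq
    linear_combination ((1 + X) ^ (w - 2 ^ (k + 1))) * h5
  rw [e] at h2
  exact h2

end main

end Pool.Agent.R316.Ff
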