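import Pool.Agent.R316.QG

/-!
The classification for `q = 2`, continued.
-/

set_option linter.unusedSectionVars false

open Polynomial Finset

namespace Pool.Agent.R316.Ff

section fin
variable {F : Type*} [Field F] [Fintype F] {K : Type*} [NormedField K] [IsUltrametricDist K]
  [Algebra F K] (hq : Fintype.card F = 2) {t : K} (ht : 1 < ‖t‖)

theorem PQ_eq_Src (t : K) (s₁ s₂ : ℕ) : PQ t s₁ s₂ = Src 2 t s₁ s₂ 0 := by
  rw [PQ, Src, C_0, zero_mul, sub_zero]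

include ht in
theorem PQ_coeff0 (s₁ s₂ : ℕ) (hs₂ : 0 < s₂) : (PQ t s₁ s₂).coeff 0 = 0 := by
  rw [PQ_eq_Src, Src_coeff0 one_lt_two ht s₁ s₂ hs₂, neg_zero]

include ht in
theorem PQ_deg (s₁ s₂ : ℕ) : (PQ t s₁ s₂).natDegree ≤ s₁ + s₂ := by
  have := Src_deg one_lt_two ht s₁ s₂ 0
  rw [PQ_eq_Src]
  simpa using this

include ht in
theorem PQ_GB (s₁ s₂ : ℕ) : GB 1 (PQ t s₁ s₂) := by
  rw [PQ_eq_Src]
  exact Src_GB one_lt_two ht s₁ s₂ 0 (by simp)

include ht in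
theorem M_deg2 {w : ℕ} {P M : K[X]} (hE : FE t w P M) (hP : P.natDegree ≤ w) :
    M.natDegree ≤ w := by
  have := M_deg one_lt_two (c_ne ht) w M P hE (by simpa using hP)
  simpa using this

include ht in
theorem s1_le_s2 (s₁ s₂ : ℕ) (hs₁ : 0 < s₁) (hs₂ : 0 < s₂) (M : K[X])
    (hE : FE t (s₁ + s₂) (PQ t s₁ s₂) M) : s₁ ≤ s₂ := by
  have := low_bound one_lt_two ht s₁ s₂ hs₁ hs₂ (by simp) 0 (by simp) M
    (by rw [← PQ_eq_Src]; exact hE)
  simpa using this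

include hq ht in
/-- Claim 4. -/
theorem claim4 (s₁ s₂ : ℕ) (hs₁ : 0 < s₁) (hs₂ : 0 < s₂) (M : K[X])
    (hE : FE t (s₁ + s₂) (PQ t s₁ s₂) M) : s₁ + s₂ ≤ 2 * 2 ^ Nat.log 2 s₂ := by
  set E := 2 ^ Nat.log 2 s₂ with hEdef
  by_contra hcon
  push Not at hcon
  have h1 := Pr_small (s₁ + s₂) (by omega) M _ hE one_lt_two ht (by simpa using PQ_deg ht s₁ s₂)
    (PQ_GB ht s₁ s₂) (by rw [PQ_coeff0 ht s₁ s₂ hs₂, norm_zero]; exact one_pos) E hcon
  have hdd := dd_RD1 hq ht s₂ hs₂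
  have hc0 : ((X ^ E * (1 + X) ^ (s₂ - E) : F[X])).coeff E = 1 := by
    rw [coeff_X_pow_mul', if_pos le_rfl, Nat.sub_self, coeff_zero_eq_eval_zero]
    simp
  have hdE : ‖(dd 2 t s₂).coeff E‖ = 1 := by
    have := hdd.norm_eq hq E (ENat.natCast_lt_top E) (by rw [← hEdef, hc0]; exact one_ne_zero)
    simpa using this
  have hdj : ∀ j < E, ‖(dd 2 t s₂).coeff j‖ < 1 := by
    intro j hj
    have := hdd.norm_lt j (ENat.natCast_lt_top j) (by
      rw [← hEdef, coeff_X_pow_mul', if_neg (by omega)])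
    simpa using this
  have hP : ‖(PQ t s₁ s₂).coeff E‖ = 1 := by
    rw [PQ, coeff_mul, ← add_sum_erase (antidiagonal E) _ (a := (0, E)) (by simp)]
    simp only [hh_coeff0 one_lt_two ht, one_mul]
    rw [norm_add_of_lt, hdE]
    rw [hdE]
    refine norm_sum_lt one_pos _ _ ?_
    rintro ⟨i, j⟩ hij
    rw [mem_erase, Finset.HasAntidiagonal.mem_antidiagonal] at hij
    simp only at hij ⊢
    have hjlt : j < E := by
      by_contra hcon
      apply hij.1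
      have : j = E := by omega
      have h2 : i = 0 := by omega
      rw [this, h2]
    rw [norm_mul]
    calc _ ≤ 1 * ‖(dd 2 t s₂).coeff j‖ :=
          mul_le_mul_of_nonneg_right ((hh_WD one_lt_two ht _).1 _) (norm_nonneg _)
      _ < 1 := by rw [one_mul]; exact hdj j hjlt
  rw [hP] at h1
  exact lt_irrefl _ h1

variable {s₁ s₂ v b : ℕ}

include hq ht in
theorem PQ_RDc (hs : s₁ = 2 ^ v * (2 * b + 1)) :
    RD (br 2 t 1) (br 2 t 1 ^ (s₁ + s₂ - 2 ^ v * (b + 1))) ⊤ (PQ t s₁ s₂)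
      (X ^ (s₁ + s₂ - 2 ^ (v + Nat.log 2 (b + 1))) : F[X]) := by
  have hc := c_ne ht
  have h1 := (hh_RDc' hq ht v b).mul hq (pow_ne_zero _ hc) (pow_ne_zero _ hc) (dd_RDc hq ht s₂)
  rw [← pow_add, ← pow_add, ← hs] at h1
  have hl := Nat.pow_log_le_self 2 (Nat.succ_ne_zero b)
  simp only [Nat.succ_eq_add_one] at hl
  have h2 : 2 ^ v * 2 ^ Nat.log 2 (b + 1) ≤ 2 ^ v * (b + 1) := Nat.mul_le_mul_left _ hl
  have e1 : 2 ^ v * b + s₂ = s₁ + s₂ - 2 ^ v * (b + 1) := by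
    rw [hs]
    have : 2 ^ v * (2 * b + 1) = 2 ^ v * b + 2 ^ v * (b + 1) := by ring
    omega
  have e2 : 2 ^ v * (2 * b + 1 - 2 ^ Nat.log 2 (b + 1)) + s₂
      = s₁ + s₂ - 2 ^ (v + Nat.log 2 (b + 1)) := by
    rw [hs, Nat.mul_sub, pow_add]
    have : 2 ^ v * (2 * b + 1) = 2 ^ v * b + 2 ^ v * (b + 1) := by ring
    omega
  rw [e1, e2] at h1
  exact h1

include hq ht in
/-- Claim 2 for the pair. -/
theorem claim2s (hs₁ : 0 < s₁) (hs₂ : 0 < s₂) (hle : s₁ ≤ s₂) (M : K[X])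
    (hE : FE t (s₁ + s₂) (PQ t s₁ s₂) M) (hs : s₁ = 2 ^ v * (2 * b + 1)) :
    RD (1 : K) ((br 2 t 1 ^ (2 ^ v * (b + 1)))⁻¹) ⊤ (FF t M)
      (X ^ (2 ^ (v + Nat.log 2 (b + 1) + 1)) * (1 + X) ^ (s₁ + s₂ -
        2 ^ (v + Nat.log 2 (b + 1) + 1)) : F[X]) := by
  have hl := Nat.pow_log_le_self 2 (Nat.succ_ne_zero b)
  simp only [Nat.succ_eq_add_one] at hl
  have h2 : 2 ^ v * 2 ^ Nat.log 2 (b + 1) ≤ 2 ^ v * (b + 1) := Nat.mul_le_mul_left _ hl
  have h3 : 2 ^ v * (2 * b + 1) = 2 ^ v * b + 2 ^ v * (b + 1) := by ring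
  have h4 : 2 ^ v * (b + 1) = 2 ^ v * b + 2 ^ v := by ring
  have h5 : 2 ^ (v + Nat.log 2 (b + 1) + 1) = 2 * (2 ^ v * 2 ^ Nat.log 2 (b + 1)) := by
    rw [pow_succ, pow_add]; ring
  have h6 : 0 ≤ 2 ^ v * b := Nat.zero_le _
  refine claim2' hq ht (by omega) hE (PQ_coeff0 ht s₁ s₂ hs₂)
    (M_deg2 ht hE (PQ_deg ht s₁ s₂)) _ _ (by omega) ?_ (PQ_RDc hq ht hs)
  omega

include hq ht in
/-- Claim 3. -/
theorem claim3 (hs₁ : 0 < s₁) (hs₂ : 0 < s₂) (hle : s₁ ≤ s₂) (M : K[X])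
    (hE : FE t (s₁ + s₂) (PQ t s₁ s₂) M) (hs : s₁ = 2 ^ v * (2 * b + 1)) :
    s₂ < 2 * 2 ^ (v + Nat.log 2 (b + 1) + 1) := by
  have h1 := claim2s hq ht hs₁ hs₂ hle M hE hs
  set m := 2 ^ (v + Nat.log 2 (b + 1) + 1) with hm
  by_contra hcon
  push Not at hcon
  have hc0 : ((X ^ m * (1 + X) ^ (s₁ + s₂ - m) : F[X])).coeff m = 1 := by
    rw [coeff_X_pow_mul', if_pos le_rfl, Nat.sub_self, coeff_zero_eq_eval_zero]
    simp
  have h2 := h1.norm_eq hq m (ENat.natCast_lt_top m) (by rw [hc0]; exact one_ne_zero)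
  have h3 := F_low ht hE m (by omega)
  have h4 : (PQ t s₁ s₂).coeff m = 0 := by
    have h5 : (X : K[X]) ^ (s₂ / 2 + 1) ∣ PQ t s₁ s₂ := Dvd.dvd.mul_left (dd_ord hq ht s₂ hs₂) _
    rw [X_pow_dvd_iff] at h5
    exact h5 m (by omega)
  rw [h3, h4, neg_zero, zero_mul, norm_zero] at h2
  have h6 : (br 2 t 1 ^ (2 ^ v * (b + 1)))⁻¹ ≠ 0 := inv_ne_zero (pow_ne_zero _ (c_ne ht))
  exact norm_ne_zero_iff.mpr h6 h2.symm

include hq ht in
/-- Claim 6. -/
theorem claim6 (hs₁ : 0 < s₁) (hs₂ : 0 < s₂) (hle : s₁ ≤ s₂) (M : K[X])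
    (hE : FE t (s₁ + s₂) (PQ t s₁ s₂) M) (hs : s₁ = 2 ^ v * (2 * b + 1)) (k : ℕ)
    (hk1 : 2 * k < s₁ + s₂) (hk2 : k < 2 ^ (v + Nat.log 2 (b + 1) + 1)) :
    ‖(dd 2 t s₂).coeff k‖ < ‖(br 2 t 1 ^ (2 ^ v * (b + 1)))⁻¹‖ := by
  have h1 := claim2s hq ht hs₁ hs₂ hle M hE hs
  have hu : 0 < ‖(br 2 t 1 ^ (2 ^ v * (b + 1)))⁻¹‖ :=
    norm_pos_iff.mpr (inv_ne_zero (pow_ne_zero _ (c_ne ht)))
  set m := 2 ^ (v + Nat.log 2 (b + 1) + 1) with hm
  set u := (br 2 t 1 ^ (2 ^ v * (b + 1)))⁻¹ with hudef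
  induction k using Nat.strong_induction_on with
  | _ k ih =>
    have h2 := h1.norm_lt k (ENat.natCast_lt_top k) (by
      rw [coeff_X_pow_mul', if_neg (by omega)])
    rw [one_pow, mul_one, F_low ht hE k hk1, norm_neg] at h2
    have h3 : (dd 2 t s₂).coeff k = (PQ t s₁ s₂).coeff k
        - ∑ p ∈ (antidiagonal k).erase (0, k), (hh 2 t (s₁ - 1)).coeff p.1 * (dd 2 t s₂).coeff p.2 := by
      rw [PQ, coeff_mul, ← add_sum_erase (antidiagonal k) _ (a := (0, k)) (by simp)]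
      simp only [hh_coeff0 one_lt_two ht, one_mul]
      ring
    rw [h3]
    refine lt_of_le_of_lt (nsub_le_max _ _) (max_lt h2 ?_)
    refine norm_sum_lt hu _ _ ?_
    rintro ⟨i, j⟩ hij
    rw [mem_erase, Finset.HasAntidiagonal.mem_antidiagonal] at hij
    simp only at hij ⊢
    have hjlt : j < k := by
      by_contra hcon
      apply hij.1
      have : j = k := by omega
      have h2 : i = 0 := by omega
      rw [this, h2]
    rw [norm_mul]
    calc _ ≤ 1 * ‖(dd 2 t s₂).coeff j‖ :=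
          mul_le_mul_of_nonneg_right ((hh_WD one_lt_two ht _).1 _) (norm_nonneg _)
      _ < _ := by rw [one_mul]; exact ih j hjlt (by omega) (by omega)

/-- The list of the problem. -/
def L2 (s₁ s₂ : ℕ) : Prop :=
  (s₁ = 1 ∧ s₂ = 1) ∨ (s₁ = 1 ∧ s₂ = 3) ∨ (s₁ = 3 ∧ s₂ = 5) ∨
    ∃ n : ℕ, 1 ≤ n ∧ ((s₁ = 2 ^ n - 1 ∧ s₂ = 2 ^ n) ∨ (s₁ = 2 ^ n ∧ s₂ = 2 ^ (n + 1) + 2 ^ n - 1))

/-- the final arithmetic -/
theorem final_arith (v e m : ℕ) (hve : v < e) (hm1 : 1 ≤ m) (hm2 : 2 * m ≤ 2 ^ v + 1)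
    (h : 2 ^ e + 2 * m ≤ 2 ^ (Nat.log 2 m + 2) + 2 ^ v + 1) :
    L2 (2 ^ e - 2 ^ v) (2 ^ e + 2 * m - 1) := by
  have hl := Nat.pow_log_le_self 2 (show m ≠ 0 by omega)
  set l := Nat.log 2 m with hldef
  have hl2 : 2 ^ (l + 2) = 4 * 2 ^ l := by rw [pow_add]; ring
  have hlpos := Nat.two_pow_pos l
  rcases Nat.eq_zero_or_pos v with hv | hv
  · subst hv
    have hm : m = 1 := by simp at hm2; omega
    subst hm
    have hl0 : l = 0 := by rw [hldef]; simp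
    rw [hl0] at h
    norm_num at h
    have he : e < 3 := by
      by_contra hcon
      push Not at hcon
      have : 2 ^ 3 ≤ 2 ^ e := Nat.pow_le_pow_right two_pos hcon
      norm_num at this
      omega
    rcases (by omega : e = 1 ∨ e = 2) with he1 | he1
    · subst he1
      exact Or.inr (Or.inl ⟨by norm_num, by norm_num⟩)
    · subst he1
      exact Or.inr (Or.inr (Or.inl ⟨by norm_num, by norm_num⟩))
  · obtain ⟨v', rfl⟩ : ∃ v', v = v' + 1 := ⟨v - 1, by omega⟩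
    have hv2 : 2 ^ (v' + 1) = 2 * 2 ^ v' := by rw [pow_succ]; ring
    have hv'pos := Nat.two_pow_pos v'
    have hmle : m ≤ 2 ^ v' := by omega
    have hlv : l ≤ v' := (Nat.pow_le_pow_iff_right one_lt_two).mp (hl.trans hmle)
    have h2 : 2 ^ e ≤ 2 * 2 ^ l + 2 ^ (v' + 1) + 1 := by omega
    have hlle : 2 ^ l ≤ 2 ^ v' := Nat.pow_le_pow_right two_pos hlv
    have he : e = v' + 2 := by
      by_contra hcon
      have h3 : v' + 3 ≤ e := by omega
      have h4 : 2 ^ (v' + 3) ≤ 2 ^ e := Nat.pow_le_pow_right two_pos h3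
      have h5 : 2 ^ (v' + 3) = 8 * 2 ^ v' := by rw [pow_add]; ring
      omega
    subst he
    have he2 : 2 ^ (v' + 2) = 4 * 2 ^ v' := by rw [pow_add]; ring
    have hlv' : l = v' := by
      by_contra hcon
      have h3 : l + 1 ≤ v' := by omega
      have h4 : 2 ^ (l + 1) ≤ 2 ^ v' := Nat.pow_le_pow_right two_pos h3
      have h5 : 2 ^ (l + 1) = 2 * 2 ^ l := by rw [pow_succ]; ring
      omega
    rw [hlv'] at hl
    have hmv : m = 2 ^ v' := le_antisymm hmle hl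
    right; right; right
    refine ⟨v' + 1, by omega, Or.inr ⟨?_, ?_⟩⟩
    · omega
    · rw [show v' + 1 + 1 = v' + 2 by ring, hmv]
      omega

include hq ht in
/-- The classification, in terms of the functional equation. -/
theorem class2 (hs₁ : 0 < s₁) (hs₂ : 0 < s₂) (M : K[X])
    (hE : FE t (s₁ + s₂) (PQ t s₁ s₂) M) (hprim : ¬ (2 ∣ s₁ ∧ 2 ∣ s₂)) : L2 s₁ s₂ := by
  have hc1 := c_gt ht
  have hcpos : 0 < ‖br 2 t 1‖ := by linarith
  have hle := s1_le_s2 ht s₁ s₂ hs₁ hs₂ M hE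
  have h4 := claim4 hq ht s₁ s₂ hs₁ hs₂ M hE
  obtain ⟨v, k, hkodd, hs⟩ := Nat.exists_eq_two_pow_mul_odd hs₁.ne'
  obtain ⟨b, rfl⟩ := hkodd
  have h3 := claim3 hq ht hs₁ hs₂ hle M hE hs
  have h6 := claim6 hq ht hs₁ hs₂ hle M hE hs
  have hElo := Nat.pow_log_le_self 2 hs₂.ne'
  have hEhi := Nat.lt_pow_succ_log_self one_lt_two s₂
  simp only [Nat.succ_eq_add_one] at hEhi
  have hblo := Nat.pow_log_le_self 2 (Nat.succ_ne_zero b)
  simp only [Nat.succ_eq_add_one] at hblo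
  set e := Nat.log 2 s₂ with he
  set l := Nat.log 2 (b + 1) with hl
  have hevl : e ≤ v + l + 1 := by
    have h5 : 2 ^ e < 2 ^ (v + l + 2) := by
      have : 2 ^ (v + l + 2) = 2 * 2 ^ (v + l + 1) := by rw [pow_succ]; ring
      omega
    have := (Nat.pow_lt_pow_iff_right one_lt_two).mp h5
    omega
  have hE_m : 2 ^ e ≤ 2 ^ (v + l + 1) := Nat.pow_le_pow_right two_pos hevl
  have hmexp : 2 ^ (v + l + 1) = 2 * (2 ^ v * 2 ^ l) := by rw [pow_succ, pow_add]; ring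
  have hm_le : 2 ^ v * 2 ^ l ≤ 2 ^ v * (b + 1) := Nat.mul_le_mul_left _ hblo
  have hb1 : 2 ^ v * (b + 1) = 2 ^ v * b + 2 ^ v := by ring
  have hs1' : s₁ = 2 * (2 ^ v * b) + 2 ^ v := by rw [hs]; ring
  have hvpos := Nat.two_pow_pos v
  have hs1E : s₁ ≤ 2 ^ e := by omega
  rcases lt_or_eq_of_le hs1E with hlt | heq
  · -- the main case
    have hve : v < e := by
      have h5 : 2 ^ v < 2 ^ e := by omega
      exact (Nat.pow_lt_pow_iff_right one_lt_two).mp h5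
    obtain ⟨r, hr⟩ := Nat.exists_eq_add_of_lt hve
    have hEr : 2 ^ e = 2 ^ v * (2 * 2 ^ r) := by rw [hr, pow_succ, pow_add]; ring
    have hbr1 : 2 * b + 1 < 2 * 2 ^ r := by
      rw [hs, hEr] at hlt
      exact lt_of_mul_lt_mul_left hlt (Nat.zero_le _)
    have hbr2 : 2 * 2 ^ r ≤ 2 * (b + 1) := by
      have h5 : 2 ^ v * (2 * 2 ^ r) ≤ 2 ^ v * (2 * (b + 1)) := by
        rw [← hEr]
        calc 2 ^ e ≤ _ := hE_m
          _ = 2 * (2 ^ v * 2 ^ l) := hmexp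
          _ ≤ 2 * (2 ^ v * (b + 1)) := Nat.mul_le_mul_left _ hm_le
          _ = _ := by ring
      exact le_of_mul_le_mul_left h5 hvpos
    have hbr : b + 1 = 2 ^ r := by omega
    have hlr : l = r := by rw [hl, hbr, Nat.log_pow one_lt_two]
    have hs1E' : s₁ = 2 ^ e - 2 ^ v := by
      rw [hs, hEr, ← hbr]
      have : 2 ^ v * (2 * (b + 1)) = 2 ^ v * (2 * b + 1) + 2 ^ v := by ring
      omega
    have hvE : 2 ^ v ≤ 2 ^ e := by omega
    obtain ⟨η, hη⟩ := Nat.exists_eq_add_of_le hElo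
    have hηv : η ≤ 2 ^ v := by omega
    have he1 : 1 ≤ e := by omega
    have hE2 : 2 ^ e = 2 * 2 ^ (e - 1) := by
      conv_lhs => rw [show e = (e - 1) + 1 by omega, pow_succ]
      ring
    have hv2 : v ≠ 0 → 2 ∣ 2 ^ v := fun h => dvd_pow_self 2 h
    rcases Nat.eq_zero_or_pos η with hη0 | hη0
    · -- (E - 2^v, E)
      have hv0 : v = 0 := by
        by_contra hcon
        apply hprim
        have := hv2 hcon
        constructor <;> omega
      right; right; right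
      refine ⟨e, he1, Or.inl ⟨?_, ?_⟩⟩
      · rw [hs1E', hv0, pow_zero]
      · omega
    · have hηodd : η % 2 = 1 := by
        by_contra hcon
        have hv0 : v = 0 := by
          by_contra hcon2
          apply hprim
          have := hv2 hcon2
          constructor <;> omega
        rw [hv0, pow_zero] at hηv
        omega
      set m := (η + 1) / 2 with hm
      have hηm : η + 1 = 2 * m := by omega
      have hs2 : s₂ = 2 ^ e + 2 * m - 1 := by omega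
      have hvE1 : 2 ^ v ≤ 2 ^ (e - 1) := Nat.pow_le_pow_right two_pos (by omega)
      have hE1pos := Nat.two_pow_pos (e - 1)
      rw [hs1E', hs2]
      refine final_arith v e m hve (by omega) (by omega) ?_
      by_contra hcon
      push Not at hcon
      -- the coefficient
      set k := 2 ^ (e - 1) + 2 ^ (Nat.log 2 m + 1) with hk
      have hk2 : 2 * k = 2 ^ e + 2 ^ (Nat.log 2 m + 2) := by
        rw [hk, hE2, pow_succ _ (Nat.log 2 m + 1)]; ring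
      have hkw : 2 * k < s₁ + s₂ := by omega
      have hkE : k < 2 ^ e := by omega
      have hsmall := h6 k hkw (by omega)
      have hD := ((lemD hq ht e he1).1 m (by omega) (by omega))
      have hcoef : (X ^ (2 ^ (e - 1)) * (1 + X) ^ (2 ^ (e - 1) - 1) * th F m : F[X]).coeff k = 1 := by
        rw [th, if_neg (by omega)]
        have e1 : (X ^ (2 ^ (e - 1)) * (1 + X) ^ (2 ^ (e - 1) - 1) *
            (X ^ (2 ^ (Nat.log 2 m + 1)) * (1 + X) ^ (2 * m - 2 ^ (Nat.log 2 m + 1))) : F[X])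
            = X ^ k * ((1 + X) ^ (2 ^ (e - 1) - 1) * (1 + X) ^ (2 * m - 2 ^ (Nat.log 2 m + 1))) := by
          rw [hk, pow_add X]; ring
        rw [e1, coeff_X_pow_mul', if_pos le_rfl, Nat.sub_self, coeff_zero_eq_eval_zero]
        simp
      have hbig := hD.norm_eq hq k (by exact_mod_cast hkE) (by rw [hcoef]; exact one_ne_zero)
      rw [one_pow, mul_one, ← hs2] at hbig
      rw [hbig, norm_inv, norm_inv, norm_pow, norm_pow] at hsmall
      have h7 : ‖br 2 t 1‖ ^ (2 ^ v * (b + 1)) < ‖br 2 t 1‖ ^ m :=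
        (inv_lt_inv₀ (by positivity) (by positivity)).mp hsmall
      have h8 := (pow_lt_pow_iff_right₀ hc1).mp h7
      have h9 : 2 ^ v * (b + 1) = 2 ^ (e - 1) := by
        rw [hbr, ← pow_add]; congr 1; omega
      omega
  · -- (E, E)
    have hs2E : s₂ = 2 ^ e := by omega
    have he0 : e = 0 := by
      by_contra hcon
      apply hprim
      rw [heq, hs2E]
      exact ⟨dvd_pow_self 2 hcon, dvd_pow_self 2 hcon⟩
    left
    rw [heq, hs2E, he0]
    simp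

end fin

end Pool.Agent.R316.Ff
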