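import Pool.Agent.R316.FfK

/-!
Reduction of the rationality of a ratio to a polynomial functional equation.
-/

set_option linter.unusedSectionVars false

open Polynomial Finset Filter Topology

namespace Pool.Agent.R316.Ff

section facts
variable {F : Type*} [Field F] [Fintype F] {L : Type*} [NormedField L] [IsUltrametricDist L]
  [Algebra F L] {q : ℕ} (hq : Fintype.card F = q) {t : L} (ht : 1 < ‖t‖)

include hq ht in
theorem OO_norm : ∀ x ∈ OO F t, x ≠ 0 → 1 ≤ ‖x‖ := by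
  have htK : 1 < ‖tK F t‖ := ht
  rintro x ⟨p, rfl⟩ hx
  have hp : p ≠ 0 := by
    rintro rfl
    exact hx (map_zero _)
  change 1 ≤ ‖aeval (tK F t) p‖
  rw [norm_aeval hq htK p hp]
  exact one_le_pow₀ htK.le

theorem OO_t : tK F t ∈ OO F t := ⟨X, by simp⟩

theorem OO_frac : ∀ x : KK F t, ∃ D ∈ OO F t, D ≠ 0 ∧ D * x ∈ OO F t := by
  rintro ⟨x, hx⟩
  obtain ⟨c, d, hcd⟩ := (IntermediateField.mem_adjoin_simple_iff F _).mp hx
  by_cases hd : aeval t d = 0
  · refine ⟨1, (OO F t).one_mem, one_ne_zero, ?_⟩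
    have hx0 : (⟨x, hx⟩ : KK F t) = 0 := by
      apply Subtype.ext
      change x = 0
      rw [hcd, hd, div_zero]
    rw [hx0, mul_zero]
    exact (OO F t).zero_mem
  · have hco : ∀ p : F[X], ((aeval (tK F t) p : KK F t) : L) = aeval t p := fun p => by
      have := Polynomial.aeval_algebraMap_apply L (tK F t) p
      exact this.symm
    refine ⟨aeval (tK F t) d, ⟨d, rfl⟩, ?_, ⟨c, ?_⟩⟩
    · intro h
      apply hd
      rw [← hco, h]
      rfl
    · apply Subtype.ext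
      change ((aeval (tK F t) c : KK F t) : L) = ((aeval (tK F t) d : KK F t) : L) * x
      rw [hco, hco, hcd]
      field_simp

include hq ht in
theorem Zw_norm (w : ℕ) (hw0 : 0 < w) (Zw : L)
    (hw : Tendsto (fun m => ∑ d ∈ range m, SS F t d w) atTop (𝓝 Zw)) : ‖Zw‖ = 1 := by
  have h5 : Tendsto (fun m => ‖∑ d ∈ range m, SS F t d w‖) atTop (𝓝 ‖Zw‖) := hw.norm
  have h6 : Tendsto (fun m => ‖∑ d ∈ range m, SS F t d w‖) atTop (𝓝 1) := by
    refine tendsto_const_nhds.congr' ?_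
    filter_upwards [eventually_ge_atTop 1] with m hm
    rw [norm_sumS hq ht m _ hm hw0]
  exact tendsto_nhds_unique h5 h6

include hq ht in
/-- the ratio as an element of `F(t)`, and the resulting limit relation in `F(t)`. -/
theorem ratio_data (s₁ s₂ : ℕ) (hs₁ : 0 < s₁) (Zw Z2 : L)
    (hw : Tendsto (fun m => ∑ d ∈ range m, SS F t d (s₁ + s₂)) atTop (𝓝 Zw))
    (h2 : Tendsto (fun m => ∑ d ∈ range m, SS F t d s₁ * ∑ e ∈ range d, SS F t e s₂) atTop (𝓝 Z2))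
    (a b : F[X]) (hr : Z2 / Zw = aeval t a / aeval t b) :
    ∃ r : KK F t, ‖r‖ < 1 ∧ Tendsto (fun m => ∑ d ∈ range m, (SS F (tK F t) d s₁ * (∑ e ∈ range d,
      SS F (tK F t) e s₂) - r * SS F (tK F t) d (s₁ + s₂))) atTop (𝓝 0) := by
  have hZw := Zw_norm hq ht (s₁ + s₂) (by omega) Zw hw
  have hZw0 : Zw ≠ 0 := by
    rw [← norm_ne_zero_iff, hZw]; exact one_ne_zero
  have hZ2 : ‖Z2‖ ≤ ‖t‖⁻¹ := by
    refine le_of_tendsto' h2.norm fun m => ?_
    refine IsUltrametricDist.norm_sum_le_of_forall_le_of_nonneg (by positivity) fun d _ => ?_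
    rcases Nat.eq_zero_or_pos d with hd | hd
    · subst hd
      simp
    · rw [norm_mul]
      calc _ ≤ (‖t‖⁻¹) ^ (d * s₁) * 1 :=
            mul_le_mul (norm_SS_le hq ht d s₁) (norm_sumS_le hq ht d s₂) (norm_nonneg _)
              (by positivity)
        _ = (‖t‖⁻¹) ^ (d * s₁) := mul_one _
        _ ≤ (‖t‖⁻¹) ^ 1 := pow_le_pow_of_le_one (by positivity) (inv_le_one_of_one_le₀ ht.le)
            (Nat.mul_pos hd hs₁)
        _ = _ := pow_one _
  have hmem : aeval t a / aeval t b ∈ KK F t :=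
    IntermediateField.mem_adjoin_simple_iff F _ |>.mpr ⟨a, b, rfl⟩
  set r : KK F t := ⟨aeval t a / aeval t b, hmem⟩ with hrdef
  have hrcoe : algebraMap (KK F t) L r = aeval t a / aeval t b := rfl
  have hZ2r : Z2 = algebraMap (KK F t) L r * Zw := by
    rw [hrcoe, ← hr, div_mul_cancel₀ _ hZw0]
  have hrnorm : ‖r‖ < 1 := by
    have h3 := congrArg norm hZ2r
    rw [norm_mul, hZw, mul_one, norm_algebraMap'] at h3
    rw [← h3]
    exact lt_of_le_of_lt hZ2 (inv_lt_one_of_one_lt₀ ht)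
  refine ⟨r, hrnorm, ?_⟩
  rw [tendsto_zero_iff_norm_tendsto_zero]
  have h3 : Tendsto (fun m => (∑ d ∈ range m, SS F t d s₁ * ∑ e ∈ range d, SS F t e s₂)
      - algebraMap (KK F t) L r * ∑ d ∈ range m, SS F t d (s₁ + s₂)) atTop (𝓝 0) := by
    have := h2.sub (hw.const_mul (algebraMap (KK F t) L r))
    rwa [← hZ2r, sub_self] at this
  rw [tendsto_zero_iff_norm_tendsto_zero] at h3
  refine h3.congr fun m => ?_
  rw [← norm_algebraMap' L (∑ d ∈ range m, (SS F (tK F t) d s₁ * (∑ e ∈ range d,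
    SS F (tK F t) e s₂) - r * SS F (tK F t) d (s₁ + s₂)))]
  congr 1
  rw [map_sum, mul_sum, ← sum_sub_distrib]
  refine sum_congr rfl fun d _ => ?_
  rw [map_sub, map_mul, map_mul, map_sum, coe_SS, coe_SS]
  simp only [coe_SS]

end facts

section absorb
variable {F : Type*} [Field F] [Fintype F] {K : Type*} [NormedField K] [IsUltrametricDist K]
  [Algebra F K] {q : ℕ} (hq : Fintype.card F = q) {t : K} (ht : 1 < ‖t‖)
  (htr : Transcendental F t)

include hq ht htr in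
/-- the polynomial identity behind the telescoping of `S_{<d}(w)` for even `w`. -/
theorem dd_FE (w : ℕ) (hw : 0 < w) (hdvd : (q - 1) ∣ w) :
    expand K q ((dd q t w).comp (Az q t)) = (C t - X ^ q) ^ w * ((dd q t w).comp (Az q t)
      + (hh q t (w - 1)).comp (Az q t)) := by
  have hq1 := q1 hq
  have hl := ell_ne' hq1 ht
  rw [← sub_eq_zero]
  refine poly_zero_of_tendsto hq1 ht _ ?_
  refine tendsto_const_nhds.congr fun n => ?_
  symm
  rw [norm_eq_zero]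
  have h7 : zz q t n ^ q = t ^ (q ^ (n + 1)) := by rw [← zz_succ]; rfl
  simp only [eval_sub, expand_eval, eval_mul, eval_pow, eval_C, eval_X, eval_add]
  rw [← zz_succ, eval_comp, eval_comp, eval_comp, Az_eval _ hq, Az_eval _ hq,
    dd_eval hq htr (n + 1) w hw hdvd, dd_eval hq htr n w hw hdvd, hh_eval hq htr,
    Nat.sub_add_cancel hw, sum_range_succ]
  have h4 : ell q t (n + 1) = ell q t n * (t - t ^ (q ^ (n + 1))) := rfl
  have h8 : zz q t (n + 1) = t ^ (q ^ (n + 1)) := rfl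
  rw [h4, h8, mul_pow]
  ring

include hq ht htr in
/-- the functional equation, when the weight is even. -/
theorem exists_FE {O : Subring K} (hO : ∀ x ∈ O, x ≠ 0 → 1 ≤ ‖x‖) (htO : t ∈ O)
    (hfrac : ∀ x : K, ∃ D ∈ O, D ≠ 0 ∧ D * x ∈ O)
    (s₁ s₂ : ℕ) (hs₁ : 0 < s₁) (hs₂ : 0 < s₂) (hdvd : (q - 1) ∣ s₂) (hdvd' : (q - 1) ∣ s₁ + s₂)
    (r : K)
    (hlim : Tendsto (fun m => ∑ d ∈ range m, (SS F t d s₁ * (∑ e ∈ range d, SS F t e s₂)
        - r * SS F t d (s₁ + s₂))) atTop (𝓝 0)) :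
    ∃ M : K[X], M.comp (X ^ q + C (br q t 1)) = (-X) ^ (s₁ + s₂) * M
      - (hh q t (s₁ - 1) * dd q t s₂).comp (C (-(br q t 1)⁻¹) * X ^ q) := by
  have hq1 := q1 hq
  have hl := ell_ne' hq1 ht
  obtain ⟨C0, hC⟩ := comp_bound ht hq1 (Src q t s₁ s₂ r) (s₁ + s₂) (by omega)
    (Src_deg' hq1 ht s₁ s₂ hs₁ r)
  obtain ⟨p, hp⟩ := bridge hq1 ht hO htO hfrac (s₁ + s₂) ((Src q t s₁ s₂ r).comp (Az q t)) C0 hC (by
    refine hlim.congr fun m => sum_congr rfl fun d _ => ?_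
    rw [Src_eval hq htr s₁ s₂ hs₁ hs₂ hdvd, mul_div_cancel_left₀ _ (pow_ne_zero _ (hl d))])
  have hid := dd_FE hq ht htr (s₁ + s₂) (by omega) hdvd'
  set D := (dd q t (s₁ + s₂)).comp (Az q t) with hD
  have hp' : expand K q (p - C r * D) = (C t - X ^ q) ^ (s₁ + s₂) * ((p - C r * D)
      - (hh q t (s₁ - 1) * dd q t s₂).comp (Az q t)) := by
    rw [map_sub, map_mul, expand_C, hp, hid, Src, sub_comp, mul_comp (C r), C_comp]
    ring
  obtain ⟨M, hM, -⟩ := exists_M hq (s₁ + s₂) (by omega) _ _ hp'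
  exact ⟨M, hM⟩

/-- the functional equation in general. -/
theorem exists_FE' (hq : Fintype.card F = q) (ht : 1 < ‖t‖) (htr : Transcendental F t)
    {O : Subring K} (hO : ∀ x ∈ O, x ≠ 0 → 1 ≤ ‖x‖) (htO : t ∈ O)
    (hfrac : ∀ x : K, ∃ D ∈ O, D ≠ 0 ∧ D * x ∈ O)
    (s₁ s₂ : ℕ) (hs₁ : 0 < s₁) (hs₂ : 0 < s₂) (hdvd : (q - 1) ∣ s₂)
    (r : K)
    (hlim : Tendsto (fun m => ∑ d ∈ range m, (SS F t d s₁ * (∑ e ∈ range d, SS F t e s₂)
        - r * SS F t d (s₁ + s₂))) atTop (𝓝 0)) :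
    ∃ M : K[X], M.comp (X ^ q + C (br q t 1)) = (-X) ^ (s₁ + s₂) * M
      - (Src q t s₁ s₂ r).comp (C (-(br q t 1)⁻¹) * X ^ q) := by
  have hq1 := q1 hq
  have hl := ell_ne' hq1 ht
  obtain ⟨C0, hC⟩ := comp_bound ht hq1 (Src q t s₁ s₂ r) (s₁ + s₂) (by omega)
    (Src_deg' hq1 ht s₁ s₂ hs₁ r)
  obtain ⟨p, hp⟩ := bridge hq1 ht hO htO hfrac (s₁ + s₂) ((Src q t s₁ s₂ r).comp (Az q t)) C0 hC (by
    refine hlim.congr fun m => sum_congr rfl fun d _ => ?_
    rw [Src_eval hq htr s₁ s₂ hs₁ hs₂ hdvd, mul_div_cancel_left₀ _ (pow_ne_zero _ (hl d))])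
  obtain ⟨M, hM, -⟩ := exists_M hq (s₁ + s₂) (by omega) p _ hp
  exact ⟨M, hM⟩

end absorb

end Pool.Agent.R316.Ff
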