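import Pool.Agent.R316.QH
import Pool.Agent.R316.QI
import Pool.Agent.R316.FfM

/-!
The classification for `q = 2` in the field of Laurent series.
-/

set_option linter.unusedSectionVars false

open Polynomial Finset Filter Topology
open scoped LaurentSeries WithZero

namespace Pool.Agent.R316.Ff

theorem abs_class2 {F : Type*} [Field F] [Fintype F] {L : Type*} [NormedField L]
    [IsUltrametricDist L] [Algebra F L] (hq : Fintype.card F = 2) {t : L} (ht : 1 < ‖t‖)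
    (s₁ s₂ : ℕ) (hs₁ : 0 < s₁) (hs₂ : 0 < s₂) (Zw Z2 : L)
    (hw : Tendsto (fun m => ∑ d ∈ range m, SS F t d (s₁ + s₂)) atTop (𝓝 Zw))
    (h2 : Tendsto (fun m => ∑ d ∈ range m, SS F t d s₁ * ∑ e ∈ range d, SS F t e s₂) atTop (𝓝 Z2))
    (a b : F[X]) (hr : Z2 / Zw = aeval t a / aeval t b) (hprim : ¬ (2 ∣ s₁ ∧ 2 ∣ s₂)) :
    L2 s₁ s₂ := by
  obtain ⟨r, -, hlim⟩ := ratio_data hq ht s₁ s₂ hs₁ Zw Z2 hw h2 a b hr
  have htK : 1 < ‖tK F t‖ := ht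
  have htr : Transcendental F (tK F t) := transc hq htK
  obtain ⟨M, hM⟩ := exists_FE hq htK htr (OO_norm hq ht) OO_t OO_frac s₁ s₂ hs₁ hs₂
    (by simp) (by simp) r hlim
  exact class2 hq htK hs₁ hs₂ M hM hprim

theorem laurent_class2 (F : Type*) [Field F] [Fintype F] (hq : Fintype.card F = 2) (s₁ s₂ : ℕ)
    (hs₁ : 0 < s₁) (hs₂ : 0 < s₂) (a b : F[X])
    (h : (∑' p : {p : F[X] × F[X] // p.1.Monic ∧ p.2.Monic ∧ p.2.natDegree < p.1.natDegree},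
        ((aeval (HahnSeries.single (-1) 1 : F⸨X⸩) p.1.1)⁻¹) ^ s₁
          * ((aeval (HahnSeries.single (-1) 1 : F⸨X⸩) p.1.2)⁻¹) ^ s₂)
      / (∑' a : {a : F[X] // a.Monic},
        ((aeval (HahnSeries.single (-1) 1 : F⸨X⸩) a.1)⁻¹) ^ (s₁ + s₂))
      = aeval (HahnSeries.single (-1) 1 : F⸨X⸩) a / aeval (HahnSeries.single (-1) 1 : F⸨X⸩) b)
    (hprim : ¬ (2 ∣ s₁ ∧ 2 ∣ s₂)) :
    L2 s₁ s₂ := by
  let rr := rk F
  let inst : NormedField F⸨X⸩ := Valued.toNormedField F⸨X⸩ ℤᵐ⁰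
  have i1 : IsUltrametricDist F⸨X⸩ := inferInstance
  have i2 : CompleteSpace F⸨X⸩ := inferInstance
  have ht : 1 < ‖(HahnSeries.single (-1) 1 : F⸨X⸩)‖ := by
    rw [Valued.toNormedField.one_lt_norm_iff, LaurentSeries.valuation_single_zpow]
    exact exp_one_gt
  have hw := (zeta_lim (F := F) rfl ht (s₁ + s₂) (by omega)).2
  have h2 := (zeta2_lim (F := F) rfl ht s₁ s₂ hs₁).2
  exact abs_class2 (F := F) hq ht s₁ s₂ hs₁ hs₂ _ _ hw h2 a b h hprim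

end Pool.Agent.R316.Ff
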